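import Pool.Agent.Q219.SAW.Dwn

/-!
# The length of the critical walk in a domain
-/

set_option autoImplicit false

namespace Q219.SAW

open Finset Filter Topology TH966.AK

variable {A : P → P → Prop} {Z : Rule A}

/-- the weight of the length `n` -/
noncomputable def tD (A : P → P → Prop) (D : Set P) (f : List P → ℝ) (μ : ℝ) (n : ℕ) : ℝ :=
  cD A D f n / μ ^ n

theorem smooth_step {μ K : ℝ} (G : Growth Z μ K) (hsh : ∀ U U', Z.T U U' → ∀ x ∈ U, x ∈ U') :
    ∃ (R δ : ℝ) (n1 : ℕ), 0 < R ∧ 0 < δ ∧ ∀ (D : Set P) (f : List P → ℝ), WtD Z D f →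
      ∀ n : ℕ, n1 ≤ n → ∀ Λ : ℝ, Real.log n ^ 2 ≤ Λ → Λ ≤ δ * n →
      |tD A D f μ (n + Z.s) - tD A D f μ n| ≤ R * √(Λ / n) * tD A D f μ n + Real.exp (-Λ) := by
  have hμ := G.hμ
  have hμ0 : 0 < μ := by linarith
  obtain ⟨R1, δ1, n1, hR1, hδ1, h1⟩ := ratio_dom G hsh
  obtain ⟨C, δ2, n2, hC, hδ2, h2⟩ := down_dom G hsh
  have hC0 : 0 < C := by linarith
  refine ⟨R1 * √C, min (δ1 / C) δ2, max n1 n2, by positivity, by positivity, ?_⟩
  intro D f hf n hn Λ hΛ1 hΛ2
  have hΛ0 : 0 ≤ Λ := (sq_nonneg _).trans hΛ1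
  have hn0 : (0 : ℝ) ≤ n := Nat.cast_nonneg n
  have ht0 : ∀ k, 0 ≤ tD A D f μ k := fun k =>
    div_nonneg (cD_nonneg hf.nn _) (by positivity)
  have hcd : ∀ k, cD A D f k = tD A D f μ k * μ ^ k := by
    intro k
    unfold tD
    rw [div_mul_cancel₀ _ (by positivity)]
  have hd1 : Λ ≤ δ1 / C * n := hΛ2.trans (mul_le_mul_of_nonneg_right (min_le_left _ _) hn0)
  have hd2 : Λ ≤ δ2 * n := hΛ2.trans (mul_le_mul_of_nonneg_right (min_le_right _ _) hn0)
  have hCΛ : Λ ≤ C * Λ := by nlinarith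
  by_cases hc : Real.exp (-(C * Λ)) ≤ tD A D f μ n
  · have hpos : 0 < tD A D f μ n := (Real.exp_pos _).trans_le hc
    have h3 := h1 D f hf n ((le_max_left _ _).trans hn) (C * Λ) (hΛ1.trans hCΛ) (by
      calc C * Λ ≤ C * (δ1 / C * n) := mul_le_mul_of_nonneg_left hd1 hC0.le
        _ = δ1 * n := by field_simp) (by
      rw [hcd n]
      exact mul_le_mul_of_nonneg_right hc (by positivity))
    have e : tD A D f μ (n + Z.s) - tD A D f μ n =
        (cD A D f (n + Z.s) / cD A D f n / μ ^ Z.s - 1) * tD A D f μ n := by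
      have h4 : 0 < cD A D f n := by rw [hcd n]; positivity
      unfold tD
      rw [pow_add]
      field_simp
    rw [e, abs_mul, abs_of_pos hpos]
    have h5 : R1 * √(C * Λ / n) = R1 * √C * √(Λ / n) := by
      rw [mul_div_assoc, Real.sqrt_mul hC0.le]
      ring
    rw [h5] at h3
    have h6 := mul_le_mul_of_nonneg_right h3 hpos.le
    have h7 := Real.exp_pos (-Λ)
    linarith
  · rw [not_le] at hc
    have h3 : tD A D f μ (n + Z.s) < Real.exp (-Λ) := by
      by_contra hcon
      rw [not_lt] at hcon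
      have h4 := h2 D f hf n ((le_max_right _ _).trans hn) Λ hΛ1 hd2 (by
        rw [hcd (n + Z.s)]
        exact mul_le_mul_of_nonneg_right hcon (by positivity))
      rw [hcd n] at h4
      have h5 := le_of_mul_le_mul_right h4 (by positivity)
      linarith
    have h4 : tD A D f μ n < Real.exp (-Λ) :=
      hc.trans_le (Real.exp_le_exp.2 (by linarith))
    have h5 : 0 ≤ R1 * √C * √(Λ / n) * tD A D f μ n :=
      mul_nonneg (by positivity) (ht0 n)
    rw [abs_le]
    constructor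
    · have := ht0 (n + Z.s)
      linarith
    · have := ht0 n
      linarith

/-- sums of `1 / k ^ 2` -/
theorem sum_inv_sq (N : ℕ) (hN : 2 ≤ N) (M : ℕ) :
    ∑ k ∈ range M, (1 : ℝ) / ((N + k : ℕ) : ℝ) ^ 2 ≤ (2 : ℝ) / (N : ℝ) := by
  have hN2 : (2 : ℝ) ≤ N := by exact_mod_cast hN
  have key : ∑ k ∈ range M, (1 : ℝ) / ((N + k : ℕ) : ℝ) ^ 2 ≤
      1 / ((N : ℝ) - 1) - 1 / ((N : ℝ) + M - 1) := by
    induction M with
    | zero => simp
    | succ M ih =>
      rw [sum_range_succ]
      have hM : (0 : ℝ) ≤ M := Nat.cast_nonneg M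
      have h1 : 1 / ((N + M : ℕ) : ℝ) ^ 2 ≤ 1 / ((N : ℝ) + M - 1) - 1 / ((N : ℝ) + (M + 1 : ℕ) - 1) := by
        push_cast
        have h2 : (0 : ℝ) < (N : ℝ) + M - 1 := by linarith
        have h3 : (N : ℝ) + (M + 1) - 1 = N + M := by ring
        have h4 : (0 : ℝ) < (N : ℝ) + M := by linarith
        rw [h3, div_sub_div _ _ h2.ne' h4.ne', div_le_div_iff₀ (by positivity) (by positivity)]
        nlinarith
      linarith
  have hM : (0 : ℝ) ≤ M := Nat.cast_nonneg M
  have h1 : 0 ≤ 1 / ((N : ℝ) + M - 1) := by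
    have : (0 : ℝ) < (N : ℝ) + M - 1 := by linarith
    positivity
  have h2 : 1 / ((N : ℝ) - 1) ≤ 2 / N := by
    rw [div_le_div_iff₀ (by linarith) (by linarith)]
    linarith
  linarith

/-- **the law of the length is smooth** -/
theorem smooth {μ K : ℝ} (G : Growth Z μ K) (hsh : ∀ U U', Z.T U U' → ∀ x ∈ U, x ∈ U') :
    ∃ R : ℝ, 0 < R ∧ ∀ (D : Set P) (f : List P → ℝ), WtD Z D f →
      ∀ W : ℝ, 0 < W → (∀ M : ℕ, ∑ k ∈ range M, tD A D f μ k ≤ W) →
      ∀ N : ℕ, 2 ≤ N → ∀ M : ℕ,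
      ∑ k ∈ range M, |tD A D f μ (N + k + Z.s) / W - tD A D f μ (N + k) / W| ≤
        R * √((Real.log N ^ 2 + max 0 (Real.log (1 / W))) / N) := by
  have hμ := G.hμ
  have hμ0 : 0 < μ := by linarith
  obtain ⟨R, δ, n1, hR, hδ, h⟩ := smooth_step G hsh
  have hl2 : 0 < Real.log 2 := Real.log_pos (by norm_num)
  obtain ⟨n2, hn2⟩ : ∃ n2, n2 = max n1 8 := ⟨_, rfl⟩
  have hn28 : 8 ≤ n2 := by rw [hn2]; exact le_max_right _ _
  have hn20 : (0 : ℝ) < n2 := by exact_mod_cast (show 0 < n2 by omega)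
  refine ⟨R * √3 + 2 / Real.log 2 + 2 / √(δ / 3) + 2 * √(n2 : ℝ) / Real.log 2, by positivity, ?_⟩
  intro D f hf W hW hsum N hN M
  obtain ⟨L, hL⟩ : ∃ L, L = max 0 (Real.log (1 / W)) := ⟨_, rfl⟩
  have hL0 : 0 ≤ L := by rw [hL]; exact le_max_left _ _
  have hLW : Real.exp (-L) ≤ W := by
    rw [← Real.exp_log hW]
    refine Real.exp_le_exp.2 ?_
    have h1 : Real.log (1 / W) ≤ L := by rw [hL]; exact le_max_right _ _
    rw [one_div, Real.log_inv] at h1
    linarith
  rw [← hL]
  have hN2 : (2 : ℝ) ≤ N := by exact_mod_cast hN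
  have hN0 : (0 : ℝ) < N := by linarith
  have ht0 : ∀ k, 0 ≤ tD A D f μ k := fun k =>
    div_nonneg (cD_nonneg hf.nn _) (by positivity)
  have hlogN : Real.log 2 ≤ Real.log N := Real.log_le_log (by norm_num) hN2
  have hlogN0 : 0 < Real.log N := by linarith
  obtain ⟨S, hS⟩ : ∃ S, S = √((Real.log N ^ 2 + L) / N) := ⟨_, rfl⟩
  have hS0 : 0 ≤ S := by rw [hS]; exact Real.sqrt_nonneg _
  rw [← hS]
  have hSN : Real.log 2 / √(N : ℝ) ≤ S := by
    rw [hS]
    refine Real.le_sqrt_of_sq_le ?_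
    rw [div_pow, Real.sq_sqrt hN0.le]
    refine div_le_div_of_nonneg_right ?_ hN0.le
    nlinarith
  have hshift : ∀ a : ℕ, ∑ k ∈ range M, tD A D f μ (a + k) ≤ W := by
    intro a
    refine le_trans ?_ (hsum (a + M))
    rw [sum_range_add]
    have : 0 ≤ ∑ x ∈ range a, tD A D f μ x := sum_nonneg fun k _ => ht0 k
    linarith
  have htriv : ∑ k ∈ range M, |tD A D f μ (N + k + Z.s) / W - tD A D f μ (N + k) / W| ≤ 2 := by
    calc _ ≤ ∑ k ∈ range M, (tD A D f μ (N + Z.s + k) / W + tD A D f μ (N + k) / W) := by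
          refine sum_le_sum fun k _ => ?_
          rw [show N + k + Z.s = N + Z.s + k by omega, abs_le]
          have h1 : 0 ≤ tD A D f μ (N + Z.s + k) / W := div_nonneg (ht0 _) hW.le
          have h2 : 0 ≤ tD A D f μ (N + k) / W := div_nonneg (ht0 _) hW.le
          constructor <;> linarith
      _ = (∑ k ∈ range M, tD A D f μ (N + Z.s + k)) / W +
          (∑ k ∈ range M, tD A D f μ (N + k)) / W := by
          rw [sum_add_distrib, sum_div, sum_div]
      _ ≤ 1 + 1 := by
          refine add_le_add ?_ ?_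
          · rw [div_le_one hW]; exact hshift _
          · rw [div_le_one hW]; exact hshift _
      _ = 2 := by norm_num
  by_cases hbig : N < n2
  · -- small `N`
    refine htriv.trans ?_
    have h1 : (2 : ℝ) ≤ 2 * √(n2 : ℝ) / Real.log 2 * S := by
      have h2 : 2 * √(n2 : ℝ) / Real.log 2 * (Real.log 2 / √(N : ℝ)) ≤
          2 * √(n2 : ℝ) / Real.log 2 * S := mul_le_mul_of_nonneg_left hSN (by positivity)
      refine le_trans ?_ h2
      have h3 : √(N : ℝ) ≤ √(n2 : ℝ) := Real.sqrt_le_sqrt (by exact_mod_cast hbig.le)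
      have h4 : 0 < √(N : ℝ) := Real.sqrt_pos.2 hN0
      have e : 2 * √(n2 : ℝ) / Real.log 2 * (Real.log 2 / √(N : ℝ)) =
          2 * (√(n2 : ℝ) / √(N : ℝ)) := by field_simp
      rw [e]
      have h5 : 1 ≤ √(n2 : ℝ) / √(N : ℝ) := by rwa [one_le_div h4]
      linarith
    have h2 : 0 ≤ (R * √3 + 2 / Real.log 2 + 2 / √(δ / 3)) * S := by positivity
    rw [add_mul _ (2 * √(n2 : ℝ) / Real.log 2) S]
    linarith
  rw [not_lt] at hbig
  by_cases hcond : Real.log N ^ 2 + L ≤ δ / 3 * N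
  · -- the main case
    have hN8 : (8 : ℝ) ≤ N := by exact_mod_cast hn28.trans hbig
    have hexp2 : Real.exp 2 ≤ 8 := by
      have h1 := Real.exp_one_lt_d9
      have h2 : Real.exp 2 = Real.exp 1 ^ 2 := by
        rw [← Real.exp_nat_mul]; norm_num
      rw [h2]
      have h3 : Real.exp 1 ^ 2 ≤ 2.7182818286 ^ 2 :=
        pow_le_pow_left₀ (Real.exp_pos 1).le h1.le 2
      refine h3.trans ?_
      norm_num
    have hk : ∀ k : ℕ, |tD A D f μ (N + k + Z.s) / W - tD A D f μ (N + k) / W| ≤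
        R * √3 * S * (tD A D f μ (N + k) / W) + 1 / ((N + k : ℕ) : ℝ) ^ 2 := by
      intro k
      obtain ⟨n, hn⟩ : ∃ n, n = N + k := ⟨_, rfl⟩
      rw [← hn]
      have hnN : (N : ℝ) ≤ n := by exact_mod_cast (show N ≤ n by omega)
      have hn0 : (0 : ℝ) < n := by linarith
      have hlog1 : 1 ≤ Real.log n := by
        rw [Real.le_log_iff_exp_le hn0]
        have := Real.exp_one_lt_d9
        linarith
      obtain ⟨Λ, hΛ⟩ : ∃ Λ, Λ = Real.log n ^ 2 + 2 * Real.log n + L := ⟨_, rfl⟩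
      have hanti : Real.log n / √(n : ℝ) ≤ Real.log N / √(N : ℝ) :=
        Real.log_div_sqrt_antitoneOn (show Real.exp 2 ≤ (N : ℝ) by linarith)
          (show Real.exp 2 ≤ (n : ℝ) by linarith) hnN
      have hanti2 : Real.log n ^ 2 / n ≤ Real.log N ^ 2 / N := by
        have h1 := pow_le_pow_left₀ (div_nonneg (by linarith) (Real.sqrt_nonneg _)) hanti 2
        rw [div_pow, div_pow, Real.sq_sqrt hn0.le, Real.sq_sqrt hN0.le] at h1
        exact h1
      have hΛn : Λ / n ≤ 3 * ((Real.log N ^ 2 + L) / N) := by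
        have h1 : Λ ≤ 3 * Real.log n ^ 2 + L := by rw [hΛ]; nlinarith
        have h2 : L / n ≤ L / N := div_le_div_of_nonneg_left hL0 hN0 hnN
        calc Λ / n ≤ (3 * Real.log n ^ 2 + L) / n := div_le_div_of_nonneg_right h1 hn0.le
          _ = 3 * (Real.log n ^ 2 / n) + L / n := by ring
          _ ≤ 3 * (Real.log N ^ 2 / N) + 3 * (L / N) := by
              have : 0 ≤ L / N := by positivity
              linarith
          _ = _ := by ring
      have hΛδ : Λ ≤ δ * n := by
        rw [← div_le_iff₀ hn0]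
        refine hΛn.trans ?_
        have : (Real.log N ^ 2 + L) / N ≤ δ / 3 := by
          rw [div_le_iff₀ hN0]
          exact hcond
        linarith
      have h1 := h D f hf n (by
        have : n1 ≤ n2 := by rw [hn2]; exact le_max_left _ _
        omega) Λ (by rw [hΛ]; nlinarith) hΛδ
      have h2 : √(Λ / n) ≤ √3 * S := by
        rw [hS, ← Real.sqrt_mul (by norm_num)]
        exact Real.sqrt_le_sqrt hΛn
      have h3 : Real.exp (-Λ) / W ≤ 1 / (n : ℝ) ^ 2 := by
        rw [div_le_iff₀ hW]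
        have e : Real.exp (-Λ) = Real.exp (-(Real.log n ^ 2)) * (1 / (n : ℝ) ^ 2) *
            Real.exp (-L) := by
          have e1 : (1 / (n : ℝ) ^ 2) = Real.exp (-(2 * Real.log n)) := by
            rw [Real.exp_neg, one_div]
            congr 1
            rw [show 2 * Real.log n = ((2 : ℕ) : ℝ) * Real.log n by norm_num,
              Real.exp_nat_mul, Real.exp_log hn0]
          rw [e1, ← Real.exp_add, ← Real.exp_add, hΛ]
          congr 1
          ring
        rw [e]
        have h4 : Real.exp (-(Real.log n ^ 2)) ≤ 1 :=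
          Real.exp_le_one_iff.2 (by have := sq_nonneg (Real.log n); linarith)
        calc Real.exp (-(Real.log n ^ 2)) * (1 / (n : ℝ) ^ 2) * Real.exp (-L) ≤
              1 * (1 / (n : ℝ) ^ 2) * W := by gcongr
          _ = _ := by ring
      rw [← sub_div, abs_div, abs_of_pos hW]
      calc |tD A D f μ (n + Z.s) - tD A D f μ n| / W ≤
            (R * √(Λ / n) * tD A D f μ n + Real.exp (-Λ)) / W :=
            div_le_div_of_nonneg_right h1 hW.le
        _ = R * √(Λ / n) * (tD A D f μ n / W) + Real.exp (-Λ) / W := by ring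
        _ ≤ R * (√3 * S) * (tD A D f μ n / W) + 1 / (n : ℝ) ^ 2 := by
            refine add_le_add ?_ h3
            refine mul_le_mul_of_nonneg_right ?_ (div_nonneg (ht0 _) hW.le)
            exact mul_le_mul_of_nonneg_left h2 hR.le
        _ = _ := by ring
    calc _ ≤ ∑ k ∈ range M, (R * √3 * S * (tD A D f μ (N + k) / W) +
          1 / ((N + k : ℕ) : ℝ) ^ 2) := sum_le_sum fun k _ => hk k
      _ = R * √3 * S * ((∑ k ∈ range M, tD A D f μ (N + k)) / W) +
          ∑ k ∈ range M, 1 / ((N + k : ℕ) : ℝ) ^ 2 := by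
          rw [sum_add_distrib, ← mul_sum, sum_div]
      _ ≤ R * √3 * S * 1 + 2 / N := by
          refine add_le_add ?_ (sum_inv_sq N hN M)
          refine mul_le_mul_of_nonneg_left ?_ (by positivity)
          rw [div_le_one hW]
          exact hshift N
      _ ≤ R * √3 * S + 2 / Real.log 2 * S := by
          rw [mul_one]
          refine add_le_add le_rfl ?_
          have h1 : 2 / (N : ℝ) ≤ 2 / √(N : ℝ) := by
            refine div_le_div_of_nonneg_left (by norm_num) (Real.sqrt_pos.2 hN0) ?_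
            rw [Real.sqrt_le_left hN0.le]
            nlinarith
          have h2 : 2 / √(N : ℝ) = 2 / Real.log 2 * (Real.log 2 / √(N : ℝ)) := by
            field_simp
          rw [h2] at h1
          exact h1.trans (mul_le_mul_of_nonneg_left hSN (by positivity))
      _ ≤ _ := by
          have h2 : 0 ≤ (2 / √(δ / 3) + 2 * √(n2 : ℝ) / Real.log 2) * S := by positivity
          linarith
  · -- large weight
    rw [not_le] at hcond
    refine htriv.trans ?_
    have h1 : √(δ / 3) ≤ S := by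
      rw [hS]
      refine Real.sqrt_le_sqrt ?_
      rw [le_div_iff₀ hN0]
      exact hcond.le
    have h2 : (2 : ℝ) ≤ 2 / √(δ / 3) * S := by
      have h3 : 0 < √(δ / 3) := Real.sqrt_pos.2 (by positivity)
      rw [div_mul_eq_mul_div, le_div_iff₀ h3]
      linarith
    have h3 : 0 ≤ (R * √3 + 2 / Real.log 2 + 2 * √(n2 : ℝ) / Real.log 2) * S := by positivity
    linarith

end Q219.SAW
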