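import Pool.Agent.Q219.SAW.WinF

/-!
# Conditional moments
-/

set_option autoImplicit false

namespace Q219.SAW

open Finset Filter Topology TH966.AK

variable {A : P → P → Prop} {Z : Rule A}

theorem mnF_mul (D : Set P) {a m : ℕ}
    (H : Set ((Fin (a + 1) → ℤ × ℤ) × (Fin (m + 1) → ℤ × ℤ))) (n : ℕ)
    (hfin : (WK A D H n).Finite) (c : ℝ)
    (G : (Fin (a + 1) → ℤ × ℤ) × (Fin (m + 1) → ℤ × ℤ) → ℝ) :
    mnF A D H n (fun o => c * G o) = c * mnF A D H n G := by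
  have e : ∀ G : (Fin (a + 1) → ℤ × ℤ) × (Fin (m + 1) → ℤ × ℤ) → ℝ,
      ∑ᶠ ω ∈ WK A D H n, G (outerF a m ω) =
      ∑ ω ∈ hfin.toFinset, G (outerF a m ω) := fun G => finsum_mem_eq_finite_toFinset_sum _ hfin
  unfold mnF
  rw [e (fun o => c * G o), e G, ← mul_sum, mul_div_assoc]

/-- a lower bound for the conditional mean -/
theorem one_le_mnF (D : Set P) {a m : ℕ}
    (H : Set ((Fin (a + 1) → ℤ × ℤ) × (Fin (m + 1) → ℤ × ℤ))) (n : ℕ)
    (hfin : (WK A D H n).Finite) (hpos : 0 < (WK A D H n).ncard)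
    (G : (Fin (a + 1) → ℤ × ℤ) × (Fin (m + 1) → ℤ × ℤ) → ℝ)
    (hG : ∀ ω ∈ WK A D H n, 1 ≤ G (outerF a m ω)) : 1 ≤ mnF A D H n G := by
  have e : ∑ᶠ ω ∈ WK A D H n, G (outerF a m ω) =
      ∑ ω ∈ hfin.toFinset, G (outerF a m ω) := finsum_mem_eq_finite_toFinset_sum _ hfin
  unfold mnF
  rw [e]
  have h0 : (0 : ℝ) < ((WK A D H n).ncard : ℝ) := by exact_mod_cast hpos
  rw [le_div_iff₀ h0, one_mul, Set.ncard_eq_toFinset_card _ hfin, ← nsmul_one, ← sum_const]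
  exact sum_le_sum fun ω hω => hG ω ((Set.Finite.mem_toFinset _).1 hω)

/-- the ratio of the conditional means -/
theorem mom_window {μ K : ℝ} (Gr : Growth Z μ K) (hsh : ∀ U U', Z.T U U' → ∀ x ∈ U, x ∈ U')
    (hA : ∀ p q t : P, A (p + t) (q + t) ↔ A p q) :
    ∃ R δ : ℝ, 0 < R ∧ 0 < δ ∧ ∀ (a L m : ℕ) (D : Set P)
    (H : Set ((Fin (a + 1) → ℤ × ℤ) × (Fin (m + 1) → ℤ × ℤ))),
    2 ≤ a + L + m → 0 < prF A D H (a + L + m) →
    Real.log (a + L + m : ℕ) ^ 2 + Real.log (1 / prF A D H (a + L + m)) ≤ δ * L →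
    ∀ (f : (Fin (a + 1) → ℤ × ℤ) × (Fin (m + 1) → ℤ × ℤ) → ℝ) (B : ℝ), 0 < B →
    (∀ o, 0 ≤ f o) → (∀ o, f o ≤ B) → 1 ≤ mnF A D H (a + L + m) f →
    |mnF A D H (a + L + m + Z.s) f / mnF A D H (a + L + m) f - 1| ≤
      R * √((Real.log (a + L + m : ℕ) ^ 2 + Real.log (1 / prF A D H (a + L + m))) / L) +
      B * Real.exp (-(Real.log (a + L + m : ℕ) ^ 2)) := by
  obtain ⟨R, δ, hR, hδ, h⟩ := window_fn Gr hsh hA
  refine ⟨R, δ, hR, hδ, ?_⟩
  intro a L m D H hN hp hΛ f B hB hf0 hfB hm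
  obtain ⟨N, hNd⟩ : ∃ N, N = a + L + m := ⟨_, rfl⟩
  obtain ⟨-, -, -, h4⟩ := h a L m D H hN hp hΛ
  rw [← hNd] at hN hp hΛ hm h4 ⊢
  have hμ := Gr.hμ
  have hμ0 : 0 < μ := by linarith
  have hp1 : prF A D H N ≤ 1 := by
    unfold prF
    refine div_le_one_of_le₀ ?_ (Nat.cast_nonneg _)
    exact_mod_cast Set.ncard_le_ncard (show WK A D H _ ⊆ FW A _ from fun _ h => h.1)
      (FW_finite (Z := Z) _)
  have h5 := h4 (fun o => B⁻¹ * f o) (fun o => mul_nonneg (inv_nonneg.2 hB.le) (hf0 o))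
    (fun o => by rw [inv_mul_le_iff₀ hB, mul_one]; exact hfB o)
  rw [mnF_mul (A := A) D H _ (WK_finite (Z := Z) D H _),
    mnF_mul (A := A) D H _ (WK_finite (Z := Z) D H _)] at h5
  obtain ⟨M, hM⟩ : ∃ M, M = mnF A D H N f := ⟨_, rfl⟩
  obtain ⟨M', hM'⟩ : ∃ M', M' = mnF A D H (N + Z.s) f := ⟨_, rfl⟩
  obtain ⟨ε, hε⟩ : ∃ ε, ε = R * √((Real.log (N : ℕ) ^ 2 + Real.log (1 / prF A D H N)) / L) :=
    ⟨_, rfl⟩
  rw [← hM, ← hM', ← hε] at h5
  rw [← hM] at hm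
  rw [← hM, ← hM', ← hε]
  have hM0 : 0 < M := by linarith
  have e1 : M' / M - 1 = (B⁻¹ * M' - B⁻¹ * M) * (B / M) := by
    field_simp
  rw [e1, abs_mul, abs_of_pos (show 0 < B / M by positivity)]
  have hE := Real.exp_pos (-(Real.log (N : ℕ) ^ 2))
  calc |B⁻¹ * M' - B⁻¹ * M| * (B / M) ≤
        (ε * (B⁻¹ * M) + prF A D H N * Real.exp (-(Real.log (N : ℕ) ^ 2))) * (B / M) :=
        mul_le_mul_of_nonneg_right h5 (by positivity)
    _ = ε + prF A D H N * (Real.exp (-(Real.log (N : ℕ) ^ 2)) * B) * (1 / M) := by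
        field_simp
    _ ≤ ε + 1 * (Real.exp (-(Real.log (N : ℕ) ^ 2)) * B) * 1 := by
        have h6 : 1 / M ≤ 1 := by rw [div_le_one hM0]; exact hm
        gcongr
    _ = ε + B * Real.exp (-(Real.log (N : ℕ) ^ 2)) := by ring

/-- the error term is negligible -/
theorem tiny {q s : ℝ} (hq : 0 ≤ q) (hs : 0 ≤ s) : ∃ C : ℝ, 0 < C ∧ ∀ (N : ℕ) (L Λ : ℝ), 2 ≤ N →
    0 < L → L ≤ N → Real.log N ^ 2 ≤ Λ →
    ((N : ℝ) + s) ^ q * Real.exp (-(Real.log N ^ 2)) ≤ C * √(Λ / L) := by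
  have hl2 : 0 < Real.log 2 := Real.log_pos (by norm_num)
  have hC : 0 < (1 + s) ^ q * Real.exp ((q + 1 / 2) ^ 2 / 4) / Real.log 2 := by
    have : 0 < (1 + s) ^ q := Real.rpow_pos_of_pos (by linarith) _
    positivity
  refine ⟨(1 + s) ^ q * Real.exp ((q + 1 / 2) ^ 2 / 4) / Real.log 2, hC, ?_⟩
  intro N L Λ hN hL0 hL hΛ
  have hN2 : (2 : ℝ) ≤ N := by exact_mod_cast hN
  have hN0 : (0 : ℝ) < N := by linarith
  obtain ⟨x, hx⟩ : ∃ x, x = Real.log N := ⟨_, rfl⟩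
  have hx2 : Real.log 2 ≤ x := by rw [hx]; exact Real.log_le_log (by norm_num) hN2
  have hx0 : 0 < x := by linarith
  have hs0 : 0 < √(N : ℝ) := Real.sqrt_pos.2 hN0
  have h1 : Real.log 2 / √(N : ℝ) ≤ √(Λ / L) := by
    refine Real.le_sqrt_of_sq_le ?_
    rw [div_pow, Real.sq_sqrt hN0.le]
    refine div_le_div₀ ((sq_nonneg _).trans hΛ) ?_ hL0 hL
    refine le_trans ?_ hΛ
    rw [← hx]
    exact pow_le_pow_left₀ hl2.le hx2 2
  have h2 : √(N : ℝ) ≤ Real.exp (x / 2) := by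
    rw [Real.sqrt_le_left (Real.exp_pos _).le, ← Real.exp_nat_mul]
    have : ((2 : ℕ) : ℝ) * (x / 2) = x := by push_cast; ring
    rw [this, hx, Real.exp_log hN0]
  have h3 : ((N : ℝ) + s) ^ q ≤ (1 + s) ^ q * Real.exp (q * x) := by
    have e : Real.exp (q * x) = (N : ℝ) ^ q := by
      rw [Real.rpow_def_of_pos hN0, ← hx, mul_comm]
    rw [e, ← Real.mul_rpow (by linarith) hN0.le]
    refine Real.rpow_le_rpow (by linarith) ?_ hq
    nlinarith
  have hs1 : 0 < (1 + s) ^ q := Real.rpow_pos_of_pos (by linarith) _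
  have h4 : ((N : ℝ) + s) ^ q * Real.exp (-(x ^ 2)) * √(N : ℝ) ≤
      (1 + s) ^ q * Real.exp ((q + 1 / 2) ^ 2 / 4) := by
    calc ((N : ℝ) + s) ^ q * Real.exp (-(x ^ 2)) * √(N : ℝ) ≤
          (1 + s) ^ q * Real.exp (q * x) * Real.exp (-(x ^ 2)) * Real.exp (x / 2) := by
          gcongr
      _ = (1 + s) ^ q * Real.exp (q * x + -(x ^ 2) + x / 2) := by
          rw [Real.exp_add, Real.exp_add]; ring
      _ ≤ (1 + s) ^ q * Real.exp ((q + 1 / 2) ^ 2 / 4) := by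
          refine mul_le_mul_of_nonneg_left (Real.exp_le_exp.2 ?_) hs1.le
          nlinarith [sq_nonneg (x - (q + 1 / 2) / 2)]
  rw [← hx]
  calc ((N : ℝ) + s) ^ q * Real.exp (-(x ^ 2)) ≤
        (1 + s) ^ q * Real.exp ((q + 1 / 2) ^ 2 / 4) / √(N : ℝ) := by
        rw [le_div_iff₀ hs0]
        exact h4
    _ = (1 + s) ^ q * Real.exp ((q + 1 / 2) ^ 2 / 4) / Real.log 2 * (Real.log 2 / √(N : ℝ)) := by
        field_simp
    _ ≤ _ := mul_le_mul_of_nonneg_left h1 hC.le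

/-- the ratio of the moments of order `q` of a functional of linear growth -/
theorem mom_pow {μ K : ℝ} (Gr : Growth Z μ K) (hsh : ∀ U U', Z.T U U' → ∀ x ∈ U, x ∈ U')
    (hA : ∀ p q t : P, A (p + t) (q + t) ↔ A p q) {c : ℝ} (hc : 0 < c) :
    ∃ δ : ℝ, 0 < δ ∧ ∀ q : ℝ, 0 ≤ q → ∃ R : ℝ, 0 < R ∧
    ∀ (a L m : ℕ) (D : Set P)
    (H : Set ((Fin (a + 1) → ℤ × ℤ) × (Fin (m + 1) → ℤ × ℤ))),
    2 ≤ a + L + m → 0 < prF A D H (a + L + m) →
    Real.log (a + L + m : ℕ) ^ 2 + Real.log (1 / prF A D H (a + L + m)) ≤ δ * L →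
    ∀ (f : (Fin (a + 1) → ℤ × ℤ) × (Fin (m + 1) → ℤ × ℤ) → ℝ),
    (∀ n, n = a + L + m ∨ n = a + L + m + Z.s → ∀ ω ∈ WK A D H n,
      1 ≤ f (outerF a m ω) ∧ f (outerF a m ω) ≤ c * n) →
    0 < mnF A D H (a + L + m) (fun o => f o ^ q) ∧
    |mnF A D H (a + L + m + Z.s) (fun o => f o ^ q) /
      mnF A D H (a + L + m) (fun o => f o ^ q) - 1| ≤
      R * √((Real.log (a + L + m : ℕ) ^ 2 + Real.log (1 / prF A D H (a + L + m))) / L) := by
  obtain ⟨R, δ, hR, hδ, h⟩ := mom_window Gr hsh hA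
  have hμ := Gr.hμ
  have hμ0 : 0 < μ := by linarith
  have hcard : ∀ k, (0 : ℝ) < (Kw A k).card := fun k =>
    lt_of_lt_of_le (pow_pos hμ0 k) (Gr.low k)
  refine ⟨δ, hδ, fun q hq => ?_⟩
  obtain ⟨C, hC, ht⟩ := tiny (s := (Z.s : ℝ)) hq (Nat.cast_nonneg _)
  have hcq : 0 < c ^ q := Real.rpow_pos_of_pos hc _
  refine ⟨R + c ^ q * C, by positivity, ?_⟩
  intro a L m D H hN hp hΛ f hf
  obtain ⟨N, hNd⟩ : ∃ N, N = a + L + m := ⟨_, rfl⟩
  have h5 := h a L m D H hN hp hΛ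
  rw [← hNd] at hN hp hΛ hf h5 ⊢
  have hN2 : (2 : ℝ) ≤ N := by exact_mod_cast hN
  have hs0 : (0 : ℝ) ≤ (Z.s : ℝ) := Nat.cast_nonneg _
  obtain ⟨B, hB⟩ : ∃ B : ℝ, B = (c * (N + Z.s)) ^ q := ⟨_, rfl⟩
  have hB0 : 0 < B := by rw [hB]; exact Real.rpow_pos_of_pos (by positivity) _
  have hag : ∀ n, n = N ∨ n = N + Z.s →
      mnF A D H n (fun o => f o ^ q) = mnF A D H n (fun o => max 0 (min (f o ^ q) B)) := by
    intro n hn
    unfold mnF
    congr 1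
    refine finsum_mem_congr rfl fun ω hω => ?_
    obtain ⟨h1, h2⟩ := hf n hn ω hω
    have h3 : f (outerF a m ω) ^ q ≤ B := by
      rw [hB]
      refine Real.rpow_le_rpow (by linarith) (h2.trans ?_) hq
      refine mul_le_mul_of_nonneg_left ?_ hc.le
      rcases hn with rfl | rfl
      · linarith
      · push_cast; exact le_rfl
    have h4 : 0 ≤ f (outerF a m ω) ^ q := Real.rpow_nonneg (by linarith) _
    show f (outerF a m ω) ^ q = max 0 (min (f (outerF a m ω) ^ q) B)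
    rw [min_eq_left h3, max_eq_right h4]
  have hpos : 0 < (WK A D H N).ncard := by
    by_contra hcon
    have : (WK A D H N).ncard = 0 := by omega
    unfold prF at hp
    rw [this, Nat.cast_zero, zero_div] at hp
    exact lt_irrefl _ hp
  have hone : 1 ≤ mnF A D H N (fun o => max 0 (min (f o ^ q) B)) := by
    refine one_le_mnF D H N (WK_finite (Z := Z) D H _) hpos _ fun ω hω => ?_
    obtain ⟨h1, h2⟩ := hf N (Or.inl rfl) ω hω
    refine le_max_of_le_right (le_min ?_ ?_)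
    · exact Real.one_le_rpow h1 hq
    · rw [hB]
      refine Real.one_le_rpow (h1.trans (h2.trans ?_)) hq
      refine mul_le_mul_of_nonneg_left ?_ hc.le
      linarith
  rw [hag N (Or.inl rfl), hag (N + Z.s) (Or.inr rfl)]
  refine ⟨by linarith, ?_⟩
  refine (h5 (fun o => max 0 (min (f o ^ q) B)) B hB0 (fun o => le_max_left _ _)
    (fun o => max_le hB0.le (min_le_right _ _)) hone).trans ?_
  have hL0 : (0 : ℝ) < L := by
    rcases Nat.eq_zero_or_pos L with h0 | h0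
    · exfalso
      have h1 : Real.log 2 ≤ Real.log (N : ℕ) :=
        Real.log_le_log (by norm_num) hN2
      have h2 : 0 < Real.log 2 := Real.log_pos (by norm_num)
      have h3 : 0 < Real.log (N : ℕ) ^ 2 := by
        have : 0 < Real.log (N : ℕ) := by linarith
        positivity
      have hp1 : prF A D H N ≤ 1 := by
        unfold prF
        refine div_le_one_of_le₀ ?_ (Nat.cast_nonneg _)
        exact_mod_cast Set.ncard_le_ncard (show WK A D H _ ⊆ FW A _ from fun _ h => h.1)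
          (FW_finite (Z := Z) _)
      have h4 : 0 ≤ Real.log (1 / prF A D H N) :=
        Real.log_nonneg (by rw [le_div_iff₀ hp]; linarith)
      rw [h0, Nat.cast_zero, mul_zero] at hΛ
      linarith
    · exact_mod_cast h0
  have hp1 : prF A D H N ≤ 1 := by
    unfold prF
    refine div_le_one_of_le₀ ?_ (Nat.cast_nonneg _)
    exact_mod_cast Set.ncard_le_ncard (show WK A D H _ ⊆ FW A _ from fun _ h => h.1)
      (FW_finite (Z := Z) _)
  have h4 : 0 ≤ Real.log (1 / prF A D H N) :=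
    Real.log_nonneg (by rw [le_div_iff₀ hp]; linarith)
  have h6 := ht N L (Real.log (N : ℕ) ^ 2 + Real.log (1 / prF A D H N)) hN hL0 (by
    exact_mod_cast (show L ≤ N by omega)) (by linarith)
  have h7 : B * Real.exp (-(Real.log (N : ℕ) ^ 2)) ≤ c ^ q * (C *
      √((Real.log (N : ℕ) ^ 2 + Real.log (1 / prF A D H N)) / L)) := by
    rw [hB, Real.mul_rpow hc.le (by positivity), mul_assoc]
    exact mul_le_mul_of_nonneg_left h6 hcq.le
  rw [add_mul]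
  linarith

end Q219.SAW
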