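import Pool.Agent.Q219.SAW.Cnt

/-!
# The ratio theorem in domains, for all lengths
-/

set_option autoImplicit false

namespace Q219.SAW

open Finset Filter Topology TH966.AK
open scoped Classical

variable {A : P → P → Prop} {Z : Rule A}

theorem cD_one (n : ℕ) : cD A Set.univ (fun _ => 1) n = (Kw A n).card := by
  unfold cD KD
  rw [sum_const, nsmul_one]
  congr 2
  rw [filter_eq_self]
  intro w _ x _
  exact Set.mem_univ x

theorem wtD_one (D : Set P) : WtD Z D (fun _ => 1) :=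
  ⟨fun _ => zero_le_one, fun _ => le_rfl, fun _ _ _ _ _ _ _ _ => rfl⟩

/-- the ratio theorem in domains, for all lengths -/
theorem ratio_all {μ K : ℝ} (G : Growth Z μ K) (hsh : ∀ U U', Z.T U U' → ∀ x ∈ U, x ∈ U') :
    ∃ (R δ : ℝ), 0 < R ∧ 0 < δ ∧ ∀ (D : Set P) (f : List P → ℝ), WtD Z D f →
      ∀ n : ℕ, 2 ≤ n → Real.exp (-(δ * n)) ≤ cD A D f n / (Kw A n).card →
      |cD A D f (n + Z.s) / cD A D f n / μ ^ Z.s - 1| ≤
        R * √((Real.log n ^ 2 + Real.log (1 / (cD A D f n / (Kw A n).card))) / n) ∧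
      |cD A D f (n + Z.s) / (Kw A (n + Z.s)).card / (cD A D f n / (Kw A n).card) - 1| ≤
        R * √((Real.log n ^ 2 + Real.log (1 / (cD A D f n / (Kw A n).card))) / n) := by
  have hμ := G.hμ
  have hμ0 : 0 < μ := by linarith
  have hs := G.hs
  obtain ⟨R, δ, n1, hR, hδ, h⟩ := ratio_dom G hsh
  obtain ⟨δ', hδ'⟩ : ∃ δ', δ' = min (δ / 2) (1 / (8 * R ^ 2)) := ⟨_, rfl⟩
  have hδ'0 : 0 < δ' := by rw [hδ']; exact lt_min (by positivity) (by positivity)
  have hδ1 : δ' ≤ δ / 2 := by rw [hδ']; exact min_le_left _ _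
  have hδ2 : δ' ≤ 1 / (8 * R ^ 2) := by rw [hδ']; exact min_le_right _ _
  have t1 : ∀ᶠ n : ℕ in atTop, Real.log n ^ 2 ≤ δ' * n := by
    have h1 := (log_sq_tendsto.pow 2)
    rw [zero_pow two_ne_zero] at h1
    filter_upwards [h1.eventually (gt_mem_nhds hδ'0), eventually_ge_atTop 1] with n hn hn1
    have hn0 : (0 : ℝ) < n := by exact_mod_cast hn1
    rw [div_pow, Real.sq_sqrt hn0.le, div_lt_iff₀ hn0] at hn
    exact hn.le
  obtain ⟨N, hN⟩ := eventually_atTop.1 (t1.and (eventually_ge_atTop (n1 + 2)))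
  obtain ⟨B, hB⟩ : ∃ B : ℝ, B = Real.exp (δ' * N) *
    (1 + ∑ i ∈ range (N + Z.s), ((Kw A i).card : ℝ)) := ⟨_, rfl⟩
  have hsum : 0 ≤ ∑ i ∈ range (N + Z.s), ((Kw A i).card : ℝ) :=
    sum_nonneg fun _ _ => Nat.cast_nonneg _
  have hB0 : 0 < B := by rw [hB]; positivity
  have hl2 : 0 < Real.log 2 := Real.log_pos (by norm_num)
  refine ⟨4 * R + (1 + B) * (√(N : ℝ) / Real.log 2), δ', by positivity, hδ'0, ?_⟩
  intro D f hf n hn2 hp
  have hn2' : (2 : ℝ) ≤ n := by exact_mod_cast hn2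
  have hn0 : (0 : ℝ) < n := by linarith
  have hcard : ∀ m, (0 : ℝ) < (Kw A m).card := fun m =>
    lt_of_lt_of_le (pow_pos hμ0 m) (G.low m)
  have hcard1 : ∀ m, (1 : ℝ) ≤ (Kw A m).card := fun m => (one_le_pow₀ hμ).trans (G.low m)
  obtain ⟨p, hpd⟩ : ∃ p : ℝ, p = cD A D f n / (Kw A n).card := ⟨_, rfl⟩
  rw [← hpd] at hp ⊢
  have hp0 : 0 < p := (Real.exp_pos _).trans_le hp
  have hcp : cD A D f n = p * (Kw A n).card := by
    rw [hpd, div_mul_cancel₀ _ (hcard n).ne']
  have hp1 : p ≤ 1 := by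
    rw [hpd, div_le_one (hcard n)]
    exact cD_le hf.le n
  have hc0 : 0 < cD A D f n := by rw [hcp]; exact mul_pos hp0 (hcard n)
  have hlp : 0 ≤ Real.log (1 / p) := Real.log_nonneg (by rw [le_div_iff₀ hp0]; linarith)
  have hlp2 : Real.log (1 / p) ≤ δ' * n := by
    rw [one_div, Real.log_inv]
    have h1 := Real.log_le_log (Real.exp_pos _) hp
    rw [Real.log_exp] at h1
    linarith
  obtain ⟨Λ, hΛ⟩ : ∃ Λ : ℝ, Λ = Real.log n ^ 2 + Real.log (1 / p) := ⟨_, rfl⟩
  rw [← hΛ]
  have hln : Real.log 2 ≤ Real.log n := Real.log_le_log (by norm_num) hn2'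
  have hln0 : 0 < Real.log n := by linarith
  have hΛ0 : 0 < Λ := by rw [hΛ]; positivity
  rcases le_or_gt N n with hNn | hNn
  · obtain ⟨e1, e2⟩ := hN n hNn
    have hΛδ : Λ ≤ δ * n := by
      rw [hΛ]
      have := mul_le_mul_of_nonneg_right hδ1 hn0.le
      linarith
    have g1 := h D f hf n (by omega) Λ (by rw [hΛ]; linarith) hΛδ (by
      rw [hcp]
      refine mul_le_mul ?_ (G.low n) (by positivity) hp0.le
      have : Real.exp (-Λ) ≤ Real.exp (-Real.log (1 / p)) := by
        refine Real.exp_le_exp.2 ?_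
        rw [hΛ]
        have h0 := sq_nonneg (Real.log n)
        linarith
      refine this.trans (le_of_eq ?_)
      rw [one_div, Real.log_inv, neg_neg, Real.exp_log hp0])
    have g2 := h Set.univ (fun _ => 1) (wtD_one _) n (by omega) Λ (by rw [hΛ]; linarith) hΛδ (by
      rw [cD_one]
      refine le_trans (mul_le_of_le_one_left (by positivity) ?_) (G.low n)
      rw [Real.exp_le_one_iff]
      linarith)
    rw [cD_one, cD_one] at g2
    have hhalf : R * √(Λ / n) ≤ 1 / 2 := by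
      have h1 : Λ / n ≤ (1 / (2 * R)) ^ 2 := by
        rw [div_le_iff₀ hn0, hΛ]
        have h3 := mul_le_mul_of_nonneg_right hδ2 hn0.le
        have h4 : (1 / (2 * R)) ^ 2 * n = 1 / (8 * R ^ 2) * n + 1 / (8 * R ^ 2) * n := by
          field_simp
          norm_num
        rw [h4]
        linarith
      have h2 : √(Λ / n) ≤ 1 / (2 * R) := by
        rw [Real.sqrt_le_left (by positivity)]
        exact h1
      calc R * √(Λ / n) ≤ R * (1 / (2 * R)) := mul_le_mul_of_nonneg_left h2 hR.le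
        _ = 1 / 2 := by field_simp
    have hx : 0 ≤ √(Λ / n) := Real.sqrt_nonneg _
    have hR4 : R * √(Λ / n) ≤ (4 * R + (1 + B) * (√(N : ℝ) / Real.log 2)) * √(Λ / n) := by
      refine mul_le_mul_of_nonneg_right ?_ hx
      have : 0 ≤ (1 + B) * (√(N : ℝ) / Real.log 2) := by positivity
      linarith
    refine ⟨g1.trans hR4, ?_⟩
    have g3 := ratio_aux hc0 (hcard n) (pow_pos hμ0 Z.s) g1 g2 hhalf
    rw [← hpd] at g3
    refine g3.trans ?_
    have : 0 ≤ (1 + B) * (√(N : ℝ) / Real.log 2) * √(Λ / n) := by positivity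
    calc 4 * (R * √(Λ / n)) ≤ 4 * (R * √(Λ / n)) +
          (1 + B) * (√(N : ℝ) / Real.log 2) * √(Λ / n) := by linarith
      _ = _ := by ring
  · -- small lengths
    have hnN : (n : ℝ) ≤ N := by exact_mod_cast hNn.le
    have hN0 : (0 : ℝ) < N := by linarith
    have hexp : 1 / p ≤ Real.exp (δ' * N) := by
      rw [div_le_iff₀ hp0]
      have h1 : Real.exp (δ' * N) * Real.exp (-(δ' * n)) ≤ Real.exp (δ' * N) * p :=
        mul_le_mul_of_nonneg_left hp (Real.exp_pos _).le
      refine le_trans ?_ h1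
      rw [← Real.exp_add, ← Real.exp_zero]
      refine Real.exp_le_exp.2 ?_
      have := mul_le_mul_of_nonneg_left hnN hδ'0.le
      linarith
    have hcs : ((Kw A (n + Z.s)).card : ℝ) ≤ ∑ i ∈ range (N + Z.s), ((Kw A i).card : ℝ) :=
      single_le_sum (f := fun i => ((Kw A i).card : ℝ)) (fun _ _ => Nat.cast_nonneg _)
        (mem_range.2 (by omega))
    have hlow : 1 ≤ (√(N : ℝ) / Real.log 2) * √(Λ / n) := by
      have h1 : Real.log 2 / √(N : ℝ) ≤ √(Λ / n) := by
        refine Real.le_sqrt_of_sq_le ?_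
        rw [div_pow, Real.sq_sqrt hN0.le]
        refine div_le_div₀ hΛ0.le ?_ hn0 hnN
        have := pow_le_pow_left₀ hl2.le hln 2
        rw [hΛ]
        linarith
      have h2 : (√(N : ℝ) / Real.log 2) * (Real.log 2 / √(N : ℝ)) = 1 := by
        have : 0 < √(N : ℝ) := Real.sqrt_pos.2 hN0
        field_simp
      rw [← h2]
      exact mul_le_mul_of_nonneg_left h1 (by positivity)
    have hfin : 1 + B ≤ (4 * R + (1 + B) * (√(N : ℝ) / Real.log 2)) * √(Λ / n) := by
      have h1 : 0 ≤ 4 * R * √(Λ / n) := by positivity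
      have h2 : (1 + B) * 1 ≤ (1 + B) * ((√(N : ℝ) / Real.log 2) * √(Λ / n)) :=
        mul_le_mul_of_nonneg_left hlow (by positivity)
      rw [add_mul, mul_assoc (1 + B)]
      linarith
    have habs : ∀ x : ℝ, 0 ≤ x → x ≤ B → |x - 1| ≤ 1 + B := by
      intro x h0 h1
      rw [abs_le]
      constructor <;> linarith
    have hpm : 1 ≤ μ ^ Z.s := one_le_pow₀ hμ
    have hf1 : cD A D f (n + Z.s) ≤ (Kw A (n + Z.s)).card := cD_le hf.le _
    have hf0 : 0 ≤ cD A D f (n + Z.s) := cD_nonneg hf.nn _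
    have hinv : 1 / cD A D f n ≤ Real.exp (δ' * N) := by
      refine le_trans ?_ hexp
      rw [hcp]
      refine one_div_le_one_div_of_le hp0 ?_
      exact le_mul_of_one_le_right hp0.le (hcard1 n)
    constructor
    · refine (habs _ (div_nonneg (div_nonneg hf0 hc0.le) (by positivity)) ?_).trans hfin
      refine (div_le_self (div_nonneg hf0 hc0.le) hpm).trans ?_
      rw [div_eq_mul_one_div, hB, mul_comm]
      refine mul_le_mul hinv ?_ hf0 (Real.exp_pos _).le
      linarith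
    · refine (habs _ ?_ ?_).trans hfin
      · exact div_nonneg (div_nonneg hf0 (hcard _).le) hp0.le
      · rw [div_eq_mul_one_div, hB, mul_comm]
        refine mul_le_mul hexp ?_ (div_nonneg hf0 (hcard _).le) (Real.exp_pos _).le
        have : cD A D f (n + Z.s) / (Kw A (n + Z.s)).card ≤ 1 := by
          rw [div_le_one (hcard _)]
          exact hf1
        linarith

end Q219.SAW
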