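import Pool.Agent.Q219.SAW.Sq
import Pool.Agent.Q219.SAW.Prb
import Pool.Agent.Q219.SAW.Mom
import Pool.Agent.Q219.SAW.Len

/-!
# The square and the triangular lattice: plain statements
-/

set_option autoImplicit false

namespace Q219.SAW.Std

open Finset Filter Topology TH966.AK

/-- the steps of the square lattice -/
def sqSteps : Set (ℤ × ℤ) := {(1, 0), (-1, 0), (0, 1), (0, -1)}

/-- the steps of the triangular lattice, in the coordinates with respect to two unit vectors with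
the angle `π / 3` -/
def triSteps : Set (ℤ × ℤ) := {(1, 0), (-1, 0), (0, 1), (0, -1), (1, -1), (-1, 1)}

/-- the square lattice with `s = 2` or the triangular lattice with `s = 1` -/
def IsLat (N : Set (ℤ × ℤ)) (s : ℕ) : Prop := (N = sqSteps ∧ s = 2) ∨ (N = triSteps ∧ s = 1)

/-- `ω` is an `n`-step self-avoiding walk with steps in `N` started at the origin -/
def IsSAW (N : Set (ℤ × ℤ)) (n : ℕ) (ω : Fin (n + 1) → ℤ × ℤ) : Prop :=
  ω 0 = 0 ∧ (∀ i : Fin n, ω i.succ - ω i.castSucc ∈ N) ∧ Function.Injective ω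

/-- the number of `n`-step self-avoiding walks from the origin -/
noncomputable def c (N : Set (ℤ × ℤ)) (n : ℕ) : ℝ := ({ω | IsSAW N n ω}.ncard : ℝ)

/-- the connective constant -/
noncomputable def mu (N : Set (ℤ × ℤ)) : ℝ := ⨅ n : {n : ℕ // 1 ≤ n}, c N n.1 ^ ((1 : ℝ) / (n.1 : ℝ))

/-- pairs of a path with `a + 1` sites and a path with `m + 1` sites -/
abbrev Pairs (a m : ℕ) := (Fin (a + 1) → ℤ × ℤ) × (Fin (m + 1) → ℤ × ℤ)

/-- The first `a + 1` sites and the last `m + 1` sites of a path with `n ≥ a + m` steps: the path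
outside the window of times between `a` and `n - m`. -/
def outer (a m : ℕ) {n : ℕ} (ω : Fin (n + 1) → ℤ × ℤ) : Pairs a m :=
  (fun i => ω (Fin.ofNat (n + 1) i), fun j => ω (Fin.ofNat (n + 1) (n - m + j)))

/-- the `n`-step self-avoiding walks which stay in `D` and whose outer part is in `H` -/
def walks (N : Set (ℤ × ℤ)) (D : Set (ℤ × ℤ)) {a m : ℕ} (H : Set (Pairs a m)) (n : ℕ) :
    Set (Fin (n + 1) → ℤ × ℤ) :=
  {ω | IsSAW N n ω ∧ (∀ i, ω i ∈ D) ∧ outer a m ω ∈ H}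

/-- the probability of this event under the uniform law on the `n`-step self-avoiding walks -/
noncomputable def prob (N : Set (ℤ × ℤ)) (D : Set (ℤ × ℤ)) {a m : ℕ} (H : Set (Pairs a m))
    (n : ℕ) : ℝ :=
  ((walks N D H n).ncard : ℝ) / c N n

/-- the conditional mean of `G(outer part)` given this event -/
noncomputable def mean (N : Set (ℤ × ℤ)) (D : Set (ℤ × ℤ)) {a m : ℕ} (H : Set (Pairs a m))
    (n : ℕ) (G : Pairs a m → ℝ) : ℝ :=
  (∑ᶠ ω ∈ walks N D H n, G (outer a m ω)) / ((walks N D H n).ncard : ℝ)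

/-- everything about the two lattices -/
theorem lat {N : Set (ℤ × ℤ)} {s : ℕ} (h : IsLat N s) :
    ∃ (A : P → P → Prop) (Z : Rule A) (K : ℝ), Z.s = s ∧ (∀ n, {ω | IsSAW N n ω} = FW A n) ∧
      Growth Z (mu N) K ∧ (∀ U U', Z.T U U' → ∀ x ∈ U, x ∈ U') ∧
      (∀ p q t : P, A (p + t) (q + t) ↔ A p q) := by
  rcases h with ⟨rfl, rfl⟩ | ⟨rfl, rfl⟩
  · have hadj : ∀ p q : P, q - p ∈ sqSteps ↔ Sq.Adj p q := by
      intro p q
      rw [Sq.adj_eq]
      unfold sqSteps Sq.A Sq.dirs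
      simp
    have hFW : ∀ n, {ω | IsSAW sqSteps n ω} = FW Sq.A n := by
      intro n
      ext ω
      unfold IsSAW FW
      rw [Set.mem_ofPred_eq, Set.mem_ofPred_eq, ← Sq.adj_eq]
      simp only [hadj]
      tauto
    obtain ⟨hc, K, Gr⟩ := Sq.growth (fun n => Set.ncard {f : Fin (n + 1) → ℤ × ℤ |
            f 0 = 0 ∧ Function.Injective f ∧
            ∀ i : Fin n, Sq.Adj (f i.castSucc) (f i.succ)}) (fun _ => rfl) (mu sqSteps) (by
      unfold mu c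
      congr 1
      funext n
      rw [hFW]
      unfold FW
      rw [Sq.adj_eq])
    refine ⟨Sq.A, Sq.rule, K, rfl, hFW, Gr, Sq.shr, ?_⟩
    intro p q t
    unfold Sq.A
    rw [add_sub_add_right_eq_sub]
  · have hadj : ∀ p q : P, q - p ∈ triSteps ↔ AdjT p q := fun p q => Iff.rfl
    have hFW : ∀ n, {ω | IsSAW triSteps n ω} = FW Tri.A n := by
      intro n
      ext ω
      unfold IsSAW FW
      rw [Set.mem_ofPred_eq, Set.mem_ofPred_eq, ← adjT_eq]
      simp only [hadj]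
      tauto
    obtain ⟨hc, K, Gr⟩ := tri_growth (fun n => Set.ncard {f : Fin (n + 1) → ℤ × ℤ |
            f 0 = 0 ∧ Function.Injective f ∧
            ∀ i : Fin n, AdjT (f i.castSucc) (f i.succ)}) (fun _ => rfl) (mu triSteps) (by
      unfold mu c
      congr 1
      funext n
      rw [hFW]
      unfold FW
      rw [adjT_eq])
    refine ⟨Tri.A, Tri.rule, K, rfl, hFW, Gr, ?_, ?_⟩
    · rintro U U' ⟨p, v, r, rfl, rfl, -⟩ x hx
      simp only [List.mem_cons, List.not_mem_nil, or_false] at hx ⊢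
      tauto
    · intro p q t
      unfold Tri.A
      rw [add_sub_add_right_eq_sub]

theorem walks_eq {N : Set (ℤ × ℤ)} {A : P → P → Prop} (hF : ∀ n, {ω | IsSAW N n ω} = FW A n)
    (D : Set (ℤ × ℤ)) {a m : ℕ} (H : Set (Pairs a m)) (n : ℕ) : walks N D H n = WK A D H n := by
  ext ω
  unfold walks WK
  rw [Set.mem_ofPred_eq, Set.mem_ofPred_eq, ← hF, Set.mem_ofPred_eq]
  rfl

theorem prob_eq {N : Set (ℤ × ℤ)} {A : P → P → Prop} (hF : ∀ n, {ω | IsSAW N n ω} = FW A n)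
    (D : Set (ℤ × ℤ)) {a m : ℕ} (H : Set (Pairs a m)) (n : ℕ) : prob N D H n = prF A D H n := by
  unfold prob prF c
  rw [walks_eq hF, hF]

theorem mean_eq {N : Set (ℤ × ℤ)} {A : P → P → Prop} (hF : ∀ n, {ω | IsSAW N n ω} = FW A n)
    (D : Set (ℤ × ℤ)) {a m : ℕ} (H : Set (Pairs a m)) (n : ℕ) (G : Pairs a m → ℝ) :
    mean N D H n G = mnF A D H n G := by
  unfold mean mnF
  rw [walks_eq hF]
  rfl

theorem finite {N : Set (ℤ × ℤ)} {s : ℕ} (h : IsLat N s) (n : ℕ) : {ω | IsSAW N n ω}.Finite := by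
  obtain ⟨A, Z, K, -, hF, -⟩ := lat h
  rw [hF]
  exact FW_finite (Z := Z) n

theorem c_bounds {N : Set (ℤ × ℤ)} {s : ℕ} (h : IsLat N s) : 1 ≤ mu N ∧ (∀ n, mu N ^ n ≤ c N n) ∧
    ∃ K : ℝ, 0 ≤ K ∧ ∀ n, 2 ≤ n → c N n ≤ mu N ^ n * Real.exp (K * Real.log n ^ 2) := by
  obtain ⟨A, Z, K, -, hF, Gr, -⟩ := lat h
  have hc : ∀ n, c N n = (Kw A n).card := by
    intro n
    unfold c
    rw [hF, FW_card (Z := Z)]
  refine ⟨Gr.hμ, fun n => ?_, K, Gr.hK, fun n hn => ?_⟩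
  · rw [hc]; exact Gr.low n
  · rw [hc]; exact Gr.up n hn

theorem c_pos {N : Set (ℤ × ℤ)} {s : ℕ} (h : IsLat N s) (n : ℕ) : 0 < c N n := by
  obtain ⟨h1, h2, -⟩ := c_bounds h
  refine lt_of_lt_of_le ?_ (h2 n)
  have : 0 < mu N := by linarith
  positivity

/-- **the window theorem**, total variation form -/
theorem tv {N : Set (ℤ × ℤ)} {s : ℕ} (h : IsLat N s) : ∃ R : ℝ, 0 < R ∧ ∀ (a L m : ℕ)
    (D : Set (ℤ × ℤ)) (H : Set (Pairs a m)), 2 ≤ a + L + m → 1 ≤ L → 0 < prob N D H (a + L + m) →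
    ∀ G : Pairs a m → ℝ, (∀ o, 0 ≤ G o) → (∀ o, G o ≤ 1) →
    |mean N D H (a + L + m + s) G - mean N D H (a + L + m) G| ≤
      R * √((Real.log (a + L + m : ℕ) ^ 2 + Real.log (1 / prob N D H (a + L + m))) / L) := by
  obtain ⟨A, Z, K, hs, hF, Gr, hsh, hA⟩ := lat h
  obtain ⟨R, hR, hw⟩ := window_tv Gr hsh hA
  refine ⟨R, hR, ?_⟩
  intro a L m D H hN hL hp G hG0 hG1
  rw [mean_eq hF, mean_eq hF, prob_eq hF]
  rw [prob_eq hF] at hp
  rw [← hs]
  exact hw a L m D H hN hL hp G hG0 hG1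

/-- **the window theorem**, multiplicative form -/
theorem win {N : Set (ℤ × ℤ)} {s : ℕ} (h : IsLat N s) : ∃ R δ : ℝ, 0 < R ∧ 0 < δ ∧
    ∀ (a L m : ℕ) (D : Set (ℤ × ℤ)) (H : Set (Pairs a m)), 2 ≤ a + L + m →
    0 < prob N D H (a + L + m) →
    Real.log (a + L + m : ℕ) ^ 2 + Real.log (1 / prob N D H (a + L + m)) ≤ δ * L →
    0 < prob N D H (a + L + m + s) ∧
    |prob N D H (a + L + m + s) / prob N D H (a + L + m) - 1| ≤ R *
      √((Real.log (a + L + m : ℕ) ^ 2 + Real.log (1 / prob N D H (a + L + m))) / L) ∧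
    |((walks N D H (a + L + m + s)).ncard : ℝ) / ((walks N D H (a + L + m)).ncard : ℝ) /
      mu N ^ s - 1| ≤ R *
      √((Real.log (a + L + m : ℕ) ^ 2 + Real.log (1 / prob N D H (a + L + m))) / L) ∧
    ∀ G : Pairs a m → ℝ, (∀ o, 0 ≤ G o) → (∀ o, G o ≤ 1) →
    |mean N D H (a + L + m + s) G - mean N D H (a + L + m) G| ≤
      R * √((Real.log (a + L + m : ℕ) ^ 2 + Real.log (1 / prob N D H (a + L + m))) / L) *
        mean N D H (a + L + m) G +
      prob N D H (a + L + m) * Real.exp (-(Real.log (a + L + m : ℕ) ^ 2)) := by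
  obtain ⟨A, Z, K, hs, hF, Gr, hsh, hA⟩ := lat h
  obtain ⟨R, δ, hR, hδ, hw⟩ := window_fn Gr hsh hA
  refine ⟨R, δ, hR, hδ, ?_⟩
  intro a L m D H hN hp hΛ
  rw [prob_eq hF] at hp hΛ
  have h1 := hw a L m D H hN hp hΛ
  rw [hs] at h1
  simp only [prob_eq hF, walks_eq hF, mean_eq hF]
  exact h1

/-- **moments** -/
theorem mom {N : Set (ℤ × ℤ)} {s : ℕ} (h : IsLat N s) {b : ℝ} (hb : 0 < b) :
    ∃ δ : ℝ, 0 < δ ∧ ∀ q : ℝ, 0 ≤ q → ∃ R : ℝ, 0 < R ∧ ∀ (a L m : ℕ) (D : Set (ℤ × ℤ))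
    (H : Set (Pairs a m)), 2 ≤ a + L + m → 0 < prob N D H (a + L + m) →
    Real.log (a + L + m : ℕ) ^ 2 + Real.log (1 / prob N D H (a + L + m)) ≤ δ * L →
    ∀ f : Pairs a m → ℝ, (∀ n, n = a + L + m ∨ n = a + L + m + s → ∀ ω ∈ walks N D H n,
      1 ≤ f (outer a m ω) ∧ f (outer a m ω) ≤ b * n) →
    0 < mean N D H (a + L + m) (fun o => f o ^ q) ∧
    |mean N D H (a + L + m + s) (fun o => f o ^ q) /
      mean N D H (a + L + m) (fun o => f o ^ q) - 1| ≤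
      R * √((Real.log (a + L + m : ℕ) ^ 2 + Real.log (1 / prob N D H (a + L + m))) / L) := by
  obtain ⟨A, Z, K, hs, hF, Gr, hsh, hA⟩ := lat h
  obtain ⟨δ, hδ, hm⟩ := mom_pow Gr hsh hA hb
  refine ⟨δ, hδ, fun q hq => ?_⟩
  obtain ⟨R, hR, h1⟩ := hm q hq
  refine ⟨R, hR, ?_⟩
  intro a L m D H hN hp hΛ f hf
  rw [prob_eq hF] at hp hΛ
  have h2 := h1 a L m D H hN hp hΛ f (by
    intro n hn ω hω
    rw [← walks_eq hF] at hω
    rw [hs] at hn
    exact hf n hn ω hω)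
  rw [hs] at h2
  simp only [prob_eq hF, mean_eq hF]
  exact h2

/-- the number of the `n`-step walks in `D` which end in `E` -/
noncomputable def count (N : Set (ℤ × ℤ)) (D E : Set (ℤ × ℤ)) (n : ℕ) : ℝ :=
  ({ω : Fin (n + 1) → ℤ × ℤ | IsSAW N n ω ∧ (∀ i, ω i ∈ D) ∧ ω (Fin.last n) ∈ E}.ncard : ℝ)

theorem count_cD {N : Set (ℤ × ℤ)} {A : P → P → Prop} (Z : Rule A)
    (hF : ∀ n, {ω | IsSAW N n ω} = FW A n) (D E : Set (ℤ × ℤ)) (n : ℕ) :
    count N D E n = cD A D (ind E) n := by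
  rw [cD_eq (Z := Z)]
  unfold count
  congr 2
  ext ω
  rw [Set.mem_ofPred_eq, Set.mem_ofPred_eq]
  have : IsSAW N n ω ↔ ω ∈ FW A n := by rw [← hF]; rfl
  rw [this]
  rfl

/-- **the ratio theorem**, all `n ≥ 2` -/
theorem ratio {N : Set (ℤ × ℤ)} {s : ℕ} (h : IsLat N s) : ∃ R δ : ℝ, 0 < R ∧ 0 < δ ∧
    ∀ (n : ℕ) (D E : Set (ℤ × ℤ)), 2 ≤ n → Real.exp (-(δ * n)) ≤ count N D E n / c N n →
    |count N D E (n + s) / count N D E n / mu N ^ s - 1| ≤
      R * √((Real.log n ^ 2 + Real.log (1 / (count N D E n / c N n))) / n) ∧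
    |(count N D E (n + s) / c N (n + s)) / (count N D E n / c N n) - 1| ≤
      R * √((Real.log n ^ 2 + Real.log (1 / (count N D E n / c N n))) / n) := by
  obtain ⟨A, Z, K, hs, hF, Gr, hsh, hA⟩ := lat h
  obtain ⟨R, δ, hR, hδ, h1⟩ := ratio_all Gr hsh
  have hc : ∀ n, c N n = (Kw A n).card := by
    intro n
    unfold c
    rw [hF, FW_card (Z := Z)]
  refine ⟨R, δ, hR, hδ, ?_⟩
  intro n D E hn hp
  rw [count_cD Z hF, hc] at hp
  have h2 := h1 D (ind E) (wtD_ind _ _) n hn hp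
  rw [hs] at h2
  simp only [count_cD Z hF, hc]
  exact h2

/-- **the length of the critical walk** -/
theorem length {N : Set (ℤ × ℤ)} {s : ℕ} (h : IsLat N s) : ∃ R : ℝ, 0 < R ∧
    ∀ (D E : Set (ℤ × ℤ)) (W : ℝ), 0 < W →
    (∀ M : ℕ, ∑ k ∈ range M, count N D E k / mu N ^ k ≤ W) → ∀ n : ℕ, 2 ≤ n → ∀ M : ℕ,
    ∑ k ∈ range M, |count N D E (n + k + s) / mu N ^ (n + k + s) / W -
      count N D E (n + k) / mu N ^ (n + k) / W| ≤
      R * √((Real.log n ^ 2 + max 0 (Real.log (1 / W))) / n) := by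
  obtain ⟨A, Z, K, hs, hF, Gr, hsh, hA⟩ := lat h
  obtain ⟨R, hR, h1⟩ := smooth Gr hsh
  refine ⟨R, hR, ?_⟩
  intro D E W hW hsum n hn M
  have h2 := h1 D (ind E) (wtD_ind _ _) W hW (by
    intro M
    unfold tD
    simp only [← count_cD Z hF]
    exact hsum M) n hn M
  unfold tD at h2
  rw [hs] at h2
  simp only [← count_cD Z hF] at h2
  exact h2

end Q219.SAW.Std
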