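import Pool.Agent.Q219.SAW.Dom

/-!
# Walks in domains: a lower bound for the length `n + s` gives one for the length `n`
-/

set_option autoImplicit false

namespace Q219.SAW

open Finset Filter Topology TH966.AK
open scoped Classical

variable {A : P → P → Prop} {Z : Rule A}

/-- normalised numbers -/
noncomputable def yD (A : P → P → Prop) (D : Set P) (f : List P → ℝ) (μ : ℝ) (s r k : ℕ) : ℝ :=
  cD A D f (s * k + r) / μ ^ (s * k + r)

/-- Kesten's inequality, uniformly in the domain -/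
theorem kes_dom {μ K : ℝ} (G : Growth Z μ K) (hsh : ∀ U U', Z.T U U' → ∀ x ∈ U, x ∈ U')
    (r : ℕ) :
    ∃ (D0 θK : ℝ) (k0 : ℕ), 0 ≤ D0 ∧ 0 < θK ∧ θK < 1 ∧ ∀ (D : Set P) (f : List P → ℝ),
      WtD Z D f → TH966.KS.Kes (yD A D f μ Z.s r) D0 θK k0 := by
  have hμ := G.hμ
  have hμ0 : 0 < μ := by linarith
  have hs := G.hs
  have hK0 := G.hK
  obtain ⟨M0, ρ, C0, hM0, hρ0, hρ1, hpoor⟩ := G.poor
  choose C1 hC1 using G.hup
  obtain ⟨M, θ, C', hM, hθ0, hθ1, hC', hbad⟩ := pattern_u (α := List P) (σ := List P × List P)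
    Z.CC Z.s 0 μ hμ (fun τ => if h : 0 < τ then C1 τ h else 0) M0 ρ C0 hM0 hρ0 hρ1
  obtain ⟨θ₁, hθ₁⟩ : ∃ θ₁ : ℝ, θ₁ = (1 + θ) / 2 := ⟨_, rfl⟩
  have hθ₁0 : 0 < θ₁ := by linarith
  have hθ₁1 : θ₁ < 1 := by linarith
  have hconv := convex_u (α := List P) (σ := List P × List P) Z.CC Z.s 0 M hM μ θ θ₁ C' hμ0 hθ0
    (by linarith)
  obtain ⟨θK, hθK⟩ : ∃ θK : ℝ, θK = √θ₁ := ⟨_, rfl⟩
  have hθK0 : 0 < θK := by rw [hθK]; exact Real.sqrt_pos.2 hθ₁0
  have hθK1 : θK < 1 := by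
    rw [hθK, Real.sqrt_lt' one_pos]
    linarith
  have hθK2 : θK ^ 2 = θ₁ := by rw [hθK]; exact Real.sq_sqrt hθ₁0.le
  have ht : Tendsto (fun k : ℕ => Z.s * k + r) atTop atTop := by
    refine tendsto_atTop_mono (fun k => ?_) tendsto_id
    have := Nat.mul_le_mul_right k hs
    simp only [id]
    omega
  obtain ⟨k0, hk0⟩ := eventually_atTop.1 (ht.eventually hconv)
  refine ⟨8 * (6 * Z.CC * M + 1), θK, max k0 1, by positivity, hθK0, hθK1, ?_⟩
  intro D f hf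
  obtain ⟨Y, hY⟩ : ∃ Y, Y = sysD Z hsh D := ⟨_, rfl⟩
  have hYC : Y.C = Z.CC := by rw [hY]; rfl
  have hYs : Y.s = Z.s := by rw [hY]; rfl
  have hYn : Y.n0 = 0 := by rw [hY]; rfl
  have hYK : ∀ n, Y.K n = KD A D n := by intro n; rw [hY]; rfl
  have hYB : ∀ w, Y.B w = Z.B w := by intro n; rw [hY]; rfl
  have hwt : Y.Wt f := by
    refine ⟨fun n w _ => hf.nn w, ?_⟩
    rintro n w ⟨U, U'⟩ hw hq
    rw [hY] at hw hq ⊢
    change w ∈ KD A D n at hw
    change (U, U') ∈ SD Z D w at hq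
    change f (Rule.rep w U U') = f w
    rw [mem_KD (Z := Z)] at hw
    rw [mem_SD] at hq
    exact hf.inv w U U' hw.1.2 hw.2 hq.1.1 hq.1.2 hq.2
  have hYbad : ∀ n, ((Y.bad M n).card : ℝ) ≤ C' * (θ * μ) ^ n := by
    refine hbad Y hYC hYs hYn ?_ ?_
    · intro τ hτ n
      simp only [dif_pos hτ]
      refine le_trans ?_ (hC1 τ hτ n)
      rw [hYK]
      exact_mod_cast card_le_card (filter_subset _ _)
    · intro n
      refine le_trans ?_ (hpoor n)
      rw [hYK]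
      have : ((KD A D n).filter (fun w => M0 * (Y.B w).card ≤ n)) ⊆
          (Kw A n).filter (fun w => M0 * (Z.B w).card ≤ n) := by
        intro w hw
        rw [mem_filter] at hw ⊢
        rw [hYB] at hw
        exact ⟨(mem_filter.1 hw.1).1, hw.2⟩
      exact_mod_cast card_le_card this
  have haf : ∀ n, Y.af f n = cD A D f n := by
    intro n
    unfold Sys.af cD
    rw [hYK]
  have hbadf : ∀ n, Y.badf f M n ≤ C' * (θ * μ) ^ n := by
    intro n
    refine le_trans ?_ (hYbad n)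
    unfold Sys.badf
    rw [← nsmul_one, ← sum_const]
    exact sum_le_sum fun w _ => hf.le w
  intro j hj hth
  have hj1 : 1 ≤ j := le_trans (le_max_right _ _) hj
  have h1 := hk0 j (le_trans (le_max_left _ _) hj) Y hYC hYs hYn f hwt hbadf
  rw [haf, haf, haf] at h1
  have e1 : Z.s * j + r + Z.s = Z.s * (j + 1) + r := by ring
  have e2 : Z.s * (j + 1) + r + Z.s = Z.s * (j + 2) + r := by ring
  rw [e1, e2] at h1
  unfold yD at hth ⊢
  have h2 := h1 (by
    rw [mul_pow]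
    rw [le_div_iff₀ (by positivity)] at hth
    refine le_trans (mul_le_mul_of_nonneg_right ?_ (by positivity)) hth
    have e3 : 2 * j + 2 = 2 * (j + 1) := by ring
    rw [e3, pow_mul, hθK2]
    refine pow_le_pow_of_le_one hθ₁0.le hθ₁1.le ?_
    have := Nat.mul_le_mul_right (j + 1) hs
    omega)
  have hj' : (1 : ℝ) ≤ j := by exact_mod_cast hj1
  have h3 : (1 : ℝ) + (8 * (6 * Z.CC * M + 1)) / ((Z.s * j + r : ℕ) : ℝ) ≤
      1 + (8 * (6 * Z.CC * M + 1)) / j := by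
    refine add_le_add le_rfl (div_le_div_of_nonneg_left (by positivity) (by positivity) ?_)
    have h4 : j ≤ Z.s * j + r := by
      have := Nat.mul_le_mul_right j hs
      omega
    exact_mod_cast h4
  have h4 : cD A D f (Z.s * (j + 1) + r) ^ 2 ≤ cD A D f (Z.s * j + r) *
      cD A D f (Z.s * (j + 2) + r) * (1 + (8 * (6 * Z.CC * M + 1)) / j) := by
    refine h2.trans (mul_le_mul_of_nonneg_left ?_
      (mul_nonneg (cD_nonneg hf.nn _) (cD_nonneg hf.nn _)))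
    exact h3
  have e3 : (μ ^ (Z.s * (j + 1) + r)) ^ 2 = μ ^ (Z.s * j + r) * μ ^ (Z.s * (j + 2) + r) := by
    rw [← pow_mul, ← pow_add]
    congr 1
    ring
  rw [div_pow, div_mul_div_comm, div_mul_eq_mul_div, e3]
  exact div_le_div_of_nonneg_right h4 (by positivity)

/-- the downward step along one residue class -/
theorem down_res {μ K : ℝ} (G : Growth Z μ K) (hsh : ∀ U U', Z.T U U' → ∀ x ∈ U, x ∈ U')
    (r : ℕ) :
    ∃ (C δ : ℝ) (k1 : ℕ), 1 ≤ C ∧ 0 < δ ∧ ∀ (D : Set P) (f : List P → ℝ), WtD Z D f →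
      ∀ k : ℕ, k1 ≤ k → ∀ Λ : ℝ, Real.log (k + 2 : ℕ) ^ 2 ≤ Λ → Λ ≤ δ * k →
      Real.exp (-Λ) * μ ^ (Z.s * k + r + Z.s) ≤ cD A D f (Z.s * k + r + Z.s) →
      Real.exp (-(C * Λ)) * μ ^ (Z.s * k + r) ≤ cD A D f (Z.s * k + r) := by
  have hμ := G.hμ
  have hμ0 : 0 < μ := by linarith
  obtain ⟨D0, θ, k0, hD0, hθ0, hθ1, hkes⟩ := kes_dom G hsh r
  obtain ⟨K', hK', hg⟩ := G.grow r
  have hlθ : 0 < Real.log (1 / θ) := Real.log_pos (by rw [lt_div_iff₀ hθ0]; linarith)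
  refine ⟨2 + K' + D0, Real.log (1 / θ), max k0 1, by linarith, hlθ, ?_⟩
  intro D f hf k hk Λ hΛ1 hΛ2 hlow
  have hk1 : 1 ≤ k := le_trans (le_max_right _ _) hk
  have hk' : (1 : ℝ) ≤ k := by exact_mod_cast hk1
  obtain ⟨y, hy⟩ : ∃ y, y = yD A D f μ Z.s r := ⟨_, rfl⟩
  have hK := hkes D f hf
  rw [← hy] at hK
  have hyy : ∀ j, cD A D f (Z.s * j + r) = y j * μ ^ (Z.s * j + r) := by
    intro j
    rw [hy]
    unfold yD
    rw [div_mul_cancel₀ _ (by positivity)]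
  have hy0 : ∀ j, 0 ≤ y j := by
    intro j
    rw [hy]
    exact div_nonneg (cD_nonneg hf.nn _) (by positivity)
  have e1 : Z.s * k + r + Z.s = Z.s * (k + 1) + r := by ring
  rw [e1, hyy] at hlow
  have h1 : Real.exp (-Λ) ≤ y (k + 1) := le_of_mul_le_mul_right hlow (by positivity)
  have hΛ0 : 1 ≤ Λ := by
    refine le_trans ?_ hΛ1
    have h3 : (3 : ℝ) ≤ ((k + 2 : ℕ) : ℝ) := by
      push_cast; linarith
    have h4 : 1 ≤ Real.log ((k + 2 : ℕ) : ℝ) := by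
      rw [Real.le_log_iff_exp_le (by linarith)]
      have := Real.exp_one_lt_d9
      linarith
    nlinarith
  have h2 : θ ^ (2 * k + 2) ≤ y (k + 1) := by
    refine le_trans ?_ h1
    have h3 : θ ^ (2 * k + 2) ≤ θ ^ k := pow_le_pow_of_le_one hθ0.le hθ1.le (by omega)
    refine h3.trans ?_
    have h4 : θ ^ k = Real.exp (-(k * Real.log (1 / θ))) := by
      rw [one_div, Real.log_inv, mul_neg, neg_neg, Real.exp_nat_mul, Real.exp_log hθ0]
    rw [h4]
    exact Real.exp_le_exp.2 (by linarith)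
  have h3 := hK k (le_trans (le_max_left _ _) hk) h2
  have h4 : y (k + 2) ≤ Real.exp (K' * Λ) := by
    have h5 := hg (k + 2) (by omega) (k + 2) le_rfl
    have h6 : y (k + 2) ≤ yy A μ Z.s r (k + 2) := by
      rw [hy]
      unfold yy yD
      exact div_le_div_of_nonneg_right (cD_le hf.le _) (by positivity)
    refine h6.trans (h5.trans (Real.exp_le_exp.2 ?_))
    exact mul_le_mul_of_nonneg_left hΛ1 hK'
  have h5 : 1 + D0 / k ≤ Real.exp (D0 * Λ) := by
    have h6 : D0 / k ≤ D0 * Λ := by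
      rw [div_le_iff₀ (by linarith)]
      have : D0 * 1 ≤ D0 * (Λ * k) := mul_le_mul_of_nonneg_left (by nlinarith) hD0
      linarith
    have := Real.add_one_le_exp (D0 * Λ)
    linarith
  have h6 : Real.exp (-Λ) ^ 2 ≤ y k * (Real.exp (K' * Λ) * Real.exp (D0 * Λ)) := by
    calc Real.exp (-Λ) ^ 2 ≤ y (k + 1) ^ 2 := pow_le_pow_left₀ (Real.exp_pos _).le h1 2
      _ ≤ y k * y (k + 2) * (1 + D0 / k) := h3
      _ = y k * (y (k + 2) * (1 + D0 / k)) := by ring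
      _ ≤ _ := by
        refine mul_le_mul_of_nonneg_left ?_ (hy0 k)
        exact mul_le_mul h4 h5 (by positivity) (Real.exp_pos _).le
  rw [hyy]
  refine mul_le_mul_of_nonneg_right ?_ (by positivity)
  have h7 : Real.exp (-((2 + K' + D0) * Λ)) * (Real.exp (K' * Λ) * Real.exp (D0 * Λ)) =
      Real.exp (-Λ) ^ 2 := by
    rw [← Real.exp_add, ← Real.exp_add, ← Real.exp_nat_mul]
    congr 1
    push_cast
    ring
  rw [← h7] at h6
  exact le_of_mul_le_mul_right h6 (by positivity)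

/-- a lower bound for the length `n + s` gives one for the length `n` -/
theorem down_dom {μ K : ℝ} (G : Growth Z μ K) (hsh : ∀ U U', Z.T U U' → ∀ x ∈ U, x ∈ U') :
    ∃ (C δ : ℝ) (n1 : ℕ), 1 ≤ C ∧ 0 < δ ∧ ∀ (D : Set P) (f : List P → ℝ), WtD Z D f →
      ∀ n : ℕ, n1 ≤ n → ∀ Λ : ℝ, Real.log n ^ 2 ≤ Λ → Λ ≤ δ * n →
      Real.exp (-Λ) * μ ^ (n + Z.s) ≤ cD A D f (n + Z.s) →
      Real.exp (-(C * Λ)) * μ ^ n ≤ cD A D f n := by
  have hs := G.hs
  have hμ := G.hμ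
  have hμ0 : 0 < μ := by linarith
  choose C δ k1 hC hδ h using down_res G hsh
  have hne : (range Z.s).Nonempty := ⟨0, mem_range.2 hs⟩
  obtain ⟨C', hC'⟩ : ∃ C' : ℝ, C' = ∑ r ∈ range Z.s, C r := ⟨_, rfl⟩
  obtain ⟨δ', hδ'⟩ : ∃ δ' : ℝ, δ' = (range Z.s).inf' hne δ := ⟨_, rfl⟩
  have hδ'0 : 0 < δ' := by
    rw [hδ', Finset.lt_inf'_iff]
    exact fun r _ => hδ r
  obtain ⟨k2, hk2⟩ : ∃ k2 : ℕ, k2 = ∑ r ∈ range Z.s, k1 r := ⟨_, rfl⟩
  have hs1 : (1 : ℝ) ≤ Z.s := by exact_mod_cast hs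
  have hC'r : ∀ r < Z.s, C r ≤ C' := by
    intro r hr
    rw [hC']
    exact single_le_sum (f := C) (fun i _ => by linarith [hC i]) (mem_range.2 hr)
  have hC'1 : 1 ≤ C' := (hC 0).trans (hC'r 0 (by omega))
  refine ⟨4 * C', δ' / (8 * Z.s), Z.s * (k2 + 2), by linarith, by positivity, ?_⟩
  intro D f hf n hn Λ hΛ1 hΛ2 hlow
  obtain ⟨k, hk⟩ : ∃ k, k = n / Z.s := ⟨_, rfl⟩
  obtain ⟨r, hr⟩ : ∃ r, r = n % Z.s := ⟨_, rfl⟩
  have hrs : r < Z.s := by rw [hr]; exact Nat.mod_lt _ hs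
  have hnk : Z.s * k + r = n := by rw [hk, hr]; exact Nat.div_add_mod n Z.s
  have hkk : k2 + 2 ≤ k := by
    rw [hk, Nat.le_div_iff_mul_le hs, mul_comm]
    exact hn
  have hk1r : k1 r ≤ k := by
    have : k1 r ≤ k2 := by
      rw [hk2]
      exact single_le_sum (f := k1) (fun _ _ => Nat.zero_le _) (mem_range.2 hrs)
    omega
  have hkn : k ≤ n := by
    have := Nat.mul_le_mul_right k hs
    omega
  have hk0 : (0 : ℝ) < k := by
    have : 0 < k := by omega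
    exact_mod_cast this
  have hk2r : (2 : ℝ) ≤ k := by exact_mod_cast (show 2 ≤ k by omega)
  have hn0 : (0 : ℝ) < n := lt_of_lt_of_le hk0 (by exact_mod_cast hkn)
  have hk2n : (n : ℝ) ≤ 2 * Z.s * k := by
    have h10 : n ≤ Z.s * k + Z.s := by omega
    have h11 : (n : ℝ) ≤ Z.s * k + Z.s := by exact_mod_cast h10
    nlinarith
  have hn2 : (2 : ℝ) ≤ n := hk2r.trans (by exact_mod_cast hkn)
  have hlog : Real.log (k + 2 : ℕ) ≤ 2 * Real.log n := by
    have h1 : ((k + 2 : ℕ) : ℝ) ≤ (n : ℝ) ^ 2 := by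
      push_cast
      have : (k : ℝ) ≤ n := by exact_mod_cast hkn
      nlinarith
    have h2 := Real.log_le_log (by positivity) h1
    rw [Real.log_pow] at h2
    exact_mod_cast h2
  have hlog0 : 0 ≤ Real.log ((k + 2 : ℕ) : ℝ) :=
    Real.log_nonneg (by exact_mod_cast (show 1 ≤ k + 2 by omega))
  have hlog2 := pow_le_pow_left₀ hlog0 hlog 2
  have hΛ0 : 0 ≤ Λ := (sq_nonneg _).trans hΛ1
  have g1 := h r D f hf k hk1r (4 * Λ) (by
    refine hlog2.trans ?_
    rw [mul_pow]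
    linarith) (by
    have h1 : δ' ≤ δ r := by
      rw [hδ']
      exact Finset.inf'_le _ (mem_range.2 hrs)
    calc 4 * Λ ≤ 4 * (δ' / (8 * Z.s) * n) := by linarith
      _ ≤ 4 * (δ' / (8 * Z.s) * (2 * Z.s * k)) := by
          refine mul_le_mul_of_nonneg_left ?_ (by norm_num)
          exact mul_le_mul_of_nonneg_left hk2n (by positivity)
      _ = δ' * k := by field_simp; norm_num
      _ ≤ δ r * k := mul_le_mul_of_nonneg_right h1 hk0.le) (by
    rw [hnk]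
    refine le_trans (mul_le_mul_of_nonneg_right ?_ (by positivity)) hlow
    exact Real.exp_le_exp.2 (by linarith))
  rw [hnk] at g1
  refine le_trans (mul_le_mul_of_nonneg_right ?_ (by positivity)) g1
  refine Real.exp_le_exp.2 ?_
  have := mul_le_mul_of_nonneg_right (hC'r r hrs) hΛ0
  linarith

end Q219.SAW
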