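import Pool.Agent.TH966.AK.Conv

/-!
# Local moves: constants which depend only on the parameters of the system
-/

set_option autoImplicit false

namespace Q219.SAW

open Finset Filter Topology TH966.AK
open scoped Classical

variable {α σ : Type}

/-- the pattern theorem with constants which depend only on the parameters -/
theorem pattern_u (C s n0 : ℕ) (μ : ℝ) (hμ : 1 ≤ μ) (C1f : ℝ → ℝ)
    (M0 : ℕ) (ρ C0 : ℝ) (hM0 : 1 ≤ M0) (hρ0 : 0 ≤ ρ) (hρ1 : ρ < μ) :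
    ∃ (M : ℕ) (θ C' : ℝ), 1 ≤ M ∧ 0 < θ ∧ θ < 1 ∧ 0 ≤ C' ∧
      ∀ Y : Sys α σ, Y.C = C → Y.s = s → Y.n0 = n0 →
      (∀ τ : ℝ, 0 < τ → ∀ n : ℕ, ((Y.K n).card : ℝ) ≤ C1f τ * ((1 + τ) * μ) ^ n) →
      (∀ n : ℕ, (((Y.K n).filter (fun w => M0 * (Y.B w).card ≤ n)).card : ℝ) ≤ C0 * ρ ^ n) →
      ∀ n : ℕ, ((Y.bad M n).card : ℝ) ≤ C' * (θ * μ) ^ n := by
  have hμ0 : 0 < μ := by linarith
  set k : ℕ := 5 * C + 4 + 2 * s + 2 * n0 + 1 with hk
  set M : ℕ := M0 * k with hM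
  have hkM : k ≤ M := by rw [hM]; exact Nat.le_mul_of_pos_left _ hM0
  have hM1 : 1 ≤ M := by omega
  have hM0M : M0 ≤ M := by rw [hM]; exact Nat.le_mul_of_pos_right _ (by omega)
  obtain ⟨τ, hτ⟩ : ∃ τ : ℝ, τ = 1 / (2 * M) := ⟨_, rfl⟩
  obtain ⟨θ₁, hθ₁⟩ : ∃ θ₁ : ℝ, θ₁ = 1 - 1 / (2 * M) := ⟨_, rfl⟩
  have hM' : (1 : ℝ) ≤ M := by exact_mod_cast hM1
  have hτ0 : 0 < τ := by rw [hτ]; positivity
  have hθ2 : 1 / (2 * (M : ℝ)) ≤ 1 / 2 := by
    rw [div_le_div_iff₀ (by positivity) (by norm_num)]; linarith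
  have hθ0 : 0 < θ₁ := by rw [hθ₁]; linarith
  have hθ1 : θ₁ < 1 := by
    rw [hθ₁]
    have : 0 < 1 / (2 * (M : ℝ)) := by positivity
    linarith
  have hθρ : ρ / μ < 1 := by rw [div_lt_one hμ0]; exact hρ1
  have hMμ : 1 ≤ (1 + τ) * μ := by nlinarith
  refine ⟨M, max θ₁ (ρ / μ), |C0| + 4 * |C1f τ|, hM1, lt_max_of_lt_left hθ0, max_lt hθ1 hθρ,
    by positivity, ?_⟩
  intro Y hYC hYs hYn hup hP
  subst hYC hYs hYn
  have hC1 := hup τ hτ0
  obtain ⟨C1, hC1d⟩ : ∃ C1, C1 = C1f τ := ⟨_, rfl⟩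
  rw [← hC1d] at hC1
  have hC1' : 0 ≤ C1 := by
    have h := hC1 0
    simp only [pow_zero, mul_one] at h
    exact le_trans (Nat.cast_nonneg _) h
  rw [← hC1d, abs_of_nonneg hC1']
  -- many downward moves and few upward moves
  have hD : ∀ n : ℕ, (((Y.K n).filter (fun w => M * (Y.S w).card ≤ n ∧
      ¬ M0 * (Y.B w).card ≤ n)).card : ℝ) ≤
      C1 * ((1 + τ) * μ) ^ n * (1 / 4) ^ (n / M) := by
    intro n
    set D := (Y.K n).filter (fun w => M * (Y.S w).card ≤ n ∧ ¬ M0 * (Y.B w).card ≤ n) with hDd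
    have hDK : D ⊆ Y.K n := filter_subset _ _
    set j := n / M with hj
    have hjn : M * j ≤ n := Nat.mul_div_le n M
    rcases Nat.eq_zero_or_pos j with h0 | h0
    · rw [h0, pow_zero, mul_one]
      refine le_trans ?_ (hC1 n)
      exact_mod_cast card_le_card hDK
    · have hkj : k * j ≤ n := (Nat.mul_le_mul_right j hkM).trans hjn
      have hsj : Y.s * j + Y.n0 ≤ n := by
        have h1 : (2 * Y.s + 2 * Y.n0) * j ≤ k * j := Nat.mul_le_mul_right j (by omega)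
        have h2 : Y.n0 ≤ Y.n0 * j := Nat.le_mul_of_pos_right _ h0
        nlinarith
      have hβ : k * j ≤ n / M0 := by
        rw [Nat.le_div_iff_mul_le (by omega)]
        calc k * j * M0 = M0 * k * j := by ring
          _ ≤ n := hjn
      have h1 := Y.down ((1 + Y.C) * j) (4 * ((1 + Y.C) * j)) j (n - Y.s * j) (n / M0) j D
        (by omega) (by
          refine le_trans ?_ hβ
          rw [hk]
          nlinarith) (by nlinarith) (by
          rw [Nat.sub_add_cancel (by omega)]; exact hDK) (by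
          intro w hw
          rw [hDd, mem_filter] at hw
          obtain ⟨-, h2, h3⟩ := hw
          constructor
          · have h4 : n < M0 * (Y.B w).card := not_le.1 h3
            have h5 := Nat.div_mul_le_self n M0
            by_contra hcon
            have h6 : (Y.B w).card + 1 ≤ n / M0 := by omega
            have h7 : M0 * ((Y.B w).card + 1) ≤ M0 * (n / M0) := Nat.mul_le_mul_left _ h6
            nlinarith
          · rw [hj, Nat.le_div_iff_mul_le (by omega), mul_comm]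
            exact h2)
      have hpos : 0 < ((1 + Y.C) * j) ^ j := by positivity
      have h2 : D.card * 4 ^ j ≤ (Y.K (n - Y.s * j)).card := by
        refine Nat.le_of_mul_le_mul_right ?_ hpos
        calc D.card * 4 ^ j * ((1 + Y.C) * j) ^ j = D.card * (4 * ((1 + Y.C) * j)) ^ j := by
              rw [mul_pow 4]; ring
          _ ≤ _ := h1
      have h2' : (D.card : ℝ) * 4 ^ j ≤ ((Y.K (n - Y.s * j)).card : ℝ) := by exact_mod_cast h2
      have h8 := hC1 (n - Y.s * j)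
      have h9 : C1 * ((1 + τ) * μ) ^ (n - Y.s * j) ≤ C1 * ((1 + τ) * μ) ^ n := by
        apply mul_le_mul_of_nonneg_left _ hC1'
        exact pow_le_pow_right₀ hMμ (Nat.sub_le _ _)
      have h10 : (D.card : ℝ) * 4 ^ j ≤
          (C1 * ((1 + τ) * μ) ^ n * (1 / 4) ^ j) * 4 ^ j := by
        refine le_trans h2' (le_trans h8 (le_trans h9 (le_of_eq ?_)))
        rw [mul_assoc (C1 * ((1 + τ) * μ) ^ n), ← mul_pow]
        norm_num
      exact le_of_mul_le_mul_right h10 (by positivity)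
  intro n
  set θ := max θ₁ (ρ / μ) with hθ
  have hθ0 : 0 < θ := lt_max_of_lt_left hθ0
  have hcov : Y.bad M n ⊆ (Y.K n).filter (fun w => M0 * (Y.B w).card ≤ n) ∪
      (Y.K n).filter (fun w => M * (Y.S w).card ≤ n ∧ ¬ M0 * (Y.B w).card ≤ n) := by
    intro w hw
    unfold Sys.bad at hw
    rw [mem_filter] at hw
    simp only [mem_union, mem_filter]
    obtain ⟨h1, h2⟩ := hw
    by_cases h3 : M0 * (Y.B w).card ≤ n
    · exact Or.inl ⟨h1, h3⟩
    · refine Or.inr ⟨h1, ?_, h3⟩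
      rcases h2 with h2 | h2
      · exact h2
      · exact absurd ((Nat.mul_le_mul_right _ hM0M).trans h2) h3
  have hcard : ((Y.bad M n).card : ℝ) ≤
      (((Y.K n).filter (fun w => M0 * (Y.B w).card ≤ n)).card : ℝ) +
      (((Y.K n).filter (fun w => M * (Y.S w).card ≤ n ∧ ¬ M0 * (Y.B w).card ≤ n)).card : ℝ) := by
    exact_mod_cast (card_le_card hcov).trans (card_union_le _ _)
  have hX : C1 * ((1 + τ) * μ) ^ n * (1 / 4) ^ (n / M) ≤ 4 * C1 * (θ * μ) ^ n := by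
    have h1 := Sys.expo hM1 hτ hθ₁ n
    have h2 : θ₁ ^ n ≤ θ ^ n := pow_le_pow_left₀ (by linarith) (le_max_left _ _) n
    calc C1 * ((1 + τ) * μ) ^ n * (1 / 4) ^ (n / M)
        = C1 * μ ^ n * ((1 + τ) ^ n * (1 / 4) ^ (n / M)) := by rw [mul_pow]; ring
      _ ≤ C1 * μ ^ n * (4 * θ ^ n) := by
          apply mul_le_mul_of_nonneg_left _ (by positivity)
          linarith
      _ = 4 * C1 * (θ * μ) ^ n := by rw [mul_pow]; ring
  have hY : ρ ^ n ≤ (θ * μ) ^ n := by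
    apply pow_le_pow_left₀ hρ0
    have h1 : ρ / μ ≤ θ := le_max_right _ _
    rwa [div_le_iff₀ hμ0] at h1
  have hZ : C0 * ρ ^ n ≤ |C0| * (θ * μ) ^ n :=
    (mul_le_mul_of_nonneg_right (le_abs_self C0) (by positivity)).trans
      (mul_le_mul_of_nonneg_left hY (abs_nonneg _))
  have q1 := hP n
  have q2 := hD n
  calc ((Y.bad M n).card : ℝ) ≤ _ := hcard
    _ ≤ |C0| * (θ * μ) ^ n + 4 * C1 * (θ * μ) ^ n :=
        add_le_add (q1.trans hZ) (q2.trans hX)
    _ = (|C0| + 4 * C1) * (θ * μ) ^ n := by ring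

/-- approximate logarithmic convexity, uniformly in the system and the weight -/
theorem convex_u (C s n0 : ℕ) (M : ℕ) (hM : 1 ≤ M) (μ θ θ₁ C' : ℝ) (hμ : 0 < μ) (hθ : 0 < θ)
    (hθ₁ : θ < θ₁) :
    ∀ᶠ n : ℕ in atTop, ∀ Y : Sys α σ, Y.C = C → Y.s = s → Y.n0 = n0 →
    ∀ f : α → ℝ, Y.Wt f → (∀ n : ℕ, Y.badf f M n ≤ C' * (θ * μ) ^ n) →
    (θ₁ * μ) ^ (n + s) ≤ Y.af f (n + s) →
    Y.af f (n + s) ^ 2 ≤ Y.af f n * Y.af f (n + s + s) *
      (1 + (8 * (6 * C * M + 1)) / n) := by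
  have herr : ∀ᶠ n : ℕ in atTop, ∀ Y : Sys α σ, Y.C = C → Y.s = s →
      (n : ℝ) * (C' * (θ * μ) ^ (n + Y.s) +
      Y.C * (n + 1) * (C' * (θ * μ) ^ n)) ≤ (θ₁ * μ) ^ (n + Y.s) := by
    by_cases h : ∃ Y : Sys α σ, Y.C = C ∧ Y.s = s
    · obtain ⟨Y0, h1, h2⟩ := h
      filter_upwards [Y0.errors μ θ θ₁ C' hμ hθ hθ₁] with n hn Y hY1 hY2
      rw [hY1, hY2]
      rw [h1, h2] at hn
      exact hn
    · refine Filter.Eventually.of_forall fun n Y h1 h2 => ?_
      exact absurd ⟨Y, h1, h2⟩ h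
  filter_upwards [herr, eventually_ge_atTop n0,
    eventually_ge_atTop (4 * M * C), eventually_ge_atTop (10 * (6 * C * M + 1))]
    with n hkall hn1 hn2 hn3 Y hYC hYs hYn f hf hbad hbig
  have hk1 := hkall Y hYC hYs
  clear hkall herr
  subst hYC hYs hYn
  have hC : (1 : ℝ) ≤ Y.C := by exact_mod_cast Y.hC
  have hM' : (1 : ℝ) ≤ M := by exact_mod_cast hM
  have hn3' : (10 * (6 * Y.C * M + 1) : ℝ) ≤ n := by exact_mod_cast hn3
  have hn2' : (4 * M * Y.C : ℝ) ≤ n := by exact_mod_cast hn2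
  have hn0 : (0 : ℝ) < n := by nlinarith
  have up := Y.upperW hf M n hn1 hn2
  have lo := Y.lowerW hf M n hn1 hn2
  have hpos : ∀ m, 0 ≤ Y.af f m := fun m => sum_nonneg fun w hw => hf.1 m w hw
  set G := (Y.K n).filter (Y.good M n) with hG
  have hf0 : ∀ w ∈ G, 0 ≤ f w := fun w hw => hf.1 n w (mem_filter.1 hw).1
  set S1 : ℝ := ∑ w ∈ G, f w * (((Y.S w).card : ℝ) / ((Y.B w).card : ℝ)) with hS1
  set S2 : ℝ := ∑ w ∈ G, f w * (((Y.S w).card : ℝ) / ((Y.B w).card : ℝ)) ^ 2 with hS2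
  have hgood : ∀ w ∈ G, ((n : ℝ) < M * (Y.S w).card ∧ (n : ℝ) < M * (Y.B w).card) ∧
      (4 * Y.C : ℝ) < (Y.S w).card ∧ (4 * Y.C : ℝ) < (Y.B w).card := by
    intro w hw
    have := (mem_filter.mp hw).2
    exact ⟨⟨by exact_mod_cast this.1, by exact_mod_cast this.2⟩,
      by exact_mod_cast Y.big hn2 this.1, by exact_mod_cast Y.big hn2 this.2⟩
  have hS2' : 0 ≤ S2 := by
    apply sum_nonneg; intro w hw
    exact mul_nonneg (hf0 w hw) (by positivity)
  have hcs : S1 ^ 2 ≤ Y.af f n * S2 := by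
    have h1 : S1 ^ 2 ≤ (∑ w ∈ G, f w) * S2 := by
      have h2 := Finset.sum_mul_sq_le_sq_mul_sq G (fun w => √(f w))
        (fun w => √(f w) * (((Y.S w).card : ℝ) / ((Y.B w).card : ℝ)))
      have e1 : ∑ w ∈ G, √(f w) * (√(f w) * (((Y.S w).card : ℝ) / ((Y.B w).card : ℝ))) =
          S1 := by
        rw [hS1]
        refine Finset.sum_congr rfl fun w hw => ?_
        rw [← mul_assoc, Real.mul_self_sqrt (hf0 w hw)]
      have e2 : ∑ w ∈ G, √(f w) ^ 2 = ∑ w ∈ G, f w :=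
        Finset.sum_congr rfl fun w hw => Real.sq_sqrt (hf0 w hw)
      have e3 : ∑ w ∈ G, (√(f w) * (((Y.S w).card : ℝ) / ((Y.B w).card : ℝ))) ^ 2 = S2 := by
        rw [hS2]
        refine Finset.sum_congr rfl fun w hw => ?_
        rw [mul_pow, Real.sq_sqrt (hf0 w hw)]
      rw [e1, e2, e3] at h2
      exact h2
    refine h1.trans ?_
    apply mul_le_mul_of_nonneg_right _ hS2'
    exact sum_le_sum_of_subset_of_nonneg (filter_subset _ _)
      fun w hw _ => hf.1 n w hw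
  have u1 : Y.af f (n + Y.s) - (Y.badf f M (n + Y.s) + Y.C * (n + 1) * Y.badf f M n) ≤
      (1 + 2 * Y.C * M / n) * S1 := by
    have : ∑ w ∈ G, f w * (((Y.S w).card : ℝ) / (((Y.B w).card : ℝ) - Y.C)) ≤
        (1 + 2 * Y.C * M / n) * S1 := by
      rw [hS1, mul_sum]
      apply sum_le_sum
      intro w hw
      have hg := hgood w hw
      have h3 := Sys.term1 ((Y.S w).card : ℝ) ((Y.B w).card : ℝ) Y.C M n hC hn0 (by positivity)
        hg.1.2 hg.2.2
      calc f w * (((Y.S w).card : ℝ) / (((Y.B w).card : ℝ) - Y.C)) ≤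
            f w * ((1 + 2 * Y.C * M / n) * (((Y.S w).card : ℝ) / ((Y.B w).card : ℝ))) :=
            mul_le_mul_of_nonneg_left h3 (hf0 w hw)
        _ = _ := by ring
    linarith
  have u2 : (1 - 4 * Y.C * M / n) * S2 ≤ Y.af f (n + Y.s + Y.s) := by
    refine le_trans ?_ lo
    rw [hS2, mul_sum]
    apply sum_le_sum
    intro w hw
    have hg := hgood w hw
    have h3 := Sys.term2 ((Y.S w).card : ℝ) ((Y.B w).card : ℝ) Y.C M n hC hM' hn2'
      hg.1.1 hg.1.2 hg.2.1 hg.2.2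
    calc (1 - 4 * Y.C * M / (n : ℝ)) *
          (f w * (((Y.S w).card : ℝ) / ((Y.B w).card : ℝ)) ^ 2) =
          f w * ((1 - 4 * Y.C * M / n) * (((Y.S w).card : ℝ) / ((Y.B w).card : ℝ)) ^ 2) := by
            ring
      _ ≤ _ := mul_le_mul_of_nonneg_left h3 (hf0 w hw)
  have u3 : (Y.badf f M (n + Y.s) + Y.C * (n + 1) * Y.badf f M n : ℝ) ≤
      Y.af f (n + Y.s) * (1 / n) := by
    rw [mul_one_div, le_div_iff₀ hn0]
    have b1 := hbad (n + Y.s)
    have b2 := hbad n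
    calc (Y.badf f M (n + Y.s) + Y.C * (n + 1) * Y.badf f M n : ℝ) * n
        ≤ (C' * (θ * μ) ^ (n + Y.s) + Y.C * (n + 1) * (C' * (θ * μ) ^ n)) * n := by
          apply mul_le_mul_of_nonneg_right _ hn0.le
          apply add_le_add b1
          exact mul_le_mul_of_nonneg_left b2 (by positivity)
      _ = n * (C' * (θ * μ) ^ (n + Y.s) + Y.C * (n + 1) * (C' * (θ * μ) ^ n)) := mul_comm _ _
      _ ≤ (θ₁ * μ) ^ (n + Y.s) := hk1
      _ ≤ _ := hbig
  have hfin := Sys.fin_ineq (Y.af f n) (Y.af f (n + Y.s)) (Y.af f (n + Y.s + Y.s))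
    (Y.badf f M (n + Y.s) + Y.C * (n + 1) * Y.badf f M n) S1 S2 (2 * Y.C * M / n)
    (4 * Y.C * M / n) (1 / n) (hpos _) (hpos _) hcs (by positivity) (by positivity)
    (by positivity) (by
      have e : 2 * (Y.C : ℝ) * M / n + 4 * Y.C * M / n + 1 / n = (6 * Y.C * M + 1) / n := by
        ring
      rw [e, div_le_div_iff₀ hn0 (by norm_num)]
      linarith) u1 u3 u2 (hpos _)
  have e : 1 + 8 * (2 * (Y.C : ℝ) * M / n + 4 * Y.C * M / n + 1 / n) =
      1 + (8 * (6 * Y.C * M + 1)) / n := by ring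
  rw [e] at hfin
  exact hfin

end Q219.SAW
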