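import Pool.Agent.TH966.AK.Main
import Pool.Agent.Q219.SAW.Uni

/-!
# Local moves for walks in domains
-/

set_option autoImplicit false

namespace Q219.SAW

open Finset Filter Topology TH966.AK
open scoped Classical

variable {A : P → P → Prop} (Z : Rule A)

noncomputable section

/-- all points of the list are in the domain -/
def In (D : Set P) (w : List P) : Prop := ∀ x ∈ w, x ∈ D

/-- walks in the domain -/
def KD (A : P → P → Prop) (D : Set P) (n : ℕ) : Finset (List P) := (Kw A n).filter (In D)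

/-- upward moves in the domain -/
def SD (D : Set P) (w : List P) : Finset (List P × List P) := (Z.S w).filter (fun q => In D q.2)

variable {Z}

theorem mem_SD {D : Set P} {w : List P} {q : List P × List P} :
    q ∈ SD Z D w ↔ (Z.T q.1 q.2 ∧ Free q.1 q.2 w) ∧ In D q.2 := by
  unfold SD
  rw [mem_filter, Z.mem_S]

include Z in
theorem mem_KD {D : Set P} {n : ℕ} {w : List P} :
    w ∈ KD A D n ↔ (w.length = n + 1 ∧ Walk A w) ∧ In D w := by
  unfold KD
  rw [mem_filter, Z.mem_K]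

/-- which moves change -/
theorem change_set {U U' L R : List P} (hT : Z.T U U' ∨ Z.T U' U) (h : Pair A U U') :
    ∃ p, (∀ q ∈ Z.S (L ++ U ++ R), q ∉ Z.S (L ++ U' ++ R) → q ∈ Z.near p) ∧
      (∀ q ∈ Z.B (L ++ U ++ R), q ∉ Z.B (L ++ U' ++ R) → q ∈ Z.near p) := by
  obtain ⟨p, U0, h3⟩ := List.exists_cons_of_ne_nil (Rule.ne_nil h)
  have hnear : ∀ V V', Z.T V V' → ∀ x ∈ U ++ U', x ∈ V ++ V' → (V, V') ∈ Z.near p := by
    intro V V' hV x hx hx'
    rcases hT with hT | hT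
    · exact Z.mem_near hT hV (by rw [h3]; simp) hx hx'
    · refine Z.mem_near hT hV (by rw [h3]; simp) ?_ hx'
      rw [List.mem_append] at hx ⊢
      exact hx.symm
  refine ⟨p, ?_, ?_⟩
  · rintro ⟨V, V'⟩ hq hq'
    rw [Z.mem_S] at hq hq'
    by_contra hcon
    refine hq' ⟨hq.1, keep h (Rule.ne_nil (Z.pair _ _ hq.1)) hq.2 fun x hx hc => ?_⟩
    exact hcon (hnear V V' hq.1 x hx hc)
  · rintro ⟨V, V'⟩ hq hq'
    rw [Z.mem_B] at hq hq'
    by_contra hcon
    refine hq' ⟨hq.1, keep h (Rule.ne_nil (Z.pair _ _ hq.1).symm) hq.2 fun x hx hc => ?_⟩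
    refine hcon (hnear V V' hq.1 x hx ?_)
    rw [List.mem_append] at hc ⊢
    exact hc.symm

theorem changeD {D : Set P} {U U' L R : List P} (hT : Z.T U U' ∨ Z.T U' U) (h : Pair A U U') :
    (SD Z D (L ++ U ++ R)).card ≤ (SD Z D (L ++ U' ++ R)).card + Z.CC ∧
    (Z.B (L ++ U ++ R)).card ≤ (Z.B (L ++ U' ++ R)).card + Z.CC := by
  obtain ⟨p, h1, h2⟩ := change_set (L := L) (R := R) hT h
  constructor
  · refine Rule.card_le_of_diff (N := Z.near p) ?_ (Z.card_near p)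
    intro q hq hq'
    unfold SD at hq hq'
    rw [mem_filter] at hq hq'
    refine h1 q hq.1 fun hc => hq' ⟨hc, hq.2⟩
  · exact Rule.card_le_of_diff (N := Z.near p) h2 (Z.card_near p)

variable (Z)

/-- the system of moves of the walks in a domain -/
def sysD (hsh : ∀ U U', Z.T U U' → ∀ x ∈ U, x ∈ U') (D : Set P) :
    Sys (List P) (List P × List P) where
  K := KD A D
  S := SD Z D
  B := Z.B
  ins w q := Rule.rep w q.1 q.2
  rem w q := Rule.rep w q.2 q.1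
  s := Z.s
  C := Z.CC
  n0 := 0
  hC := by unfold Rule.CC; omega
  ins_K := by
    rintro n w ⟨U, U'⟩ hw hq
    rw [mem_KD (Z := Z)] at hw ⊢
    rw [mem_SD] at hq
    obtain ⟨L, R, h1, h2, h3, h4, h5⟩ := Rule.rep_all (Z.pair _ _ hq.1.1) hw.1.2 hq.1.2
    have hl := Z.len _ _ hq.1.1
    simp only at h1 h2 h3 h4 h5 hl hq ⊢
    rw [h2]
    refine ⟨⟨?_, h3⟩, ?_⟩
    · have h6 := hw.1.1
      rw [h1] at h6
      simp only [List.length_append] at h6 ⊢
      omega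
    · intro x hx
      rw [List.mem_append, List.mem_append] at hx
      have h6 := hw.2
      rw [h1] at h6
      rcases hx with (hx | hx) | hx
      · exact h6 x (by simp [hx])
      · exact hq.2 x hx
      · exact h6 x (by simp [hx])
  ins_B := by
    rintro n w ⟨U, U'⟩ hw hq
    rw [mem_KD (Z := Z)] at hw
    rw [mem_SD] at hq
    obtain ⟨L, R, h1, h2, h3, h4, h5⟩ := Rule.rep_all (Z.pair _ _ hq.1.1) hw.1.2 hq.1.2
    rw [Z.mem_B, h2]
    exact ⟨hq.1.1, h4⟩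
  rem_ins := by
    rintro n w ⟨U, U'⟩ hw hq
    rw [mem_KD (Z := Z)] at hw
    rw [mem_SD] at hq
    obtain ⟨L, R, h1, h2, h3, h4, h5⟩ := Rule.rep_all (Z.pair _ _ hq.1.1) hw.1.2 hq.1.2
    rw [h2]
    exact h5
  rem_K := by
    rintro n w ⟨U, U'⟩ - hw hq
    rw [mem_KD (Z := Z)] at hw ⊢
    rw [Z.mem_B] at hq
    obtain ⟨L, R, h1, h2, h3, h4, h5⟩ := Rule.rep_all (Z.pair _ _ hq.1).symm hw.1.2 hq.2
    have hl := Z.len _ _ hq.1
    simp only at h1 h2 h3 h4 h5 hl hq ⊢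
    rw [h2]
    refine ⟨⟨?_, h3⟩, ?_⟩
    · have h6 := hw.1.1
      rw [h1] at h6
      simp only [List.length_append] at h6 ⊢
      omega
    · intro x hx
      rw [List.mem_append, List.mem_append] at hx
      have h6 := hw.2
      rw [h1] at h6
      rcases hx with (hx | hx) | hx
      · exact h6 x (by simp [hx])
      · exact h6 x (by simp [hsh _ _ hq.1 x hx])
      · exact h6 x (by simp [hx])
  rem_S := by
    rintro n w ⟨U, U'⟩ - hw hq
    rw [mem_KD (Z := Z)] at hw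
    rw [Z.mem_B] at hq
    obtain ⟨L, R, h1, h2, h3, h4, h5⟩ := Rule.rep_all (Z.pair _ _ hq.1).symm hw.1.2 hq.2
    rw [mem_SD, h2]
    refine ⟨⟨hq.1, h4⟩, ?_⟩
    intro x hx
    have h6 := hw.2
    rw [h1] at h6
    exact h6 x (by simp [show x ∈ U' from hx])
  ins_rem := by
    rintro n w ⟨U, U'⟩ - hw hq
    rw [mem_KD (Z := Z)] at hw
    rw [Z.mem_B] at hq
    obtain ⟨L, R, h1, h2, h3, h4, h5⟩ := Rule.rep_all (Z.pair _ _ hq.1).symm hw.1.2 hq.2
    rw [h2]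
    exact h5
  chS1 := by
    rintro n w ⟨U, U'⟩ hw hq
    rw [mem_KD (Z := Z)] at hw
    rw [mem_SD] at hq
    obtain ⟨L, R, h1, h2, h3, h4, h5⟩ := Rule.rep_all (Z.pair _ _ hq.1.1) hw.1.2 hq.1.2
    rw [h2]
    conv_lhs => rw [h1]
    exact (changeD (Or.inl hq.1.1) (Z.pair _ _ hq.1.1)).1
  chS2 := by
    rintro n w ⟨U, U'⟩ hw hq
    rw [mem_KD (Z := Z)] at hw
    rw [mem_SD] at hq
    obtain ⟨L, R, h1, h2, h3, h4, h5⟩ := Rule.rep_all (Z.pair _ _ hq.1.1) hw.1.2 hq.1.2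
    rw [h2]
    conv_rhs => rw [h1]
    exact (changeD (Or.inr hq.1.1) (Z.pair _ _ hq.1.1).symm).1
  chB1 := by
    rintro n w ⟨U, U'⟩ hw hq
    rw [mem_KD (Z := Z)] at hw
    rw [mem_SD] at hq
    obtain ⟨L, R, h1, h2, h3, h4, h5⟩ := Rule.rep_all (Z.pair _ _ hq.1.1) hw.1.2 hq.1.2
    rw [h2]
    conv_lhs => rw [h1]
    exact (changeD (D := D) (Or.inl hq.1.1) (Z.pair _ _ hq.1.1)).2
  chB2 := by
    rintro n w ⟨U, U'⟩ hw hq
    rw [mem_KD (Z := Z)] at hw
    rw [mem_SD] at hq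
    obtain ⟨L, R, h1, h2, h3, h4, h5⟩ := Rule.rep_all (Z.pair _ _ hq.1.1) hw.1.2 hq.1.2
    rw [h2]
    conv_rhs => rw [h1]
    exact (changeD (D := D) (Or.inr hq.1.1) (Z.pair _ _ hq.1.1).symm).2
  S_le := by
    intro n w hw
    have hw' : w ∈ Kw A n := (mem_filter.1 hw).1
    refine (card_filter_le _ _).trans ?_
    exact Z.sys.S_le n w hw'

/-- weights between `0` and `1` which do not change under the moves in the domain -/
structure WtD (D : Set P) (f : List P → ℝ) : Prop where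
  nn : ∀ w, 0 ≤ f w
  le : ∀ w, f w ≤ 1
  inv : ∀ w U U', Walk A w → In D w → Z.T U U' → Free U U' w → In D U' →
    f (Rule.rep w U U') = f w

/-- weighted numbers of walks in the domain -/
def cD (A : P → P → Prop) (D : Set P) (f : List P → ℝ) (n : ℕ) : ℝ := ∑ w ∈ KD A D n, f w

variable {Z}

theorem cD_nonneg {D : Set P} {f : List P → ℝ} (hf : ∀ w, 0 ≤ f w) (n : ℕ) : 0 ≤ cD A D f n :=
  sum_nonneg fun _ _ => hf _

theorem cD_le {D : Set P} {f : List P → ℝ} (hf : ∀ w, f w ≤ 1) (n : ℕ) :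
    cD A D f n ≤ (Kw A n).card := by
  unfold cD
  refine (sum_le_sum (g := fun _ => (1 : ℝ)) fun w _ => hf w).trans ?_
  rw [sum_const, nsmul_one]
  exact_mod_cast card_le_card (filter_subset _ _)

/-- the local form of the estimate of the ratios -/
theorem rate_loc (D θ : ℝ) (k0 : ℕ) (hD : 0 ≤ D) (hθ0 : 0 < θ) (hθ1 : θ < 1) {K : ℝ}
    (hK0 : 0 ≤ K) :
    ∃ (R δ : ℝ) (k1 : ℕ), 0 < R ∧ 0 < δ ∧ ∀ y : ℕ → ℝ, TH966.KS.Kes y D θ k0 →
      (∀ k, 0 ≤ y k) →
      (∀ k : ℕ, 2 ≤ k → ∀ m ≤ k, y m ≤ Real.exp (K * Real.log k ^ 2)) →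
      ∀ k : ℕ, k1 ≤ k → ∀ Λ : ℝ, Real.log k ^ 2 ≤ Λ → Λ ≤ δ * k → Real.exp (-Λ) ≤ y k →
      |y (k + 1) / y k - 1| ≤ R * √(Λ / k) := by
  set M : ℝ := 16 * (D + 1) with hM
  have hM0 : 0 < M := by positivity
  set R : ℝ := √(4 * M * (4 * K + 1) + 1) with hR
  have hR0 : 0 < R := Real.sqrt_pos.2 (by positivity)
  have hRp : R ^ 2 = 4 * M * (4 * K + 1) + 1 := Real.sq_sqrt (by positivity)
  have hlθ : 0 < Real.log (1 / θ) := Real.log_pos (by rw [lt_div_iff₀ hθ0]; linarith)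
  set δ : ℝ := min (1 / (4 * R ^ 2)) (Real.log (1 / θ)) with hδ
  have hδ0 : 0 < δ := lt_min (by positivity) hlθ
  have t2 : Tendsto (fun k : ℕ => R * √(k : ℝ)) atTop atTop :=
    (Real.tendsto_sqrt_atTop.comp tendsto_natCast_atTop_atTop).const_mul_atTop hR0
  have t3 : Tendsto (fun k : ℕ => Real.log (k : ℝ)) atTop atTop :=
    Real.tendsto_log_atTop.comp tendsto_natCast_atTop_atTop
  obtain ⟨k1, hk1⟩ := eventually_atTop.1 (((t2.eventually_ge_atTop M).and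
    (t3.eventually_ge_atTop 1)).and (eventually_ge_atTop (2 * k0 + 8)))
  refine ⟨R, δ, k1, hR0, hδ0, ?_⟩
  intro y hK hy hgr k hkk Λ hΛ1 hΛ2 hyl
  obtain ⟨⟨e2, e3⟩, hk⟩ := hk1 k hkk
  have hkR : (0 : ℝ) < k := by exact_mod_cast (show 0 < k by omega)
  set L : ℝ := Real.log k with hL
  have hL2 : 1 ≤ L ^ 2 := by nlinarith
  have hΛ0 : 1 ≤ Λ := hL2.trans hΛ1
  have hΛp : 0 < Λ := by linarith
  set c : ℝ := R * √(Λ / k) with hc
  have hc0 : 0 < c := by positivity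
  have hcsq : c ^ 2 = R ^ 2 * (Λ / k) := by
    have h0 : √(Λ / (k : ℝ)) ^ 2 = Λ / k := Real.sq_sqrt (by positivity)
    rw [hc, mul_pow, h0]
  have hc2 : c ≤ 1 / 2 := by
    have h1 : c ^ 2 ≤ (1 / 2) ^ 2 := by
      rw [hcsq]
      have h2 : Λ / k ≤ 1 / (4 * R ^ 2) := by
        rw [div_le_iff₀ hkR]
        exact hΛ2.trans (mul_le_mul_of_nonneg_right (min_le_left _ _) hkR.le)
      calc R ^ 2 * (Λ / k) ≤ R ^ 2 * (1 / (4 * R ^ 2)) :=
            mul_le_mul_of_nonneg_left h2 (by positivity)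
        _ = (1 / 2) ^ 2 := by field_simp; norm_num
    exact (sq_le_sq₀ hc0.le (by norm_num)).1 h1
  have hck : M ≤ c * k := by
    have h1 : R * √(k : ℝ) ≤ c * k := by
      have h2 : √(k : ℝ) ≤ √(Λ / k) * k := by
        have h3 : √(Λ / k) * k = √(Λ * k) := by
          rw [show Λ * k = Λ / k * k ^ 2 by field_simp, Real.sqrt_mul (by positivity),
            Real.sqrt_sq hkR.le]
        rw [h3]
        exact Real.sqrt_le_sqrt (by nlinarith)
      calc R * √(k : ℝ) ≤ R * (√(Λ / k) * k) := mul_le_mul_of_nonneg_left h2 hR0.le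
        _ = c * k := by rw [hc]; ring
    exact e2.trans h1
  have hyk : 0 < y k := (Real.exp_pos _).trans_le hyl
  have hcc : c * (c * k) = R ^ 2 * Λ := by
    have : c * (c * k) = c ^ 2 * k := by ring
    rw [this, hcsq]
    field_simp
  have hθk : θ ^ k ≤ y k := by
    refine le_trans ?_ hyl
    have h1 : Λ ≤ k * Real.log (1 / θ) := by
      rw [mul_comm]
      exact hΛ2.trans (mul_le_mul_of_nonneg_right (min_le_right _ _) hkR.le)
    have h2 : θ ^ k = Real.exp (-(k * Real.log (1 / θ))) := by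
      rw [one_div, Real.log_inv, mul_neg, neg_neg, Real.exp_nat_mul, Real.exp_log hθ0]
    rw [h2]
    exact Real.exp_le_exp.2 (by linarith)
  -- the contradiction
  have hfin : ∀ J m : ℕ, c * k / M ≤ J → m ≤ 2 * k →
      Real.exp (c / 4 * J) * y k ≤ y m → False := by
    intro J m hJ hm2 hle
    have h1 : Real.exp (c / 4 * J) * Real.exp (-Λ) ≤
        Real.exp (K * Real.log ((2 * k : ℕ) : ℝ) ^ 2) := by
      refine le_trans ?_ (hgr (2 * k) (by omega) m hm2)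
      refine le_trans ?_ hle
      exact mul_le_mul_of_nonneg_left hyl (Real.exp_pos _).le
    rw [← Real.exp_add, Real.exp_le_exp] at h1
    have h2 : Real.log ((2 * k : ℕ) : ℝ) ≤ 2 * L := by
      have h3 : ((2 * k : ℕ) : ℝ) ≤ k * k := by
        exact_mod_cast Nat.mul_le_mul_right k (show 2 ≤ k by omega)
      have h5 := Real.log_le_log (by exact_mod_cast (show 0 < 2 * k by omega)) h3
      rw [Real.log_mul hkR.ne' hkR.ne'] at h5
      rw [hL]; linarith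
    have h6 : 0 ≤ Real.log ((2 * k : ℕ) : ℝ) :=
      Real.log_nonneg (by exact_mod_cast (show 1 ≤ 2 * k by omega))
    have h7 : Real.log ((2 * k : ℕ) : ℝ) ^ 2 ≤ (2 * L) ^ 2 := pow_le_pow_left₀ h6 h2 2
    have h7' : K * Real.log ((2 * k : ℕ) : ℝ) ^ 2 ≤ K * (4 * Λ) := by
      refine mul_le_mul_of_nonneg_left (h7.trans ?_) hK0
      rw [mul_pow]
      linarith
    have h8 : c / 4 * (c * k / M) ≤ K * (4 * Λ) + Λ := by
      have := mul_le_mul_of_nonneg_left hJ (show 0 ≤ c / 4 by positivity)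
      linarith
    have h9 : c / 4 * (c * k / M) = R ^ 2 * Λ / (4 * M) := by
      rw [← hcc]; field_simp
    rw [h9, hRp, div_le_iff₀ (by positivity)] at h8
    nlinarith
  rw [abs_le]
  constructor
  · by_contra hcon
    have h1 : y (k + 1) / y k < 1 - c := by linarith [not_le.1 hcon]
    rw [div_lt_iff₀ hyk] at h1
    obtain ⟨J, hJ1, hJ2, hJk, hJ3⟩ := TH966.KO.prop_down hK hy hD hθ0 hθ1 hc0
      hc2 (by omega) (by omega) hck hyk hθk h1
    exact hfin J (k - J) hJ1 (by omega) hJ3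
  · by_contra hcon
    have h1 : 1 + c < y (k + 1) / y k := by linarith [not_le.1 hcon]
    rw [lt_div_iff₀ hyk] at h1
    obtain ⟨J, hJ1, hJk, hJ3⟩ := prop_up' hK hy hD hθ0 hθ1 hc0
      hc2 (by omega) (by omega) hck hyk hθk h1
    exact hfin J (k + J) hJ1 (by omega) hJ3

/-- the ratios along one residue class -/
theorem ratio_res {μ K : ℝ} (G : Growth Z μ K) (hsh : ∀ U U', Z.T U U' → ∀ x ∈ U, x ∈ U')
    (r : ℕ) :
    ∃ (R δ : ℝ) (k1 : ℕ), 0 < R ∧ 0 < δ ∧ ∀ (D : Set P) (f : List P → ℝ), WtD Z D f →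
      ∀ k : ℕ, k1 ≤ k → ∀ Λ : ℝ, Real.log k ^ 2 ≤ Λ → Λ ≤ δ * k →
      Real.exp (-Λ) * μ ^ (Z.s * k + r) ≤ cD A D f (Z.s * k + r) →
      |cD A D f (Z.s * k + r + Z.s) / cD A D f (Z.s * k + r) / μ ^ Z.s - 1| ≤ R * √(Λ / k) := by
  have hμ := G.hμ
  have hμ0 : 0 < μ := by linarith
  have hs := G.hs
  have hK0 := G.hK
  obtain ⟨M0, ρ, C0, hM0, hρ0, hρ1, hpoor⟩ := G.poor
  choose C1 hC1 using G.hup
  obtain ⟨M, θ, C', hM, hθ0, hθ1, hC', hbad⟩ := pattern_u (α := List P) (σ := List P × List P)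
    Z.CC Z.s 0 μ hμ (fun τ => if h : 0 < τ then C1 τ h else 0) M0 ρ C0 hM0 hρ0 hρ1
  obtain ⟨θ₁, hθ₁⟩ : ∃ θ₁ : ℝ, θ₁ = (1 + θ) / 2 := ⟨_, rfl⟩
  have hθ₁0 : 0 < θ₁ := by linarith
  have hθ₁1 : θ₁ < 1 := by linarith
  have hconv := convex_u (α := List P) (σ := List P × List P) Z.CC Z.s 0 M hM μ θ θ₁ C' hμ0 hθ0
    (by linarith)
  obtain ⟨K', hK', hg⟩ := G.grow r
  obtain ⟨θK, hθK⟩ : ∃ θK : ℝ, θK = √θ₁ := ⟨_, rfl⟩
  have hθK0 : 0 < θK := by rw [hθK]; exact Real.sqrt_pos.2 hθ₁0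
  have hθK1 : θK < 1 := by
    rw [hθK, Real.sqrt_lt' one_pos]
    linarith
  have hθK2 : θK ^ 2 = θ₁ := by rw [hθK]; exact Real.sq_sqrt hθ₁0.le
  have ht : Tendsto (fun k : ℕ => Z.s * k + r) atTop atTop := by
    refine tendsto_atTop_mono (fun k => ?_) tendsto_id
    have := Nat.mul_le_mul_right k hs
    simp only [id]
    omega
  obtain ⟨k0, hk0⟩ := eventually_atTop.1 (ht.eventually hconv)
  obtain ⟨R, δ, k1, hR, hδ, hrate⟩ := rate_loc (8 * (6 * Z.CC * M + 1)) θK (max k0 1)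
    (by positivity) hθK0 hθK1 hK'
  refine ⟨R, δ, k1, hR, hδ, ?_⟩
  intro D f hf k hk Λ hΛ1 hΛ2 hlow
  obtain ⟨Y, hY⟩ : ∃ Y, Y = sysD Z hsh D := ⟨_, rfl⟩
  have hYC : Y.C = Z.CC := by rw [hY]; rfl
  have hYs : Y.s = Z.s := by rw [hY]; rfl
  have hYn : Y.n0 = 0 := by rw [hY]; rfl
  have hYK : ∀ n, Y.K n = KD A D n := by intro n; rw [hY]; rfl
  have hYB : ∀ w, Y.B w = Z.B w := by intro n; rw [hY]; rfl
  have hwt : Y.Wt f := by
    refine ⟨fun n w _ => hf.nn w, ?_⟩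
    rintro n w ⟨U, U'⟩ hw hq
    rw [hY] at hw hq ⊢
    change w ∈ KD A D n at hw
    change (U, U') ∈ SD Z D w at hq
    change f (Rule.rep w U U') = f w
    rw [mem_KD (Z := Z)] at hw
    rw [mem_SD] at hq
    exact hf.inv w U U' hw.1.2 hw.2 hq.1.1 hq.1.2 hq.2
  have hYbad : ∀ n, ((Y.bad M n).card : ℝ) ≤ C' * (θ * μ) ^ n := by
    refine hbad Y hYC hYs hYn ?_ ?_
    · intro τ hτ n
      simp only [dif_pos hτ]
      refine le_trans ?_ (hC1 τ hτ n)
      rw [hYK]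
      exact_mod_cast card_le_card (filter_subset _ _)
    · intro n
      refine le_trans ?_ (hpoor n)
      rw [hYK]
      have : ((KD A D n).filter (fun w => M0 * (Y.B w).card ≤ n)) ⊆
          (Kw A n).filter (fun w => M0 * (Z.B w).card ≤ n) := by
        intro w hw
        rw [mem_filter] at hw ⊢
        rw [hYB] at hw
        exact ⟨(mem_filter.1 hw.1).1, hw.2⟩
      exact_mod_cast card_le_card this
  have haf : ∀ n, Y.af f n = cD A D f n := by
    intro n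
    unfold Sys.af cD
    rw [hYK]
  have hbadf : ∀ n, Y.badf f M n ≤ C' * (θ * μ) ^ n := by
    intro n
    refine le_trans ?_ (hYbad n)
    unfold Sys.badf
    rw [← nsmul_one, ← sum_const]
    exact sum_le_sum fun w _ => hf.le w
  obtain ⟨y, hy⟩ : ∃ y : ℕ → ℝ, y = fun k => cD A D f (Z.s * k + r) / μ ^ (Z.s * k + r) :=
    ⟨_, rfl⟩
  have hy0 : ∀ k, 0 ≤ y k := by
    intro k
    rw [hy]
    exact div_nonneg (cD_nonneg hf.nn _) (by positivity)
  have hKes : TH966.KS.Kes y (8 * (6 * Z.CC * M + 1)) θK (max k0 1) := by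
    intro j hj hth
    have hj1 : 1 ≤ j := le_trans (le_max_right _ _) hj
    have h1 := hk0 j (le_trans (le_max_left _ _) hj) Y hYC hYs hYn f hwt hbadf
    rw [haf, haf, haf] at h1
    have e1 : Z.s * j + r + Z.s = Z.s * (j + 1) + r := by ring
    have e2 : Z.s * (j + 1) + r + Z.s = Z.s * (j + 2) + r := by ring
    rw [e1, e2] at h1
    have h2 := h1 (by
      rw [mul_pow]
      rw [hy] at hth
      simp only at hth
      rw [le_div_iff₀ (by positivity)] at hth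
      refine le_trans (mul_le_mul_of_nonneg_right ?_ (by positivity)) hth
      have e3 : 2 * j + 2 = 2 * (j + 1) := by ring
      rw [e3, pow_mul, hθK2]
      refine pow_le_pow_of_le_one hθ₁0.le hθ₁1.le ?_
      have := Nat.mul_le_mul_right (j + 1) hs
      omega)
    have hj' : (1 : ℝ) ≤ j := by exact_mod_cast hj1
    have h3 : (1 : ℝ) + (8 * (6 * Z.CC * M + 1)) / ((Z.s * j + r : ℕ) : ℝ) ≤
        1 + (8 * (6 * Z.CC * M + 1)) / j := by
      refine add_le_add le_rfl (div_le_div_of_nonneg_left (by positivity) (by positivity) ?_)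
      have h4 : j ≤ Z.s * j + r := by
        have := Nat.mul_le_mul_right j hs
        omega
      exact_mod_cast h4
    have h4 : cD A D f (Z.s * (j + 1) + r) ^ 2 ≤ cD A D f (Z.s * j + r) *
        cD A D f (Z.s * (j + 2) + r) * (1 + (8 * (6 * Z.CC * M + 1)) / j) := by
      refine h2.trans (mul_le_mul_of_nonneg_left ?_
        (mul_nonneg (cD_nonneg hf.nn _) (cD_nonneg hf.nn _)))
      exact h3
    rw [hy]
    simp only
    have e3 : (μ ^ (Z.s * (j + 1) + r)) ^ 2 = μ ^ (Z.s * j + r) * μ ^ (Z.s * (j + 2) + r) := by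
      rw [← pow_mul, ← pow_add]
      congr 1
      ring
    rw [div_pow, div_mul_div_comm, div_mul_eq_mul_div, e3]
    exact div_le_div_of_nonneg_right h4 (by positivity)
  have hgr : ∀ k : ℕ, 2 ≤ k → ∀ m ≤ k, y m ≤ Real.exp (K' * Real.log k ^ 2) := by
    intro k hk2 m hm
    refine le_trans ?_ (hg k hk2 m hm)
    rw [hy]
    unfold yy
    exact div_le_div_of_nonneg_right (cD_le hf.le _) (by positivity)
  have hlow' : Real.exp (-Λ) ≤ y k := by
    rw [hy]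
    simp only
    rw [le_div_iff₀ (by positivity)]
    exact hlow
  have hfin := hrate y hKes hy0 hgr k hk Λ hΛ1 hΛ2 hlow'
  have e : cD A D f (Z.s * k + r + Z.s) / cD A D f (Z.s * k + r) / μ ^ Z.s =
      y (k + 1) / y k := by
    rw [hy]
    simp only
    have e1 : Z.s * (k + 1) + r = Z.s * k + r + Z.s := by ring
    have h2 : 0 < cD A D f (Z.s * k + r) := lt_of_lt_of_le (by positivity) hlow
    rw [e1, pow_add μ (Z.s * k + r) Z.s]
    field_simp
  rw [e]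
  exact hfin

/-- **the uniform ratio theorem** -/
theorem ratio_dom {μ K : ℝ} (G : Growth Z μ K) (hsh : ∀ U U', Z.T U U' → ∀ x ∈ U, x ∈ U') :
    ∃ (R δ : ℝ) (n1 : ℕ), 0 < R ∧ 0 < δ ∧ ∀ (D : Set P) (f : List P → ℝ), WtD Z D f →
      ∀ n : ℕ, n1 ≤ n → ∀ Λ : ℝ, Real.log n ^ 2 ≤ Λ → Λ ≤ δ * n →
      Real.exp (-Λ) * μ ^ n ≤ cD A D f n →
      |cD A D f (n + Z.s) / cD A D f n / μ ^ Z.s - 1| ≤ R * √(Λ / n) := by
  have hs := G.hs
  choose R δ k1 hR hδ h using ratio_res G hsh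
  obtain ⟨S, hS⟩ : ∃ S : ℝ, S = ∑ r ∈ range Z.s, R r := ⟨_, rfl⟩
  have hne : (range Z.s).Nonempty := ⟨0, mem_range.2 hs⟩
  obtain ⟨δ', hδ'⟩ : ∃ δ' : ℝ, δ' = (range Z.s).inf' hne δ := ⟨_, rfl⟩
  have hδ'0 : 0 < δ' := by
    rw [hδ', Finset.lt_inf'_iff]
    exact fun r _ => hδ r
  obtain ⟨k2, hk2⟩ : ∃ k2 : ℕ, k2 = ∑ r ∈ range Z.s, k1 r := ⟨_, rfl⟩
  have hS0 : 0 ≤ S := by
    rw [hS]
    exact sum_nonneg fun r _ => (hR r).le
  have hs1 : (1 : ℝ) ≤ Z.s := by exact_mod_cast hs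
  refine ⟨(S + 1) * (2 * Z.s), δ' / (2 * Z.s), Z.s * (k2 + 2), by positivity, by positivity, ?_⟩
  intro D f hf n hn Λ hΛ1 hΛ2 hlow
  obtain ⟨k, hk⟩ : ∃ k, k = n / Z.s := ⟨_, rfl⟩
  obtain ⟨r, hr⟩ : ∃ r, r = n % Z.s := ⟨_, rfl⟩
  have hrs : r < Z.s := by rw [hr]; exact Nat.mod_lt _ hs
  have hnk : Z.s * k + r = n := by rw [hk, hr]; exact Nat.div_add_mod n Z.s
  have hkk : k2 + 2 ≤ k := by
    rw [hk, Nat.le_div_iff_mul_le hs, mul_comm]
    exact hn
  have hk1r : k1 r ≤ k := by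
    have : k1 r ≤ k2 := by
      rw [hk2]
      exact single_le_sum (f := k1) (fun _ _ => Nat.zero_le _) (mem_range.2 hrs)
    omega
  have hkn : k ≤ n := by
    have := Nat.mul_le_mul_right k hs
    omega
  have hk0 : (0 : ℝ) < k := by
    have : 0 < k := by omega
    exact_mod_cast this
  have hn0 : (0 : ℝ) < n := lt_of_lt_of_le hk0 (by exact_mod_cast hkn)
  have hk2n : (n : ℝ) ≤ 2 * Z.s * k := by
    have h10 : n ≤ Z.s * k + Z.s := by omega
    have h11 : (n : ℝ) ≤ Z.s * k + Z.s := by exact_mod_cast h10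
    have h12 : (1 : ℝ) ≤ k := by exact_mod_cast (show 1 ≤ k by omega)
    nlinarith
  have hlk : Real.log (k : ℝ) ≤ Real.log n := Real.log_le_log hk0 (by exact_mod_cast hkn)
  have hlk0 : 0 ≤ Real.log (k : ℝ) := Real.log_nonneg (by exact_mod_cast (show 1 ≤ k by omega))
  have hΛ0 : 0 ≤ Λ := (sq_nonneg _).trans hΛ1
  have g1 := h r D f hf k hk1r Λ ((pow_le_pow_left₀ hlk0 hlk 2).trans hΛ1) (by
    refine hΛ2.trans ?_
    have h1 : δ' ≤ δ r := by
      rw [hδ']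
      exact Finset.inf'_le _ (mem_range.2 hrs)
    calc δ' / (2 * Z.s) * n ≤ δ' / (2 * Z.s) * (2 * Z.s * k) :=
          mul_le_mul_of_nonneg_left hk2n (by positivity)
      _ = δ' * k := by field_simp
      _ ≤ δ r * k := mul_le_mul_of_nonneg_right h1 hk0.le) (by rw [hnk]; exact hlow)
  rw [hnk] at g1
  refine g1.trans ?_
  have hRS : R r ≤ S := by
    rw [hS]
    exact single_le_sum (f := R) (fun i _ => (hR i).le) (mem_range.2 hrs)
  have h7 : √(Λ / k) ≤ 2 * Z.s * √(Λ / n) := by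
    rw [Real.sqrt_le_left (by positivity), mul_pow, Real.sq_sqrt (by positivity)]
    rw [div_le_iff₀ hk0]
    have h8 : Λ ≤ Λ / n * (2 * Z.s * k) := by
      rw [div_mul_eq_mul_div, le_div_iff₀ hn0]
      exact mul_le_mul_of_nonneg_left hk2n hΛ0
    refine h8.trans ?_
    have h9 : 0 ≤ Λ / n * k := by positivity
    have h10 : (2 * (Z.s : ℝ)) ≤ (2 * Z.s) ^ 2 := by nlinarith
    calc Λ / n * (2 * Z.s * k) = 2 * Z.s * (Λ / n * k) := by ring
      _ ≤ (2 * Z.s) ^ 2 * (Λ / n * k) := mul_le_mul_of_nonneg_right h10 h9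
      _ = _ := by ring
  calc R r * √(Λ / k) ≤ S * (2 * Z.s * √(Λ / n)) :=
        mul_le_mul hRS h7 (by positivity) hS0
    _ ≤ _ := by
        have : 0 ≤ 2 * Z.s * √(Λ / n) := by positivity
        nlinarith

end

end Q219.SAW
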