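import Pool.Agent.TH966.AK.Weight
import Pool.Agent.Q219.SAW.Dom

/-!
# Walks in domains with prescribed sets of end points: counting
-/

set_option autoImplicit false

namespace Q219.SAW

open Finset Filter Topology TH966.AK
open scoped Classical

variable {A : P → P → Prop} {Z : Rule A}

/-- indicator of the walks which end in `E` -/
noncomputable def ind (E : Set P) (w : List P) : ℝ := if lst w ∈ E then 1 else 0

theorem ind_nn (E : Set P) (w : List P) : 0 ≤ ind E w := by
  unfold ind
  split_ifs <;> norm_num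

theorem ind_le (E : Set P) (w : List P) : ind E w ≤ 1 := by
  unfold ind
  split_ifs <;> norm_num

theorem lst_rep {w U U' : List P} (h : Pair A U U') (hw : Walk A w) (hf : Free U U' w) :
    lst (Rule.rep w U U') = lst w := by
  obtain ⟨L, R, h1, h2, -⟩ := Rule.rep_all h hw hf
  rw [h2, h1, lst_append _ _ _ (Rule.ne_nil h), lst_append _ _ _ (Rule.ne_nil h.symm),
    lst_pair h]

theorem wtD_ind (D E : Set P) : WtD Z D (ind E) := by
  refine ⟨ind_nn E, ind_le E, ?_⟩
  intro w U U' hw _ hT hf _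
  unfold ind
  rw [lst_rep (Z.pair _ _ hT) hw hf]

theorem lst_ofFn {n : ℕ} (f : Fin (n + 1) → P) : lst (List.ofFn f) = f (Fin.last n) := by
  unfold lst
  rw [List.getLast?_eq_getLast_of_ne_nil (by simp), Option.getD_some, List.getLast_ofFn_succ]

include Z in
theorem ncard_eq (p : List P → Prop) (n : ℕ) :
    ((Kw A n).filter p).card = Set.ncard {f : Fin (n + 1) → ℤ × ℤ |
      (f 0 = 0 ∧ Function.Injective f ∧ ∀ i : Fin n, A (f i.castSucc) (f i.succ)) ∧
      p (List.ofFn f)} := by
  rw [← Set.ncard_image_of_injective _ List.ofFn_injective, ← Set.ncard_coe_finset]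
  congr 1
  ext w
  rw [Finset.mem_coe, mem_filter, Z.mem_K, Set.mem_image]
  have key : ∀ f : Fin (n + 1) → ℤ × ℤ, Walk A (List.ofFn f) ↔
      f 0 = 0 ∧ Function.Injective f ∧ ∀ i : Fin n, A (f i.castSucc) (f i.succ) := by
    intro f
    unfold Walk
    rw [List.nodup_ofFn, List.isChain_ofFn]
    refine and_congr ?_ (and_congr Iff.rfl ?_)
    · rw [List.ofFn_succ]
      simp
    · constructor
      · intro h i
        exact h i.1 (by have := i.2; omega)
      · intro h i hi
        exact h ⟨i, by omega⟩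
  constructor
  · rintro ⟨⟨h1, h2⟩, h3⟩
    have e : List.ofFn (fun i : Fin (n + 1) => w[i.1]'(by rw [h1]; exact i.2)) = w := by
      apply List.ext_getElem
      · simp [h1]
      · intro i hi hi'
        rw [List.getElem_ofFn]
    refine ⟨fun i : Fin (n + 1) => w[i.1]'(by rw [h1]; exact i.2), ⟨?_, ?_⟩, e⟩
    · exact (key (fun i : Fin (n + 1) => w[i.1]'(by rw [h1]; exact i.2))).1 (by rw [e]; exact h2)
    · show p (List.ofFn (fun i : Fin (n + 1) => w[i.1]'(by rw [h1]; exact i.2)))
      rw [e]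
      exact h3
  · rintro ⟨f, hf, rfl⟩
    rw [Set.mem_ofPred_eq] at hf
    exact ⟨⟨by simp, (key f).2 hf.1⟩, hf.2⟩

include Z in
/-- the numbers of walks in a domain with a prescribed set of end points -/
theorem cD_eq (D E : Set P) (n : ℕ) :
    cD A D (ind E) n = (Set.ncard {f : Fin (n + 1) → ℤ × ℤ |
      (f 0 = 0 ∧ Function.Injective f ∧ ∀ i : Fin n, A (f i.castSucc) (f i.succ)) ∧
      (∀ i, f i ∈ D) ∧ f (Fin.last n) ∈ E} : ℝ) := by
  have h1 : cD A D (ind E) n =
      (((Kw A n).filter (fun w => In D w ∧ lst w ∈ E)).card : ℝ) := by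
    unfold cD ind KD
    rw [← sum_filter, filter_filter, sum_const, nsmul_one]
  have h2 : ((Kw A n).filter (fun w => In D w ∧ lst w ∈ E)).card = Set.ncard
      {f : Fin (n + 1) → ℤ × ℤ |
      (f 0 = 0 ∧ Function.Injective f ∧ ∀ i : Fin n, A (f i.castSucc) (f i.succ)) ∧
      (In D (List.ofFn f) ∧ lst (List.ofFn f) ∈ E)} := by
    rw [← ncard_eq (Z := Z) (fun w => In D w ∧ lst w ∈ E)]
    congr
  rw [h1, h2]
  congr 2
  ext f
  rw [Set.mem_ofPred_eq, Set.mem_ofPred_eq, lst_ofFn]
  unfold In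
  rw [List.forall_mem_ofFn_iff]

end Q219.SAW
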