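import Mathlib

/-!
# Convergence along sparse sequences, with a one-sided bound for the steps
-/

set_option autoImplicit false

namespace Q219.SAW.Gap

open Filter Topology Finset

/-- sums of steps -/
theorem sum_steps {v r : ℕ → ℝ} {n₀ : ℕ} (hr : ∀ i j, n₀ ≤ i → i ≤ j → r j ≤ r i)
    (h : ∀ n, n₀ ≤ n → v (n + 1) - v n ≤ r n) {a : ℕ} (ha : n₀ ≤ a) :
    ∀ m : ℕ, v (a + m) - v a ≤ m * r a := by
  intro m
  induction m with
  | zero => simp
  | succ m ih =>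
    have h1 := h (a + m) (by omega)
    have h2 := hr a (a + m) ha (by omega)
    rw [← add_assoc]
    push_cast
    linarith

/-- every large `n` lies between two members of the sequence, and the value at `n` is between the
two values, up to a small error -/
theorem close {v r w : ℕ → ℝ} {n₀ : ℕ} (hr : ∀ i j, n₀ ≤ i → i ≤ j → r j ≤ r i)
    (hr0 : ∀ i, n₀ ≤ i → 0 ≤ r i)
    (h : ∀ n, n₀ ≤ n → v (n + 1) - v n ≤ r n) (hw : ∀ᶠ n : ℕ in atTop, 0 < w n)
    {s : ℕ → ℕ} (hs : Tendsto s atTop atTop)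
    (hgap : Tendsto (fun k => ((s (k + 1) : ℝ) - s k) * r (s k) / w (s k)) atTop (𝓝 0))
    {ε : ℝ} (hε : 0 < ε) (k0 : ℕ) :
    ∃ N0 : ℕ, ∀ n, N0 ≤ n → ∃ k, k0 ≤ k ∧ s k ≤ n ∧ n < s (k + 1) ∧
      v n ≤ v (s k) + ε * w (s k) ∧ v (s (k + 1)) ≤ v n + ε * w (s k) := by
  obtain ⟨k1, hk1⟩ := eventually_atTop.1 (((hs.eventually_ge_atTop n₀).and
    (hs.eventually hw)).and ((Metric.tendsto_nhds.1 hgap ε hε).and (eventually_ge_atTop k0)))
  refine ⟨s k1, fun n hn => ?_⟩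
  obtain ⟨j0, hj0⟩ := eventually_atTop.1 (hs.eventually_ge_atTop (n + 1))
  have hex : ∃ j, k1 < j ∧ n < s j :=
    ⟨max j0 (k1 + 1), by omega, by have := hj0 (max j0 (k1 + 1)) (le_max_left _ _); omega⟩
  classical
  obtain ⟨j, hj, hmin⟩ : ∃ j, (k1 < j ∧ n < s j) ∧ ∀ i, i < j → ¬ (k1 < i ∧ n < s i) :=
    ⟨Nat.find hex, Nat.find_spec hex, fun i hi => Nat.find_min hex hi⟩
  obtain ⟨k, rfl⟩ : ∃ k, j = k + 1 := ⟨j - 1, by omega⟩
  have hk : s k ≤ n := by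
    by_contra hcon
    have := hmin k (by omega)
    rcases Nat.lt_or_ge k1 k with h1 | h1
    · exact this ⟨h1, by omega⟩
    · have : k = k1 := by omega
      rw [this] at hcon
      omega
  obtain ⟨⟨e1, e2⟩, e3, e4⟩ := hk1 k (by omega)
  have hr0' : 0 ≤ r (s k) := hr0 _ e1
  have h3 : ((s (k + 1) : ℝ) - s k) * r (s k) / w (s k) < ε := by
    rw [dist_zero_right, Real.norm_eq_abs] at e3
    exact (le_abs_self _).trans_lt e3
  rw [div_lt_iff₀ e2] at h3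
  have hn1 : (n : ℝ) ≤ s (k + 1) := by exact_mod_cast hj.2.le
  have hn2 : (s k : ℝ) ≤ n := by exact_mod_cast hk
  refine ⟨k, e4, hk, hj.2, ?_, ?_⟩
  · have h1 := sum_steps hr h e1 (n - s k)
    rw [Nat.add_sub_cancel' hk, Nat.cast_sub hk] at h1
    have h2 : ((n : ℝ) - s k) * r (s k) ≤ ((s (k + 1) : ℝ) - s k) * r (s k) :=
      mul_le_mul_of_nonneg_right (by linarith) hr0'
    linarith
  · have h1 := sum_steps hr h (e1.trans hk) (s (k + 1) - n)
    rw [Nat.add_sub_cancel' hj.2.le, Nat.cast_sub hj.2.le] at h1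
    have h4 : r n ≤ r (s k) := hr _ _ e1 hk
    have h2 : ((s (k + 1) : ℝ) - n) * r n ≤ ((s (k + 1) : ℝ) - s k) * r (s k) :=
      mul_le_mul (by linarith) h4 (hr0 _ (e1.trans hk)) (by linarith)
    linarith

/-- additive form -/
theorem add_form {v r : ℕ → ℝ} {n₀ : ℕ} (hr : ∀ i j, n₀ ≤ i → i ≤ j → r j ≤ r i)
    (hr0 : ∀ i, n₀ ≤ i → 0 ≤ r i)
    (h : ∀ n, n₀ ≤ n → v (n + 1) - v n ≤ r n) {s : ℕ → ℕ} (hs : Tendsto s atTop atTop)
    (hgap : Tendsto (fun k => ((s (k + 1) : ℝ) - s k) * r (s k)) atTop (𝓝 0)) {c : ℝ}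
    (hc : Tendsto (fun k => v (s k)) atTop (𝓝 c)) : Tendsto v atTop (𝓝 c) := by
  rw [Metric.tendsto_atTop]
  intro ε hε
  obtain ⟨k0, hk0⟩ := (Metric.tendsto_atTop.mp hc) (ε / 2) (by positivity)
  obtain ⟨N0, hN0⟩ := close (w := fun _ => 1) hr hr0 h (Eventually.of_forall fun _ => one_pos) hs
    (by simpa using hgap) (show 0 < ε / 3 by positivity) k0
  refine ⟨N0, fun n hn => ?_⟩
  obtain ⟨k, hk, -, -, h2, h2'⟩ := hN0 n hn
  have h3 := abs_lt.1 (by simpa [Real.dist_eq] using hk0 k hk)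
  have h4 := abs_lt.1 (by simpa [Real.dist_eq] using hk0 (k + 1) (by omega))
  rw [mul_one] at h2 h2'
  rw [Real.dist_eq, abs_lt]
  constructor <;> linarith [h3.1, h3.2, h4.1, h4.2]

/-- a limit of quotients -/
theorem ratio_iff {ι : Type*} {F : Filter ι} {v L : ι → ℝ} (hL : ∀ᶠ i in F, 0 < L i) {c : ℝ} :
    Tendsto (fun i => v i / L i) F (𝓝 c) ↔
      ∀ δ : ℝ, 0 < δ → ∀ᶠ i in F, |v i - c * L i| ≤ δ * L i := by
  have key : ∀ i, 0 < L i → ∀ δ : ℝ, |v i / L i - c| ≤ δ ↔ |v i - c * L i| ≤ δ * L i := by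
    intro i hi δ
    rw [div_sub' hi.ne', abs_div, abs_of_pos hi, div_le_iff₀ hi, mul_comm (L i) c]
  constructor
  · intro h δ hδ
    filter_upwards [hL, Metric.tendsto_nhds.1 h δ hδ] with i hi h1
    rw [Real.dist_eq] at h1
    exact (key i hi δ).1 h1.le
  · intro h
    rw [Metric.tendsto_nhds]
    intro δ hδ
    filter_upwards [hL, h (δ / 2) (by positivity)] with i hi h1
    rw [Real.dist_eq]
    have := (key i hi (δ / 2)).2 h1
    linarith

/-- logarithmic form -/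
theorem log_form {v r : ℕ → ℝ} {n₀ : ℕ} (hr : ∀ i j, n₀ ≤ i → i ≤ j → r j ≤ r i)
    (hr0 : ∀ i, n₀ ≤ i → 0 ≤ r i)
    (h : ∀ n, n₀ ≤ n → v (n + 1) - v n ≤ r n) {s : ℕ → ℕ} (hs : Tendsto s atTop atTop)
    (hsub : Tendsto (fun k => ((s (k + 1) : ℝ) - s k) / s k) atTop (𝓝 0))
    (hgap : Tendsto (fun k => ((s (k + 1) : ℝ) - s k) * r (s k) / Real.log (s k)) atTop (𝓝 0))
    {c : ℝ} (hc : Tendsto (fun k => v (s k) / Real.log (s k)) atTop (𝓝 c)) :
    Tendsto (fun n : ℕ => v n / Real.log n) atTop (𝓝 c) := by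
  have hlt : Tendsto (fun n : ℕ => Real.log (n : ℝ)) atTop atTop :=
    Real.tendsto_log_atTop.comp tendsto_natCast_atTop_atTop
  have hls : Tendsto (fun k => Real.log (s k : ℝ)) atTop atTop := hlt.comp hs
  rw [ratio_iff (hls.eventually_gt_atTop 0)] at hc
  rw [ratio_iff (hlt.eventually_gt_atTop 0)]
  intro ε hε
  obtain ⟨δ, hδ⟩ : ∃ δ : ℝ, δ = ε / 4 := ⟨_, rfl⟩
  have hδ0 : 0 < δ := by rw [hδ]; positivity
  obtain ⟨k0, hk0⟩ := eventually_atTop.1 (hc δ hδ0)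
  obtain ⟨k2, hk2⟩ := eventually_atTop.1 (((Metric.tendsto_nhds.1 hsub 1 one_pos).and
    (hls.eventually_ge_atTop ((|c| + 2 * δ) / δ + 1))).and (hs.eventually_ge_atTop 2))
  obtain ⟨N0, hN0⟩ := close (w := fun n => Real.log n) hr hr0 h (hlt.eventually_gt_atTop 0) hs
    hgap hδ0 (max k0 k2)
  refine eventually_atTop.2 ⟨N0, fun n hn => ?_⟩
  obtain ⟨k, hk, h1, h2, h3, h3'⟩ := hN0 n hn
  have h4 := abs_le.1 (hk0 k ((le_max_left _ _).trans hk))
  have h4' := abs_le.1 (hk0 (k + 1) (((le_max_left _ _).trans hk).trans (Nat.le_succ k)))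
  obtain ⟨⟨h5, h6⟩, h7⟩ := hk2 k ((le_max_right _ _).trans hk)
  have hs0 : (0 : ℝ) < s k := by exact_mod_cast (show 0 < s k by omega)
  have hn0 : (s k : ℝ) ≤ n := by exact_mod_cast h1
  have hn1 : (n : ℝ) ≤ s (k + 1) := by exact_mod_cast h2.le
  have hn2 : (s (k + 1) : ℝ) ≤ 2 * s k := by
    have h8 : ((s (k + 1) : ℝ) - s k) / s k < 1 := by
      rw [dist_zero_right, Real.norm_eq_abs] at h5
      exact (le_abs_self _).trans_lt h5
    rw [div_lt_one hs0] at h8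
    linarith
  obtain ⟨x, hx⟩ : ∃ x, x = Real.log (s k : ℝ) := ⟨_, rfl⟩
  obtain ⟨y, hy⟩ : ∃ y, y = Real.log (n : ℝ) := ⟨_, rfl⟩
  obtain ⟨z, hz⟩ : ∃ z, z = Real.log (s (k + 1) : ℝ) := ⟨_, rfl⟩
  rw [← hx] at h3 h3' h4 h6
  rw [← hz] at h4'
  rw [← hy]
  have hxy : x ≤ y := by rw [hx, hy]; exact Real.log_le_log hs0 hn0
  have hyz : y ≤ z := by rw [hy, hz]; exact Real.log_le_log (by linarith) hn1
  have hzx : z ≤ x + 1 := by
    have h8 : z ≤ Real.log (2 * s k) := by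
      rw [hz]; exact Real.log_le_log (by linarith) hn2
    rw [Real.log_mul (by norm_num) hs0.ne', ← hx] at h8
    have h9 := Real.log_two_lt_d9
    linarith
  have hc0 := abs_nonneg c
  have h8 : |c| + 2 * δ ≤ δ * x := by
    have : (|c| + 2 * δ) / δ ≤ x := by linarith
    rw [div_le_iff₀ hδ0] at this
    linarith
  have h9 : |c * (y - x)| ≤ |c| := by
    rw [abs_mul, abs_of_nonneg (by linarith : 0 ≤ y - x)]
    nlinarith
  have h10 : |c * (z - y)| ≤ |c| := by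
    rw [abs_mul, abs_of_nonneg (by linarith : 0 ≤ z - y)]
    nlinarith
  have h9' := abs_le.1 h9
  have h10' := abs_le.1 h10
  have h11 : δ * x ≤ δ * y := mul_le_mul_of_nonneg_left hxy hδ0.le
  have h12 : δ * z ≤ δ * x + δ := by
    have := mul_le_mul_of_nonneg_left hzx hδ0.le
    linarith
  have hε4 : ε = 4 * δ := by rw [hδ]; ring
  rw [hε4, abs_le]
  constructor
  · -- lower bound
    have e1 : c * z = c * y + c * (z - y) := by ring
    nlinarith [h4'.1, h10'.1]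
  · have e1 : c * x = c * y - c * (y - x) := by ring
    nlinarith [h4.2, h9'.1]

/-- steps of the logarithm -/
theorem log_step {x η : ℝ} (hx : 0 < x) (h : x - 1 ≤ η) : Real.log x ≤ η :=
  (Real.log_le_sub_one_of_pos hx).trans h

end Q219.SAW.Gap
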