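import Mathlib

/-!
# Elementary estimates for walks with a given end point
-/

set_option autoImplicit false

namespace Q219.SAW

open Filter Topology

theorem log_le_two_sqrt {y : ℝ} (hy : 0 < y) : Real.log y ≤ 2 * √y := by
  have h1 : Real.log (√y) ≤ √y - 1 := Real.log_le_sub_one_of_pos (Real.sqrt_pos.2 hy)
  have h2 : Real.log y = 2 * Real.log (√y) := by
    rw [Real.log_sqrt hy.le]; ring
  linarith

/-- the main estimate: the cost of a given end point -/
theorem pin_cost {K : ℝ} (hK : 0 ≤ K) {n : ℕ} (hn : 2 ≤ n) {r P : ℝ} (hr : 1 ≤ r)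
    (h : Real.exp (-(K * ((1 + r ^ 2 / n) * Real.log (2 + n / r) ^ 2))) ≤ P) :
    Real.log n ^ 2 + Real.log (1 / P) ≤ (1 + 4 * K) *
      (Real.log n ^ 2 + r ^ 2 / n * Real.log (2 + n / r) ^ 2) := by
  have hn2 : (2 : ℝ) ≤ n := by exact_mod_cast hn
  have hn0 : (0 : ℝ) < n := by linarith
  have hr0 : 0 < r := by linarith
  have h1 : Real.log (1 / P) ≤ K * ((1 + r ^ 2 / n) * Real.log (2 + n / r) ^ 2) := by
    rw [one_div, Real.log_inv]
    have := Real.log_le_log (Real.exp_pos _) h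
    rw [Real.log_exp] at this
    linarith
  have h2 : (n : ℝ) / r ≤ n := div_le_self hn0.le hr
  have h3 : 0 ≤ (n : ℝ) / r := by positivity
  have h4 : Real.log (2 + n / r) ≤ 2 * Real.log n := by
    have : Real.log (2 + n / r) ≤ Real.log (n ^ 2) := by
      refine Real.log_le_log (by linarith) ?_
      nlinarith
    rwa [Real.log_pow, Nat.cast_ofNat] at this
  have h5 : 0 ≤ Real.log (2 + n / r) := Real.log_nonneg (by linarith)
  have h6 : Real.log (2 + n / r) ^ 2 ≤ 4 * Real.log n ^ 2 := by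
    have := pow_le_pow_left₀ h5 h4 2
    linarith [this, mul_pow (2 : ℝ) (Real.log n) 2]
  have h7 : 0 ≤ r ^ 2 / n * Real.log (2 + n / r) ^ 2 := by positivity
  have h8 : 0 ≤ Real.log n ^ 2 := sq_nonneg _
  have h9 : K * ((1 + r ^ 2 / n) * Real.log (2 + n / r) ^ 2) =
      K * Real.log (2 + n / r) ^ 2 + K * (r ^ 2 / n * Real.log (2 + n / r) ^ 2) := by ring
  have h10 : K * Real.log (2 + n / r) ^ 2 ≤ K * (4 * Real.log n ^ 2) :=
    mul_le_mul_of_nonneg_left h6 hK
  have h11 : 0 ≤ K * (r ^ 2 / n * Real.log (2 + n / r) ^ 2) := mul_nonneg hK h7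
  nlinarith

/-- the cost is at most `δ n` for end points at a distance at most `δ' n` -/
theorem pin_small {C δ : ℝ} (hC : 0 < C) (hδ : 0 < δ) : ∃ (δ' : ℝ) (n₀ : ℕ), 0 < δ' ∧ 2 ≤ n₀ ∧
    ∀ n : ℕ, n₀ ≤ n → ∀ r : ℝ, 1 ≤ r → r ≤ δ' * n →
    C * (Real.log n ^ 2 + r ^ 2 / n * Real.log (2 + n / r) ^ 2) ≤ δ * n := by
  have h1 : Tendsto (fun n : ℕ => Real.log n ^ 2 / (n : ℝ)) atTop (𝓝 0) := by
    have := (isLittleO_log_rpow_atTop (r := 1 / 2) (by norm_num)).tendsto_div_nhds_zero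
    have h2 := (this.comp tendsto_natCast_atTop_atTop).pow 2
    rw [zero_pow two_ne_zero] at h2
    refine h2.congr fun n => ?_
    simp only [Function.comp]
    rw [div_pow, ← Real.sqrt_eq_rpow, Real.sq_sqrt (Nat.cast_nonneg n)]
  have h2 := h1.eventually (gt_mem_nhds (show 0 < δ / (2 * C) by positivity))
  obtain ⟨N, hN⟩ := eventually_atTop.1 h2
  refine ⟨min 1 (δ / (24 * C)), max N 2, by positivity, le_max_right _ _, ?_⟩
  intro n hn r hr1 hr
  have hn2 : 2 ≤ n := (le_max_right _ _).trans hn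
  have hn0 : (0 : ℝ) < n := by exact_mod_cast (show 0 < n by omega)
  have hr0 : 0 < r := by linarith
  have h3 := hN n ((le_max_left _ _).trans hn)
  rw [div_lt_div_iff₀ hn0 (by positivity)] at h3
  have h4 : r ≤ n := hr.trans (by
    calc min 1 (δ / (24 * C)) * n ≤ 1 * n := mul_le_mul_of_nonneg_right (min_le_left _ _) hn0.le
      _ = n := one_mul _)
  have h5 : r ≤ δ / (24 * C) * n :=
    hr.trans (mul_le_mul_of_nonneg_right (min_le_right _ _) hn0.le)
  have h6 : 1 ≤ (n : ℝ) / r := by rwa [one_le_div hr0]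
  have h7 : Real.log (2 + n / r) ^ 2 ≤ 12 * (n / r) := by
    have h8 := log_le_two_sqrt (show 0 < 2 + (n : ℝ) / r by linarith)
    have h9 : 0 ≤ Real.log (2 + n / r) := Real.log_nonneg (by linarith)
    calc Real.log (2 + n / r) ^ 2 ≤ (2 * √(2 + n / r)) ^ 2 := pow_le_pow_left₀ h9 h8 2
      _ = 4 * (2 + n / r) := by
          rw [mul_pow, Real.sq_sqrt (by linarith)]; norm_num
      _ ≤ 12 * (n / r) := by linarith
  have h8 : r ^ 2 / n * Real.log (2 + n / r) ^ 2 ≤ 12 * r := by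
    calc r ^ 2 / n * Real.log (2 + n / r) ^ 2 ≤ r ^ 2 / n * (12 * (n / r)) :=
          mul_le_mul_of_nonneg_left h7 (by positivity)
      _ = 12 * r := by field_simp
  have h9 : C * (12 * r) ≤ δ / 2 * n := by
    calc C * (12 * r) ≤ C * (12 * (δ / (24 * C) * n)) := by
          refine mul_le_mul_of_nonneg_left ?_ hC.le
          linarith
      _ = δ / 2 * n := by field_simp; norm_num
  have h10 : C * Real.log n ^ 2 ≤ δ / 2 * n := by nlinarith
  nlinarith

/-- square roots -/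
theorem pin_sqrt {C Λ x y L : ℝ} (hC : 0 ≤ C) (hx : 0 ≤ x) (hy : 0 ≤ y)
    (h : Λ ≤ C * (x ^ 2 + y ^ 2)) (hL : 0 < L) : √(Λ / L) ≤ √C * ((x + y) / √L) := by
  have h1 : Λ / L ≤ C * ((x + y) ^ 2 / L) := by
    rw [← mul_div_assoc]
    refine div_le_div_of_nonneg_right (h.trans ?_) hL.le
    refine mul_le_mul_of_nonneg_left ?_ hC
    nlinarith [mul_nonneg hx hy]
  refine (Real.sqrt_le_sqrt h1).trans (le_of_eq ?_)
  rw [Real.sqrt_mul hC, Real.sqrt_div (sq_nonneg _), Real.sqrt_sq (by linarith)]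

end Q219.SAW
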