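import Pool.Agent.TH966.AK.TriFin
import Pool.Agent.H976R2.KLow
import Pool.Agent.Q219.SAW.Dom

/-!
# The square lattice: insertion of bumps
-/

set_option autoImplicit false

namespace Q219.SAW.Sq

open Finset Filter Topology TH966.AK

/-- the four steps -/
def dirs : Finset (ℤ × ℤ) := {(1, 0), (-1, 0), (0, 1), (0, -1)}

/-- adjacency -/
def A (p q : P) : Prop := q - p ∈ dirs

instance : DecidableRel A := fun p q => inferInstanceAs (Decidable (q - p ∈ dirs))

theorem A_iff (p q : P) : A p q ↔ (q.1 = p.1 + 1 ∧ q.2 = p.2) ∨ (q.1 = p.1 - 1 ∧ q.2 = p.2) ∨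
    (q.1 = p.1 ∧ q.2 = p.2 + 1) ∨ (q.1 = p.1 ∧ q.2 = p.2 - 1) := by
  unfold A dirs
  simp only [Finset.mem_insert, Finset.mem_singleton, Prod.ext_iff, Prod.fst_sub, Prod.snd_sub]
  omega

theorem A_symm {p q : P} (h : A p q) : A q p := by
  rw [A_iff] at h ⊢
  omega

theorem A_ne {p q : P} (h : A p q) : p ≠ q := by
  rintro rfl
  rw [A_iff] at h
  omega

theorem A_step {p q : P} (h : A p q) : |p.1 - q.1| ≤ 1 ∧ |p.2 - q.2| ≤ 1 := by
  rw [A_iff] at h
  rw [abs_le, abs_le]
  omega

/-- an edge is replaced by the three other sides of a unit square -/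
def T (U U' : List P) : Prop := ∃ p u v r, U = [p, r] ∧ U' = [p, u, v, r] ∧ A p r ∧ A p u ∧
  A u v ∧ A v r ∧ p ≠ v ∧ u ≠ r

/-- the rule -/
def rule : Rule A where
  T := T
  ρ := 2
  k := 2
  s := 2
  step := fun _ _ h => A_step h
  pair := by
    rintro U U' ⟨p, u, v, r, rfl, rfl, h1, h2, h3, h4, h5, h6⟩
    have n1 := A_ne h1
    have n2 := A_ne h2
    have n3 := A_ne h3
    have n4 := A_ne h4
    refine ⟨⟨p, r, [], [u, v], rfl, rfl, by simp, ?_⟩, ?_, ?_, ?_, ?_⟩
    · intro x hx
      simp only [List.mem_cons, List.not_mem_nil, or_false] at hx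
      simp only [List.mem_cons, List.not_mem_nil, or_false, not_or]
      rcases hx with rfl | rfl
      · exact ⟨n2.symm, h6⟩
      · exact ⟨h5.symm, n4⟩
    · simp [n1]
    · simp [n1, n2, n3, n4, h5, h6]
    · simp [h1]
    · simp [h2, h3, h4]
  len := by
    rintro U U' ⟨p, u, v, r, rfl, rfl, -⟩
    simp
  loc := by
    rintro U U' ⟨p, u, v, r, rfl, rfl, h1, h2, h3, h4, h5, h6⟩ x hx y hy
    simp only [List.cons_append, List.nil_append, List.mem_cons, List.not_mem_nil,
      or_false] at hx hy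
    have a1 := A_step h1
    have a2 := A_step h2
    have a3 := A_step h3
    have a4 := A_step h4
    rw [abs_le, abs_le] at a1 a2 a3 a4
    have h : (x = p ∨ x = u ∨ x = v ∨ x = r) ∧ (y = p ∨ y = u ∨ y = v ∨ y = r) := by tauto
    rw [abs_le, abs_le]
    push_cast
    rcases h with ⟨rfl | rfl | rfl | rfl, rfl | rfl | rfl | rfl⟩ <;> omega

theorem shr : ∀ U U', rule.T U U' → ∀ x ∈ U, x ∈ U' := by
  rintro U U' ⟨p, u, v, r, rfl, rfl, -⟩ x hx
  simp only [List.mem_cons, List.not_mem_nil, or_false] at hx ⊢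
  tauto

/-! ### counting continuations -/

/-- the potential -/
def ph (a b c : P) : ℕ := if c - b = b - a then 283 else 200

theorem fin_check : ∀ e1 ∈ dirs, ∀ e2 ∈ dirs, e1 + e2 ≠ 0 →
    ∑ e3 ∈ dirs.erase (-e2), (if e1 + e2 + e3 ∈ dirs then 1 else 200) *
      (if e3 = e2 then 283 else 200) ≤ 484 * (if e2 = e1 then 283 else 200) := by
  decide

/-- the neighbours -/
def nb (b : P) : Finset P := dirs.image (fun d => b + d)

theorem mem_nb {b c : P} : c ∈ nb b ↔ A b c := by
  unfold nb A
  rw [Finset.mem_image]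
  constructor
  · rintro ⟨d, hd, rfl⟩
    rwa [add_sub_cancel_left]
  · intro h
    exact ⟨c - b, h, add_sub_cancel b c⟩

theorem step_sum {a b c : P} (hab : A a b) (hbc : A b c) (hac : a ≠ c) :
    ∑ d ∈ (nb c).erase b, (if A a d then 1 else 200) * ph b c d ≤ 484 * ph a b c := by
  have h := fin_check (b - a) hab (c - b) hbc (by
    intro h
    apply hac
    have : c - a = 0 := by rw [← h]; abel
    exact (sub_eq_zero.1 this).symm)
  have e1 : (nb c).erase b = (dirs.erase (-(c - b))).image (fun d => c + d) := by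
    ext x
    rw [Finset.mem_erase, mem_nb, Finset.mem_image]
    unfold A
    constructor
    · rintro ⟨h1, h2⟩
      refine ⟨x - c, Finset.mem_erase.2 ⟨fun h => h1 ?_, h2⟩, add_sub_cancel c x⟩
      have : x = c + -(c - b) := by rw [← h]; abel
      rw [this]; abel
    · rintro ⟨d, hd, rfl⟩
      rw [Finset.mem_erase] at hd
      refine ⟨fun h => hd.1 ?_, ?_⟩
      · rw [← h]; abel
      · rw [add_sub_cancel_left]; exact hd.2
  rw [e1, Finset.sum_image (fun _ _ _ _ h => add_left_cancel h)]
  have e2 : ∀ d : P, A a (c + d) ↔ b - a + (c - b) + d ∈ dirs := by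
    intro d
    unfold A
    have : c + d - a = b - a + (c - b) + d := by abel
    rw [this]
  refine le_trans (le_of_eq ?_) (h.trans (le_of_eq ?_))
  · refine Finset.sum_congr rfl fun d _ => ?_
    unfold ph
    simp only [e2, add_sub_cancel_left]
  · unfold ph
    rfl

/-- continuations without immediate reversals -/
def E : ℕ → P → P → P → Finset (List P)
  | 0, _, _, _ => {[]}
  | m + 1, _, b, c => ((nb c).erase b).biUnion (fun d => (E m b c d).image (List.cons d))

theorem mem_E : ∀ (m : ℕ) (a b c : P) (l : List P), (a :: b :: c :: l).Nodup →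
    (a :: b :: c :: l).IsChain A → l.length = m → l ∈ E m a b c := by
  intro m
  induction m with
  | zero =>
    intro a b c l _ _ hl
    rw [List.length_eq_zero_iff] at hl
    simp [E, hl]
  | succ m ih =>
    intro a b c l hn hc hl
    obtain ⟨d, l', rfl⟩ := List.exists_cons_of_length_eq_add_one hl
    simp only [E, Finset.mem_biUnion, Finset.mem_erase, Finset.mem_image]
    have h1 := (List.nodup_cons.1 (List.nodup_cons.1 hn).2).1
    have h2 := (List.isChain_cons_cons.1 hc).2
    have h3 := (List.isChain_cons_cons.1 h2).2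
    refine ⟨d, ⟨?_, mem_nb.2 (List.isChain_cons_cons.1 h3).1⟩, l',
      ih b c d l' (List.nodup_cons.1 hn).2 h2 (by simpa using hl), rfl⟩
    rintro rfl
    exact h1 (by simp)

/-- number of bumps -/
def sh : List P → ℕ
  | a :: b :: c :: d :: l => (if A a d then 1 else 0) + sh (b :: c :: d :: l)
  | _ => 0

theorem sum_E : ∀ (m : ℕ) (a b c : P), A a b → A b c → a ≠ c →
    ∑ l ∈ E m a b c, (1 / 200 : ℝ) ^ sh (a :: b :: c :: l) ≤
      (ph a b c : ℝ) / 200 * (121 / 50) ^ m := by
  intro m
  induction m with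
  | zero =>
    intro a b c _ _ _
    simp only [E, Finset.sum_singleton, sh, pow_zero, mul_one]
    unfold ph
    split_ifs <;> norm_num
  | succ m ih =>
    intro a b c hab hbc hac
    simp only [E]
    rw [Finset.sum_biUnion]
    · have h1 : ∀ d ∈ (nb c).erase b,
          ∑ l ∈ (E m b c d).image (List.cons d), (1 / 200 : ℝ) ^ sh (a :: b :: c :: l) ≤
          ((if A a d then 1 else 200 : ℕ) : ℝ) / 200 * ((ph b c d : ℝ) / 200 *
            (121 / 50) ^ m) := by
        intro d hd
        rw [Finset.mem_erase, mem_nb] at hd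
        rw [Finset.sum_image (fun _ _ _ _ h => (List.cons.inj h).2)]
        refine le_trans (le_of_eq ?_) (mul_le_mul_of_nonneg_left
          (ih b c d hbc hd.2 (fun h => hd.1 h.symm)) (by positivity))
        rw [Finset.mul_sum]
        refine Finset.sum_congr rfl fun l _ => ?_
        simp only [sh]
        rw [pow_add]
        congr 1
        split_ifs <;> norm_num
      refine (Finset.sum_le_sum h1).trans ?_
      have h2 := step_sum hab hbc hac
      have h3 : ((∑ d ∈ (nb c).erase b, (if A a d then 1 else 200) * ph b c d : ℕ) : ℝ) ≤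
          ((484 * ph a b c : ℕ) : ℝ) := by exact_mod_cast h2
      have h4 : ∑ d ∈ (nb c).erase b, ((if A a d then 1 else 200 : ℕ) : ℝ) / 200 *
          ((ph b c d : ℝ) / 200 * (121 / 50) ^ m) =
          ((∑ d ∈ (nb c).erase b, (if A a d then 1 else 200) * ph b c d : ℕ) : ℝ) / 40000 *
            (121 / 50) ^ m := by
        push_cast
        rw [Finset.sum_div, Finset.sum_mul]
        refine Finset.sum_congr rfl fun d _ => ?_
        ring
      rw [h4]
      calc _ ≤ ((484 * ph a b c : ℕ) : ℝ) / 40000 * (121 / 50) ^ m := by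
            refine mul_le_mul_of_nonneg_right ?_ (by positivity)
            exact div_le_div_of_nonneg_right h3 (by norm_num)
        _ = _ := by push_cast; ring
    · intro d _ d' _ hdd
      simp only [Function.onFun]
      rw [Finset.disjoint_left]
      intro l hl hl'
      rw [Finset.mem_image] at hl hl'
      obtain ⟨l1, -, rfl⟩ := hl
      obtain ⟨l2, -, h2⟩ := hl'
      exact hdd (List.cons.inj h2).1.symm

theorem sh_le : ∀ w : List P, w.Nodup → w.IsChain A → sh w ≤ (rule.B w).card := by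
  intro w
  induction w with
  | nil => intro _ _; simp [sh]
  | cons a w ih =>
    intro hn hc
    match w, ih, hn, hc with
    | [], _, _, _ => simp [sh]
    | [b], _, _, _ => simp [sh]
    | [b, c], _, _, _ => simp [sh]
    | b :: c :: d :: l, ih, hn, hc =>
      have h1 := ih (List.nodup_cons.1 hn).2 (List.isChain_cons_cons.1 hc).2
      have hab := (List.isChain_cons_cons.1 hc).1
      have hbc := (List.isChain_cons_cons.1 (List.isChain_cons_cons.1 hc).2).1
      have hcd := (List.isChain_cons_cons.1 (List.isChain_cons_cons.1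
        (List.isChain_cons_cons.1 hc).2).2).1
      have hsub : rule.B (b :: c :: d :: l) ⊆ rule.B (a :: b :: c :: d :: l) := by
        intro q hq
        rw [rule.mem_B] at hq ⊢
        obtain ⟨h2, h3, h4⟩ := hq
        refine ⟨h2, h3.trans ⟨[a], [], by simp⟩, ?_⟩
        intro x hx hx'
        exact absurd (shr _ _ h2 x hx) hx'
      simp only [sh]
      by_cases had : A a d
      · rw [if_pos had]
        have hq : (([a, d], [a, b, c, d]) : List P × List P) ∈
            rule.B (a :: b :: c :: d :: l) := by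
          rw [rule.mem_B]
          refine ⟨⟨a, b, c, d, rfl, rfl, had, hab, hbc, hcd, ?_, ?_⟩, ⟨[], l, by simp⟩, ?_⟩
          · rintro rfl
            exact (List.nodup_cons.1 hn).1 (by simp)
          · rintro rfl
            exact (List.nodup_cons.1 (List.nodup_cons.1 hn).2).1 (by simp)
          intro x hx hx'
          simp only [List.mem_cons, List.not_mem_nil, or_false, not_or] at hx hx'
          tauto
        have hq' : (([a, d], [a, b, c, d]) : List P × List P) ∉ rule.B (b :: c :: d :: l) := by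
          rw [rule.mem_B]
          rintro ⟨-, h3, -⟩
          exact (List.nodup_cons.1 hn).1 (h3.subset (by simp))
        have h5 : insert (([a, d], [a, b, c, d]) : List P × List P)
            (rule.B (b :: c :: d :: l)) ⊆ rule.B (a :: b :: c :: d :: l) := by
          classical
          intro q hq2
          rw [Finset.mem_insert] at hq2
          rcases hq2 with rfl | hq2
          · exact hq
          · exact hsub hq2
        have h6 := Finset.card_le_card h5
        rw [Finset.card_insert_of_notMem hq'] at h6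
        omega
      · rw [if_neg had, zero_add]
        exact h1.trans (Finset.card_le_card hsub)

theorem sum_bi_le {ι α : Type*} [DecidableEq ι] [DecidableEq α] (s : Finset ι)
    (t : ι → Finset α) (f : α → ℝ) (hf : ∀ x, 0 ≤ f x) :
    ∑ x ∈ s.biUnion t, f x ≤ ∑ i ∈ s, ∑ x ∈ t i, f x := by
  induction s using Finset.induction_on with
  | empty => simp
  | insert i s hi ih =>
    rw [Finset.biUnion_insert, Finset.sum_insert hi]
    have h := Finset.sum_union_inter (s₁ := t i) (s₂ := s.biUnion t) (f := f)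
    have h2 : 0 ≤ ∑ x ∈ t i ∩ s.biUnion t, f x := Finset.sum_nonneg fun x _ => hf x
    linarith

theorem pow_small (n : ℕ) : (200 : ℝ) ^ (n / 100000) ≤ (401 / 400 : ℝ) ^ n := by
  have h1 : (200 : ℝ) ≤ (401 / 400 : ℝ) ^ 100000 := by
    have := one_add_mul_le_pow (a := (1 / 400 : ℝ)) (by norm_num) 100000
    have e : (1 : ℝ) + 1 / 400 = 401 / 400 := by norm_num
    rw [e] at this
    refine le_trans ?_ this
    norm_num
  calc (200 : ℝ) ^ (n / 100000) ≤ ((401 / 400 : ℝ) ^ 100000) ^ (n / 100000) :=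
        pow_le_pow_left₀ (by norm_num) h1 _
    _ = (401 / 400 : ℝ) ^ (100000 * (n / 100000)) := by rw [← pow_mul]
    _ ≤ (401 / 400 : ℝ) ^ n := pow_le_pow_right₀ (by norm_num) (Nat.mul_div_le n 100000)

/-- walks with few bumps are rare -/
theorem poor : ∃ C0 : ℝ, ∀ n : ℕ,
    (((Kw A n).filter (fun w => 100000 * (rule.B w).card ≤ n)).card : ℝ) ≤
      C0 * (607 / 250 : ℝ) ^ n := by
  classical
  refine ⟨(Kw A 0).card + (Kw A 1).card + 24, fun n => ?_⟩
  have hp : (1 : ℝ) ≤ (607 / 250 : ℝ) ^ n := one_le_pow₀ (by norm_num)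
  have hc0 : (0 : ℝ) ≤ (Kw A 0).card := Nat.cast_nonneg _
  have hc1 : (0 : ℝ) ≤ (Kw A 1).card := Nat.cast_nonneg _
  rcases Nat.lt_or_ge n 2 with hn | hn
  · have h1 : (((Kw A n).filter (fun w => 100000 * (rule.B w).card ≤ n)).card : ℝ) ≤
        (Kw A n).card := by exact_mod_cast Finset.card_filter_le _ _
    have h2 : ((Kw A n).card : ℝ) ≤ (Kw A 0).card + (Kw A 1).card := by
      interval_cases n
      · linarith
      · linarith
    nlinarith
  · obtain ⟨m, rfl⟩ : ∃ m, n = m + 2 := ⟨n - 2, by omega⟩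
    set Q := (Kw A (m + 2)).filter (fun w => 100000 * (rule.B w).card ≤ m + 2) with hQ
    set G : Finset (List P) := (nb 0).biUnion (fun b => ((nb b).erase 0).biUnion (fun c =>
      (E m 0 b c).image (fun l => 0 :: b :: c :: l))) with hG
    have hsub : Q ⊆ G := by
      intro w hw
      rw [hQ, Finset.mem_filter, rule.mem_K] at hw
      obtain ⟨⟨h1, h2, h3, h4⟩, -⟩ := hw
      obtain ⟨a, w1, rfl⟩ := List.exists_cons_of_length_eq_add_one h1
      obtain ⟨b, w2, rfl⟩ := List.exists_cons_of_length_eq_add_one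
        (show w1.length = m + 1 + 1 by simpa using h1)
      obtain ⟨c, w3, rfl⟩ := List.exists_cons_of_length_eq_add_one
        (show w2.length = m + 1 by simpa using h1)
      simp only [List.head?_cons, Option.some.injEq] at h2
      subst h2
      have h5 := List.isChain_cons_cons.1 h4
      have h6 := List.isChain_cons_cons.1 h5.2
      rw [hG, Finset.mem_biUnion]
      refine ⟨b, mem_nb.2 h5.1, ?_⟩
      rw [Finset.mem_biUnion]
      refine ⟨c, Finset.mem_erase.2 ⟨?_, mem_nb.2 h6.1⟩, ?_⟩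
      · rintro rfl
        exact (List.nodup_cons.1 h3).1 (by simp)
      rw [Finset.mem_image]
      exact ⟨w3, mem_E m 0 b c w3 h3 h4 (by simpa using h1), rfl⟩
    have h1 : (Q.card : ℝ) * (1 / 200 : ℝ) ^ ((m + 2) / 100000) ≤
        ∑ w ∈ Q, (1 / 200 : ℝ) ^ sh w := by
      rw [← nsmul_eq_mul, ← Finset.sum_const]
      refine Finset.sum_le_sum fun w hw => ?_
      refine pow_le_pow_of_le_one (by norm_num) (by norm_num) ?_
      rw [hQ, Finset.mem_filter, rule.mem_K] at hw
      obtain ⟨⟨h1, h2, h3, h4⟩, h5⟩ := hw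
      have h6 := sh_le w h3 h4
      rw [Nat.le_div_iff_mul_le (by norm_num)]
      omega
    have h2 : ∑ w ∈ Q, (1 / 200 : ℝ) ^ sh w ≤ ∑ w ∈ G, (1 / 200 : ℝ) ^ sh w :=
      Finset.sum_le_sum_of_subset_of_nonneg hsub fun _ _ _ => by positivity
    have h3 : ∑ w ∈ G, (1 / 200 : ℝ) ^ sh w ≤ 24 * (121 / 50) ^ m := by
      have key : ∀ b ∈ nb 0, ∀ c ∈ (nb b).erase 0,
          ∑ w ∈ (E m 0 b c).image (fun l => 0 :: b :: c :: l), (1 / 200 : ℝ) ^ sh w ≤
            3 / 2 * (121 / 50) ^ m := by
        intro b hb c hc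
        rw [Finset.mem_erase, mem_nb] at hc
        rw [Finset.sum_image (fun _ _ _ _ h =>
          (List.cons.inj (List.cons.inj (List.cons.inj h).2).2).2)]
        refine (sum_E m 0 b c (mem_nb.1 hb) hc.2 (fun h => hc.1 h.symm)).trans ?_
        refine mul_le_mul_of_nonneg_right ?_ (by positivity)
        unfold ph
        split_ifs <;> norm_num
      have h16 : ((nb 0).card : ℝ) = 4 := by
        have : (nb 0).card = 4 := by decide
        rw [this]; norm_num
      have hcard : ∀ b, (((nb b).erase 0).card : ℝ) ≤ 4 := by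
        intro b
        have : ((nb b).erase 0).card ≤ 4 := by
          refine (Finset.card_erase_le).trans ?_
          unfold nb
          refine Finset.card_image_le.trans ?_
          decide
        exact_mod_cast this
      rw [hG]
      refine (sum_bi_le _ _ _ fun _ => by positivity).trans ?_
      have h8 : ∀ b ∈ nb 0, ∑ w ∈ ((nb b).erase 0).biUnion (fun c =>
          (E m 0 b c).image (fun l => 0 :: b :: c :: l)), (1 / 200 : ℝ) ^ sh w ≤
          6 * (121 / 50) ^ m := by
        intro b hb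
        refine (sum_bi_le _ _ _ fun _ => by positivity).trans ?_
        refine (Finset.sum_le_sum (key b hb)).trans ?_
        rw [Finset.sum_const, nsmul_eq_mul]
        have := hcard b
        have h9 : (0 : ℝ) ≤ (121 / 50) ^ m := by positivity
        nlinarith
      refine (Finset.sum_le_sum h8).trans ?_
      rw [Finset.sum_const, nsmul_eq_mul, h16]
      linarith
    have h4 : (Q.card : ℝ) * (1 / 200 : ℝ) ^ ((m + 2) / 100000) ≤ 24 * (121 / 50 : ℝ) ^ m :=
      (h1.trans h2).trans h3
    have h5 := pow_small (m + 2)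
    have h6 : (1 / 200 : ℝ) ^ ((m + 2) / 100000) * (200 : ℝ) ^ ((m + 2) / 100000) = 1 := by
      rw [← mul_pow]; norm_num
    have h7 : (Q.card : ℝ) ≤ 24 * (607 / 250 : ℝ) ^ (m + 2) := by
      calc (Q.card : ℝ) = (Q.card : ℝ) * (1 / 200 : ℝ) ^ ((m + 2) / 100000) *
            (200 : ℝ) ^ ((m + 2) / 100000) := by rw [mul_assoc, h6, mul_one]
        _ ≤ 24 * (121 / 50 : ℝ) ^ m * (401 / 400 : ℝ) ^ (m + 2) := by
            refine mul_le_mul h4 h5 (by positivity) (by positivity)
        _ ≤ 24 * (121 / 50 : ℝ) ^ (m + 2) * (401 / 400 : ℝ) ^ (m + 2) := by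
            refine mul_le_mul_of_nonneg_right ?_ (by positivity)
            refine mul_le_mul_of_nonneg_left ?_ (by norm_num)
            exact pow_le_pow_right₀ (by norm_num) (by omega)
        _ = 24 * (121 / 50 * (401 / 400) : ℝ) ^ (m + 2) := by rw [mul_assoc, ← mul_pow]
        _ ≤ 24 * (607 / 250 : ℝ) ^ (m + 2) := by
            refine mul_le_mul_of_nonneg_left ?_ (by norm_num)
            exact pow_le_pow_left₀ (by norm_num) (by norm_num) _
    nlinarith

/-! ### growth -/

/-- the adjacency of the square lattice -/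
def Adj (p q : ℤ × ℤ) : Prop := |p.1 - q.1| + |p.2 - q.2| = 1

theorem adj_eq : Adj = A := by
  funext p q
  apply propext
  rw [A_iff]
  unfold Adj
  rcases abs_cases (p.1 - q.1) with h4 | h4 <;> rcases abs_cases (p.2 - q.2) with h5 | h5 <;>
    omega

/-- lower bound of the connective constant -/
theorem mu_ge (a : ℕ → ℕ)
    (ha : ∀ n : ℕ, a n = Set.ncard {f : Fin (n + 1) → ℤ × ℤ |
            f 0 = 0 ∧ Function.Injective f ∧
            ∀ i : Fin n, Adj (f i.castSucc) (f i.succ)}) (μ K : ℝ) (hμ1 : 1 ≤ μ)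
    (hup : ∀ n : ℕ, 2 ≤ n → (a n : ℝ) ≤ μ ^ n * Real.exp (K * (Real.log n) ^ 2)) :
    243 / 100 ≤ μ := by
  by_contra hcon
  push Not at hcon
  obtain ⟨c, hc, hlow⟩ := Pool.Agent.H976R2.Low.SW_card_lower
  have hcard : ∀ n, (a n : ℝ) = ((Pool.Agent.H976R2.SW n).card : ℝ) := by
    intro n
    rw [ha, ← Pool.Agent.H976R2.ncard_saw]
    congr 2
    ext f
    simp only [Set.mem_ofPred_eq]
    unfold Pool.Agent.H976R2.IsSAW Adj
    have e : ∀ i : Fin n, |(f i.succ).1 - (f i.castSucc).1| + |(f i.succ).2 - (f i.castSucc).2| =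
        |(f i.castSucc).1 - (f i.succ).1| + |(f i.castSucc).2 - (f i.succ).2| := by
      intro i
      rw [abs_sub_comm (f i.succ).1, abs_sub_comm (f i.succ).2]
    simp only [e]
    constructor
    · rintro ⟨h1, h2, h3⟩
      exact ⟨h1, h3, h2⟩
    · rintro ⟨h1, h2, h3⟩
      exact ⟨h1, h3, h2⟩
  obtain ⟨τ, hτ⟩ : ∃ τ : ℝ, τ = (2.43 / μ - 1) / 2 := ⟨_, rfl⟩
  have hμ0 : 0 < μ := by linarith
  have h243 : 1 < 2.43 / μ := by
    rw [lt_div_iff₀ hμ0]; norm_num at hcon ⊢; linarith
  have hτ0 : 0 < τ := by rw [hτ]; linarith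
  have hr : (1 + τ) * μ < 2.43 := by
    have : 1 + τ < 2.43 / μ := by rw [hτ]; linarith
    rwa [lt_div_iff₀ hμ0] at this
  have hr0 : 0 < (1 + τ) * μ := by positivity
  have hq0 : 0 ≤ (1 + τ) * μ / 2.43 := by positivity
  have hq1 : (1 + τ) * μ / 2.43 < 1 := by rw [div_lt_one (by norm_num)]; exact hr
  have h2 := tendsto_pow_atTop_nhds_zero_of_lt_one hq0 hq1
  have h3 := h2.eventually (gt_mem_nhds hc)
  obtain ⟨n, ⟨hn1, hn2⟩, hn3⟩ := (((exp_log_sq_le K τ hτ0).and h3).and
    (eventually_ge_atTop 2)).exists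
  have h4 := hup n hn3
  have h5 := hlow n
  rw [← hcard] at h5
  rw [div_pow, div_lt_iff₀ (by positivity)] at hn2
  have h6 : μ ^ n * Real.exp (K * (Real.log n) ^ 2) ≤ ((1 + τ) * μ) ^ n := by
    rw [mul_pow, mul_comm]
    exact mul_le_mul_of_nonneg_right hn1 (by positivity)
  linarith

theorem growth (a : ℕ → ℕ)
    (ha : ∀ n : ℕ, a n = Set.ncard {f : Fin (n + 1) → ℤ × ℤ |
            f 0 = 0 ∧ Function.Injective f ∧
            ∀ i : Fin n, Adj (f i.castSucc) (f i.succ)}) (μ : ℝ)
    (hμ : μ = (⨅ n : {n : ℕ // 1 ≤ n}, ((a n.1 : ℝ) ^ ((1 : ℝ) / (n.1 : ℝ))))) :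
    (∀ n, (Kw A n).card = a n) ∧ ∃ K : ℝ, Growth rule μ K := by
  have hc : ∀ n, (Kw A n).card = a n := by
    intro n
    rw [count_eq rule, ha n, adj_eq]
  refine ⟨hc, ?_⟩
  obtain ⟨h1, K, hK, h2⟩ := mu_facts (L := H982P.sqL) H982P.coord_sq a ha μ hμ
  have h0 : (1 : ℝ) ≤ μ := by
    have ha' : ∀ n, a n = (H982.walks Adj n).ncard := ha
    have hμ' : μ = @H982.mu H982P.sqL := by
      rw [hμ, ← @H982.mu_eq_iInf H982P.sqL _ _ _ H982P.coord_sq]
      congr 1
      funext n
      rw [ha']
      rfl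
    rw [hμ']
    exact @H982.one_le_mu H982P.sqL
  have h3 := mu_ge a ha μ K h0 h2
  obtain ⟨C0, hC0⟩ := poor
  refine ⟨K, ⟨by decide, h0, hK, fun n => ?_, fun n hn => ?_, ?_⟩⟩
  · rw [hc n]
    exact h1 n
  · rw [hc n]
    exact h2 n hn
  · refine ⟨100000, 607 / 250, C0, by norm_num, by norm_num, by linarith, fun n => ?_⟩
    have h := hC0 n
    convert h using 3

end Q219.SAW.Sq
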