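import Pool.Agent.Q219.SAW.Knt

/-!
# Boundedness of the normalised counts of a class closed under connected sums
-/

set_option autoImplicit false

namespace Q219.SAW.Knt

open Filter Topology Finset KN TH966.KS

theorem bdd {y : ℕ → ℝ} {A : ℝ} (hA : 0 < A)
    (hsq : ∀ k, 1 ≤ k → y k ^ 2 ≤ A * y (2 * k))
    (hgr : ∀ τ : ℝ, 0 < τ → ∃ C : ℝ, ∀ k, y k ≤ C * (1 + τ) ^ k) (k : ℕ) (hk : 1 ≤ k) :
    y k ≤ A := by
  by_contra hcon
  obtain ⟨z, hz⟩ : ∃ z : ℝ, z = y k / A := ⟨_, rfl⟩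
  have hz1 : 1 < z := by
    rw [hz, lt_div_iff₀ hA]
    linarith [not_le.1 hcon]
  have hind : ∀ j : ℕ, A * z ^ (2 ^ j) ≤ y (2 ^ j * k) := by
    intro j
    induction j with
    | zero =>
      rw [pow_zero, pow_one, one_mul, hz, mul_div_cancel₀ _ hA.ne']
    | succ j ih =>
      have h1 : 1 ≤ 2 ^ j * k := Nat.mul_pos (pow_pos (by norm_num) j) hk
      have h2 := hsq _ h1
      have e : 2 * (2 ^ j * k) = 2 ^ (j + 1) * k := by ring
      rw [e] at h2
      have h3 : (A * z ^ (2 ^ j)) ^ 2 ≤ y (2 ^ j * k) ^ 2 :=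
        pow_le_pow_left₀ (by positivity) ih 2
      have h4 : A * (A * z ^ (2 ^ (j + 1))) ≤ A * y (2 ^ (j + 1) * k) := by
        refine le_trans (le_of_eq ?_) (h3.trans h2)
        rw [mul_pow, ← pow_mul]
        have e2 : 2 ^ j * 2 = 2 ^ (j + 1) := by ring
        rw [e2]
        ring
      exact le_of_mul_le_mul_left h4 hA
  obtain ⟨w, hw⟩ : ∃ w : ℝ, w = (1 + z) / 2 := ⟨_, rfl⟩
  have hw1 : 1 < w := by rw [hw]; linarith
  have hwz : w < z := by rw [hw]; linarith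
  have hk0 : (0 : ℝ) < k := by exact_mod_cast hk
  obtain ⟨τ, hτ⟩ : ∃ τ : ℝ, τ = w ^ (1 / (k : ℝ)) - 1 := ⟨_, rfl⟩
  have hτ0 : 0 < τ := by
    have := Real.one_lt_rpow hw1 (show 0 < 1 / (k : ℝ) by positivity)
    linarith
  have hτk : (1 + τ) ^ k = w := by
    have e : 1 + τ = w ^ (1 / (k : ℝ)) := by rw [hτ]; ring
    rw [e, ← Real.rpow_natCast, ← Real.rpow_mul (by linarith)]
    have : 1 / (k : ℝ) * k = 1 := by field_simp
    rw [this, Real.rpow_one]
  obtain ⟨C, hC⟩ := hgr τ hτ0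
  have hrat : 1 < z / w := by rwa [one_lt_div (by linarith)]
  obtain ⟨j, hj⟩ := ((tendsto_pow_atTop_atTop_of_one_lt hrat).eventually_gt_atTop (C / A)).exists
  have h1 := (hind j).trans (hC (2 ^ j * k))
  have e3 : (1 + τ) ^ (2 ^ j * k) = w ^ (2 ^ j) := by
    rw [mul_comm, pow_mul, hτk]
  rw [e3] at h1
  have hw0 : 0 < w ^ (2 ^ j) := pow_pos (by linarith) _
  have h2 : (z / w) ^ (2 ^ j) ≤ C / A := by
    rw [div_pow, div_le_div_iff₀ hw0 hA]
    linarith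
  have h3 : (z / w) ^ j ≤ (z / w) ^ (2 ^ j) :=
    pow_le_pow_right₀ hrat.le (Nat.lt_two_pow_self).le
  linarith

/-- the normalised counts of a class closed under connected sums are bounded -/
theorem bdd_sum (Q : List Dir → Prop) (hQ : KClass Q) (hne : ∃ w, SAP w ∧ Q w) (hc : CSum Q)
    (k : ℕ) : yq Q k ≤ 16 := by
  obtain ⟨h1, -, -⟩ := gr_bounds Q hQ hne
  have hμ : 0 < gr Q := by linarith
  have hy := yq_nonneg Q hμ.le
  rcases Nat.eq_zero_or_pos k with rfl | hk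
  · have h0 : yq Q 0 = 0 := by
      unfold yq pq
      simp
    rw [h0]
    norm_num
  refine bdd (by norm_num) (fun k hk => ?_) (grow Q hQ hne) k hk
  have hk0 : (0 : ℝ) < k := by exact_mod_cast hk
  have h := GEN.super Q hQ hc (2 * k) (2 * k)
  have h' : (a Q (2 * k) : ℝ) * a Q (2 * k) ≤ 16 * (2 * k) * a Q (2 * (2 * k)) := by
    have e : 2 * k + 2 * k = 2 * (2 * k) := by ring
    rw [e] at h
    exact_mod_cast h
  unfold yq pq
  have hM : 0 < gr Q ^ (2 * (2 * k)) := pow_pos hμ _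
  have e2 : gr Q ^ (2 * (2 * k)) = gr Q ^ (2 * k) * gr Q ^ (2 * k) := by
    rw [← pow_add]; congr 1; ring
  rw [e2, div_pow, div_pow, pow_two (gr Q ^ (2 * k)), ← mul_div_assoc]
  rw [div_le_div_iff_of_pos_right (by positivity)]
  push_cast
  rw [div_le_iff₀ (by positivity)]
  have e3 : 16 * ((a Q (2 * (2 * k)) : ℝ) / (2 * (2 * (2 * k)))) * (2 * (2 * k)) ^ 2 =
      16 * (2 * k) * a Q (2 * (2 * k)) := by
    field_simp
  rw [e3]
  calc (a Q (2 * k) : ℝ) ^ 2 = a Q (2 * k) * a Q (2 * k) := by ring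
    _ ≤ _ := h'

end Q219.SAW.Knt
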