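import Pool.Agent.TH966.KO.Rates
import Pool.Agent.Q219.SAW.Gap

/-!
# Self-avoiding walks on `ℤ³`: rates of the ratios and sparse sequences of lengths
-/

set_option autoImplicit false

namespace Q219.SAW.Z3

open Filter Topology Finset TH966.KO Q219.SAW.Gap

/-- the number of `n`-step self-avoiding nearest-neighbour walks on `ℤ³` from `0` -/
noncomputable def C (n : ℕ) : ℕ :=
  Nat.card {ω : Fin (n + 1) → (Fin 3 → ℤ) //
    ω 0 = 0 ∧ Function.Injective ω ∧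
    ∀ i : Fin n, ∑ j : Fin 3, |ω i.succ j - ω i.castSucc j| = 1}

theorem C_eq (n : ℕ) : C n = TH966.KO.c n := Pool.Agent.H46R2.K3.P.card_eq n

theorem C_pos (n : ℕ) : (0 : ℝ) < C n := by
  rw [C_eq]
  exact TH966.KO.c_pos n

theorem mu_pos : 0 < TH966.KO.μ := by linarith [TH966.KO.mu_one]

theorem C_add (m n : ℕ) : (C (m + n) : ℝ) ≤ C m * C n := by
  rw [C_eq, C_eq, C_eq]
  exact_mod_cast TH966.KO.c_add m n

/-- from large `n` to all `n` -/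
theorem all_of_ev {f g : ℕ → ℝ} (hg : ∀ n, 1 ≤ n → 0 < g n) {K : ℝ}
    (h : ∀ᶠ n : ℕ in atTop, f n ≤ K * g n) : ∃ K', K ≤ K' ∧ ∀ n, 1 ≤ n → f n ≤ K' * g n := by
  obtain ⟨n₀, hn₀⟩ := eventually_atTop.1 h
  have h0 : ∀ i ∈ range n₀, 0 ≤ |f i / g i| := fun i _ => abs_nonneg _
  refine ⟨|K| + ∑ i ∈ range n₀, |f i / g i|, ?_, fun n hn => ?_⟩
  · have := sum_nonneg h0
    have := le_abs_self K
    linarith
  · have hgn := hg n hn
    rcases Nat.lt_or_ge n n₀ with h1 | h1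
    · have h2 := single_le_sum h0 (mem_range.2 h1)
      have h3 : f n / g n ≤ |K| + ∑ i ∈ range n₀, |f i / g i| := by
        have := le_abs_self (f n / g n)
        have := abs_nonneg K
        linarith
      rwa [div_le_iff₀ hgn] at h3
    · refine (hn₀ n h1).trans (mul_le_mul_of_nonneg_right ?_ hgn.le)
      have := sum_nonneg h0
      have := le_abs_self K
      linarith

/-- the rates for all `n` -/
theorem rates_all (ε : ℝ) (hε : 0 < ε) : ∃ K : ℝ, ∀ n : ℕ, 1 ≤ n →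
    -(K * (n : ℝ) ^ (-(1 / 3 : ℝ) + ε)) ≤ (C (n + 2) : ℝ) / C n - μ ^ 2 ∧
      (C (n + 2) : ℝ) / C n - μ ^ 2 ≤ K * (n : ℝ) ^ (-(2 / 5 : ℝ) + ε) := by
  obtain ⟨K, hK⟩ := rates ε hε
  have hp : ∀ a : ℝ, ∀ n : ℕ, 1 ≤ n → 0 < (n : ℝ) ^ a := fun a n hn =>
    Real.rpow_pos_of_pos (by exact_mod_cast hn) a
  obtain ⟨K1, h1, h1'⟩ := all_of_ev (f := fun n => -((c (n + 2) : ℝ) / c n - μ ^ 2))
    (g := fun n => (n : ℝ) ^ (-(1 / 3 : ℝ) + ε)) (K := K) (hp _)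
    (hK.mono fun n hn => by linarith [hn.1])
  obtain ⟨K2, h2, h2'⟩ := all_of_ev (f := fun n => (c (n + 2) : ℝ) / c n - μ ^ 2)
    (g := fun n => (n : ℝ) ^ (-(2 / 5 : ℝ) + ε)) (K := K) (hp _) (hK.mono fun n hn => hn.2)
  refine ⟨max K1 K2, fun n hn => ?_⟩
  rw [C_eq, C_eq]
  have e1 := h1' n hn
  have e2 := h2' n hn
  have e3 := mul_le_mul_of_nonneg_right (le_max_left K1 K2) (hp (-(1 / 3 : ℝ) + ε) n hn).le
  have e4 := mul_le_mul_of_nonneg_right (le_max_right K1 K2) (hp (-(2 / 5 : ℝ) + ε) n hn).le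
  constructor <;> linarith

/-- logarithmic form of the upper rate -/
theorem log_ratio {ε : ℝ} (hε : 0 < ε) : ∃ K : ℝ, 0 < K ∧ ∀ n : ℕ, 1 ≤ n →
    Real.log ((C (n + 2) : ℝ) / μ ^ (n + 2)) - Real.log ((C n : ℝ) / μ ^ n) ≤
      K * (n : ℝ) ^ (-(2 / 5 : ℝ) + ε) := by
  obtain ⟨K, hK⟩ := rates_all ε hε
  have hμ := mu_pos
  refine ⟨|K| / μ ^ 2 + 1, by positivity, fun n hn => ?_⟩
  obtain ⟨-, h2⟩ := hK n hn
  have hx0 : 0 ≤ (n : ℝ) ^ (-(2 / 5 : ℝ) + ε) := by positivity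
  have a1 := C_pos (n + 2)
  have a2 := C_pos n
  have h5 : (C (n + 2) : ℝ) / C n / μ ^ 2 - 1 ≤
      |K| / μ ^ 2 * (n : ℝ) ^ (-(2 / 5 : ℝ) + ε) := by
    have e : (C (n + 2) : ℝ) / C n / μ ^ 2 - 1 = ((C (n + 2) : ℝ) / C n - μ ^ 2) / μ ^ 2 := by
      field_simp
    rw [e, div_mul_eq_mul_div]
    refine div_le_div_of_nonneg_right ?_ (by positivity)
    exact h2.trans (mul_le_mul_of_nonneg_right (le_abs_self K) hx0)
  have h6 := log_step (div_pos (div_pos a1 a2) (pow_pos hμ 2)) h5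
  have e : Real.log ((C (n + 2) : ℝ) / C n / μ ^ 2) =
      Real.log ((C (n + 2) : ℝ) / μ ^ (n + 2)) - Real.log ((C n : ℝ) / μ ^ n) := by
    have a3 : ∀ k, μ ^ k ≠ 0 := fun k => pow_ne_zero _ hμ.ne'
    rw [← Real.log_div (div_ne_zero a1.ne' (a3 _)) (div_ne_zero a2.ne' (a3 _))]
    congr 1
    rw [pow_add]
    field_simp
  rw [e] at h6
  exact h6.trans (mul_le_mul_of_nonneg_right (by linarith) hx0)

/-- the step for one parity class -/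
theorem par_step {ε : ℝ} (hε : 0 < ε) (hε3 : ε < 2 / 5) (e : ℕ) : ∃ K : ℝ, 0 < K ∧
    ∀ m : ℕ, 1 ≤ m →
    Real.log ((C (2 * (m + 1) + e) : ℝ) / μ ^ (2 * (m + 1) + e)) -
      Real.log ((C (2 * m + e) : ℝ) / μ ^ (2 * m + e)) ≤ K * (m : ℝ) ^ (-(2 / 5 : ℝ) + ε) := by
  obtain ⟨K, hK, h⟩ := log_ratio hε
  refine ⟨K, hK, fun m hm => ?_⟩
  have h1 := h (2 * m + e) (by omega)
  rw [show 2 * (m + 1) + e = 2 * m + e + 2 by ring]
  refine h1.trans (mul_le_mul_of_nonneg_left ?_ hK.le)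
  refine Real.rpow_le_rpow_of_nonpos (by exact_mod_cast (show 0 < m by omega)) ?_ (by linarith)
  exact_mod_cast (show m ≤ 2 * m + e by omega)

/-- powers are decreasing -/
theorem rp_anti {ε K : ℝ} (hK : 0 ≤ K) (hε3 : ε < 2 / 5) (i j : ℕ) (hi : 1 ≤ i) (hij : i ≤ j) :
    K * (j : ℝ) ^ (-(2 / 5 : ℝ) + ε) ≤ K * (i : ℝ) ^ (-(2 / 5 : ℝ) + ε) := by
  refine mul_le_mul_of_nonneg_left ?_ hK
  exact Real.rpow_le_rpow_of_nonpos (by exact_mod_cast (show 0 < i by omega))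
    (by exact_mod_cast hij) (by linarith)

theorem log_inc {m e : ℕ} (hm : 1 ≤ m) :
    |Real.log ((2 * (m + 1) + e : ℕ) : ℝ) - Real.log ((2 * m + e : ℕ) : ℝ)| ≤ 1 / m := by
  have hm0 : (0 : ℝ) < m := by exact_mod_cast hm
  have h1 : (0 : ℝ) < ((2 * m + e : ℕ) : ℝ) := by exact_mod_cast (show 0 < 2 * m + e by omega)
  have h2 : (0 : ℝ) < ((2 * (m + 1) + e : ℕ) : ℝ) := by
    exact_mod_cast (show 0 < 2 * (m + 1) + e by omega)
  have h3 : ((2 * m + e : ℕ) : ℝ) ≤ ((2 * (m + 1) + e : ℕ) : ℝ) := by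
    exact_mod_cast (show 2 * m + e ≤ 2 * (m + 1) + e by omega)
  rw [abs_of_nonneg (sub_nonneg.2 (Real.log_le_log h1 h3)), ← Real.log_div h2.ne' h1.ne']
  refine (Real.log_le_sub_one_of_pos (div_pos h2 h1)).trans ?_
  rw [div_sub_one h1.ne', div_le_div_iff₀ h1 hm0]
  push_cast
  have : (0 : ℝ) ≤ e := Nat.cast_nonneg e
  nlinarith

theorem sparse {ε : ℝ} (hε : 0 < ε) (hε3 : ε < 2 / 5) {s : ℕ → ℕ} {e : ℕ} {A γ : ℝ}
    (hA : 0 < A) (hs : Tendsto s atTop atTop)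
    (hgap : Tendsto (fun k => ((s (k + 1) : ℝ) - s k) * (s k : ℝ) ^ (-(2 / 5 : ℝ) + ε)) atTop
      (𝓝 0))
    (h : Tendsto (fun k => (C (2 * s k + e) : ℝ) /
      (μ ^ (2 * s k + e) * ((2 * s k + e : ℕ) : ℝ) ^ (γ - 1))) atTop (𝓝 A)) :
    Tendsto (fun m => (C (2 * m + e) : ℝ) /
      (μ ^ (2 * m + e) * ((2 * m + e : ℕ) : ℝ) ^ (γ - 1))) atTop (𝓝 A) := by
  obtain ⟨K, hK, hstep⟩ := par_step hε hε3 e
  have hμ := mu_pos
  have hpos : ∀ m : ℕ, 1 ≤ m → (0 : ℝ) < ((2 * m + e : ℕ) : ℝ) := fun m hm => by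
    exact_mod_cast (show 0 < 2 * m + e by omega)
  obtain ⟨v, hv⟩ : ∃ v : ℕ → ℝ, v = fun m => Real.log ((C (2 * m + e) : ℝ) / μ ^ (2 * m + e)) -
    (γ - 1) * Real.log ((2 * m + e : ℕ) : ℝ) := ⟨_, rfl⟩
  have hexp : ∀ m : ℕ, 1 ≤ m → Real.exp (v m) = (C (2 * m + e) : ℝ) /
      (μ ^ (2 * m + e) * ((2 * m + e : ℕ) : ℝ) ^ (γ - 1)) := by
    intro m hm
    rw [hv]
    simp only
    rw [Real.exp_sub, Real.exp_log (div_pos (C_pos _) (pow_pos hμ _)), div_div]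
    congr 2
    rw [Real.rpow_def_of_pos (hpos m hm), mul_comm]
  have hlog : ∀ m : ℕ, 1 ≤ m → v m = Real.log ((C (2 * m + e) : ℝ) /
      (μ ^ (2 * m + e) * ((2 * m + e : ℕ) : ℝ) ^ (γ - 1))) := fun m hm => by
    rw [← hexp m hm, Real.log_exp]
  have h1 : Tendsto (fun k => v (s k)) atTop (𝓝 (Real.log A)) := by
    refine (h.log hA.ne').congr' ?_
    filter_upwards [hs.eventually_ge_atTop 1] with k hk
    exact (hlog _ hk).symm
  have hr : ∀ i j : ℕ, 1 ≤ i → i ≤ j → (K + |γ - 1|) * (j : ℝ) ^ (-(2 / 5 : ℝ) + ε) ≤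
      (K + |γ - 1|) * (i : ℝ) ^ (-(2 / 5 : ℝ) + ε) := fun i j hi hij =>
    rp_anti (by positivity) hε3 i j hi hij
  have hstep' : ∀ m : ℕ, 1 ≤ m → v (m + 1) - v m ≤
      (K + |γ - 1|) * (m : ℝ) ^ (-(2 / 5 : ℝ) + ε) := by
    intro m hm
    have a1 := hstep m hm
    have a2 := log_inc (m := m) (e := e) (by omega)
    have hm1 : (1 : ℝ) ≤ m := by exact_mod_cast (show 1 ≤ m by omega)
    have a3 : 1 / (m : ℝ) ≤ (m : ℝ) ^ (-(2 / 5 : ℝ) + ε) := by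
      rw [one_div, ← Real.rpow_neg_one]
      exact Real.rpow_le_rpow_of_exponent_le hm1 (by linarith)
    have a4 : |(γ - 1) * (Real.log ((2 * (m + 1) + e : ℕ) : ℝ) -
        Real.log ((2 * m + e : ℕ) : ℝ))| ≤ |γ - 1| * (m : ℝ) ^ (-(2 / 5 : ℝ) + ε) := by
      rw [abs_mul]
      exact mul_le_mul_of_nonneg_left (a2.trans a3) (abs_nonneg _)
    have a5 : v (m + 1) - v m = (Real.log ((C (2 * (m + 1) + e) : ℝ) / μ ^ (2 * (m + 1) + e)) -
        Real.log ((C (2 * m + e) : ℝ) / μ ^ (2 * m + e))) - (γ - 1) *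
        (Real.log ((2 * (m + 1) + e : ℕ) : ℝ) - Real.log ((2 * m + e : ℕ) : ℝ)) := by
      rw [hv]
      ring
    rw [a5, add_mul]
    have a6 := (abs_le.1 a4).1
    linarith
  have h2 := add_form hr (fun i hi => by positivity) hstep' hs (by
    have := hgap.const_mul (K + |γ - 1|)
    rw [mul_zero] at this
    refine this.congr fun k => ?_
    ring) h1
  have h3 := (Real.continuous_exp.tendsto (Real.log A)).comp h2
  rw [Real.exp_log hA] at h3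
  refine h3.congr' ?_
  filter_upwards [eventually_ge_atTop 1] with m hm
  exact hexp m hm

end Q219.SAW.Z3
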