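import Pool.Agent.Q219.SAW.WinD

/-!
# From lists to functions
-/

set_option autoImplicit false

namespace Q219.SAW

open Finset Filter Topology TH966.AK
open scoped Classical

variable {A : P → P → Prop} {Z : Rule A}

/-- the set of the walks as functions -/
def FW (A : P → P → Prop) (n : ℕ) : Set (Fin (n + 1) → ℤ × ℤ) :=
  {f | f 0 = 0 ∧ Function.Injective f ∧ ∀ i : Fin n, A (f i.castSucc) (f i.succ)}

include Z in
theorem coe_eq (p : List P → Prop) (n : ℕ) :
    (((Kw A n).filter p : Finset (List P)) : Set (List P)) =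
      List.ofFn '' {f : Fin (n + 1) → ℤ × ℤ | f ∈ FW A n ∧ p (List.ofFn f)} := by
  ext w
  rw [Finset.mem_coe, mem_filter, Z.mem_K, Set.mem_image]
  have key : ∀ f : Fin (n + 1) → ℤ × ℤ, Walk A (List.ofFn f) ↔ f ∈ FW A n := by
    intro f
    unfold Walk FW
    rw [List.nodup_ofFn, List.isChain_ofFn, Set.mem_ofPred_eq]
    refine and_congr ?_ (and_congr Iff.rfl ?_)
    · rw [List.ofFn_succ]
      simp
    · constructor
      · intro h i
        exact h i.1 (by have := i.2; omega)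
      · intro h i hi
        exact h ⟨i, by omega⟩
  constructor
  · rintro ⟨⟨h1, h2⟩, h3⟩
    have e : List.ofFn (fun i : Fin (n + 1) => w[i.1]'(by rw [h1]; exact i.2)) = w := by
      apply List.ext_getElem
      · simp [h1]
      · intro i hi hi'
        rw [List.getElem_ofFn]
    refine ⟨fun i : Fin (n + 1) => w[i.1]'(by rw [h1]; exact i.2), ⟨?_, ?_⟩, e⟩
    · exact (key (fun i : Fin (n + 1) => w[i.1]'(by rw [h1]; exact i.2))).1 (by rw [e]; exact h2)
    · show p (List.ofFn (fun i : Fin (n + 1) => w[i.1]'(by rw [h1]; exact i.2)))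
      rw [e]
      exact h3
  · rintro ⟨f, hf, rfl⟩
    rw [Set.mem_ofPred_eq] at hf
    exact ⟨⟨by simp, (key f).2 hf.1⟩, hf.2⟩

include Z in
theorem sum_fn (p : List P → Prop) (φ : List P → ℝ) (n : ℕ) :
    ∑ w ∈ (Kw A n).filter p, φ w =
      ∑ᶠ f ∈ {f : Fin (n + 1) → ℤ × ℤ | f ∈ FW A n ∧ p (List.ofFn f)}, φ (List.ofFn f) := by
  rw [← finsum_mem_coe_finset, coe_eq (Z := Z), finsum_mem_image List.ofFn_injective.injOn]

/-- decoding of the outer part -/
def dec (a m : ℕ) (o : List P × List P) : (Fin (a + 1) → ℤ × ℤ) × (Fin (m + 1) → ℤ × ℤ) :=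
  (fun i => o.1.getD i 0, fun j => o.2.getD j 0)

/-- the outer part of a function -/
def outerF (a m : ℕ) {n : ℕ} (ω : Fin (n + 1) → ℤ × ℤ) :
    (Fin (a + 1) → ℤ × ℤ) × (Fin (m + 1) → ℤ × ℤ) :=
  (fun i => ω (Fin.ofNat (n + 1) i), fun j => ω (Fin.ofNat (n + 1) (n - m + j)))

theorem dec_out {a L m n : ℕ} (hn : n = a + L + m) (ω : Fin (n + 1) → ℤ × ℤ) :
    dec a m (out a L (List.ofFn ω)) = outerF a m ω := by
  subst hn
  unfold dec out outerF
  refine Prod.ext ?_ ?_
  · funext i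
    simp only
    rw [List.getD_eq_getElem?_getD, List.getElem?_take]
    have hi := i.2
    rw [if_pos hi, List.getElem?_ofFn, dif_pos (by omega), Option.getD_some]
    congr 1
    apply Fin.ext
    simp only [Fin.val_ofNat]
    rw [Nat.mod_eq_of_lt (by omega)]
  · funext j
    simp only
    have hj := j.2
    rw [List.getD_eq_getElem?_getD, List.getElem?_drop, List.getElem?_ofFn,
      dif_pos (by omega), Option.getD_some]
    congr 1
    apply Fin.ext
    simp only [Fin.val_ofNat]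
    rw [Nat.mod_eq_of_lt (by omega)]
    omega

include Z in
/-- weighted sums over the walks in a domain which depend on the outer part -/
theorem WD_fn (D : Set P) {a L m n : ℕ} (hn : n = a + L + m)
    (H : Set ((Fin (a + 1) → ℤ × ℤ) × (Fin (m + 1) → ℤ × ℤ)))
    (g : (Fin (a + 1) → ℤ × ℤ) × (Fin (m + 1) → ℤ × ℤ) → ℝ) :
    WD A D a L m (fun o => (if dec a m o ∈ H then 1 else 0) * g (dec a m o)) =
      ∑ᶠ ω ∈ {ω : Fin (n + 1) → ℤ × ℤ | ω ∈ FW A n ∧ (∀ i, ω i ∈ D) ∧ outerF a m ω ∈ H},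
        g (outerF a m ω) := by
  have h1 : WD A D a L m (fun o => (if dec a m o ∈ H then 1 else 0) * g (dec a m o)) =
      ∑ w ∈ (Kw A n).filter (fun w => In D w ∧ dec a m (out a L w) ∈ H),
        g (dec a m (out a L w)) := by
    unfold WD KD
    rw [← hn]
    conv_rhs => rw [← filter_filter, sum_filter]
    refine sum_congr rfl fun w _ => ?_
    by_cases h : dec a m (out a L w) ∈ H <;> simp [h]
  rw [h1]
  have h2 := sum_fn (Z := Z) (fun w => In D w ∧ dec a m (out a L w) ∈ H)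
    (fun w => g (dec a m (out a L w))) n
  have h3 : ∑ w ∈ (Kw A n).filter (fun w => In D w ∧ dec a m (out a L w) ∈ H),
        g (dec a m (out a L w)) = ∑ᶠ f ∈ {f : Fin (n + 1) → ℤ × ℤ | f ∈ FW A n ∧
          (In D (List.ofFn f) ∧ dec a m (out a L (List.ofFn f)) ∈ H)},
        g (dec a m (out a L (List.ofFn f))) := by
    rw [← h2]
    congr
  rw [h3]
  have h4 : {f : Fin (n + 1) → ℤ × ℤ | f ∈ FW A n ∧
      (In D (List.ofFn f) ∧ dec a m (out a L (List.ofFn f)) ∈ H)} =
      {ω : Fin (n + 1) → ℤ × ℤ | ω ∈ FW A n ∧ (∀ i, ω i ∈ D) ∧ outerF a m ω ∈ H} := by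
    ext f
    rw [Set.mem_ofPred_eq, Set.mem_ofPred_eq, dec_out hn]
    unfold In
    rw [List.forall_mem_ofFn_iff]
  rw [h4]
  refine finsum_mem_congr rfl fun f _ => ?_
  rw [dec_out hn]

include Z in
/-- numbers of walks in a domain which depend on the outer part -/
theorem WD_card (D : Set P) {a L m n : ℕ} (hn : n = a + L + m)
    (H : Set ((Fin (a + 1) → ℤ × ℤ) × (Fin (m + 1) → ℤ × ℤ))) :
    WD A D a L m (fun o => if dec a m o ∈ H then 1 else 0) =
      (Set.ncard {ω : Fin (n + 1) → ℤ × ℤ |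
        ω ∈ FW A n ∧ (∀ i, ω i ∈ D) ∧ outerF a m ω ∈ H} : ℝ) := by
  have h1 : WD A D a L m (fun o => if dec a m o ∈ H then 1 else 0) =
      (((Kw A n).filter (fun w => In D w ∧ dec a m (out a L w) ∈ H)).card : ℝ) := by
    unfold WD KD
    rw [← hn, card_filter, Nat.cast_sum]
    conv_rhs => rw [sum_congr rfl (fun w _ => Nat.cast_ite _ _ _)]
    rw [sum_filter]
    refine sum_congr rfl fun w _ => ?_
    by_cases h : dec a m (out a L w) ∈ H <;> by_cases h' : In D w <;> simp [h, h']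
  rw [h1]
  have h2 : ((Kw A n).filter (fun w => In D w ∧ dec a m (out a L w) ∈ H)).card = Set.ncard
      {f : Fin (n + 1) → ℤ × ℤ |
      (f 0 = 0 ∧ Function.Injective f ∧ ∀ i : Fin n, A (f i.castSucc) (f i.succ)) ∧
      (In D (List.ofFn f) ∧ dec a m (out a L (List.ofFn f)) ∈ H)} := by
    rw [← ncard_eq (Z := Z) (fun w => In D w ∧ dec a m (out a L w) ∈ H)]
    congr
  rw [h2]
  congr 2
  ext f
  rw [Set.mem_ofPred_eq, Set.mem_ofPred_eq, dec_out hn]
  unfold In FW
  rw [List.forall_mem_ofFn_iff, Set.mem_ofPred_eq]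

theorem WD_univ (a L m : ℕ) :
    WD A Set.univ a L m (fun _ => 1) = (Kw A (a + L + m)).card := by
  unfold WD KD
  rw [sum_const, nsmul_one]
  congr 2
  rw [filter_eq_self]
  intro w _ x _
  exact Set.mem_univ x

theorem WD_le (D : Set P) (a L m : ℕ) (h : List P × List P → ℝ) (h1 : ∀ o, h o ≤ 1) :
    WD A D a L m h ≤ (Kw A (a + L + m)).card := by
  unfold WD
  refine (sum_le_sum (g := fun _ => (1 : ℝ)) fun w _ => h1 _).trans ?_
  rw [sum_const, nsmul_one]
  exact_mod_cast card_le_card (filter_subset _ _)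

end Q219.SAW
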