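import Pool.Agent.Q219.SAW.WinD

/-!
# Families of domains
-/

set_option autoImplicit false

namespace Q219.SAW

open Finset Filter Topology TH966.AK
open scoped Classical

variable {A : P → P → Prop} {Z : Rule A}

/-- **families of domains**: the ratio of the weighted numbers of walks and the mixed law -/
theorem fam {μ K : ℝ} (G : Growth Z μ K) (hsh : ∀ U U', Z.T U U' → ∀ x ∈ U, x ∈ U')
    (κ' : ℝ) (hκ' : 0 ≤ κ') :
    ∃ R δ : ℝ, 0 < R ∧ 0 < δ ∧ ∀ {ι : Type} (S : Finset ι) (D : ι → Set P)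
      (f : ι → List P → ℝ) (v h : ι → ℝ) (U Λ : ℝ) (L : ℕ),
      (∀ i ∈ S, WtD Z (D i) (f i)) → (∀ i ∈ S, 0 ≤ v i) → (∀ i ∈ S, 0 ≤ h i) →
      (∀ i ∈ S, h i ≤ 1) → 0 < U → 1 ≤ L → Real.log L ^ 2 ≤ Λ → 47 / 100 ≤ Λ → Λ ≤ δ * L →
      ∑ i ∈ S, v i ≤ U * Real.exp (κ' * Λ) →
      Real.exp (-Λ) * (U * μ ^ L) ≤ ∑ i ∈ S, h i * (v i * cD A (D i) (f i) L) →
      |(∑ i ∈ S, h i * (v i * cD A (D i) (f i) (L + Z.s))) /
        (∑ i ∈ S, h i * (v i * cD A (D i) (f i) L)) / μ ^ Z.s - 1| ≤ R * √(Λ / L) ∧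
      0 < ∑ i ∈ S, h i * (v i * cD A (D i) (f i) (L + Z.s)) ∧
      ∀ g : ι → ℝ, (∀ i ∈ S, 0 ≤ g i) → (∀ i ∈ S, g i ≤ 1) →
      |(∑ i ∈ S, h i * g i * (v i * cD A (D i) (f i) (L + Z.s))) /
        (∑ i ∈ S, h i * (v i * cD A (D i) (f i) (L + Z.s))) -
        (∑ i ∈ S, h i * g i * (v i * cD A (D i) (f i) L)) /
        (∑ i ∈ S, h i * (v i * cD A (D i) (f i) L))| ≤
        R * √(Λ / L) * ((∑ i ∈ S, h i * g i * (v i * cD A (D i) (f i) L)) /
        (∑ i ∈ S, h i * (v i * cD A (D i) (f i) L))) + Real.exp (-Λ) := by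
  have hμ := G.hμ
  have hμ0 : 0 < μ := by linarith
  have hs := G.hs
  obtain ⟨R0, δ0, n0, hR0, hδ0, hrat⟩ := ratio_dom G hsh
  obtain ⟨Cd, δd, nd, hCd, hδd, hdown⟩ := down_dom G hsh
  -- the constants
  obtain ⟨κ, hκ⟩ : ∃ κ : ℝ, κ = κ' + 12 := ⟨_, rfl⟩
  have hκ1 : 1 ≤ κ := by rw [hκ]; linarith
  have hκ0 : 0 < κ := by linarith
  have hCd0 : 0 < Cd := by linarith
  obtain ⟨δ, hδ⟩ : ∃ δ : ℝ, δ = min (min (δ0 / (Cd * κ)) (δd / κ))
    (min (1 / (4 * R0 + 1) ^ 2 / (Cd * κ) / 16) (1 / (4 * ((n0 : ℝ) + nd + 1)))) := ⟨_, rfl⟩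
  have hδpos : 0 < δ := by
    rw [hδ]
    refine lt_min (lt_min ?_ ?_) (lt_min ?_ ?_) <;> positivity
  have hδ1 : δ ≤ δ0 / (Cd * κ) := by
    rw [hδ]; exact (min_le_left _ _).trans (min_le_left _ _)
  have hδ2 : δ ≤ δd / κ := by
    rw [hδ]; exact (min_le_left _ _).trans (min_le_right _ _)
  have hδ3 : δ ≤ 1 / (4 * R0 + 1) ^ 2 / (Cd * κ) / 16 := by
    rw [hδ]; exact (min_le_right _ _).trans (min_le_left _ _)
  have hδ4 : δ ≤ 1 / (4 * ((n0 : ℝ) + nd + 1)) := by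
    rw [hδ]; exact (min_le_right _ _).trans (min_le_right _ _)
  refine ⟨4 * (R0 * √(Cd * κ)) + 2, δ, by positivity, hδpos, ?_⟩
  intro ι S D f v h U Λ L hwt hv hh0 hh1 hU hL1' hlogL hΛx hΛ2 hsum hW
  have hL1 : (1 : ℝ) ≤ L := by exact_mod_cast hL1'
  have hL0 : (0 : ℝ) < L := by linarith
  have hΛ0 : 0 < Λ := by linarith
  -- `L` is large
  have hLbig : n0 ≤ L ∧ nd ≤ L := by
    have h1 : 47 / 100 ≤ 1 / (4 * ((n0 : ℝ) + nd + 1)) * L :=
      hΛx.trans (hΛ2.trans (mul_le_mul_of_nonneg_right hδ4 hL0.le))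
    rw [div_mul_eq_mul_div, le_div_iff₀ (by positivity)] at h1
    have h2 : ((n0 + nd : ℕ) : ℝ) ≤ L := by
      push_cast
      have h3 : (0 : ℝ) ≤ n0 := Nat.cast_nonneg _
      have h4 : (0 : ℝ) ≤ nd := Nat.cast_nonneg _
      linarith
    have h5 : n0 + nd ≤ L := by exact_mod_cast h2
    omega
  -- the two thresholds
  obtain ⟨Λ1, hΛ1d⟩ : ∃ Λ1 : ℝ, Λ1 = κ * Λ := ⟨_, rfl⟩
  obtain ⟨Λ2, hΛ2d⟩ : ∃ Λ2 : ℝ, Λ2 = Cd * Λ1 := ⟨_, rfl⟩
  have hΛΛ1 : Λ ≤ Λ1 := by rw [hΛ1d]; exact le_mul_of_one_le_left hΛ0.le hκ1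
  have hΛ10 : 0 < Λ1 := by linarith
  have hΛ12 : Λ1 ≤ Λ2 := by rw [hΛ2d]; exact le_mul_of_one_le_left hΛ10.le hCd
  have hΛ1L : Λ1 ≤ δd * L := by
    rw [hΛ1d]
    have h1 : κ * Λ ≤ κ * (δd / κ * L) :=
      mul_le_mul_of_nonneg_left (hΛ2.trans (mul_le_mul_of_nonneg_right hδ2 hL0.le)) hκ0.le
    refine h1.trans (le_of_eq ?_)
    field_simp
  have hΛ2L : Λ2 ≤ δ0 * L := by
    rw [hΛ2d, hΛ1d]
    have h1 : Cd * (κ * Λ) ≤ Cd * (κ * (δ0 / (Cd * κ) * L)) := by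
      refine mul_le_mul_of_nonneg_left (mul_le_mul_of_nonneg_left ?_ hκ0.le) hCd0.le
      exact hΛ2.trans (mul_le_mul_of_nonneg_right hδ1 hL0.le)
    refine h1.trans (le_of_eq ?_)
    field_simp
  obtain ⟨ε, hε⟩ : ∃ ε : ℝ, ε = R0 * √(Λ2 / L) := ⟨_, rfl⟩
  have hε0 : 0 ≤ ε := by rw [hε]; positivity
  have hεq : ε = R0 * √(Cd * κ) * √(Λ / L) := by
    rw [hε, hΛ2d, hΛ1d, ← mul_assoc, mul_div_assoc, Real.sqrt_mul (by positivity)]
    ring
  have hε4 : ε ≤ 1 / 16 := by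
    have h1 : Λ / L ≤ 1 / (4 * R0 + 1) ^ 2 / (Cd * κ) / 16 := by
      rw [div_le_iff₀ hL0]
      exact hΛ2.trans (mul_le_mul_of_nonneg_right hδ3 hL0.le)
    have h2 : Λ2 / L ≤ (1 / (4 * (4 * R0 + 1))) ^ 2 := by
      have h3 : Λ2 / L = Cd * κ * (Λ / L) := by rw [hΛ2d, hΛ1d]; ring
      rw [h3]
      have h4 := mul_le_mul_of_nonneg_left h1 (show 0 ≤ Cd * κ by positivity)
      refine h4.trans (le_of_eq ?_)
      field_simp
      norm_num
    have h5 : √(Λ2 / L) ≤ 1 / (4 * (4 * R0 + 1)) := by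
      rw [Real.sqrt_le_left (by positivity)]
      exact h2
    rw [hε]
    calc R0 * √(Λ2 / L) ≤ R0 * (1 / (4 * (4 * R0 + 1))) :=
          mul_le_mul_of_nonneg_left h5 hR0.le
      _ ≤ 1 / 16 := by
          rw [mul_one_div, div_le_div_iff₀ (by positivity) (by norm_num)]
          linarith
  obtain ⟨η, hη⟩ : ∃ η : ℝ, η = Real.exp (-(9 * Λ)) := ⟨_, rfl⟩
  have hη0 : 0 < η := by rw [hη]; exact Real.exp_pos _
  have hcD : ∀ i ∈ S, ∀ n, 0 ≤ cD A (D i) (f i) n := fun i hi n => cD_nonneg (hwt i hi).nn n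
  obtain ⟨T, hT⟩ : ∃ T : Finset ι,
    T = S.filter (fun i => cD A (D i) (f i) L < Real.exp (-Λ2) * μ ^ L) := ⟨_, rfl⟩
  have hgoodr : ∀ i ∈ S, i ∉ T →
      |v i * cD A (D i) (f i) (L + Z.s) - μ ^ Z.s * (v i * cD A (D i) (f i) L)| ≤
        ε * (μ ^ Z.s * (v i * cD A (D i) (f i) L)) := by
    intro o ho hoT
    have hlow : Real.exp (-Λ2) * μ ^ L ≤ cD A (D o) (f o) L := by
      by_contra hc
      exact hoT (by rw [hT, mem_filter]; exact ⟨ho, not_le.1 hc⟩)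
    have h1 := hrat (D o) (f o) (hwt o ho) L hLbig.1 Λ2
      (hlogL.trans (hΛΛ1.trans hΛ12)) hΛ2L hlow
    rw [← hε] at h1
    have hc0 : 0 < cD A (D o) (f o) L := lt_of_lt_of_le (by positivity) hlow
    have h2 : v o * cD A (D o) (f o) (L + Z.s) - μ ^ Z.s * (v o * cD A (D o) (f o) L) =
        (cD A (D o) (f o) (L + Z.s) / cD A (D o) (f o) L / μ ^ Z.s - 1) *
          (μ ^ Z.s * (v o * cD A (D o) (f o) L)) := by
      field_simp
    have hv0 := hv o ho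
    rw [h2, abs_mul, abs_of_nonneg (show 0 ≤ μ ^ Z.s * (v o * cD A (D o) (f o) L) by positivity)]
    exact mul_le_mul_of_nonneg_right h1 (by positivity)
  have hTS : T ⊆ S := by
    rw [hT]
    exact filter_subset _ _
  have hbad1 : ∀ i ∈ T, v i * cD A (D i) (f i) L ≤ v i * (Real.exp (-Λ1) * μ ^ L) := by
    intro o ho
    have hoS := hTS ho
    rw [hT, mem_filter] at ho
    refine mul_le_mul_of_nonneg_left ?_ (hv o hoS)
    refine ho.2.le.trans (mul_le_mul_of_nonneg_right ?_ (by positivity))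
    exact Real.exp_le_exp.2 (by linarith)
  have hbad2 : ∀ i ∈ T, v i * cD A (D i) (f i) (L + Z.s) ≤
      v i * (Real.exp (-Λ1) * μ ^ (L + Z.s)) := by
    intro o ho
    have hoS := hTS ho
    rw [hT, mem_filter] at ho
    refine mul_le_mul_of_nonneg_left ?_ (hv o hoS)
    by_contra hc
    push Not at hc
    have h1 := hdown (D o) (f o) (hwt o hoS) L hLbig.2 Λ1
      (hlogL.trans hΛΛ1) hΛ1L hc.le
    rw [← hΛ2d] at h1
    exact absurd ho.2 (not_lt.2 h1)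
  have hTc : ∑ i ∈ T, v i ≤ U * Real.exp (κ' * Λ) :=
    (sum_le_sum_of_subset_of_nonneg hTS fun i hi _ => hv i hi).trans hsum
  have hexpW : Real.exp (κ' * Λ) * Real.exp (-Λ1) = Real.exp (-(12 * Λ)) := by
    rw [← Real.exp_add, hΛ1d, hκ]
    congr 1
    ring
  obtain ⟨W, hWd⟩ : ∃ W, W = ∑ i ∈ S, h i * (v i * cD A (D i) (f i) L) := ⟨_, rfl⟩
  obtain ⟨W', hWd'⟩ : ∃ W', W' = ∑ i ∈ S, h i * (v i * cD A (D i) (f i) (L + Z.s)) := ⟨_, rfl⟩
  rw [← hWd] at hW ⊢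
  rw [← hWd'] at ⊢
  have hW0 : 0 < W := lt_of_lt_of_le (by positivity) hW
  have hηW : U * μ ^ L * Real.exp (-(12 * Λ)) ≤ η * W := by
    have h1 : η * (Real.exp (-Λ) * (U * μ ^ L)) ≤ η * W := mul_le_mul_of_nonneg_left hW hη0.le
    refine le_trans ?_ h1
    have h2 : η * (Real.exp (-Λ) * (U * μ ^ L)) = U * μ ^ L * Real.exp (-(10 * Λ)) := by
      rw [hη, ← mul_assoc, ← Real.exp_add, mul_comm]
      congr 2
      ring
    rw [h2]
    refine mul_le_mul_of_nonneg_left (Real.exp_le_exp.2 (by linarith)) (by positivity)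
  have hb1 : ∑ i ∈ T, v i * cD A (D i) (f i) L ≤ η * W := by
    refine (sum_le_sum hbad1).trans ?_
    rw [← sum_mul]
    refine le_trans ?_ hηW
    calc (∑ i ∈ T, v i) * (Real.exp (-Λ1) * μ ^ L) ≤
          (U * Real.exp (κ' * Λ)) * (Real.exp (-Λ1) * μ ^ L) :=
          mul_le_mul_of_nonneg_right hTc (by positivity)
      _ = U * μ ^ L * (Real.exp (κ' * Λ) * Real.exp (-Λ1)) := by ring
      _ = _ := by rw [hexpW]
  have hb2 : ∑ i ∈ T, v i * cD A (D i) (f i) (L + Z.s) ≤ η * (μ ^ Z.s * W) := by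
    refine (sum_le_sum hbad2).trans ?_
    rw [← sum_mul]
    have h1 : η * (μ ^ Z.s * W) = μ ^ Z.s * (η * W) := by ring
    rw [h1]
    refine le_trans ?_ (mul_le_mul_of_nonneg_left hηW (by positivity))
    calc (∑ i ∈ T, v i) * (Real.exp (-Λ1) * μ ^ (L + Z.s)) ≤
          (U * Real.exp (κ' * Λ)) * (Real.exp (-Λ1) * μ ^ (L + Z.s)) :=
          mul_le_mul_of_nonneg_right hTc (by positivity)
      _ = μ ^ Z.s * (U * μ ^ L * (Real.exp (κ' * Λ) * Real.exp (-Λ1))) := by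
          rw [pow_add]
          ring
      _ = _ := by rw [hexpW]
  have hmain : ∀ k : ι → ℝ, (∀ i ∈ S, 0 ≤ k i) → (∀ i ∈ S, k i ≤ 1) →
      |∑ i ∈ S, k i * (v i * cD A (D i) (f i) (L + Z.s)) -
        μ ^ Z.s * ∑ i ∈ S, k i * (v i * cD A (D i) (f i) L)| ≤
        ε * (μ ^ Z.s * ∑ i ∈ S, k i * (v i * cD A (D i) (f i) L)) +
          2 * (η * (μ ^ Z.s * W)) := by
    intro k hk0 hk1
    exact alg S T hTS _ _ k _ ε η W (by positivity) hk0 hk1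
      (fun i hi => mul_nonneg (hv i hi) (hcD i hi _))
      (fun i hi => mul_nonneg (hv i hi) (hcD i hi _)) hε0 hgoodr hb1 hb2
  have hη16 : 2 * η ≤ 1 / 16 ∧ 8 * η ≤ Real.exp (-Λ) := by
    have h1 : Real.exp (-(8 * Λ)) ≤ 1 / 32 := by
      have h2 : Real.exp (-(8 * Λ)) ≤ Real.exp (-(5 * Real.log 2)) := by
        refine Real.exp_le_exp.2 ?_
        have := Real.log_two_lt_d9
        linarith
      refine h2.trans (le_of_eq ?_)
      rw [Real.exp_neg, show (5 : ℝ) * Real.log 2 = ((5 : ℕ) : ℝ) * Real.log 2 by norm_num,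
        Real.exp_nat_mul, Real.exp_log (by norm_num)]
      norm_num
    have h3 : η = Real.exp (-(8 * Λ)) * Real.exp (-Λ) := by
      rw [hη, ← Real.exp_add]
      congr 1
      ring
    have h4 : Real.exp (-Λ) ≤ 1 := Real.exp_le_one_iff.2 (by linarith)
    have h5 := Real.exp_pos (-Λ)
    rw [h3]
    exact aux3 h1 h5 h4
  have hηs : 2 * η ≤ √(Λ / L) := by
    obtain ⟨x, hx⟩ : ∃ x : ℝ, x = Real.log L := ⟨_, rfl⟩
    rw [← hx] at hlogL
    rw [Real.sqrt_div hΛ0.le, le_div_iff₀ (Real.sqrt_pos.2 hL0)]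
    have h13 : √(L : ℝ) ≤ Real.exp (x / 2) := by
      rw [Real.sqrt_le_left (Real.exp_pos _).le, ← Real.exp_nat_mul]
      have : ((2 : ℕ) : ℝ) * (x / 2) = x := by push_cast; ring
      rw [this, hx, Real.exp_log hL0]
    have h14 : 1 / 2 ≤ √Λ := by
      refine Real.le_sqrt_of_sq_le ?_
      norm_num
      linarith
    refine le_trans ?_ h14
    calc 2 * η * √(L : ℝ) ≤ 2 * η * Real.exp (x / 2) :=
          mul_le_mul_of_nonneg_left h13 (by positivity)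
      _ = 2 * Real.exp (-(9 * Λ) + x / 2) := by rw [hη, mul_assoc, ← Real.exp_add]
      _ ≤ 2 * Real.exp (-(2 * Real.log 2)) := by
          refine mul_le_mul_of_nonneg_left (Real.exp_le_exp.2 ?_) (by norm_num)
          have h15 := Real.log_two_lt_d9
          nlinarith [sq_nonneg (x - 1 / 2)]
      _ = 1 / 2 := by
          rw [Real.exp_neg, show (2 : ℝ) * Real.log 2 = ((2 : ℕ) : ℝ) * Real.log 2 by norm_num,
            Real.exp_nat_mul, Real.exp_log (by norm_num)]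
          norm_num
  have hmW := hmain h hh0 hh1
  rw [← hWd, ← hWd'] at hmW
  have hMW : 0 < μ ^ Z.s * W := by positivity
  have hsq0 : 0 ≤ √(Λ / L) := Real.sqrt_nonneg _
  obtain ⟨ω, hω⟩ : ∃ ω : ℝ, ω = W' / (μ ^ Z.s * W) := ⟨_, rfl⟩
  have hωe : W' = ω * (μ ^ Z.s * W) := by rw [hω, div_mul_cancel₀ _ hMW.ne']
  have hω1 : |ω - 1| ≤ ε + 2 * η := by
    have h1 : W' - μ ^ Z.s * W = (ω - 1) * (μ ^ Z.s * W) := by rw [hωe]; ring
    rw [h1, abs_mul, abs_of_pos hMW] at hmW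
    have h2 : |ω - 1| * (μ ^ Z.s * W) ≤ (ε + 2 * η) * (μ ^ Z.s * W) := by linarith
    exact le_of_mul_le_mul_right h2 hMW
  have hω2 : 7 / 8 ≤ ω := by
    have := (abs_le.1 hω1).1
    linarith [hη16.1]
  have hR : ε = R0 * √(Cd * κ) * √(Λ / L) := hεq
  refine ⟨?_, ?_, ?_⟩
  · have h1 : W' / W / μ ^ Z.s = ω := by rw [hω]; field_simp
    rw [h1]
    refine hω1.trans ?_
    rw [hR]
    have : 0 ≤ R0 * √(Cd * κ) * √(Λ / L) := by positivity
    linarith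
  · rw [hωe]
    positivity
  · intro g hg0 hg1
    have hk0 : ∀ i ∈ S, 0 ≤ h i * g i := fun i hi => mul_nonneg (hh0 i hi) (hg0 i hi)
    have hk1 : ∀ i ∈ S, h i * g i ≤ 1 := fun i hi => by
      have := mul_le_mul (hh1 i hi) (hg1 i hi) (hg0 i hi) zero_le_one
      linarith
    have hmT := hmain (fun i => h i * g i) hk0 hk1
    obtain ⟨V, hV⟩ : ∃ V, V = ∑ i ∈ S, h i * g i * (v i * cD A (D i) (f i) L) := ⟨_, rfl⟩
    obtain ⟨V', hV'⟩ : ∃ V', V' = ∑ i ∈ S, h i * g i * (v i * cD A (D i) (f i) (L + Z.s)) :=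
      ⟨_, rfl⟩
    rw [← hV, ← hV'] at hmT
    rw [← hV, ← hV']
    have hV0 : 0 ≤ V := by
      rw [hV]
      exact sum_nonneg fun i hi => mul_nonneg (hk0 i hi) (mul_nonneg (hv i hi) (hcD i hi _))
    have hVW : V ≤ W := by
      rw [hV, hWd]
      refine sum_le_sum fun i hi => ?_
      refine mul_le_mul_of_nonneg_right ?_ (mul_nonneg (hv i hi) (hcD i hi _))
      exact mul_le_of_le_one_right (hh0 i hi) (hg1 i hi)
    obtain ⟨t, ht⟩ : ∃ t, t = V / W := ⟨_, rfl⟩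
    have ht0 : 0 ≤ t := by rw [ht]; positivity
    have ht1 : t ≤ 1 := by rw [ht, div_le_one hW0]; exact hVW
    have hVt : V = t * W := by rw [ht, div_mul_cancel₀ _ hW0.ne']
    obtain ⟨τ, hτ⟩ : ∃ τ, τ = V' / (μ ^ Z.s * W) := ⟨_, rfl⟩
    have hV'τ : V' = τ * (μ ^ Z.s * W) := by rw [hτ, div_mul_cancel₀ _ hMW.ne']
    have hτt : |τ - t| ≤ ε * t + 2 * η := by
      have h1 : V' - μ ^ Z.s * V = (τ - t) * (μ ^ Z.s * W) := by rw [hV'τ, hVt]; ring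
      have h2 : ε * (μ ^ Z.s * V) = ε * t * (μ ^ Z.s * W) := by rw [hVt]; ring
      rw [h1, h2, abs_mul, abs_of_pos hMW] at hmT
      have h3 : |τ - t| * (μ ^ Z.s * W) ≤ (ε * t + 2 * η) * (μ ^ Z.s * W) := by linarith
      exact le_of_mul_le_mul_right h3 hMW
    have hω0 : 0 < ω := by linarith
    have e1 : V' / W' - t = (τ - t * ω) / ω := by
      rw [hωe, hV'τ]
      field_simp
    rw [← ht, e1, abs_div, abs_of_pos hω0, div_le_iff₀ hω0]
    have h5 : |τ - t * ω| ≤ |τ - t| + t * |ω - 1| := by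
      have h6 : τ - t * ω = (τ - t) - t * (ω - 1) := by ring
      rw [h6]
      refine (abs_sub _ _).trans ?_
      rw [abs_mul, abs_of_nonneg ht0]
    have h6 : t * |ω - 1| ≤ t * (ε + 2 * η) := mul_le_mul_of_nonneg_left hω1 ht0
    have h7 : t * η ≤ η := mul_le_of_le_one_left hη0.le ht1
    have h8 : |τ - t * ω| ≤ 2 * (ε * t) + 4 * η := by
      have e2 : t * (ε + 2 * η) = ε * t + 2 * (t * η) := by ring
      rw [e2] at h6
      linarith
    have h9 : 2 * (ε * t) + 4 * η ≤ (4 * (ε * t) + 8 * η) * ω := by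
      have h10 : 0 ≤ ε * t := mul_nonneg hε0 ht0
      have h11 : (4 * (ε * t) + 8 * η) * (1 / 2) ≤ (4 * (ε * t) + 8 * η) * ω :=
        mul_le_mul_of_nonneg_left (by linarith) (by linarith)
      linarith
    refine h8.trans (h9.trans (mul_le_mul_of_nonneg_right ?_ hω0.le))
    refine add_le_add ?_ hη16.2
    rw [hR]
    have h12 : 0 ≤ 2 * √(Λ / L) * t := mul_nonneg (by positivity) ht0
    have h13 : (4 * (R0 * √(Cd * κ)) + 2) * √(Λ / L) * t =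
        4 * (R0 * √(Cd * κ) * √(Λ / L) * t) + 2 * √(Λ / L) * t := by ring
    rw [h13]
    linarith

end Q219.SAW
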