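import Pool.Agent.Q219.SAW.Half
import Pool.Agent.Q219.SAW.Std
import Pool.Agent.Q219.SAW.PinA

/-!
# Domains which contain a half plane
-/

set_option autoImplicit false

namespace Q219.SAW.Std

open Finset Filter Topology TH966.AK

theorem isSAW_swap {n : ℕ} {ω : Fin (n + 1) → ℤ × ℤ} (h : IsSAW sqSteps n ω) :
    IsSAW sqSteps n (fun i => (ω i).swap) := by
  obtain ⟨h1, h2, h3⟩ := h
  refine ⟨by show (ω 0).swap = 0; rw [h1]; rfl, ?_, ?_⟩
  · intro i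
    have h4 := h2 i
    unfold sqSteps at h4 ⊢
    simp only [Set.mem_insert_iff, Set.mem_singleton_iff, Prod.ext_iff, Prod.fst_sub,
      Prod.snd_sub, Prod.fst_swap, Prod.snd_swap] at h4 ⊢
    omega
  · intro i j hij
    exact h3 (Prod.swap_injective hij)

/-- the walk stays in a set which contains the half plane `x₂ ≥ 0` with probability at least
`exp (- K log² n)` -/
theorem half_prob : ∃ K : ℝ, 0 ≤ K ∧ ∀ n : ℕ, 2 ≤ n → ∀ D : Set (ℤ × ℤ),
    (∀ x : ℤ × ℤ, 0 ≤ x.2 → x ∈ D) → ∀ a m : ℕ, Real.exp (-(K * Real.log n ^ 2)) ≤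
      prob sqSteps D (Set.univ : Set (Pairs a m)) n := by
  have hadj : ∀ p q : P, q - p ∈ sqSteps ↔ Sq.Adj p q := by
    intro p q
    rw [Sq.adj_eq]
    unfold sqSteps Sq.A Sq.dirs
    simp
  have hF : ∀ n, {ω | IsSAW sqSteps n ω} = FW Sq.A n := by
    intro n
    ext ω
    unfold IsSAW FW
    rw [Set.mem_ofPred_eq, Set.mem_ofPred_eq, ← Sq.adj_eq]
    simp only [hadj]
    tauto
  obtain ⟨K, hK, h⟩ := Sq.half_low
  refine ⟨K, hK, ?_⟩
  intro n hn D hD a m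
  have h1 := h n hn (Prod.swap ⁻¹' D) (by
    intro x hx
    exact hD _ hx) a m
  refine h1.trans ?_
  have e0 := prob_eq hF (Prod.swap ⁻¹' D) (Set.univ : Set (Pairs a m)) n
  rw [← e0]
  unfold prob
  refine div_le_div_of_nonneg_right ?_ (by unfold c; exact Nat.cast_nonneg _)
  refine Nat.cast_le.2 ?_
  have hinj : Function.Injective (fun (ω : Fin (n + 1) → ℤ × ℤ) (i : Fin (n + 1)) =>
      (ω i).swap) := by
    intro f g hfg
    funext i
    exact Prod.swap_injective (congrFun hfg i)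
  rw [← Set.ncard_image_of_injective _ hinj]
  refine Set.ncard_le_ncard ?_ ((finite (Or.inl ⟨rfl, rfl⟩) n).subset fun ω hω => hω.1)
  rintro _ ⟨ω, ⟨h2, h3, -⟩, rfl⟩
  exact ⟨isSAW_swap h2, h3, Set.mem_univ _⟩

/-- from large `n` to all `n ≥ 2` -/
theorem all_of_large {F g : ℕ → ℝ} (hg : ∀ n, 2 ≤ n → 0 < g n) {R : ℝ} {n₀ : ℕ}
    (h : ∀ n, n₀ ≤ n → F n ≤ R * g n) : ∃ R' : ℝ, ∀ n, 2 ≤ n → F n ≤ R' * g n :=
  TH966.AK.all_of_eventually hg (eventually_atTop.2 ⟨n₀, h⟩)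

/-- `log² n + C log² n` is at most `δ n` for large `n` -/
theorem small_log {C δ : ℝ} (hC : 0 < C) (hδ : 0 < δ) : ∃ n₀ : ℕ, 2 ≤ n₀ ∧ ∀ n : ℕ, n₀ ≤ n →
    C * Real.log n ^ 2 ≤ δ * n := by
  obtain ⟨δ', N, hδ', hN, hsm⟩ := pin_small hC hδ
  obtain ⟨N', hN'⟩ := exists_nat_gt (1 / δ')
  refine ⟨max N N', hN.trans (le_max_left _ _), fun n hn => ?_⟩
  have hn1 : N ≤ n := (le_max_left _ _).trans hn
  have h5 : (1 : ℝ) ≤ δ' * n := by
    have h6 : (N' : ℝ) ≤ n := by exact_mod_cast (le_max_right _ _).trans hn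
    have h7 : 1 / δ' < n := hN'.trans_le h6
    rw [div_lt_iff₀ hδ'] at h7
    linarith
  have h6 := hsm n hn1 1 le_rfl h5
  refine le_trans ?_ h6
  refine mul_le_mul_of_nonneg_left ?_ hC.le
  have hn0 : (0 : ℝ) ≤ n := Nat.cast_nonneg n
  have : 0 ≤ (1 : ℝ) ^ 2 / n * Real.log (2 + n / 1) ^ 2 := by positivity
  linarith

/-- the error term for a probability at least `exp (- K log² n)` -/
theorem err_le {K p x L : ℝ} (hK : 0 ≤ K) (hx : 0 ≤ x) (hL : 0 < L)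
    (hp : Real.exp (-(K * x ^ 2)) ≤ p) :
    x ^ 2 + Real.log (1 / p) ≤ (1 + K) * x ^ 2 ∧
      √((x ^ 2 + Real.log (1 / p)) / L) ≤ √(1 + K) * (x / √L) := by
  have h1 : x ^ 2 + Real.log (1 / p) ≤ (1 + K) * x ^ 2 := by
    have h3 := Real.log_le_log (Real.exp_pos _) hp
    rw [Real.log_exp] at h3
    rw [one_div, Real.log_inv]
    linarith
  refine ⟨h1, ?_⟩
  have h8 : (x ^ 2 + Real.log (1 / p)) / L ≤ (1 + K) * (x ^ 2 / L) := by
    rw [← mul_div_assoc]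
    exact div_le_div_of_nonneg_right h1 hL.le
  refine (Real.sqrt_le_sqrt h8).trans (le_of_eq ?_)
  rw [Real.sqrt_mul (by positivity), Real.sqrt_div (sq_nonneg _), Real.sqrt_sq hx]

theorem logdiv_pos (n : ℕ) (hn : 2 ≤ n) : 0 < Real.log n / √(n : ℝ) := TH966.AK.g_pos n hn

end Q219.SAW.Std
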