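import Pool.Agent.Q219.SAW.FamS
import Pool.Agent.Q219.SAW.HalfS

/-!
# Sums over families, half planes
-/

set_option autoImplicit false

namespace Q219.SAW.Std

open Finset Filter Topology TH966.AK

theorem sum_fam {α κ : Type} (V : Finset κ) (W : κ → Set α) (hfin : ∀ j, (W j).Finite)
    (F : α → κ → ℝ) : ∑ᶠ p ∈ {p : α × κ | p.2 ∈ V ∧ p.1 ∈ W p.2}, F p.1 p.2 =
      ∑ j ∈ V, ∑ᶠ x ∈ W j, F x j := by
  classical
  obtain ⟨T, hT⟩ : ∃ T : Finset (α × κ), T = V.biUnion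
    (fun j => (hfin j).toFinset ×ˢ {j}) := ⟨_, rfl⟩
  have h1 : {p : α × κ | p.2 ∈ V ∧ p.1 ∈ W p.2} = (T : Set (α × κ)) := by
    ext ⟨x, j⟩
    rw [hT]
    simp only [Set.mem_ofPred_eq, coe_biUnion, coe_product, Set.Finite.coe_toFinset,
      coe_singleton, Set.mem_iUnion, Set.mem_prod, Set.mem_singleton_iff, exists_prop, mem_coe]
    constructor
    · rintro ⟨h1, h2⟩
      exact ⟨j, h1, h2, rfl⟩
    · rintro ⟨i, h1, h2, rfl⟩
      exact ⟨h1, h2⟩
  rw [h1, finsum_mem_coe_finset, hT, sum_biUnion]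
  · refine sum_congr rfl fun j _ => ?_
    rw [sum_product, finsum_mem_eq_finite_toFinset_sum _ (hfin j)]
    refine sum_congr rfl fun x _ => ?_
    rw [sum_singleton]
  · intro i _ j _ hij
    rw [Function.onFun, disjoint_left]
    rintro ⟨x, k⟩ h2 h3
    rw [mem_product, mem_singleton] at h2 h3
    exact hij (h2.2.symm.trans h3.2)

theorem card_fam {α κ : Type} (V : Finset κ) (W : κ → Set α) (hfin : ∀ j, (W j).Finite) :
    ({p : α × κ | p.2 ∈ V ∧ p.1 ∈ W p.2}.ncard : ℝ) = ∑ j ∈ V, ((W j).ncard : ℝ) := by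
  classical
  have key : ∀ {β : Type} {S : Set β}, S.Finite → (S.ncard : ℝ) = ∑ᶠ p ∈ S, (1 : ℝ) := by
    intro β S hS
    rw [finsum_mem_eq_finite_toFinset_sum _ hS, sum_const, nsmul_one,
      Set.ncard_eq_toFinset_card _ hS]
  have hf : ({p : α × κ | p.2 ∈ V ∧ p.1 ∈ W p.2}).Finite := by
    refine ((V.finite_toSet.biUnion fun j _ => hfin j).prod V.finite_toSet).subset ?_
    rintro ⟨x, j⟩ ⟨h1, h2⟩
    exact ⟨Set.mem_biUnion h1 h2, h1⟩
  rw [key hf]
  have h := sum_fam V W hfin (fun _ _ => 1)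
  beta_reduce at h
  rw [h]
  exact sum_congr rfl fun j _ => (key (hfin j)).symm

/-- symmetries of the lattice -/
theorem prob_symm (σ : ℤ × ℤ → ℤ × ℤ) (h0 : σ 0 = 0) (hinj : Function.Injective σ)
    (hst : ∀ x y : ℤ × ℤ, x - y ∈ sqSteps → σ x - σ y ∈ sqSteps) (D : Set (ℤ × ℤ))
    (n a m : ℕ) : prob sqSteps (σ ⁻¹' D) (Set.univ : Set (Pairs a m)) n ≤
      prob sqSteps D (Set.univ : Set (Pairs a m)) n := by
  unfold prob
  refine div_le_div_of_nonneg_right ?_ (by unfold c; exact Nat.cast_nonneg _)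
  refine Nat.cast_le.2 ?_
  have hinj' : Function.Injective (fun (ω : Fin (n + 1) → ℤ × ℤ) (i : Fin (n + 1)) =>
      σ (ω i)) := by
    intro f g hfg
    funext i
    exact hinj (congrFun hfg i)
  rw [← Set.ncard_image_of_injective _ hinj']
  refine Set.ncard_le_ncard ?_ ((finite (Or.inl ⟨rfl, rfl⟩) n).subset fun ω hω => hω.1)
  rintro _ ⟨ω, ⟨⟨h1, h2, h3⟩, h4, -⟩, rfl⟩
  refine ⟨⟨?_, fun i => hst _ _ (h2 i), fun i j hij => h3 (hinj hij)⟩, h4, Set.mem_univ _⟩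
  show σ (ω 0) = 0
  rw [h1, h0]

/-- the four half planes -/
theorem half_any : ∃ K : ℝ, 0 ≤ K ∧ ∀ n : ℕ, 2 ≤ n → ∀ a m : ℕ,
    Real.exp (-(K * Real.log n ^ 2)) ≤ prob sqSteps {x | 0 ≤ x.1} (Set.univ : Set (Pairs a m)) n ∧
    Real.exp (-(K * Real.log n ^ 2)) ≤ prob sqSteps {x | x.1 ≤ 0} (Set.univ : Set (Pairs a m)) n ∧
    Real.exp (-(K * Real.log n ^ 2)) ≤ prob sqSteps {x | 0 ≤ x.2} (Set.univ : Set (Pairs a m)) n ∧
    Real.exp (-(K * Real.log n ^ 2)) ≤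
      prob sqSteps {x | x.2 ≤ 0} (Set.univ : Set (Pairs a m)) n := by
  obtain ⟨K, hK, h⟩ := half_prob
  have hst : ∀ (e f : ℤ) (x y : ℤ × ℤ), (e = 1 ∨ e = -1) → (f = 1 ∨ f = -1) →
      x - y ∈ sqSteps → (e * x.1, f * x.2) - (e * y.1, f * y.2) ∈ sqSteps ∧
      (e * x.2, f * x.1) - (e * y.2, f * y.1) ∈ sqSteps := by
    intro e f x y he hf hxy
    unfold sqSteps at hxy ⊢
    simp only [Set.mem_insert_iff, Set.mem_singleton_iff, Prod.ext_iff, Prod.fst_sub,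
      Prod.snd_sub] at hxy ⊢
    rcases he with rfl | rfl <;> rcases hf with rfl | rfl <;> constructor <;> omega
  refine ⟨K, hK, fun n hn a m => ⟨?_, ?_, ?_, ?_⟩⟩
  · refine (h n hn _ (fun x hx => ?_) a m).trans (prob_symm (fun x => (1 * x.2, 1 * x.1)) (by simp)
      ?_ (fun x y hxy => (hst 1 1 x y (Or.inl rfl) (Or.inl rfl) hxy).2) _ n a m)
    · show 0 ≤ 1 * x.2
      linarith
    · intro x y hxy
      simp only [one_mul, Prod.mk.injEq] at hxy
      exact Prod.ext hxy.2 hxy.1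
  · refine (h n hn _ (fun x hx => ?_) a m).trans (prob_symm (fun x => (-1 * x.2, 1 * x.1)) (by simp)
      ?_ (fun x y hxy => (hst (-1) 1 x y (Or.inr rfl) (Or.inl rfl) hxy).2) _ n a m)
    · show -1 * x.2 ≤ 0
      linarith
    · intro x y hxy
      simp only [one_mul, Prod.mk.injEq, neg_mul, neg_inj] at hxy
      exact Prod.ext hxy.2 hxy.1
  · exact h n hn _ (fun x hx => hx) a m
  · refine (h n hn _ (fun x hx => ?_) a m).trans (prob_symm (fun x => (1 * x.1, -1 * x.2)) (by simp)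
      ?_ (fun x y hxy => (hst 1 (-1) x y (Or.inl rfl) (Or.inr rfl) hxy).1) _ n a m)
    · show -1 * x.2 ≤ 0
      linarith
    · intro x y hxy
      simp only [one_mul, Prod.mk.injEq, neg_mul, neg_inj] at hxy
      exact Prod.ext hxy.1 hxy.2

end Q219.SAW.Std
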