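import Pool.Agent.Q219.SAW.FamW
import Pool.Agent.Q219.SAW.Std

/-!
# Families of domains: plain statements for the square and the triangular lattice
-/

set_option autoImplicit false

namespace Q219.SAW.Std

open Finset Filter Topology TH966.AK

/-- the number of the walks of a family -/
noncomputable def fc (N : Set (ℤ × ℤ)) {κ : Type} (V : Finset κ) (D : κ → Set (ℤ × ℤ)) {a m : ℕ}
    (H : κ → Set (Pairs a m)) (n : ℕ) : ℝ :=
  ∑ j ∈ V, ((walks N (D j) (H j) n).ncard : ℝ)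

/-- mean of a function of the index and of the outer part -/
noncomputable def fm (N : Set (ℤ × ℤ)) {κ : Type} (V : Finset κ) (D : κ → Set (ℤ × ℤ)) {a m : ℕ}
    (H : κ → Set (Pairs a m)) (n : ℕ) (G : κ → Pairs a m → ℝ) : ℝ :=
  (∑ j ∈ V, ∑ᶠ ω ∈ walks N (D j) (H j) n, G j (outer a m ω)) / fc N V D H n

theorem fm_mem {N : Set (ℤ × ℤ)} {s : ℕ} (hL : IsLat N s) {κ : Type} (V : Finset κ)
    (D : κ → Set (ℤ × ℤ)) {a m : ℕ} (H : κ → Set (Pairs a m)) (n : ℕ) (G : κ → Pairs a m → ℝ)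
    (hG0 : ∀ j o, 0 ≤ G j o) (hG1 : ∀ j o, G j o ≤ 1) :
    0 ≤ fm N V D H n G ∧ fm N V D H n G ≤ 1 := by
  have hfin : ∀ j, (walks N (D j) (H j) n).Finite := fun j =>
    (finite hL n).subset fun _ h => h.1
  have h1 : ∀ j, ∑ᶠ ω ∈ walks N (D j) (H j) n, G j (outer a m ω) =
      ∑ ω ∈ (hfin j).toFinset, G j (outer a m ω) := fun j =>
    finsum_mem_eq_finite_toFinset_sum _ (hfin j)
  have h0 : 0 ≤ fc N V D H n := sum_nonneg fun _ _ => Nat.cast_nonneg _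
  unfold fm
  simp only [h1]
  constructor
  · exact div_nonneg (sum_nonneg fun _ _ => sum_nonneg fun _ _ => hG0 _ _) h0
  · refine div_le_one_of_le₀ ?_ h0
    unfold fc
    refine sum_le_sum fun j _ => ?_
    rw [Set.ncard_eq_toFinset_card _ (hfin j), ← nsmul_one, ← sum_const]
    exact sum_le_sum fun _ _ => hG1 _ _

theorem fc_le {N : Set (ℤ × ℤ)} {s : ℕ} (hL : IsLat N s) {κ : Type} (V : Finset κ)
    (D : κ → Set (ℤ × ℤ)) {a m : ℕ} (H : κ → Set (Pairs a m)) (n : ℕ) :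
    fc N V D H n ≤ V.card * c N n := by
  unfold fc
  rw [← nsmul_eq_mul, ← sum_const]
  refine sum_le_sum fun j _ => ?_
  unfold c
  exact_mod_cast Set.ncard_le_ncard (show walks N (D j) (H j) n ⊆ {ω | IsSAW N n ω} from
    fun _ h => h.1) (finite hL n)

/-- **windows in families of domains** -/
theorem fam_win {N : Set (ℤ × ℤ)} {s : ℕ} (hL : IsLat N s) : ∃ R δ : ℝ, 0 < R ∧ 0 < δ ∧
    ∀ {κ : Type} (V : Finset κ) (D : κ → Set (ℤ × ℤ)) (a L m : ℕ) (H : κ → Set (Pairs a m))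
      (Λ : ℝ), V.Nonempty → 2 ≤ a + L + m → 1 ≤ L →
    Real.log (a + L + m : ℕ) ^ 2 ≤ Λ → Λ ≤ δ * L →
    Real.exp (-Λ) * (V.card * c N (a + L + m)) ≤ fc N V D H (a + L + m) →
    0 < fc N V D H (a + L + m + s) ∧
    |fc N V D H (a + L + m + s) / fc N V D H (a + L + m) / mu N ^ s - 1| ≤ R * √(Λ / L) ∧
    ∀ G : κ → Pairs a m → ℝ, (∀ j o, 0 ≤ G j o) → (∀ j o, G j o ≤ 1) →
    |fm N V D H (a + L + m + s) G - fm N V D H (a + L + m) G| ≤
      R * √(Λ / L) * fm N V D H (a + L + m) G + Real.exp (-Λ) := by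
  classical
  obtain ⟨A, Z, K, hs, hF, Gr, hsh, hA⟩ := lat hL
  have hμ := Gr.hμ
  have hμ0 : 0 < mu N := by linarith
  obtain ⟨R, δ, hR, hδ, hw⟩ := window_fam Gr hsh hA
  refine ⟨R, δ, hR, hδ, ?_⟩
  intro κ V D a L m H Λ hV hN2 hL1 hΛ1 hΛ2 hlow
  obtain ⟨l, rfl⟩ : ∃ l, L = l + 1 := ⟨L - 1, by omega⟩
  have hc : ∀ n, c N n = (Kw A n).card := by
    intro n
    unfold c
    rw [hF, FW_card (Z := Z)]
  have e : ∀ q : ℕ, fc N V D H (a + (q + 1) + m) =
      ∑ j ∈ V, WD A (D j) a (q + 1) m (fun o => (if dec a m o ∈ H j then 1 else 0)) := by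
    intro q
    unfold fc
    refine sum_congr rfl fun j _ => ?_
    rw [WD_card (Z := Z) (D j) rfl (H j), walks_eq hF]
    rfl
  have e' : ∀ (q : ℕ) (G : κ → Pairs a m → ℝ), ∑ j ∈ V, ∑ᶠ ω ∈ walks N (D j) (H j) (a + (q + 1) + m),
      G j (outer a m ω) = ∑ j ∈ V, WD A (D j) a (q + 1) m
        (fun o => (if dec a m o ∈ H j then 1 else 0) * G j (dec a m o)) := by
    intro q G
    refine sum_congr rfl fun j _ => ?_
    rw [WD_fn (Z := Z) (D j) rfl (H j), walks_eq hF]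
    rfl
  have hh0 : ∀ (j : κ) (o : List P × List P), (0 : ℝ) ≤ (if dec a m o ∈ H j then 1 else 0) :=
    fun j o => by split_ifs <;> norm_num
  have hh1 : ∀ (j : κ) (o : List P × List P), (if dec a m o ∈ H j then (1 : ℝ) else 0) ≤ 1 :=
    fun j o => by split_ifs <;> norm_num
  have hNs : a + (l + 1) + m + s = a + (l + Z.s + 1) + m := by omega
  obtain ⟨g1, g2, g3⟩ := hw V D a l m (fun j o => (if dec a m o ∈ H j then 1 else 0)) Λ hV
    hN2 hh0 hh1 hΛ1 hΛ2 (by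
      rw [← e]
      refine le_trans (mul_le_mul_of_nonneg_left ?_ (Real.exp_pos _).le) hlow
      refine mul_le_mul_of_nonneg_left ?_ (Nat.cast_nonneg _)
      rw [hc]
      exact Gr.low _)
  rw [← e, ← e, ← hNs, hs] at g1
  rw [← e, ← hNs] at g2
  refine ⟨g2, g1, fun G hG0 hG1 => ?_⟩
  have g4 := g3 (fun j o => G j (dec a m o)) (fun j o => hG0 _ _) (fun j o => hG1 _ _)
  rw [← e, ← e, ← e', ← e', ← hNs] at g4
  exact g4

/-- **windows in families of domains**, total variation -/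
theorem fam_tv {N : Set (ℤ × ℤ)} {s : ℕ} (hL : IsLat N s) : ∃ R : ℝ, 0 < R ∧
    ∀ {κ : Type} (V : Finset κ) (D : κ → Set (ℤ × ℤ)) (a L m : ℕ) (H : κ → Set (Pairs a m))
      (Λ : ℝ), V.Nonempty → 2 ≤ a + L + m → 1 ≤ L →
    Real.log (a + L + m : ℕ) ^ 2 ≤ Λ →
    Real.exp (-Λ) * (V.card * c N (a + L + m)) ≤ fc N V D H (a + L + m) →
    ∀ G : κ → Pairs a m → ℝ, (∀ j o, 0 ≤ G j o) → (∀ j o, G j o ≤ 1) →
    |fm N V D H (a + L + m + s) G - fm N V D H (a + L + m) G| ≤ R * √(Λ / L) := by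
  obtain ⟨R, δ, hR, hδ, h⟩ := fam_win hL
  refine ⟨R + 3 + 1 / √δ, by positivity, ?_⟩
  intro κ V D a L m H Λ hV hN hL1 hΛ1 hlow G hG0 hG1
  have hL0 : (0 : ℝ) < L := by exact_mod_cast hL1
  have hm1 := fm_mem hL V D H (a + L + m) G hG0 hG1
  have hm2 := fm_mem hL V D H (a + L + m + s) G hG0 hG1
  have hs : 0 ≤ √(Λ / L) := Real.sqrt_nonneg _
  by_cases hc : Λ ≤ δ * L
  · obtain ⟨-, -, h4⟩ := h V D a L m H Λ hV hN hL1 hΛ1 hc hlow
    refine (h4 G hG0 hG1).trans ?_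
    have hLN : (L : ℝ) ≤ ((a + L + m : ℕ) : ℝ) := by
      exact_mod_cast (show L ≤ a + L + m by omega)
    have h5 := exp_small (N := a + L + m) (L := L) hN hL0 hLN hΛ1
    have h6 : Real.exp (-Λ) ≤ 3 * √(Λ / L) :=
      (Real.exp_le_exp.2 (neg_le_neg hΛ1)).trans h5
    have h7 : R * √(Λ / L) * fm N V D H (a + L + m) G ≤ R * √(Λ / L) * 1 :=
      mul_le_mul_of_nonneg_left hm1.2 (by positivity)
    have h8 : 0 ≤ 1 / √δ * √(Λ / L) := by positivity
    rw [add_mul, add_mul]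
    linarith
  · push Not at hc
    have h1 : √δ ≤ √(Λ / L) := by
      refine Real.sqrt_le_sqrt ?_
      rw [le_div_iff₀ hL0]
      exact hc.le
    have h2 : 1 ≤ 1 / √δ * √(Λ / L) := by
      have : 0 < √δ := Real.sqrt_pos.2 hδ
      rw [div_mul_eq_mul_div, one_mul, one_le_div this]
      exact h1
    have h3 : |fm N V D H (a + L + m + s) G - fm N V D H (a + L + m) G| ≤ 1 := by
      rw [abs_le]
      constructor <;> linarith
    have h4 : 0 ≤ (R + 3) * √(Λ / L) := by positivity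
    rw [add_mul]
    linarith

end Q219.SAW.Std
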