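import Pool.Agent.Q219.SAW.Fam

/-!
# Windows in families of domains
-/

set_option autoImplicit false

namespace Q219.SAW

open Finset Filter Topology TH966.AK
open scoped Classical

variable {A : P → P → Prop} {Z : Rule A}

/-- description of the fibers -/
theorem fiber (Z : Rule A) (hA : ∀ p q t : P, A (p + t) (q + t) ↔ A p q) (D : Set P) (a m : ℕ)
    (o : List P × List P) : ∃ (D' E : Set P), ∀ l : ℕ,
      FD A D a (l + 1) m o = cD A D' (ind E) (l + 1) := by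
  by_cases hex : ∃ (k : ℕ) (w : List P), w ∈ KD A D (a + (k + 1) + m) ∧ out a (k + 1) w = o
  · obtain ⟨k, w, hw, hwo⟩ := hex
    have hwK : w ∈ Kw A (a + (k + 1) + m) := (mem_filter.1 hw).1
    have hwD : In D w := (mem_filter.1 hw).2
    obtain ⟨g0, x, y, g1, h0, h1, h2, h3⟩ := out_split w (Z.mem_K.1 hwK).1
    have hgood := good_of hwK Z h2 h3
    have hD0 : In D (g0 ++ [x]) := by
      rw [← h2]
      exact fun z hz => hwD z (List.mem_of_mem_take hz)
    have hD1 : In D (y :: g1) := by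
      rw [← h3]
      exact fun z hz => hwD z (List.mem_of_mem_drop hz)
    have hout : ∀ (j : ℕ) (v : List P), out a (j + 1) v = o ↔
        (v.take (a + 1) = g0 ++ [x] ∧ v.drop (a + (j + 1)) = y :: g1) := by
      intro j v
      rw [← hwo]
      unfold out
      rw [h2, h3, Prod.mk.injEq]
    refine ⟨Dom D g0 x g1, {y - x}, fun l => ?_⟩
    have e := fill_eq Z hA (l := l) h0 h1 hgood hD0 hD1
    unfold FD
    simp only [hout]
    exact e
  · refine ⟨∅, ∅, fun l => ?_⟩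
    have h1 : FD A D a (l + 1) m o = 0 := by
      unfold FD
      rw [Nat.cast_eq_zero, card_eq_zero, filter_eq_empty_iff]
      intro w hw hwo
      exact hex ⟨l, w, hw, hwo⟩
    have h2 : KD A (∅ : Set P) (l + 1) = ∅ := by
      unfold KD
      rw [filter_eq_empty_iff]
      intro w hw hin
      have hw' := Z.mem_K.1 hw
      have h3 : w ≠ [] := by
        rintro rfl
        simp at hw'
      obtain ⟨x, hx⟩ := List.exists_mem_of_ne_nil w h3
      exact hin x hx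
    rw [h1]
    unfold cD
    rw [h2, sum_empty]

/-- the numbers of outer parts -/
theorem outers {μ K : ℝ} (G : Growth Z μ K) (hA : ∀ p q t : P, A (p + t) (q + t) ↔ A p q) :
    ∃ κ : ℝ, 0 ≤ κ ∧ ∀ a l m : ℕ, 2 ≤ a + (l + 1) + m →
      (((Kw A (a + (l + 1) + m)).image (out a (l + 1)) ∪
        (Kw A (a + (l + Z.s + 1) + m)).image (out a (l + Z.s + 1))).card : ℝ) ≤
        μ ^ (a + m) * Real.exp (κ * Real.log (a + (l + 1) + m : ℕ) ^ 2) := by
  have hμ := G.hμ
  have hμ0 : 0 < μ := by linarith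
  have hs := G.hs
  have hs1 : (1 : ℝ) ≤ Z.s := by exact_mod_cast hs
  have hl2 : 0 < Real.log 2 := Real.log_pos (by norm_num)
  have hl2' : 69 / 100 ≤ Real.log 2 := by
    have := Real.log_two_gt_d9
    linarith
  obtain ⟨K1, hK1, hup⟩ := growth_le G
  obtain ⟨s2, hs2⟩ : ∃ s2 : ℝ, s2 = Real.log (4 * Z.s) / Real.log 2 := ⟨_, rfl⟩
  have hs20 : 0 ≤ s2 := by
    rw [hs2]
    exact div_nonneg (Real.log_nonneg (by linarith)) hl2.le
  refine ⟨2 * K1 + 4 * (s2 + 2), by positivity, ?_⟩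
  intro a l m hN2
  obtain ⟨N, hN⟩ : ∃ N, N = a + (l + 1) + m := ⟨_, rfl⟩
  rw [← hN] at hN2 ⊢
  have hN2' : (2 : ℝ) ≤ (N : ℝ) := by exact_mod_cast hN2
  have hN0 : (0 : ℝ) < N := by linarith
  obtain ⟨x, hx⟩ : ∃ x : ℝ, x = Real.log N := ⟨_, rfl⟩
  have hlN : Real.log 2 ≤ x := by rw [hx]; exact Real.log_le_log (by norm_num) hN2'
  have hx0 : 0 < x := by linarith
  have h1 : ((Kw A N).image (out a (l + 1))).card ≤
      (Kw A a).card * ((2 * (N + Z.s) + 1) ^ 2 * (Kw A m).card) := by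
    rw [hN]
    refine (card_out Z hA a l m).trans ?_
    refine Nat.mul_le_mul_left _ (Nat.mul_le_mul_right _ (Nat.pow_le_pow_left ?_ 2))
    omega
  have h2 : ((Kw A (a + (l + Z.s + 1) + m)).image (out a (l + Z.s + 1))).card ≤
      (Kw A a).card * ((2 * (N + Z.s) + 1) ^ 2 * (Kw A m).card) := by
    refine (card_out Z hA a (l + Z.s) m).trans ?_
    refine Nat.mul_le_mul_left _ (Nat.mul_le_mul_right _ (Nat.pow_le_pow_left ?_ 2))
    omega
  have h3 : ((Kw A N).image (out a (l + 1)) ∪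
      (Kw A (a + (l + Z.s + 1) + m)).image (out a (l + Z.s + 1))).card ≤
      2 * ((Kw A a).card * ((2 * (N + Z.s) + 1) ^ 2 * (Kw A m).card)) := by
    refine (card_union_le _ _).trans ?_
    omega
  have h3' : (((Kw A N).image (out a (l + 1)) ∪
      (Kw A (a + (l + Z.s + 1) + m)).image (out a (l + Z.s + 1))).card : ℝ) ≤
      2 * ((Kw A a).card * ((2 * (N + Z.s) + 1) ^ 2 * (Kw A m).card)) := by
    exact_mod_cast h3
  have h4 := hup N hN2 a (by omega)
  have h5 := hup N hN2 m (by omega)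
  rw [← hx] at h4 h5
  have h6 : 2 * (2 * ((N : ℝ) + Z.s) + 1) ^ 2 ≤ Real.exp (4 * (s2 + 2) * x ^ 2) := by
    have h8 : 2 * (2 * ((N : ℝ) + Z.s) + 1) ^ 2 ≤ (4 * Z.s * N * N) ^ 2 := aux2 hN2' hs1
    refine h8.trans ?_
    have h13 : (4 * Z.s * N * N : ℝ) = Real.exp (Real.log (4 * Z.s) + 2 * x) := by
      rw [Real.exp_add, Real.exp_log (by positivity),
        show (2 : ℝ) * x = x + x by ring, Real.exp_add, hx, Real.exp_log hN0]
      ring
    rw [h13, ← Real.exp_nat_mul]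
    refine Real.exp_le_exp.2 ?_
    have h14 : Real.log (4 * Z.s) ≤ s2 * x := by
      rw [hs2, div_mul_eq_mul_div, le_div_iff₀ hl2]
      exact mul_le_mul_of_nonneg_left hlN (Real.log_nonneg (by linarith))
    have h15 : Real.log (4 * Z.s) + 2 * x ≤ (s2 + 2) * x := by linarith
    have h16 : x ≤ 2 * x ^ 2 := by
      have : x * 1 ≤ x * (2 * x) := mul_le_mul_of_nonneg_left (by linarith) hx0.le
      linarith
    push_cast
    have h17 : (s2 + 2) * x ≤ (s2 + 2) * (2 * x ^ 2) :=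
      mul_le_mul_of_nonneg_left h16 (by linarith)
    linarith
  obtain ⟨E, hE⟩ : ∃ E : ℝ, E = Real.exp (K1 * x ^ 2) := ⟨_, rfl⟩
  rw [← hE] at h4 h5
  have hE0 : 0 < E := by rw [hE]; exact Real.exp_pos _
  rw [← hx]
  calc (((Kw A N).image (out a (l + 1)) ∪
      (Kw A (a + (l + Z.s + 1) + m)).image (out a (l + Z.s + 1))).card : ℝ)
        ≤ 2 * ((Kw A a).card * ((2 * (N + Z.s) + 1) ^ 2 * (Kw A m).card)) := h3'
    _ = (2 * (2 * ((N : ℝ) + Z.s) + 1) ^ 2) * ((Kw A a).card * (Kw A m).card) := by ring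
    _ ≤ Real.exp (4 * (s2 + 2) * x ^ 2) * ((μ ^ a * E) * (μ ^ m * E)) := by
        refine mul_le_mul h6 ?_ (by positivity) (Real.exp_pos _).le
        exact mul_le_mul h4 h5 (by positivity) (by positivity)
    _ = μ ^ (a + m) * (E * E * Real.exp (4 * (s2 + 2) * x ^ 2)) := by rw [pow_add]; ring
    _ = μ ^ (a + m) * Real.exp ((2 * K1 + 4 * (s2 + 2)) * x ^ 2) := by
        rw [hE, ← Real.exp_add, ← Real.exp_add]
        congr 2
        ring

/-- **windows in families of domains** -/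
theorem window_fam {μ K : ℝ} (G : Growth Z μ K) (hsh : ∀ U U', Z.T U U' → ∀ x ∈ U, x ∈ U')
    (hA : ∀ p q t : P, A (p + t) (q + t) ↔ A p q) :
    ∃ R δ : ℝ, 0 < R ∧ 0 < δ ∧ ∀ {κ : Type} (V : Finset κ) (D : κ → Set P) (a l m : ℕ)
      (h : κ → List P × List P → ℝ) (Λ : ℝ), V.Nonempty →
      2 ≤ a + (l + 1) + m → (∀ j o, 0 ≤ h j o) → (∀ j o, h j o ≤ 1) →
      Real.log (a + (l + 1) + m : ℕ) ^ 2 ≤ Λ → Λ ≤ δ * (l + 1 : ℕ) →
      Real.exp (-Λ) * (V.card * μ ^ (a + (l + 1) + m)) ≤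
        ∑ j ∈ V, WD A (D j) a (l + 1) m (h j) →
      |(∑ j ∈ V, WD A (D j) a (l + Z.s + 1) m (h j)) /
        (∑ j ∈ V, WD A (D j) a (l + 1) m (h j)) / μ ^ Z.s - 1| ≤ R * √(Λ / (l + 1 : ℕ)) ∧
      0 < ∑ j ∈ V, WD A (D j) a (l + Z.s + 1) m (h j) ∧
      ∀ g : κ → List P × List P → ℝ, (∀ j o, 0 ≤ g j o) → (∀ j o, g j o ≤ 1) →
      |(∑ j ∈ V, WD A (D j) a (l + Z.s + 1) m (fun o => h j o * g j o)) /
        (∑ j ∈ V, WD A (D j) a (l + Z.s + 1) m (h j)) -
        (∑ j ∈ V, WD A (D j) a (l + 1) m (fun o => h j o * g j o)) /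
        (∑ j ∈ V, WD A (D j) a (l + 1) m (h j))| ≤
        R * √(Λ / (l + 1 : ℕ)) *
          ((∑ j ∈ V, WD A (D j) a (l + 1) m (fun o => h j o * g j o)) /
            (∑ j ∈ V, WD A (D j) a (l + 1) m (h j))) + Real.exp (-Λ) := by
  have hμ := G.hμ
  have hμ0 : 0 < μ := by linarith
  obtain ⟨κ', hκ', hout⟩ := outers G hA
  obtain ⟨R, δ, hR, hδ, hfam⟩ := fam G hsh κ' hκ'
  refine ⟨R, δ, hR, hδ, ?_⟩
  intro κ V D a l m h Λ hV hN2 hh0 hh1 hΛ1 hΛ2 hW
  obtain ⟨N, hN⟩ : ∃ N, N = a + (l + 1) + m := ⟨_, rfl⟩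
  have hN2' : (2 : ℝ) ≤ (a + (l + 1) + m : ℕ) := by exact_mod_cast hN2
  have hlog2 : Real.log 2 ≤ Real.log (a + (l + 1) + m : ℕ) :=
    Real.log_le_log (by norm_num) hN2'
  have hl2' : 69 / 100 ≤ Real.log 2 := by
    have := Real.log_two_gt_d9
    linarith
  have hx2 : 47 / 100 ≤ Real.log (a + (l + 1) + m : ℕ) ^ 2 := by
    have h1 : ((69 / 100 : ℝ)) ^ 2 ≤ Real.log (a + (l + 1) + m : ℕ) ^ 2 :=
      pow_le_pow_left₀ (by norm_num) (by linarith) 2
    norm_num at h1 ⊢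
    linarith
  have hΛx : 47 / 100 ≤ Λ := hx2.trans hΛ1
  have hVc : (0 : ℝ) < V.card := by exact_mod_cast card_pos.2 hV
  obtain ⟨So, hSo⟩ : ∃ So : Finset (List P × List P),
    So = (Kw A (a + (l + 1) + m)).image (out a (l + 1)) ∪
      (Kw A (a + (l + Z.s + 1) + m)).image (out a (l + Z.s + 1)) := ⟨_, rfl⟩
  have hS1 : ∀ j, (KD A (D j) (a + (l + 1) + m)).image (out a (l + 1)) ⊆ So := by
    intro j
    rw [hSo]
    exact (image_subset_image (filter_subset _ _)).trans subset_union_left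
  have hS2 : ∀ j, (KD A (D j) (a + (l + Z.s + 1) + m)).image (out a (l + Z.s + 1)) ⊆ So := by
    intro j
    rw [hSo]
    exact (image_subset_image (filter_subset _ _)).trans subset_union_right
  choose D' E' hfib using fun j : κ => fiber Z hA (D j) a m
  have key : ∀ (k : κ → List P × List P → ℝ) (q : ℕ),
      (∀ j, (KD A (D j) (a + (q + 1) + m)).image (out a (q + 1)) ⊆ So) →
      ∑ i ∈ V ×ˢ So, k i.1 i.2 * (1 * cD A (D' i.1 i.2) (ind (E' i.1 i.2)) (q + 1)) =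
        ∑ j ∈ V, WD A (D j) a (q + 1) m (k j) := by
    intro k q hq
    rw [sum_product]
    refine sum_congr rfl fun j _ => ?_
    rw [WD_eq (hq j)]
    refine sum_congr rfl fun o _ => ?_
    rw [hfib, one_mul]
  have hLs : l + 1 + Z.s = l + Z.s + 1 := by omega
  have hlogL : Real.log ((l + 1 : ℕ) : ℝ) ^ 2 ≤ Λ := by
    have h1 : Real.log ((l + 1 : ℕ) : ℝ) ≤ Real.log (a + (l + 1) + m : ℕ) :=
      Real.log_le_log (by positivity) (by exact_mod_cast (show l + 1 ≤ a + (l + 1) + m by omega))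
    exact (pow_le_pow_left₀ (Real.log_nonneg (by push_cast; linarith [Nat.cast_nonneg (α := ℝ) l]))
      h1 2).trans hΛ1
  have g0 := hfam (V ×ˢ So) (fun i => D' i.1 i.2) (fun i => ind (E' i.1 i.2)) (fun _ => 1)
    (fun i => h i.1 i.2) (V.card * μ ^ (a + m)) Λ (l + 1) (fun i _ => wtD_ind _ _)
    (fun _ _ => zero_le_one) (fun i _ => hh0 _ _) (fun i _ => hh1 _ _) (by positivity)
    (by omega) hlogL hΛx hΛ2 (by
      rw [sum_const, nsmul_one, card_product, Nat.cast_mul, mul_assoc]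
      refine mul_le_mul_of_nonneg_left ?_ hVc.le
      rw [hSo]
      refine (hout a l m hN2).trans (mul_le_mul_of_nonneg_left ?_ (by positivity))
      exact Real.exp_le_exp.2 (mul_le_mul_of_nonneg_left hΛ1 hκ')) (by
      rw [key h l hS1]
      refine le_trans (le_of_eq ?_) hW
      rw [mul_assoc ((V.card : ℕ) : ℝ), ← pow_add]
      congr 3
      omega)
  rw [hLs, key h l hS1, key h (l + Z.s) hS2] at g0
  obtain ⟨g1, g2, g3⟩ := g0
  refine ⟨g1, g2, fun g hg0 hg1 => ?_⟩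
  have g4 := g3 (fun i => g i.1 i.2) (fun i _ => hg0 _ _) (fun i _ => hg1 _ _)
  have e1 := key (fun j o => h j o * g j o) l hS1
  have e2 := key (fun j o => h j o * g j o) (l + Z.s) hS2
  beta_reduce at e1 e2 g4
  rw [e1, e2] at g4
  exact g4

end Q219.SAW
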