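import Pool.Agent.Q219.SAW.Gap

/-!
# Upper and lower bounds for the number of walks along sparse sequences
-/

set_option autoImplicit false

namespace Q219.SAW.Gap

open Filter Topology Finset

theorem log_tend : Tendsto (fun n : ℕ => Real.log (n : ℝ)) atTop atTop :=
  Real.tendsto_log_atTop.comp tendsto_natCast_atTop_atTop

/-- a smaller weight -/
theorem gap_mono {x w w' : ℕ → ℝ} (hw : ∀ᶠ k in atTop, |w' k| ≤ |w k|)
    (h : Tendsto (fun k => x k * w k) atTop (𝓝 0)) : Tendsto (fun k => x k * w' k) atTop (𝓝 0) := by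
  rw [tendsto_zero_iff_abs_tendsto_zero] at h ⊢
  refine squeeze_zero' (Eventually.of_forall fun k => abs_nonneg _) ?_ h
  filter_upwards [hw] with k hk
  simp only [Function.comp, abs_mul]
  exact mul_le_mul_of_nonneg_left hk (abs_nonneg _)

/-- comparison of a member of the sequence with its neighbours -/
theorem pinch {v r : ℕ → ℝ} {n₀ : ℕ} (hr : ∀ i j, n₀ ≤ i → i ≤ j → r j ≤ r i)
    (hr0 : ∀ i, n₀ ≤ i → 0 ≤ r i)
    (h : ∀ n, n₀ ≤ n → v (n + 1) - v n ≤ r n) {s : ℕ → ℕ} (hs : Tendsto s atTop atTop)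
    (hsub : Tendsto (fun k => ((s (k + 1) : ℝ) - s k) / s k) atTop (𝓝 0))
    (hgap : Tendsto (fun k => ((s (k + 1) : ℝ) - s k) * r (s k) / Real.log (s k)) atTop (𝓝 0))
    {δ : ℝ} (hδ0 : 0 < δ) (B : ℝ) (k0 : ℕ) : ∃ N0 : ℕ, ∀ n, N0 ≤ n → ∃ k, k0 ≤ k ∧
      v n ≤ v (s k) + δ * Real.log n ∧ v (s (k + 1)) ≤ v n + δ * Real.log n ∧
      Real.log (s k) ≤ Real.log n ∧ Real.log n ≤ Real.log (s (k + 1)) ∧
      Real.log (s (k + 1)) ≤ Real.log (s k) + 1 ∧ B ≤ Real.log (s k) := by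
  have hlt := log_tend
  have hls : Tendsto (fun k => Real.log (s k : ℝ)) atTop atTop := hlt.comp hs
  obtain ⟨k2, hk2⟩ := eventually_atTop.1 (((Metric.tendsto_nhds.1 hsub 1 one_pos).and
    (hls.eventually_ge_atTop B)).and (hs.eventually_ge_atTop 2))
  obtain ⟨N0, hN0⟩ := close (w := fun n => Real.log n) hr hr0 h (hlt.eventually_gt_atTop 0) hs
    hgap hδ0 (max k0 k2)
  refine ⟨N0, fun n hn => ?_⟩
  obtain ⟨k, hk, h1, h2, h3, h3'⟩ := hN0 n hn
  obtain ⟨⟨h5, h6⟩, h7⟩ := hk2 k ((le_max_right _ _).trans hk)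
  have hs0 : (0 : ℝ) < s k := by exact_mod_cast (show 0 < s k by omega)
  have hn0 : (s k : ℝ) ≤ n := by exact_mod_cast h1
  have hn1 : (n : ℝ) ≤ s (k + 1) := by exact_mod_cast h2.le
  have hn2 : (s (k + 1) : ℝ) ≤ 2 * s k := by
    have h8 : ((s (k + 1) : ℝ) - s k) / s k < 1 := by
      rw [dist_zero_right, Real.norm_eq_abs] at h5
      exact (le_abs_self _).trans_lt h5
    rw [div_lt_one hs0] at h8
    linarith
  have hxy := Real.log_le_log hs0 hn0
  have h9 := mul_le_mul_of_nonneg_left hxy hδ0.le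
  refine ⟨k, (le_max_left _ _).trans hk, by linarith, by linarith, hxy,
    Real.log_le_log (by linarith) hn1, ?_, h6⟩
  have h8 := Real.log_le_log (by linarith) hn2
  rw [Real.log_mul (by norm_num) hs0.ne'] at h8
  have h9 := Real.log_two_lt_d9
  linarith

/-- upper bounds -/
theorem log_upper {v r : ℕ → ℝ} {n₀ : ℕ} (hr : ∀ i j, n₀ ≤ i → i ≤ j → r j ≤ r i)
    (hr0 : ∀ i, n₀ ≤ i → 0 ≤ r i)
    (h : ∀ n, n₀ ≤ n → v (n + 1) - v n ≤ r n) {s : ℕ → ℕ} (hs : Tendsto s atTop atTop)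
    (hsub : Tendsto (fun k => ((s (k + 1) : ℝ) - s k) / s k) atTop (𝓝 0))
    (hgap : Tendsto (fun k => ((s (k + 1) : ℝ) - s k) * r (s k) / Real.log (s k)) atTop (𝓝 0))
    {b : ℝ} (hb : ∀ᶠ k in atTop, v (s k) ≤ b * Real.log (s k)) {ε : ℝ} (hε : 0 < ε) :
    ∀ᶠ n : ℕ in atTop, v n ≤ (b + ε) * Real.log n := by
  obtain ⟨δ, hδ⟩ : ∃ δ : ℝ, δ = ε / 2 := ⟨_, rfl⟩
  have hδ0 : 0 < δ := by rw [hδ]; positivity
  obtain ⟨k0, hk0⟩ := eventually_atTop.1 hb
  obtain ⟨N0, hN0⟩ := pinch hr hr0 h hs hsub hgap hδ0 (|b| / δ) k0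
  refine eventually_atTop.2 ⟨N0, fun n hn => ?_⟩
  obtain ⟨k, hk, h1, -, h3, h4, h5, h6⟩ := hN0 n hn
  have h7 := hk0 k hk
  generalize Real.log (s k : ℝ) = x at *
  generalize Real.log (n : ℝ) = y at *
  generalize Real.log (s (k + 1) : ℝ) = z at *
  have hb0 := abs_nonneg b
  rw [div_le_iff₀ hδ0] at h6
  have h8 : |b * (y - x)| ≤ |b| := by
    rw [abs_mul, abs_of_nonneg (by linarith : 0 ≤ y - x)]
    nlinarith
  have h8' := abs_le.1 h8
  have e1 : b * x = b * y - b * (y - x) := by ring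
  have hε2 : ε = 2 * δ := by rw [hδ]; ring
  rw [hε2]
  nlinarith [h8'.1]

/-- lower bounds -/
theorem log_lower {v r : ℕ → ℝ} {n₀ : ℕ} (hr : ∀ i j, n₀ ≤ i → i ≤ j → r j ≤ r i)
    (hr0 : ∀ i, n₀ ≤ i → 0 ≤ r i)
    (h : ∀ n, n₀ ≤ n → v (n + 1) - v n ≤ r n) {s : ℕ → ℕ} (hs : Tendsto s atTop atTop)
    (hsub : Tendsto (fun k => ((s (k + 1) : ℝ) - s k) / s k) atTop (𝓝 0))
    (hgap : Tendsto (fun k => ((s (k + 1) : ℝ) - s k) * r (s k) / Real.log (s k)) atTop (𝓝 0))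
    {a : ℝ} (ha : ∀ᶠ k in atTop, a * Real.log (s k) ≤ v (s k)) {ε : ℝ} (hε : 0 < ε) :
    ∀ᶠ n : ℕ in atTop, (a - ε) * Real.log n ≤ v n := by
  obtain ⟨δ, hδ⟩ : ∃ δ : ℝ, δ = ε / 2 := ⟨_, rfl⟩
  have hδ0 : 0 < δ := by rw [hδ]; positivity
  obtain ⟨k0, hk0⟩ := eventually_atTop.1 ha
  obtain ⟨N0, hN0⟩ := pinch hr hr0 h hs hsub hgap hδ0 (|a| / δ) k0
  refine eventually_atTop.2 ⟨N0, fun n hn => ?_⟩
  obtain ⟨k, hk, -, h2, h3, h4, h5, h6⟩ := hN0 n hn
  have h7 := hk0 (k + 1) (hk.trans (Nat.le_succ k))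
  generalize Real.log (s k : ℝ) = x at *
  generalize Real.log (n : ℝ) = y at *
  generalize Real.log (s (k + 1) : ℝ) = z at *
  have ha0 := abs_nonneg a
  rw [div_le_iff₀ hδ0] at h6
  have h8 : |a * (z - y)| ≤ |a| := by
    rw [abs_mul, abs_of_nonneg (by linarith : 0 ≤ z - y)]
    nlinarith
  have h8' := abs_le.1 h8
  have e1 : a * z = a * y + a * (z - y) := by ring
  have hε2 : ε = 2 * δ := by rw [hδ]; ring
  rw [hε2]
  nlinarith [h8'.1]

/-- the three logarithms -/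
theorem three_logs {m e : ℕ} (hm : 2 ≤ m) (he : e ≤ 1) :
    Real.log (m : ℝ) ≤ Real.log ((2 * m + e : ℕ) : ℝ) ∧
    Real.log ((m + 1 : ℕ) : ℝ) ≤ Real.log ((2 * m + e : ℕ) : ℝ) ∧
    Real.log ((2 * m + e : ℕ) : ℝ) ≤ Real.log (m : ℝ) + 2 ∧
    Real.log (m : ℝ) ≤ Real.log ((m + 1 : ℕ) : ℝ) := by
  have hm2 : (2 : ℝ) ≤ m := by exact_mod_cast hm
  have he0 : (0 : ℝ) ≤ e := Nat.cast_nonneg e
  have he1 : (e : ℝ) ≤ 1 := by exact_mod_cast he
  have hl2 := Real.log_two_lt_d9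
  refine ⟨Real.log_le_log (by linarith) (by push_cast; linarith),
    Real.log_le_log (by push_cast; linarith) (by push_cast; linarith), ?_,
    Real.log_le_log (by linarith) (by push_cast; linarith)⟩
  have h9 : Real.log ((2 * m + e : ℕ) : ℝ) ≤ Real.log (2 * 2 * (m : ℝ)) :=
    Real.log_le_log (by push_cast; linarith) (by push_cast; linarith)
  rw [Real.log_mul (by norm_num) (by linarith), Real.log_mul (by norm_num) (by norm_num)] at h9
  linarith

/-- bounds for all lengths from bounds for a sparse sequence of even lengths -/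
theorem bounds_form {c : ℕ → ℝ} {μ : ℝ} (hμ : 0 < μ) (hc : ∀ n, 0 < c n)
    (hadd : ∀ m n, c (m + n) ≤ c m * c n) {r : ℕ → ℝ} {n₀ : ℕ}
    (hr : ∀ i j, n₀ ≤ i → i ≤ j → r j ≤ r i) (hr0 : ∀ i, n₀ ≤ i → 0 ≤ r i)
    (hstep : ∀ m, n₀ ≤ m → Real.log (c (2 * (m + 1)) / μ ^ (2 * (m + 1))) -
      Real.log (c (2 * m) / μ ^ (2 * m)) ≤ r m)
    {s : ℕ → ℕ} (hs : Tendsto s atTop atTop)
    (hsub : Tendsto (fun k => ((s (k + 1) : ℝ) - s k) / s k) atTop (𝓝 0))
    (hgap : Tendsto (fun k => ((s (k + 1) : ℝ) - s k) * r (s k) / Real.log (s k)) atTop (𝓝 0))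
    (a : ℝ) {ε : ℝ} (hε : 0 < ε) :
    ((∀ᶠ k in atTop, Real.log (c (2 * s k) / μ ^ (2 * s k)) ≤
        a * Real.log ((2 * s k : ℕ) : ℝ)) →
      ∀ᶠ n : ℕ in atTop, Real.log (c n / μ ^ n) ≤ (a + ε) * Real.log n) ∧
    ((∀ᶠ k in atTop, a * Real.log ((2 * s k : ℕ) : ℝ) ≤
        Real.log (c (2 * s k) / μ ^ (2 * s k))) →
      ∀ᶠ n : ℕ in atTop, (a - ε) * Real.log n ≤ Real.log (c n / μ ^ n)) := by
  have hlt := log_tend
  have hls : Tendsto (fun k => Real.log (s k : ℝ)) atTop atTop := hlt.comp hs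
  obtain ⟨L, hL⟩ : ∃ L : ℕ → ℝ, L = fun n => Real.log (c n / μ ^ n) := ⟨_, rfl⟩
  have hLn : ∀ n, Real.log (c n / μ ^ n) = L n := fun n => by rw [hL]
  simp only [hLn] at hstep ⊢
  have hLadd : ∀ n, L (n + 1) ≤ L n + |L 1| := by
    intro n
    refine le_trans ?_ (add_le_add_right (le_abs_self _) _)
    rw [hL]
    simp only
    have hp : ∀ k, 0 < μ ^ k := fun k => pow_pos hμ k
    rw [← Real.log_mul (div_pos (hc n) (hp n)).ne' (div_pos (hc 1) (hp 1)).ne']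
    refine Real.log_le_log (div_pos (hc _) (hp _)) ?_
    rw [div_mul_div_comm, ← pow_add]
    exact div_le_div_of_nonneg_right (hadd n 1) (hp _).le
  obtain ⟨δ, hδ⟩ : ∃ δ : ℝ, δ = ε / 3 := ⟨_, rfl⟩
  have hδ0 : 0 < δ := by rw [hδ]; positivity
  have hε3 : ε = 3 * δ := by rw [hδ]; ring
  have hl2 : 0 < Real.log 2 ∧ Real.log 2 < 1 := ⟨Real.log_pos (by norm_num), by
    have := Real.log_two_lt_d9; linarith⟩
  have h2s : ∀ᶠ k in atTop, Real.log ((2 * s k : ℕ) : ℝ) = Real.log 2 + Real.log (s k) ∧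
      |a| ≤ δ * Real.log (s k) := by
    filter_upwards [hs.eventually_ge_atTop 1, hls.eventually_ge_atTop (|a| / δ)] with k hk hk2
    constructor
    · push_cast
      rw [Real.log_mul (by norm_num) (by exact_mod_cast (show s k ≠ 0 by omega))]
    · rw [div_le_iff₀ hδ0] at hk2
      linarith
  have hbig : ∀ᶠ m : ℕ in atTop, 2 ≤ m ∧ |L 1| + 2 * (|a| + 2 * δ) ≤ δ * Real.log m := by
    filter_upwards [eventually_ge_atTop 2,
      hlt.eventually_ge_atTop ((|L 1| + 2 * (|a| + 2 * δ)) / δ)] with m hm hm2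
    rw [div_le_iff₀ hδ0] at hm2
    exact ⟨hm, by linarith⟩
  have hal : |a * Real.log 2| ≤ |a| := by
    rw [abs_mul, abs_of_pos hl2.1]
    have := abs_nonneg a
    nlinarith [hl2.2]
  have hal' := abs_le.1 hal
  constructor
  · intro hb
    have h1 : ∀ᶠ k in atTop, L (2 * s k) ≤ (a + δ) * Real.log (s k) := by
      filter_upwards [hb, h2s] with k hk hk2
      rw [hk2.1] at hk
      have := hal'.2
      have e : a * (Real.log 2 + Real.log (s k)) = a * Real.log 2 + a * Real.log (s k) := by ring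
      rw [e] at hk
      linarith [hk2.2]
    have h2 := log_upper (v := fun m => L (2 * m)) hr hr0 hstep hs hsub hgap h1 hδ0
    obtain ⟨m0, hm0⟩ := eventually_atTop.1 (h2.and hbig)
    refine eventually_atTop.2 ⟨2 * m0 + 2, fun n hn => ?_⟩
    obtain ⟨m, e, he, rfl⟩ : ∃ m e, e ≤ 1 ∧ n = 2 * m + e := ⟨n / 2, n % 2, by omega, by omega⟩
    obtain ⟨h3, h4, h5⟩ := hm0 m (by omega)
    obtain ⟨l1, l2, l3, l4⟩ := three_logs h4 he
    have hup : L (2 * m + e) ≤ L (2 * m) + |L 1| := by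
      rcases Nat.le_one_iff_eq_zero_or_eq_one.1 he with rfl | rfl
      · simp
      · exact hLadd _
    generalize Real.log (m : ℝ) = x at *
    generalize Real.log ((2 * m + e : ℕ) : ℝ) = y at *
    have ha0 := abs_nonneg (a + δ + δ)
    have ha1 : |a + δ + δ| ≤ |a| + 2 * δ := by
      have := abs_add_le a (2 * δ)
      rw [abs_of_pos (by positivity : 0 < 2 * δ)] at this
      rwa [add_assoc, ← two_mul]
    have h8 : |(a + δ + δ) * (y - x)| ≤ 2 * (|a| + 2 * δ) := by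
      rw [abs_mul, abs_of_nonneg (by linarith : 0 ≤ y - x)]
      nlinarith
    have h8' := abs_le.1 h8
    have e1 : (a + δ + δ) * x = (a + 2 * δ) * y - (a + δ + δ) * (y - x) := by ring
    have e2 : δ * x ≤ δ * y := mul_le_mul_of_nonneg_left l1 hδ0.le
    rw [hε3]
    linarith [h8'.1]
  · intro hb
    have h1 : ∀ᶠ k in atTop, (a - δ) * Real.log (s k) ≤ L (2 * s k) := by
      filter_upwards [hb, h2s] with k hk hk2
      rw [hk2.1] at hk
      have := hal'.1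
      have e : a * (Real.log 2 + Real.log (s k)) = a * Real.log 2 + a * Real.log (s k) := by ring
      rw [e] at hk
      linarith [hk2.2]
    have h2 := log_lower (v := fun m => L (2 * m)) hr hr0 hstep hs hsub hgap h1 hδ0
    obtain ⟨m0, hm0⟩ := eventually_atTop.1 (h2.and hbig)
    refine eventually_atTop.2 ⟨2 * m0 + 2, fun n hn => ?_⟩
    obtain ⟨m, e, he, rfl⟩ : ∃ m e, e ≤ 1 ∧ n = 2 * m + e := ⟨n / 2, n % 2, by omega, by omega⟩
    obtain ⟨h3, h4, h5⟩ := hm0 m (by omega)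
    obtain ⟨h3', -, -⟩ := hm0 (m + 1) (by omega)
    obtain ⟨l1, l2, l3, l4⟩ := three_logs h4 he
    have hlo : L (2 * m) - |L 1| ≤ L (2 * m + e) ∨ L (2 * (m + 1)) - |L 1| ≤ L (2 * m + e) := by
      rcases Nat.le_one_iff_eq_zero_or_eq_one.1 he with rfl | rfl
      · left; simp
      · right
        have := hLadd (2 * m + 1)
        rw [show 2 * m + 1 + 1 = 2 * (m + 1) by ring] at this
        linarith
    generalize Real.log (m : ℝ) = x at *
    generalize Real.log ((2 * m + e : ℕ) : ℝ) = y at *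
    generalize Real.log ((m + 1 : ℕ) : ℝ) = z at *
    have ha0 := abs_nonneg (a - δ - δ)
    have ha1 : |a - δ - δ| ≤ |a| + 2 * δ := by
      have := abs_sub a (2 * δ)
      rw [abs_of_pos (by positivity : 0 < 2 * δ)] at this
      rwa [sub_sub, ← two_mul]
    have h8 : |(a - δ - δ) * (y - x)| ≤ 2 * (|a| + 2 * δ) := by
      rw [abs_mul, abs_of_nonneg (by linarith : 0 ≤ y - x)]
      nlinarith
    have h9 : |(a - δ - δ) * (y - z)| ≤ 2 * (|a| + 2 * δ) := by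
      rw [abs_mul, abs_of_nonneg (by linarith : 0 ≤ y - z)]
      nlinarith
    have h8' := abs_le.1 h8
    have h9' := abs_le.1 h9
    have e1 : (a - δ - δ) * x = (a - 2 * δ) * y - (a - δ - δ) * (y - x) := by ring
    have e3 : (a - δ - δ) * z = (a - 2 * δ) * y - (a - δ - δ) * (y - z) := by ring
    have e2 : δ * x ≤ δ * y := mul_le_mul_of_nonneg_left l1 hδ0.le
    rw [hε3]
    rcases hlo with h | h
    · linarith [h8'.2]
    · linarith [h9'.2]

end Q219.SAW.Gap
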