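import Pool.Agent.Q219.SAW.Brg

/-!
# The window theorem in terms of functions
-/

set_option autoImplicit false

namespace Q219.SAW

open Finset Filter Topology TH966.AK

variable {A : P → P → Prop} {Z : Rule A}

/-- the walks in `D` with outer part in `H` -/
def WK (A : P → P → Prop) (D : Set P) {a m : ℕ}
    (H : Set ((Fin (a + 1) → ℤ × ℤ) × (Fin (m + 1) → ℤ × ℤ))) (n : ℕ) :
    Set (Fin (n + 1) → ℤ × ℤ) :=
  {ω | ω ∈ FW A n ∧ (∀ i, ω i ∈ D) ∧ outerF a m ω ∈ H}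

/-- their proportion -/
noncomputable def prF (A : P → P → Prop) (D : Set P) {a m : ℕ}
    (H : Set ((Fin (a + 1) → ℤ × ℤ) × (Fin (m + 1) → ℤ × ℤ))) (n : ℕ) : ℝ :=
  ((WK A D H n).ncard : ℝ) / ((FW A n).ncard : ℝ)

/-- the conditional mean of a function of the outer part -/
noncomputable def mnF (A : P → P → Prop) (D : Set P) {a m : ℕ}
    (H : Set ((Fin (a + 1) → ℤ × ℤ) × (Fin (m + 1) → ℤ × ℤ))) (n : ℕ)
    (G : (Fin (a + 1) → ℤ × ℤ) × (Fin (m + 1) → ℤ × ℤ) → ℝ) : ℝ :=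
  (∑ᶠ ω ∈ WK A D H n, G (outerF a m ω)) / ((WK A D H n).ncard : ℝ)

include Z in
theorem FW_card (n : ℕ) : ((FW A n).ncard : ℝ) = (Kw A n).card := by
  rw [count_eq Z]
  rfl

/-- the window theorem -/
theorem window_fn {μ K : ℝ} (Gr : Growth Z μ K) (hsh : ∀ U U', Z.T U U' → ∀ x ∈ U, x ∈ U')
    (hA : ∀ p q t : P, A (p + t) (q + t) ↔ A p q) :
    ∃ R δ : ℝ, 0 < R ∧ 0 < δ ∧ ∀ (a L m : ℕ) (D : Set P)
    (H : Set ((Fin (a + 1) → ℤ × ℤ) × (Fin (m + 1) → ℤ × ℤ))),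
    2 ≤ a + L + m → 0 < prF A D H (a + L + m) →
    Real.log (a + L + m : ℕ) ^ 2 + Real.log (1 / prF A D H (a + L + m)) ≤ δ * L →
    0 < prF A D H (a + L + m + Z.s) ∧
    |prF A D H (a + L + m + Z.s) / prF A D H (a + L + m) - 1| ≤ R *
      √((Real.log (a + L + m : ℕ) ^ 2 + Real.log (1 / prF A D H (a + L + m))) / L) ∧
    |((WK A D H (a + L + m + Z.s)).ncard : ℝ) / ((WK A D H (a + L + m)).ncard : ℝ) / μ ^ Z.s - 1| ≤
      R * √((Real.log (a + L + m : ℕ) ^ 2 + Real.log (1 / prF A D H (a + L + m))) / L) ∧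
    ∀ G : (Fin (a + 1) → ℤ × ℤ) × (Fin (m + 1) → ℤ × ℤ) → ℝ, (∀ o, 0 ≤ G o) → (∀ o, G o ≤ 1) →
    |mnF A D H (a + L + m + Z.s) G - mnF A D H (a + L + m) G| ≤
      R * √((Real.log (a + L + m : ℕ) ^ 2 + Real.log (1 / prF A D H (a + L + m))) / L) *
        mnF A D H (a + L + m) G +
      prF A D H (a + L + m) * Real.exp (-(Real.log (a + L + m : ℕ) ^ 2)) := by
  classical
  have hμ := Gr.hμ
  have hμ0 : 0 < μ := by linarith
  obtain ⟨R, δ, hR, hδ, h⟩ := window Gr hsh hA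
  have hcard : ∀ k, (0 : ℝ) < (Kw A k).card := fun k =>
    lt_of_lt_of_le (pow_pos hμ0 k) (Gr.low k)
  have hδ'0 : 0 < min δ (1 / (4 * R ^ 2)) := lt_min hδ (by positivity)
  refine ⟨4 * R, min δ (1 / (4 * R ^ 2)), by positivity, hδ'0, ?_⟩
  intro a L m D H hN hp hΛ2
  obtain ⟨Λ, hΛ⟩ : ∃ Λ : ℝ, Λ = Real.log (a + L + m : ℕ) ^ 2 +
    Real.log (1 / prF A D H (a + L + m)) := ⟨_, rfl⟩
  rw [← hΛ] at hΛ2 ⊢
  obtain ⟨p, hpd⟩ : ∃ p, p = prF A D H (a + L + m) := ⟨_, rfl⟩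
  rw [← hpd] at hp hΛ ⊢
  obtain ⟨l, rfl⟩ : ∃ l, L = l + 1 := by
    rcases L.eq_zero_or_pos with h0 | h0
    · exfalso
      subst h0
      have h1 : Real.log 2 ≤ Real.log (a + 0 + m : ℕ) :=
        Real.log_le_log (by norm_num) (by exact_mod_cast hN)
      have h2 : 0 < Real.log 2 := Real.log_pos (by norm_num)
      have h3 : 0 < Real.log (a + 0 + m : ℕ) ^ 2 := by
        have : 0 < Real.log (a + 0 + m : ℕ) := by linarith
        positivity
      have h4 : 0 ≤ Real.log (1 / p) := by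
        refine Real.log_nonneg ?_
        rw [le_div_iff₀ hp, one_mul, hpd]
        unfold prF
        rw [FW_card (Z := Z), div_le_one (hcard _)]
        unfold WK
        rw [← WD_card (Z := Z) D (L := 0) rfl H]
        exact WD_le D a 0 m _ fun o => by split_ifs <;> norm_num
      have h5 : (0 : ℝ) < min δ (1 / (4 * R ^ 2)) * ((0 : ℕ) : ℝ) := by linarith
      simp at h5
    · exact ⟨L - 1, by omega⟩
  obtain ⟨N, hNd⟩ : ∃ N, N = a + (l + 1) + m := ⟨_, rfl⟩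
  have hN2 : N + Z.s = a + (l + Z.s + 1) + m := by omega
  have eW : ((WK A D H N).ncard : ℝ) =
      WD A D a (l + 1) m (fun o => (if dec a m o ∈ H then 1 else 0)) := by
    rw [WD_card (Z := Z) D hNd H]; rfl
  have eW' : ((WK A D H (N + Z.s)).ncard : ℝ) =
      WD A D a (l + Z.s + 1) m (fun o => (if dec a m o ∈ H then 1 else 0)) := by
    rw [WD_card (Z := Z) D hN2 H]; rfl
  rw [← hNd] at hN hpd hΛ ⊢
  have hpW : WD A D a (l + 1) m (fun o => (if dec a m o ∈ H then 1 else 0)) =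
      p * (Kw A N).card := by
    rw [← eW, hpd]
    unfold prF
    rw [FW_card (Z := Z), div_mul_cancel₀ _ (hcard N).ne']
  have hplog : Real.exp (-Λ) = p * Real.exp (-(Real.log (N : ℕ) ^ 2)) := by
    rw [hΛ, neg_add, Real.exp_add, one_div, Real.log_inv, neg_neg, Real.exp_log hp, mul_comm]
  have hexp1 : Real.exp (-(Real.log (N : ℕ) ^ 2)) ≤ 1 :=
    Real.exp_le_one_iff.2 (by have := sq_nonneg (Real.log (N : ℕ)); linarith)
  have hlow : Real.exp (-Λ) * μ ^ N ≤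
      WD A D a (l + 1) m (fun o => (if dec a m o ∈ H then 1 else 0)) := by
    rw [hpW]
    refine mul_le_mul ?_ (Gr.low N) (by positivity) hp.le
    rw [hplog]
    exact mul_le_of_le_one_right hp.le hexp1
  have hp1 : p ≤ 1 := by
    have h1 : WD A D a (l + 1) m (fun o => (if dec a m o ∈ H then 1 else 0)) ≤
        (Kw A N).card := by
      rw [hNd]
      exact WD_le D a (l + 1) m _ fun o => by split_ifs <;> norm_num
    rw [hpW] at h1
    exact le_of_mul_le_mul_right (by linarith) (hcard N)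
  have hlp : 0 ≤ Real.log (1 / p) := Real.log_nonneg (by rw [le_div_iff₀ hp]; linarith)
  have hΛ1 : Real.log (N : ℕ) ^ 2 ≤ Λ := by rw [hΛ]; linarith
  have hL0 : (0 : ℝ) < ((l + 1 : ℕ) : ℝ) := by positivity
  have hΛδ : Λ ≤ δ * ((l + 1 : ℕ) : ℝ) :=
    hΛ2.trans (mul_le_mul_of_nonneg_right (min_le_left _ _) hL0.le)
  have hh0 : ∀ o : List P × List P, (0 : ℝ) ≤ (if dec a m o ∈ H then 1 else 0) := fun o => by
    split_ifs <;> norm_num
  have hh1 : ∀ o : List P × List P, (if dec a m o ∈ H then (1 : ℝ) else 0) ≤ 1 := fun o => by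
    split_ifs <;> norm_num
  obtain ⟨g1, g2, g3⟩ := h a l m D (fun o => (if dec a m o ∈ H then 1 else 0)) Λ
    (by rw [← hNd]; exact hN) hh0 hh1 (by rw [← hNd]; exact hΛ1) hΛδ (by rw [← hNd]; exact hlow)
  obtain ⟨f1, -, -⟩ := h a l m Set.univ (fun _ => 1) Λ
    (by rw [← hNd]; exact hN) (fun _ => zero_le_one) (fun _ => le_rfl)
    (by rw [← hNd]; exact hΛ1) hΛδ (by
      rw [← hNd, WD_univ, ← hNd]
      refine le_trans (mul_le_of_le_one_left (by positivity) ?_) (Gr.low N)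
      rw [Real.exp_le_one_iff]
      have := sq_nonneg (Real.log (N : ℕ))
      linarith)
  rw [WD_univ, WD_univ, ← hNd, ← hN2] at f1
  have hΛ0 : 0 ≤ Λ := (sq_nonneg _).trans hΛ1
  have hhalf : R * √(Λ / ((l + 1 : ℕ) : ℝ)) ≤ 1 / 2 := by
    have h1 : Λ / ((l + 1 : ℕ) : ℝ) ≤ (1 / (2 * R)) ^ 2 := by
      rw [div_le_iff₀ hL0]
      refine hΛ2.trans (mul_le_mul_of_nonneg_right ?_ hL0.le)
      refine (min_le_right _ _).trans (le_of_eq ?_)
      field_simp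
      norm_num
    have h2 : √(Λ / ((l + 1 : ℕ) : ℝ)) ≤ 1 / (2 * R) := by
      rw [Real.sqrt_le_left (by positivity)]
      exact h1
    calc R * √(Λ / ((l + 1 : ℕ) : ℝ)) ≤ R * (1 / (2 * R)) :=
          mul_le_mul_of_nonneg_left h2 hR.le
      _ = 1 / 2 := by field_simp
  have hW0 : 0 < WD A D a (l + 1) m (fun o => (if dec a m o ∈ H then 1 else 0)) := by
    rw [hpW]
    exact mul_pos hp (hcard N)
  have hsq : 0 ≤ √(Λ / ((l + 1 : ℕ) : ℝ)) := Real.sqrt_nonneg _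
  refine ⟨?_, ?_, ?_, ?_⟩
  · unfold prF
    rw [eW', FW_card (Z := Z)]
    exact div_pos g2 (hcard _)
  · have h4 := ratio_aux hW0 (hcard N) (pow_pos hμ0 Z.s) g1 f1 hhalf
    unfold prF at hpd ⊢
    rw [hpd, FW_card (Z := Z), FW_card (Z := Z), eW', eW]
    refine h4.trans (le_of_eq ?_)
    ring
  · rw [eW', eW]
    refine g1.trans ?_
    refine mul_le_mul_of_nonneg_right ?_ hsq
    linarith
  · intro G hG0 hG1
    have h4 := g3 (fun o => G (dec a m o)) (fun o => hG0 _) (fun o => hG1 _)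
    unfold mnF
    have e1 := WD_fn (Z := Z) D hNd H G
    have e2 := WD_fn (Z := Z) D hN2 H G
    unfold WK at eW eW' ⊢
    rw [eW, eW', ← e1, ← e2]
    refine h4.trans ?_
    rw [hplog]
    refine add_le_add (mul_le_mul_of_nonneg_right ?_ ?_) le_rfl
    · refine mul_le_mul_of_nonneg_right ?_ hsq
      linarith
    · refine div_nonneg ?_ hW0.le
      unfold WD
      exact Finset.sum_nonneg fun w _ => mul_nonneg (hh0 _) (hG0 _)

/-- the conditional mean of a function between `0` and `1` -/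
theorem mnF_mem (D : Set P) {a m : ℕ}
    (H : Set ((Fin (a + 1) → ℤ × ℤ) × (Fin (m + 1) → ℤ × ℤ))) (n : ℕ)
    (hfin : (WK A D H n).Finite)
    (G : (Fin (a + 1) → ℤ × ℤ) × (Fin (m + 1) → ℤ × ℤ) → ℝ) (hG0 : ∀ o, 0 ≤ G o)
    (hG1 : ∀ o, G o ≤ 1) : 0 ≤ mnF A D H n G ∧ mnF A D H n G ≤ 1 := by
  have e : ∑ᶠ ω ∈ WK A D H n, G (outerF a m ω) =
      ∑ ω ∈ hfin.toFinset, G (outerF a m ω) := finsum_mem_eq_finite_toFinset_sum _ hfin
  unfold mnF
  rw [e, Set.ncard_eq_toFinset_card _ hfin]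
  constructor
  · exact div_nonneg (sum_nonneg fun _ _ => hG0 _) (Nat.cast_nonneg _)
  · refine div_le_one_of_le₀ ?_ (Nat.cast_nonneg _)
    rw [← nsmul_one, ← sum_const]
    exact sum_le_sum fun _ _ => hG1 _

include Z in
theorem FW_finite (n : ℕ) : (FW A n).Finite := by
  have h := coe_eq (Z := Z) (fun _ => True) n
  have h2 : (List.ofFn '' {f : Fin (n + 1) → ℤ × ℤ | f ∈ FW A n ∧ True}).Finite := by
    rw [← h]
    exact Finset.finite_toSet _
  have h3 := (Set.finite_image_iff (List.ofFn_injective.injOn)).1 h2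
  simpa using h3

include Z in
theorem WK_finite (D : Set P) {a m : ℕ}
    (H : Set ((Fin (a + 1) → ℤ × ℤ) × (Fin (m + 1) → ℤ × ℤ))) (n : ℕ) :
    (WK A D H n).Finite := (FW_finite (Z := Z) n).subset fun _ h => h.1

theorem exp_small {N : ℕ} {L : ℝ} (hN : 2 ≤ N) (hL0 : 0 < L) (hL : L ≤ N) {Λ : ℝ}
    (hΛ : Real.log N ^ 2 ≤ Λ) :
    Real.exp (-(Real.log N ^ 2)) ≤ 3 * √(Λ / L) := by
  have hN' : (2 : ℝ) ≤ N := by exact_mod_cast hN
  have hN0 : (0 : ℝ) < N := by linarith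
  obtain ⟨x, hx⟩ : ∃ x : ℝ, x = Real.log N := ⟨_, rfl⟩
  have hl2 : 69 / 100 ≤ Real.log 2 := by
    have := Real.log_two_gt_d9
    linarith
  have hxl : Real.log 2 ≤ x := by rw [hx]; exact Real.log_le_log (by norm_num) hN'
  have hx0 : 69 / 100 ≤ x := by linarith
  rw [← hx] at hΛ ⊢
  have hΛ0 : 0 ≤ Λ := (sq_nonneg _).trans hΛ
  have h1 : x / √(N : ℝ) ≤ √(Λ / L) := by
    refine Real.le_sqrt_of_sq_le ?_
    rw [div_pow, Real.sq_sqrt hN0.le]
    exact div_le_div₀ hΛ0 hΛ hL0 hL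
  have h2 : √(N : ℝ) ≤ Real.exp (x / 2) := by
    rw [Real.sqrt_le_left (Real.exp_pos _).le, ← Real.exp_nat_mul]
    have : ((2 : ℕ) : ℝ) * (x / 2) = x := by push_cast; ring
    rw [this, hx, Real.exp_log hN0]
  have hs0 : 0 < √(N : ℝ) := Real.sqrt_pos.2 hN0
  have h3 : Real.exp (-(x ^ 2)) ≤ 3 * (x / √(N : ℝ)) := by
    rw [← mul_div_assoc, le_div_iff₀ hs0]
    calc Real.exp (-(x ^ 2)) * √(N : ℝ) ≤ Real.exp (-(x ^ 2)) * Real.exp (x / 2) :=
          mul_le_mul_of_nonneg_left h2 (Real.exp_pos _).le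
      _ = Real.exp (-(x ^ 2) + x / 2) := by rw [← Real.exp_add]
      _ ≤ Real.exp 0 := by
          refine Real.exp_le_exp.2 ?_
          have : x * (1 / 2) ≤ x * x := mul_le_mul_of_nonneg_left (by linarith) (by linarith)
          linarith
      _ = 1 := Real.exp_zero
      _ ≤ 3 * x := by linarith
  linarith

/-- the window theorem as an estimate of the total variation distance -/
theorem window_tv {μ K : ℝ} (Gr : Growth Z μ K) (hsh : ∀ U U', Z.T U U' → ∀ x ∈ U, x ∈ U')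
    (hA : ∀ p q t : P, A (p + t) (q + t) ↔ A p q) :
    ∃ R : ℝ, 0 < R ∧ ∀ (a L m : ℕ) (D : Set P)
    (H : Set ((Fin (a + 1) → ℤ × ℤ) × (Fin (m + 1) → ℤ × ℤ))),
    2 ≤ a + L + m → 1 ≤ L → 0 < prF A D H (a + L + m) →
    ∀ G : (Fin (a + 1) → ℤ × ℤ) × (Fin (m + 1) → ℤ × ℤ) → ℝ, (∀ o, 0 ≤ G o) → (∀ o, G o ≤ 1) →
    |mnF A D H (a + L + m + Z.s) G - mnF A D H (a + L + m) G| ≤
      R * √((Real.log (a + L + m : ℕ) ^ 2 + Real.log (1 / prF A D H (a + L + m))) / L) := by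
  obtain ⟨R, δ, hR, hδ, h⟩ := window_fn Gr hsh hA
  refine ⟨R + 3 + 1 / √δ, by positivity, ?_⟩
  intro a L m D H hN hL hp G hG0 hG1
  obtain ⟨Λ, hΛ⟩ : ∃ Λ : ℝ, Λ = Real.log (a + L + m : ℕ) ^ 2 +
    Real.log (1 / prF A D H (a + L + m)) := ⟨_, rfl⟩
  have hL0 : (0 : ℝ) < L := by exact_mod_cast hL
  have hm1 := mnF_mem (A := A) D H (a + L + m) (WK_finite (Z := Z) D H _) G hG0 hG1
  have hm2 := mnF_mem (A := A) D H (a + L + m + Z.s) (WK_finite (Z := Z) D H _) G hG0 hG1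
  have hμ := Gr.hμ
  have hμ0 : 0 < μ := by linarith
  have hcard : ∀ k, (0 : ℝ) < (Kw A k).card := fun k =>
    lt_of_lt_of_le (pow_pos hμ0 k) (Gr.low k)
  have hp1 : prF A D H (a + L + m) ≤ 1 := by
    unfold prF
    refine div_le_one_of_le₀ ?_ (Nat.cast_nonneg _)
    exact_mod_cast Set.ncard_le_ncard (show WK A D H _ ⊆ FW A _ from fun _ h => h.1)
      (FW_finite (Z := Z) _)
  have hlp : 0 ≤ Real.log (1 / prF A D H (a + L + m)) :=
    Real.log_nonneg (by rw [le_div_iff₀ hp]; linarith)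
  have hΛ1 : Real.log (a + L + m : ℕ) ^ 2 ≤ Λ := by rw [hΛ]; linarith
  have hs : 0 ≤ √(Λ / L) := Real.sqrt_nonneg _
  rw [← hΛ]
  by_cases hc : Λ ≤ δ * L
  · obtain ⟨-, -, -, h4⟩ := h a L m D H hN hp (by rw [← hΛ]; exact hc)
    refine (h4 G hG0 hG1).trans ?_
    rw [← hΛ]
    have hLN : (L : ℝ) ≤ ((a + L + m : ℕ) : ℝ) := by
      exact_mod_cast (show L ≤ a + L + m by omega)
    have h5 := exp_small (N := a + L + m) (L := L) hN hL0 hLN hΛ1
    have h6 : prF A D H (a + L + m) * Real.exp (-(Real.log (a + L + m : ℕ) ^ 2)) ≤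
        1 * (3 * √(Λ / L)) := mul_le_mul hp1 h5 (Real.exp_pos _).le zero_le_one
    have h7 : R * √(Λ / L) * mnF A D H (a + L + m) G ≤ R * √(Λ / L) * 1 :=
      mul_le_mul_of_nonneg_left hm1.2 (by positivity)
    have h8 : 0 ≤ 1 / √δ * √(Λ / L) := by positivity
    rw [add_mul, add_mul]
    linarith
  · push Not at hc
    have h1 : √δ ≤ √(Λ / L) := by
      refine Real.sqrt_le_sqrt ?_
      rw [le_div_iff₀ hL0]
      exact hc.le
    have h2 : 1 ≤ 1 / √δ * √(Λ / L) := by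
      have : 0 < √δ := Real.sqrt_pos.2 hδ
      rw [div_mul_eq_mul_div, one_mul, one_le_div this]
      exact h1
    have h3 : |mnF A D H (a + L + m + Z.s) G - mnF A D H (a + L + m) G| ≤ 1 := by
      rw [abs_le]
      constructor <;> linarith
    have h4 : 0 ≤ (R + 3) * √(Λ / L) := by positivity
    rw [add_mul]
    linarith

end Q219.SAW
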