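import Pool.Agent.TH508.LT.Fin2
import Pool.Agent.H981R2.Plain
import Pool.Agent.Q219.SAW.Sq
import Pool.Agent.Q219.SAW.WinF

/-!
# The probability of staying in a half plane
-/

set_option autoImplicit false

namespace Q219.SAW.Sq

open Finset Filter Topology TH966.AK Q219.SAW

theorem isSAW_iff (n : ℕ) (ω : Fin (n + 1) → ℤ × ℤ) : H981.IsSAW n ω ↔ ω ∈ FW Sq.A n := by
  unfold H981.IsSAW FW
  rw [Set.mem_ofPred_eq, ← Sq.adj_eq]
  unfold Sq.Adj
  have e : ∀ i : Fin n, |(ω i.succ).1 - (ω i.castSucc).1| + |(ω i.succ).2 - (ω i.castSucc).2| =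
      |(ω i.castSucc).1 - (ω i.succ).1| + |(ω i.castSucc).2 - (ω i.succ).2| := by
    intro i
    rw [abs_sub_comm (ω i.succ).1, abs_sub_comm (ω i.succ).2]
  simp only [e]
  have e0 : ω 0 = (0, 0) ↔ ω 0 = 0 := Iff.rfl
  rw [e0]
  tauto

theorem C_eq (n : ℕ) : (H981.C n : ℝ) = ((FW Sq.A n).ncard : ℝ) := by
  unfold H981.C
  have : {ω : Fin (n + 1) → ℤ × ℤ | H981.IsSAW n ω} = FW Sq.A n := by
    ext ω
    exact isSAW_iff n ω
  rw [← this, ← Nat.card_coe_set_eq]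
  rfl

/-- the walk stays in a set which contains a half plane with probability at least
`exp (- K log² n)` -/
theorem half_low : ∃ K : ℝ, 0 ≤ K ∧ ∀ n : ℕ, 2 ≤ n → ∀ D : Set P, (∀ x : P, 0 ≤ x.1 → x ∈ D) →
    ∀ a m : ℕ, Real.exp (-(K * Real.log n ^ 2)) ≤
      prF Sq.A D (Set.univ : Set ((Fin (a + 1) → ℤ × ℤ) × (Fin (m + 1) → ℤ × ℤ))) n := by
  obtain ⟨K₁, hK₁, h1⟩ := Pool.Agent.TH508.LT.sq_lower2
  obtain ⟨K₂, hK₂, h2⟩ := Pool.Agent.TH508.LT.sq_upper2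
  refine ⟨K₁ + K₂, by positivity, ?_⟩
  intro n hn D hD a m
  have h3 := h1 n hn
  have h4 := h2 n hn
  rw [H981.br'_eq] at h3
  rw [H981.cr'_eq, C_eq] at h4
  have h5 : (H981.B n : ℝ) ≤ ((WK Sq.A D (Set.univ : Set ((Fin (a + 1) → ℤ × ℤ) ×
      (Fin (m + 1) → ℤ × ℤ))) n).ncard : ℝ) := by
    unfold H981.B
    have e : Nat.card {ω : Fin (n + 1) → ℤ × ℤ // H981.IsBridge n ω} =
        {ω : Fin (n + 1) → ℤ × ℤ | H981.IsBridge n ω}.ncard := by
      rw [← Nat.card_coe_set_eq]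
      rfl
    rw [e]
    refine Nat.cast_le.2 (Set.ncard_le_ncard ?_ (WK_finite (Z := Sq.rule) D _ n))
    rintro ω ⟨hω1, hω2⟩
    refine ⟨(isSAW_iff n ω).1 hω1, fun i => hD _ ?_, Set.mem_univ _⟩
    by_cases hi : i = 0
    · rw [hi, hω1.1]
    · exact (hω2 i hi).1.le
  have hF : 0 < ((FW Sq.A n).ncard : ℝ) := by
    have h6 : (0 : ℝ) < H981.cr' n := by
      have := H981.one_le_cr' n
      linarith
    rwa [H981.cr'_eq, C_eq] at h6
  unfold prF
  rw [le_div_iff₀ hF]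
  have hmu : 0 < H981.mu := by
    by_contra hcon
    rw [not_lt] at hcon
    have h0 : 0 ≤ H981.mu := by
      unfold H981.mu
      positivity
    have h7 : H981.mu = 0 := le_antisymm hcon h0
    rw [h7, zero_pow (by omega), zero_mul] at h4
    linarith
  calc Real.exp (-((K₁ + K₂) * Real.log n ^ 2)) * ((FW Sq.A n).ncard : ℝ) ≤
        Real.exp (-((K₁ + K₂) * Real.log n ^ 2)) *
          (H981.mu ^ n * Real.exp (K₂ * Real.log n ^ 2)) :=
        mul_le_mul_of_nonneg_left h4 (Real.exp_pos _).le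
    _ = H981.mu ^ n * Real.exp (-(K₁ * Real.log n ^ 2)) := by
        rw [mul_left_comm, ← Real.exp_add]
        congr 2
        ring
    _ ≤ (H981.B n : ℝ) := h3
    _ ≤ _ := h5

end Q219.SAW.Sq
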