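import Pool.Agent.TH966.KS.Kn
import Pool.Agent.TH966.AK.Rate

/-!
# Polygons of fixed knot type: counts and generating function
-/

set_option autoImplicit false

namespace Q219.SAW.Knt

open Filter Topology Finset KN TH966.KS TH966.KO TH966.AK

variable {y : ℕ → ℝ} {D θ : ℝ} {k0 : ℕ}

/-- near a length there are `√K` lengths with comparable terms -/
theorem near (hK : Kes y D θ k0) (hy : ∀ k, 0 ≤ y k) (hD : 0 ≤ D) (hθ0 : 0 < θ) (hθ1 : θ < 1) :
    ∃ k1 : ℕ, ∀ K, k1 ≤ K → θ ^ K ≤ y K →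
    ((Nat.sqrt K + 1 : ℕ) : ℝ) * (Real.exp (-(2 * D)) * y K) ≤ ∑ n ∈ range (2 * K + 1), y n := by
  classical
  obtain ⟨m0, hm0⟩ := exists_pow_lt_of_lt_one (Real.exp_pos (-(2 * D))) hθ1
  refine ⟨2 * k0 + 2 * m0 + 16, fun K hKK hth => ?_⟩
  have hK0 : (0 : ℝ) < K := by exact_mod_cast (show 0 < K by omega)
  have hyK : 0 < y K := (pow_pos hθ0 K).trans_le hth
  have hsq : Nat.sqrt K * Nat.sqrt K ≤ K := Nat.sqrt_le K
  have hsq4 : 4 * Nat.sqrt K ≤ K := by
    by_contra hc
    have h1 : 4 ≤ Nat.sqrt K := Nat.le_sqrt.2 (by omega)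
    nlinarith
  obtain ⟨p, hp⟩ : ∃ p : ℝ, p = 1 + 2 * D / K := ⟨_, rfl⟩
  have hp1 : 1 ≤ p := by
    rw [hp]
    have : 0 ≤ 2 * D / K := by positivity
    linarith
  have hpp : ∀ j, j ≤ Nat.sqrt K → p ^ (j * j) ≤ Real.exp (2 * D) := by
    intro j hj
    have h1 : j * j ≤ K := (Nat.mul_le_mul hj hj).trans hsq
    refine (pow_le_pow_right₀ hp1 h1).trans ?_
    have h2 : p ≤ Real.exp (2 * D / K) := by
      rw [hp, add_comm]
      exact Real.add_one_le_exp _
    refine (pow_le_pow_left₀ (by linarith) h2 K).trans (le_of_eq ?_)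
    rw [← Real.exp_nat_mul]
    congr 1
    field_simp
  -- a term comparable with the middle one is above the threshold
  have hbig : ∀ z : ℝ, ∀ i : ℕ, K + m0 ≤ i → y K ≤ z * Real.exp (2 * D) → θ ^ i ≤ z := by
    intro z i hi hz
    have h1 : θ ^ i ≤ θ ^ (m0 + K) := pow_le_pow_of_le_one hθ0.le hθ1.le (by omega)
    rw [pow_add] at h1
    have h2 : Real.exp (-(2 * D)) * y K ≤ z := by
      calc Real.exp (-(2 * D)) * y K ≤ Real.exp (-(2 * D)) * (z * Real.exp (2 * D)) :=
            mul_le_mul_of_nonneg_left hz (Real.exp_pos _).le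
        _ = z * (Real.exp (-(2 * D)) * Real.exp (2 * D)) := by ring
        _ = z := by rw [← Real.exp_add, neg_add_cancel, Real.exp_zero, mul_one]
    refine h1.trans (le_trans ?_ h2)
    exact mul_le_mul hm0.le hth (pow_pos hθ0 K).le (Real.exp_pos _).le
  have hkes : ∀ i, k0 ≤ i → K ≤ 2 * i → θ ^ (2 * i + 2) ≤ y (i + 1) →
      y (i + 1) ^ 2 ≤ y i * y (i + 2) * p := by
    intro i hi hi2 hti
    refine (hK i hi hti).trans (mul_le_mul_of_nonneg_left ?_ (mul_nonneg (hy _) (hy _)))
    rw [hp]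
    have hi0 : (0 : ℝ) < i := by exact_mod_cast (show 0 < i by omega)
    have : D / i ≤ 2 * D / K := by
      rw [div_le_div_iff₀ hi0 hK0]
      have : (K : ℝ) ≤ 2 * i := by exact_mod_cast hi2
      nlinarith
    linarith
  -- a set of lengths
  have key : ∃ g : ℕ → ℕ, (∀ i j, i ≤ Nat.sqrt K → j ≤ Nat.sqrt K → g i = g j → i = j) ∧
      ∀ j, j ≤ Nat.sqrt K → g j ≤ 2 * K ∧ y K ≤ y (g j) * p ^ (j * j) := by
    rcases le_total (y K) (y (K + 1)) with hc | hc
    · refine ⟨fun j => K + j, fun i j _ _ hij => ?_, fun j hj => ⟨?_, ?_⟩⟩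
      · simp only at hij
        omega
      · show K + j ≤ _
        omega
      · have hind : ∀ j, j ≤ Nat.sqrt K → y (K + j) ≤ y (K + j + 1) * p ^ j ∧
            y K ≤ y (K + j) * p ^ (j * j) := by
          intro j
          induction j with
          | zero =>
            intro _
            refine ⟨?_, ?_⟩
            · rw [pow_zero, mul_one]
              exact hc
            · simp
          | succ j ih =>
            intro hj
            obtain ⟨i1, i2⟩ := ih (by omega)
            have i3 : y K ≤ y (K + j + 1) * p ^ ((j + 1) * (j + 1)) := by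
              calc y K ≤ y (K + j) * p ^ (j * j) := i2
                _ ≤ (y (K + j + 1) * p ^ j) * p ^ (j * j) :=
                    mul_le_mul_of_nonneg_right i1 (by positivity)
                _ = y (K + j + 1) * p ^ (j + j * j) := by rw [pow_add]; ring
                _ ≤ y (K + j + 1) * p ^ ((j + 1) * (j + 1)) := by
                    refine mul_le_mul_of_nonneg_left (pow_le_pow_right₀ hp1 ?_) (hy _)
                    nlinarith
            have i4 : y K ≤ y (K + j + 1) * Real.exp (2 * D) :=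
              i3.trans (mul_le_mul_of_nonneg_left (hpp (j + 1) hj) (hy _))
            have hpos : 0 < y (K + j + 1) := by
              by_contra hcon
              have : y (K + j + 1) * Real.exp (2 * D) ≤ 0 :=
                mul_nonpos_of_nonpos_of_nonneg (not_lt.1 hcon) (Real.exp_pos _).le
              linarith
            have h1 := hkes (K + j) (by omega) (by omega) (hbig _ _ (by omega) i4)
            have h2 : y (K + j + 1) * y (K + j + 1) ≤
                y (K + j + 1) * (y (K + j + 2) * p ^ (j + 1)) := by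
              calc y (K + j + 1) * y (K + j + 1) =
                    y (K + j + 1) ^ 2 := by ring
                _ ≤ y (K + j) * y (K + j + 2) * p := h1
                _ ≤ (y (K + j + 1) * p ^ j) * y (K + j + 2) * p :=
                    mul_le_mul_of_nonneg_right (mul_le_mul_of_nonneg_right i1 (hy _))
                      (by linarith)
                _ = _ := by ring
            exact ⟨le_of_mul_le_mul_left h2 hpos, i3⟩
        exact (hind j hj).2
    · refine ⟨fun j => K - j, fun i j hi hj hij => ?_, fun j hj => ?_⟩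
      · simp only at hij
        omega
      · refine ⟨(Nat.sub_le K j).trans (by omega), ?_⟩
        have hind : ∀ j, j ≤ Nat.sqrt K → y (K - j + 1) ≤ y (K - j) * p ^ j ∧
            y K ≤ y (K - j) * p ^ (j * j) := by
          intro j
          induction j with
          | zero =>
            intro _
            refine ⟨?_, ?_⟩
            · rw [pow_zero, mul_one]
              exact hc
            · simp
          | succ j ih =>
            intro hj
            obtain ⟨i1, i2⟩ := ih (by omega)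
            have i4 : y K ≤ y (K - j) * Real.exp (2 * D) :=
              i2.trans (mul_le_mul_of_nonneg_left (hpp j (by omega)) (hy _))
            have hpos : 0 < y (K - j) := by
              by_contra hcon
              have : y (K - j) * Real.exp (2 * D) ≤ 0 :=
                mul_nonpos_of_nonpos_of_nonneg (not_lt.1 hcon) (Real.exp_pos _).le
              linarith
            have e1 : K - (j + 1) + 1 = K - j := by omega
            have e2 : K - (j + 1) + 2 = K - j + 1 := by omega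
            have h1 := hkes (K - (j + 1)) (by omega) (by omega) (by
              rw [e1]
              exact hbig _ _ (by omega) i4)
            rw [e1, e2] at h1
            have h2 : y (K - j) * y (K - j) ≤
                y (K - j) * (y (K - (j + 1)) * p ^ (j + 1)) := by
              calc y (K - j) * y (K - j) = y (K - j) ^ 2 := by ring
                _ ≤ y (K - (j + 1)) * y (K - j + 1) * p := h1
                _ ≤ y (K - (j + 1)) * (y (K - j) * p ^ j) * p :=
                    mul_le_mul_of_nonneg_right (mul_le_mul_of_nonneg_left i1 (hy _))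
                      (by linarith)
                _ = _ := by ring
            have h3 := le_of_mul_le_mul_left h2 hpos
            refine ⟨by rw [e1]; exact h3, ?_⟩
            calc y K ≤ y (K - j) * p ^ (j * j) := i2
              _ ≤ (y (K - (j + 1)) * p ^ (j + 1)) * p ^ (j * j) :=
                  mul_le_mul_of_nonneg_right h3 (by positivity)
              _ = y (K - (j + 1)) * p ^ (j + 1 + j * j) := by rw [pow_add _ (j + 1)]; ring
              _ ≤ y (K - (j + 1)) * p ^ ((j + 1) * (j + 1)) := by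
                  refine mul_le_mul_of_nonneg_left (pow_le_pow_right₀ hp1 ?_) (hy _)
                  nlinarith
        exact (hind j hj).2
  obtain ⟨g, hg, hgj⟩ := key
  have h1 : ∀ j ∈ range (Nat.sqrt K + 1), Real.exp (-(2 * D)) * y K ≤ y (g j) := by
    intro j hj
    rw [mem_range] at hj
    have h2 := (hgj j (by omega)).2
    have h3 := hpp j (by omega)
    have h4 : y K ≤ y (g j) * Real.exp (2 * D) :=
      h2.trans (mul_le_mul_of_nonneg_left h3 (hy _))
    calc Real.exp (-(2 * D)) * y K ≤ Real.exp (-(2 * D)) * (y (g j) * Real.exp (2 * D)) :=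
          mul_le_mul_of_nonneg_left h4 (Real.exp_pos _).le
      _ = y (g j) * (Real.exp (-(2 * D)) * Real.exp (2 * D)) := by ring
      _ = y (g j) := by rw [← Real.exp_add, neg_add_cancel, Real.exp_zero, mul_one]
  calc ((Nat.sqrt K + 1 : ℕ) : ℝ) * (Real.exp (-(2 * D)) * y K) =
        ∑ j ∈ range (Nat.sqrt K + 1), Real.exp (-(2 * D)) * y K := by
        rw [sum_const, card_range, nsmul_eq_mul]
    _ ≤ ∑ j ∈ range (Nat.sqrt K + 1), y (g j) := sum_le_sum h1
    _ = ∑ n ∈ (range (Nat.sqrt K + 1)).image g, y n := by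
        rw [sum_image fun i hi j hj hij => hg i j ?_ ?_ hij]
        · have := mem_range.1 hi
          omega
        · have := mem_range.1 hj
          omega
    _ ≤ _ := by
        refine sum_le_sum_of_subset_of_nonneg ?_ fun n _ _ => hy n
        intro n hn
        obtain ⟨j, hj, rfl⟩ := mem_image.1 hn
        rw [mem_range] at hj ⊢
        have := (hgj j (by omega)).1
        omega

/-- the generating function at `e^(-1/N)` -/
noncomputable def gen (y : ℕ → ℝ) (N : ℕ) : ℝ := ∑' k : ℕ, y k * Real.exp (-(k / N : ℝ))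

theorem summ (hy : ∀ k, 0 ≤ y k) (hgr : ∀ τ : ℝ, 0 < τ → ∃ C : ℝ, ∀ k, y k ≤ C * (1 + τ) ^ k)
    (N : ℕ) (hN : 1 ≤ N) : Summable fun k : ℕ => y k * Real.exp (-(k / N : ℝ)) := by
  have hN0 : (0 : ℝ) < N := by exact_mod_cast hN
  obtain ⟨x, hx⟩ : ∃ x : ℝ, x = 1 / (2 * N) := ⟨_, rfl⟩
  have hx0 : 0 < x := by rw [hx]; positivity
  have hex : 0 < Real.exp x - 1 := by
    have := Real.add_one_lt_exp hx0.ne'
    linarith
  obtain ⟨C, hC⟩ := hgr _ hex
  have hgeo : Summable fun n : ℕ => C * (Real.exp (-x)) ^ n := by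
    refine Summable.mul_left C (summable_geometric_of_lt_one (Real.exp_pos _).le ?_)
    rw [Real.exp_lt_one_iff]
    linarith
  refine Summable.of_nonneg_of_le (fun n => ?_) (fun n => ?_) hgeo
  · exact mul_nonneg (hy n) (Real.exp_pos _).le
  · have h1 := hC n
    have e : 1 + (Real.exp x - 1) = Real.exp x := by ring
    rw [e, ← Real.exp_nat_mul] at h1
    rw [← Real.exp_nat_mul]
    calc y n * Real.exp (-(n / N : ℝ)) ≤ C * Real.exp (n * x) * Real.exp (-(n / N : ℝ)) :=
          mul_le_mul_of_nonneg_right h1 (Real.exp_pos _).le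
      _ = C * Real.exp (n * -x) := by
          rw [mul_assoc, ← Real.exp_add]
          congr 2
          rw [hx]
          field_simp
          ring

theorem part (hy : ∀ k, 0 ≤ y k) (hgr : ∀ τ : ℝ, 0 < τ → ∃ C : ℝ, ∀ k, y k ≤ C * (1 + τ) ^ k)
    (N : ℕ) (hN : 1 ≤ N) (F : Finset ℕ) (M : ℕ)
    (hF : ∀ n ∈ F, n ≤ M * N) : ∑ n ∈ F, y n ≤ Real.exp M * gen y N := by
  have hN0 : (0 : ℝ) < N := by exact_mod_cast hN
  have h1 : ∑ n ∈ F, y n * Real.exp (-(n / N : ℝ)) ≤ gen y N :=
    (summ hy hgr N hN).sum_le_tsum F fun n _ => mul_nonneg (hy n) (Real.exp_pos _).le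
  have h2 : Real.exp (-(M : ℝ)) * ∑ n ∈ F, y n ≤ ∑ n ∈ F, y n * Real.exp (-(n / N : ℝ)) := by
    rw [mul_sum]
    refine sum_le_sum fun n hn => ?_
    rw [mul_comm]
    refine mul_le_mul_of_nonneg_left (Real.exp_le_exp.2 (neg_le_neg ?_)) (hy n)
    rw [div_le_iff₀ hN0]
    exact_mod_cast hF n hn
  have h3 := mul_le_mul_of_nonneg_left (h2.trans h1) (Real.exp_pos (M : ℝ)).le
  rwa [← mul_assoc, ← Real.exp_add, add_neg_cancel, Real.exp_zero, one_mul] at h3

/-- **the square root bound** -/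
theorem root (hK : Kes y D θ k0) (hy : ∀ k, 0 ≤ y k) (hD : 0 ≤ D) (hθ0 : 0 < θ) (hθ1 : θ < 1)
    (hgr : ∀ τ : ℝ, 0 < τ → ∃ C : ℝ, ∀ k, y k ≤ C * (1 + τ) ^ k) (hpos : ∃ k, 0 < y k) :
    ∃ C : ℝ, 0 < C ∧ ∀ N : ℕ, 1 ≤ N → y N ≤ C * (gen y N / √N) := by
  obtain ⟨k1, hk1⟩ := near hK hy hD hθ0 hθ1
  obtain ⟨k2, hk2⟩ := hpos
  obtain ⟨c0, hc0⟩ : ∃ c0 : ℝ, c0 = Real.exp (-(k2 : ℝ)) * y k2 := ⟨_, rfl⟩
  have hc00 : 0 < c0 := by rw [hc0]; positivity
  have hgen : ∀ N : ℕ, 1 ≤ N → c0 ≤ gen y N := by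
    intro N hN
    have h1 := part hy hgr N hN {k2} k2 (by
      intro n hn
      rw [mem_singleton] at hn
      subst hn
      exact Nat.le_mul_of_pos_right _ hN)
    rw [sum_singleton] at h1
    have h2 := mul_le_mul_of_nonneg_left h1 (Real.exp_pos (-(k2 : ℝ))).le
    rw [← mul_assoc, ← Real.exp_add, neg_add_cancel, Real.exp_zero, one_mul] at h2
    rwa [hc0]
  obtain ⟨B, hB⟩ : ∃ B : ℝ, ∀ N : ℕ, (N : ℝ) * θ ^ N ≤ B := by
    obtain ⟨B, hB⟩ := (tendsto_self_mul_const_pow_of_lt_one hθ0.le hθ1).bddAbove_range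
    exact ⟨B, fun N => hB ⟨N, rfl⟩⟩
  have hB0 : 0 ≤ B := by
    have := hB 0
    simpa using this
  refine ⟨Real.exp 2 * Real.exp (2 * D) + Real.exp 1 * √(k1 + 1) + B / c0, by positivity,
    fun N hN => ?_⟩
  have hN0 : (0 : ℝ) < N := by exact_mod_cast hN
  have hs0 : 0 < √(N : ℝ) := Real.sqrt_pos.2 hN0
  have hg := hgen N hN
  have hg0 : 0 < gen y N := hc00.trans_le hg
  have hq0 : 0 < gen y N / √(N : ℝ) := div_pos hg0 hs0
  rw [add_mul, add_mul]
  by_cases hlt : N ≤ k1
  · have h1 := part hy hgr N hN {N} 1 (by simp)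
    rw [sum_singleton] at h1
    have h2 : √(N : ℝ) ≤ √((k1 : ℝ) + 1) := Real.sqrt_le_sqrt (by
      have : (N : ℝ) ≤ k1 := by exact_mod_cast hlt
      linarith)
    have h3 : Real.exp ((1 : ℕ) : ℝ) * gen y N ≤ Real.exp 1 * √((k1 : ℝ) + 1) *
        (gen y N / √N) := by
      rw [Nat.cast_one, mul_assoc]
      refine mul_le_mul_of_nonneg_left ?_ (Real.exp_pos _).le
      rw [← mul_div_assoc, le_div_iff₀ hs0, mul_comm]
      exact mul_le_mul_of_nonneg_right h2 hg0.le
    have h4 : 0 ≤ Real.exp 2 * Real.exp (2 * D) * (gen y N / √N) := by positivity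
    have h5 : 0 ≤ B / c0 * (gen y N / √N) := by positivity
    have h6 := h1.trans h3
    linarith
  · by_cases hth : θ ^ N ≤ y N
    · have h1 := hk1 N (by omega) hth
      have h2 := part hy hgr N hN (range (2 * N + 1)) 2 (by
        intro m hm
        rw [mem_range] at hm
        omega)
      have h3 : √(N : ℝ) ≤ ((Nat.sqrt N + 1 : ℕ) : ℝ) := by
        rw [Real.sqrt_le_left (by positivity)]
        have := Nat.lt_succ_sqrt N
        simp only [Nat.succ_eq_add_one] at this
        have h4 : N ≤ (Nat.sqrt N + 1) ^ 2 := by nlinarith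
        exact_mod_cast h4
      have hyN : 0 < y N := (pow_pos hθ0 N).trans_le hth
      have h4 : √(N : ℝ) * (Real.exp (-(2 * D)) * y N) ≤ Real.exp 2 * gen y N := by
        refine (mul_le_mul_of_nonneg_right h3 (by positivity)).trans (h1.trans ?_)
        exact_mod_cast h2
      have h5 : y N ≤ Real.exp 2 * Real.exp (2 * D) * (gen y N / √N) := by
        have e : Real.exp 2 * Real.exp (2 * D) * (gen y N / √(N : ℝ)) =
            (Real.exp 2 * gen y N) * (Real.exp (2 * D) / √(N : ℝ)) := by ring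
        rw [e]
        have h6 := mul_le_mul_of_nonneg_right h4
          (show 0 ≤ Real.exp (2 * D) / √(N : ℝ) by positivity)
        refine le_trans (le_of_eq ?_) h6
        have e2 : √(N : ℝ) * (Real.exp (-(2 * D)) * y N) * (Real.exp (2 * D) / √(N : ℝ)) =
            (√(N : ℝ) / √(N : ℝ)) * (Real.exp (-(2 * D)) * Real.exp (2 * D)) * y N := by ring
        rw [e2, div_self hs0.ne', ← Real.exp_add, neg_add_cancel, Real.exp_zero]
        ring
      have h6 : 0 ≤ Real.exp 1 * √((k1 : ℝ) + 1) * (gen y N / √N) := by positivity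
      have h7 : 0 ≤ B / c0 * (gen y N / √N) := by positivity
      linarith
    · have h1 : y N * √(N : ℝ) ≤ B := by
        have h2 : √(N : ℝ) ≤ N := by
          rw [Real.sqrt_le_left hN0.le]
          have : (1 : ℝ) ≤ N := by exact_mod_cast hN
          nlinarith
        calc y N * √(N : ℝ) ≤ θ ^ N * N :=
              mul_le_mul (not_le.1 hth).le h2 hs0.le (pow_pos hθ0 N).le
          _ = N * θ ^ N := mul_comm _ _
          _ ≤ B := hB N
      have h2 : y N ≤ B / c0 * (gen y N / √(N : ℝ)) := by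
        rw [← mul_div_assoc, le_div_iff₀ hs0]
        refine h1.trans ?_
        rw [div_mul_eq_mul_div, le_div_iff₀ hc00]
        exact mul_le_mul_of_nonneg_left hg hB0
      have h6 : 0 ≤ Real.exp 1 * √((k1 : ℝ) + 1) * (gen y N / √N) := by positivity
      have h7 : 0 ≤ Real.exp 2 * Real.exp (2 * D) * (gen y N / √N) := by positivity
      linarith

/-- exponents -/
theorem expo {y : ℕ → ℝ} (hr : ∃ C : ℝ, 0 < C ∧ ∀ N : ℕ, 1 ≤ N → y N ≤ C * (gen y N / √N))
    (g : ℝ) (hg : ∀ᶠ N : ℕ in atTop, gen y N ≤ (N : ℝ) ^ g) (δ : ℝ)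
    (hδ : 0 < δ) : ∀ᶠ n : ℕ in atTop, y n ≤ (n : ℝ) ^ (g - 1 / 2 + δ) := by
  obtain ⟨C, hC, hroot⟩ := hr
  have ht : ∀ B : ℝ, ∀ᶠ n : ℕ in atTop, B ≤ (n : ℝ) ^ δ := fun B =>
    ((tendsto_rpow_atTop hδ).comp tendsto_natCast_atTop_atTop).eventually_ge_atTop B
  filter_upwards [hg, ht C, eventually_ge_atTop 1] with n h1 h2 h4
  have hn0 : (0 : ℝ) < n := by exact_mod_cast h4
  rw [add_comm, Real.rpow_add hn0]
  refine (hroot n h4).trans ?_
  have h5 : gen y n / √(n : ℝ) ≤ (n : ℝ) ^ (g - 1 / 2) := by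
    rw [Real.rpow_sub hn0, ← Real.sqrt_eq_rpow]
    exact div_le_div_of_nonneg_right h1 (Real.sqrt_nonneg _)
  calc C * (gen y n / √(n : ℝ)) ≤ C * (n : ℝ) ^ (g - 1 / 2) :=
        mul_le_mul_of_nonneg_left h5 hC.le
    _ ≤ (n : ℝ) ^ δ * (n : ℝ) ^ (g - 1 / 2) :=
        mul_le_mul_of_nonneg_right h2 (by positivity)

/-- growth of the normalised counts -/
theorem grow (Q : List Dir → Prop) (hQ : KClass Q) (hne : ∃ w, SAP w ∧ Q w) (τ : ℝ) (hτ : 0 < τ) :
    ∃ C : ℝ, ∀ k, yq Q k ≤ C * (1 + τ) ^ k := by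
  obtain ⟨h1, -, -⟩ := gr_bounds Q hQ hne
  have hμ : 0 < gr Q := by linarith
  obtain ⟨t, ht⟩ : ∃ t : ℝ, t = √(1 + τ) - 1 := ⟨_, rfl⟩
  have ht0 : 0 < t := by
    have : 1 < √(1 + τ) := by
      rw [Real.lt_sqrt (by norm_num)]
      linarith
    linarith
  have ht2 : (1 + t) ^ 2 = 1 + τ := by
    rw [ht]
    have : (1 + (√(1 + τ) - 1)) ^ 2 = √(1 + τ) ^ 2 := by ring
    rw [this, Real.sq_sqrt (by linarith)]
  obtain ⟨C, hC⟩ := GEN.upper S_five_proof Q hμ t ht0
  refine ⟨C, fun k => ?_⟩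
  have h2 := hC (2 * k)
  have h3 : pq Q (2 * k) ≤ (a Q (2 * k) : ℝ) := by
    unfold pq
    rcases Nat.eq_zero_or_pos k with rfl | hk
    · simp
    · have hk1 : (1 : ℝ) ≤ k := by exact_mod_cast hk
      refine div_le_self (Nat.cast_nonneg _) ?_
      push_cast
      linarith
  unfold yq
  rw [div_le_iff₀ (pow_pos hμ _)]
  refine (h3.trans h2).trans (le_of_eq ?_)
  rw [mul_pow, mul_assoc, pow_mul (1 + t) 2 k, ht2]

/-- **rate of the ratios in terms of the deficit** -/
theorem rate (hK : Kes y D θ k0) (hy : ∀ k, 0 ≤ y k) (hD : 0 ≤ D) (hθ0 : 0 < θ) (hθ1 : θ < 1) :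
    ∃ R δ : ℝ, 0 < R ∧ 0 < δ ∧ ∀ᶠ k : ℕ in atTop, ∀ L : ℝ, 1 ≤ L → L ≤ δ * k → 0 < y k →
      -Real.log (y k) ≤ L → (∀ m, m ≤ 2 * k → y m ≤ Real.exp L * y k) →
      |y (k + 1) / y k - 1| ≤ R * √(L / k) := by
  obtain ⟨M, hM⟩ : ∃ M : ℝ, M = 16 * (D + 1) := ⟨_, rfl⟩
  have hM16 : 16 ≤ M := by rw [hM]; linarith
  have hM0 : 0 < M := by linarith
  have hlθ : 0 < Real.log (1 / θ) := Real.log_pos (by rw [lt_div_iff₀ hθ0]; linarith)
  refine ⟨M, min (1 / (4 * M ^ 2)) (Real.log (1 / θ)), hM0, lt_min (by positivity) hlθ, ?_⟩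
  filter_upwards [eventually_ge_atTop (2 * k0 + 8)] with k hk
  intro L hL1 hLk hyk hlog hsup
  have hkR : (0 : ℝ) < k := by exact_mod_cast (show 0 < k by omega)
  have hk1 : (1 : ℝ) ≤ k := by exact_mod_cast (show 1 ≤ k by omega)
  have hL0 : 0 < L := by linarith
  obtain ⟨c, hc⟩ : ∃ c : ℝ, c = M * √(L / k) := ⟨_, rfl⟩
  have hLk0 : 0 < L / k := by positivity
  have hc0 : 0 < c := by
    rw [hc]
    exact mul_pos hM0 (Real.sqrt_pos.2 hLk0)
  have hc2 : c ^ 2 = M ^ 2 * (L / k) := by
    rw [hc, mul_pow, Real.sq_sqrt hLk0.le]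
  have hcc : c ≤ 1 / 2 := by
    have h1 : L / k ≤ 1 / (4 * M ^ 2) := by
      rw [div_le_iff₀ hkR]
      exact hLk.trans (mul_le_mul_of_nonneg_right (min_le_left _ _) hkR.le)
    have h2 : c ^ 2 ≤ (1 / 2) ^ 2 := by
      rw [hc2]
      refine (mul_le_mul_of_nonneg_left h1 (by positivity)).trans (le_of_eq ?_)
      field_simp
      norm_num
    exact (pow_le_pow_iff_left₀ hc0.le (by norm_num) (by norm_num)).1 h2
  have hck : M ≤ c * k := by
    have h1 : M ^ 2 ≤ (c * k) ^ 2 := by
      rw [mul_pow, hc2]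
      have : M ^ 2 * (L / k) * (k : ℝ) ^ 2 = M ^ 2 * (L * k) := by
        field_simp
      rw [this]
      refine le_mul_of_one_le_right (by positivity) ?_
      nlinarith
    exact (pow_le_pow_iff_left₀ hM0.le (by positivity) (by norm_num)).1 h1
  have hth : θ ^ k ≤ y k := by
    rw [← Real.log_le_log_iff (pow_pos hθ0 k) hyk, Real.log_pow]
    have h1 : L ≤ Real.log (1 / θ) * k :=
      hLk.trans (mul_le_mul_of_nonneg_right (min_le_right _ _) hkR.le)
    rw [one_div, Real.log_inv] at h1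
    linarith
  -- the contradiction
  have hfin : ∀ J m : ℕ, c * k / M ≤ J → m ≤ 2 * k →
      Real.exp (c / 4 * J) * y k ≤ y m → False := by
    intro J m hJ hm2 hle
    have h1 := hle.trans (hsup m hm2)
    have h2 := le_of_mul_le_mul_right h1 hyk
    rw [Real.exp_le_exp] at h2
    have h3 : c / 4 * (c * k / M) ≤ L :=
      (mul_le_mul_of_nonneg_left hJ (by positivity)).trans h2
    have h4 : c / 4 * (c * k / M) = M * L / 4 := by
      calc c / 4 * (c * k / M) = c ^ 2 * k / (4 * M) := by ring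
        _ = M ^ 2 * (L / k) * k / (4 * M) := by rw [hc2]
        _ = M * L / 4 := by field_simp
    rw [h4] at h3
    nlinarith
  rw [← hc, abs_le]
  constructor
  · by_contra hcon
    have h1 : y (k + 1) / y k < 1 - c := by linarith [not_le.1 hcon]
    rw [div_lt_iff₀ hyk] at h1
    obtain ⟨J, hJ1, hJ2, hJk, hJ3⟩ := prop_down hK hy hD hθ0 hθ1 hc0
      hcc (by omega) (by omega) (by rw [← hM]; exact hck) hyk hth h1
    rw [← hM] at hJ1
    exact hfin J (k - J) hJ1 (by omega) hJ3
  · by_contra hcon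
    have h1 : 1 + c < y (k + 1) / y k := by linarith [not_le.1 hcon]
    rw [lt_div_iff₀ hyk] at h1
    obtain ⟨J, hJ1, hJk, hJ3⟩ := prop_up' hK hy hD hθ0 hθ1 hc0
      hcc (by omega) (by omega) (by rw [← hM]; exact hck) hyk hth h1
    rw [← hM] at hJ1
    exact hfin J (k + J) hJ1 (by omega) hJ3

end Q219.SAW.Knt
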