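import Pool.Agent.Q219.SAW.Gam2
import Pool.Agent.Q219.SAW.Std

/-!
# Sparse sequences of lengths for walks on `ℤ²`: the exponent
-/

set_option autoImplicit false

namespace Q219.SAW.Spr

open Filter Topology Finset Q219.SAW.Gap

theorem mem_sq (x : ℤ × ℤ) : x ∈ Std.sqSteps ↔ |x.1| + |x.2| = 1 := by
  obtain ⟨a, b⟩ := x
  unfold Std.sqSteps
  simp only [Set.mem_insert_iff, Set.mem_singleton_iff, Prod.mk.injEq]
  rcases abs_cases a with h1 | h1 <;> rcases abs_cases b with h2 | h2 <;> omega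

theorem c_add {N : Set (ℤ × ℤ)} {s : ℕ} (h : Std.IsLat N s) (m n : ℕ) :
    Std.c N (m + n) ≤ Std.c N m * Std.c N n := by
  unfold Std.c
  rw [← Nat.cast_mul, ← Set.ncard_prod]
  norm_cast
  refine Set.ncard_le_ncard_of_injOn
    (fun ω : Fin (m + n + 1) → ℤ × ℤ =>
      ((fun i : Fin (m + 1) => ω ⟨i.1, by omega⟩),
      (fun j : Fin (n + 1) => ω ⟨m + j.1, by omega⟩ - ω ⟨m, by omega⟩))) ?_ ?_
    ((Std.finite h m).prod (Std.finite h n))
  · rintro ω ⟨h0, h1, h2⟩
    refine ⟨⟨h0, fun i => h1 ⟨i.1, by omega⟩, fun i j hij => ?_⟩, sub_self _, fun i => ?_,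
      fun i j hij => ?_⟩
    · have := congrArg Fin.val (h2 hij)
      exact Fin.ext this
    · show ω ⟨m + (i.1 + 1), _⟩ - ω ⟨m, _⟩ - (ω ⟨m + i.1, _⟩ - ω ⟨m, _⟩) ∈ N
      rw [sub_sub_sub_cancel_right]
      exact h1 ⟨m + i.1, by omega⟩
    · have := congrArg Fin.val (h2 (sub_left_injective hij))
      simp only [Nat.add_left_cancel_iff] at this
      exact Fin.ext this
  · intro ω hω ω' hω' he
    simp only [Prod.mk.injEq] at he
    obtain ⟨h1, h2⟩ := he
    funext i
    have h4 : ω ⟨m, by omega⟩ = ω' ⟨m, by omega⟩ := congrFun h1 ⟨m, by omega⟩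
    rcases Nat.lt_or_ge i.1 (m + 1) with hi | hi
    · exact congrFun h1 ⟨i.1, hi⟩
    · have h3 := congrFun h2 ⟨i.1 - m, by omega⟩
      simp only at h3
      rw [h4] at h3
      have h5 := sub_left_injective h3
      have e : (⟨m + (i.1 - m), by omega⟩ : Fin (m + n + 1)) = i := Fin.ext (by simp; omega)
      rwa [e] at h5

/-- the infimum is the limit -/
theorem root_tend {N : Set (ℤ × ℤ)} {s : ℕ} (h : Std.IsLat N s) :
    Tendsto (fun n : ℕ => Std.c N n ^ (1 / (n : ℝ))) atTop (𝓝 (Std.mu N)) := by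
  obtain ⟨h1, h2, K, hK, h3⟩ := Std.c_bounds h
  have hμ : 0 < Std.mu N := by linarith
  have ht : Tendsto (fun n : ℕ => Std.mu N * Real.exp (K * (Real.log n / √n) ^ 2)) atTop
      (𝓝 (Std.mu N * Real.exp (K * 0 ^ 2))) := by
    have h4 : Tendsto (fun n : ℕ => Real.log n / √n) atTop (𝓝 0) := by
      have h5 := (isLittleO_log_rpow_atTop (show (0 : ℝ) < 1 / 2 by norm_num)).tendsto_div_nhds_zero
      have h6 := h5.comp tendsto_natCast_atTop_atTop
      refine h6.congr fun n => ?_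
      simp only [Function.comp, Real.sqrt_eq_rpow]
    exact ((Real.continuous_exp.tendsto _).comp ((h4.pow 2).const_mul K)).const_mul _
  have e0 : Std.mu N * Real.exp (K * 0 ^ 2) = Std.mu N := by simp
  rw [e0] at ht
  refine tendsto_of_tendsto_of_tendsto_of_le_of_le' tendsto_const_nhds ht ?_ ?_
  · filter_upwards [eventually_ge_atTop 2] with n hn
    have hn0 : (n : ℝ) ≠ 0 := by exact_mod_cast (show n ≠ 0 by omega)
    calc Std.mu N = (Std.mu N ^ n) ^ (1 / (n : ℝ)) := by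
          rw [← Real.rpow_natCast, ← Real.rpow_mul hμ.le, mul_one_div_cancel hn0, Real.rpow_one]
      _ ≤ _ := Real.rpow_le_rpow (by positivity) (h2 n) (by positivity)
  · filter_upwards [eventually_ge_atTop 2] with n hn
    have hn0 : (0 : ℝ) < n := by exact_mod_cast (show 0 < n by omega)
    refine (Real.rpow_le_rpow (Std.c_pos h n).le (h3 n hn) (by positivity)).trans ?_
    rw [Real.mul_rpow (by positivity) (Real.exp_pos _).le, ← Real.rpow_natCast,
      ← Real.rpow_mul hμ.le, mul_one_div_cancel hn0.ne', Real.rpow_one, ← Real.exp_mul, div_pow,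
      Real.sq_sqrt hn0.le]
    refine le_of_eq ?_
    congr 2
    ring

theorem sqLat : Std.IsLat Std.sqSteps 2 := Or.inl ⟨rfl, rfl⟩

theorem count_univ (n : ℕ) : Std.count Std.sqSteps Set.univ Set.univ n = Std.c Std.sqSteps n := by
  unfold Std.count Std.c
  congr 2
  ext ω
  simp

/-- the steps in the plane -/
theorem step_two : ∃ R : ℝ, 0 < R ∧ ∀ m : ℕ, 8 ≤ m →
    Real.log (Std.c Std.sqSteps (2 * (m + 1)) / Std.mu Std.sqSteps ^ (2 * (m + 1))) -
      Real.log (Std.c Std.sqSteps (2 * m) / Std.mu Std.sqSteps ^ (2 * m)) ≤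
      R * (Real.log m / √m) := by
  obtain ⟨R, δ, hR, hδ, h⟩ := Std.ratio sqLat
  have hμ1 := (Std.c_bounds sqLat).1
  have hμ : 0 < Std.mu Std.sqSteps := by linarith
  have hc := Std.c_pos sqLat
  refine ⟨R, hR, fun m hm => ?_⟩
  obtain ⟨h1, -⟩ := h (2 * m) Set.univ Set.univ (by omega) (by
    rw [count_univ, div_self (hc _).ne', Real.exp_le_one_iff]
    have : 0 ≤ δ * ((2 * m : ℕ) : ℝ) := by positivity
    linarith)
  rw [count_univ, count_univ, div_self (hc _).ne', div_one, Real.log_one, add_zero] at h1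
  have hl0 : 0 ≤ Real.log ((2 * m : ℕ) : ℝ) :=
    Real.log_nonneg (by exact_mod_cast (show 1 ≤ 2 * m by omega))
  rw [Real.sqrt_div (sq_nonneg _), Real.sqrt_sq hl0] at h1
  have h2 := (abs_le.1 h1).2
  have h3 := log_step (div_pos (div_pos (hc (2 * m + 2)) (hc (2 * m))) (pow_pos hμ 2)) h2
  have e : Real.log (Std.c Std.sqSteps (2 * m + 2) / Std.c Std.sqSteps (2 * m) /
      Std.mu Std.sqSteps ^ 2) =
      Real.log (Std.c Std.sqSteps (2 * (m + 1)) / Std.mu Std.sqSteps ^ (2 * (m + 1))) -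
      Real.log (Std.c Std.sqSteps (2 * m) / Std.mu Std.sqSteps ^ (2 * m)) := by
    have a3 : ∀ k, Std.mu Std.sqSteps ^ k ≠ 0 := fun k => pow_ne_zero _ hμ.ne'
    rw [show 2 * (m + 1) = 2 * m + 2 by ring,
      ← Real.log_div (div_ne_zero (hc _).ne' (a3 _)) (div_ne_zero (hc _).ne' (a3 _))]
    congr 1
    have a4 := (hc (2 * m)).ne'
    rw [pow_add]
    field_simp
  rw [e] at h3
  refine h3.trans (mul_le_mul_of_nonneg_left ?_ hR.le)
  have hm8 : (8 : ℝ) ≤ m := by exact_mod_cast hm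
  have he : Real.exp 2 ≤ 8 := by
    have h4 := Real.exp_one_lt_d9
    have h5 : Real.exp 2 = Real.exp 1 * Real.exp 1 := by rw [← Real.exp_add]; norm_num
    rw [h5]
    have h6 := Real.exp_pos 1
    nlinarith
  exact Real.log_div_sqrt_antitoneOn (he.trans hm8)
    (he.trans (by push_cast; linarith : (8 : ℝ) ≤ ((2 * m : ℕ) : ℝ)))
    (by push_cast; linarith)

theorem anti_two {R : ℝ} (hR : 0 < R) (i j : ℕ) (hi : 8 ≤ i) (hij : i ≤ j) :
    R * (Real.log j / √j) ≤ R * (Real.log i / √i) := by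
  have hm8 : (8 : ℝ) ≤ i := by exact_mod_cast hi
  have hij' : (i : ℝ) ≤ j := by exact_mod_cast hij
  have he : Real.exp 2 ≤ 8 := by
    have h4 := Real.exp_one_lt_d9
    have h5 : Real.exp 2 = Real.exp 1 * Real.exp 1 := by rw [← Real.exp_add]; norm_num
    rw [h5]
    have h6 := Real.exp_pos 1
    nlinarith
  exact mul_le_mul_of_nonneg_left (Real.log_div_sqrt_antitoneOn (he.trans hm8)
    (he.trans (hm8.trans hij')) hij') hR.le

theorem two {s : ℕ → ℕ} (hs : Tendsto s atTop atTop)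
    (hgap : Tendsto (fun k => ((s (k + 1) : ℝ) - s k) / √(s k)) atTop (𝓝 0))
    (a : ℝ) {ε : ℝ} (hε : 0 < ε) :
    ((∀ᶠ k in atTop, Real.log (Std.c Std.sqSteps (2 * s k) / Std.mu Std.sqSteps ^ (2 * s k)) ≤
        a * Real.log ((2 * s k : ℕ) : ℝ)) →
      ∀ᶠ n : ℕ in atTop, Real.log (Std.c Std.sqSteps n / Std.mu Std.sqSteps ^ n) ≤
        (a + ε) * Real.log n) ∧
    ((∀ᶠ k in atTop, a * Real.log ((2 * s k : ℕ) : ℝ) ≤
        Real.log (Std.c Std.sqSteps (2 * s k) / Std.mu Std.sqSteps ^ (2 * s k))) →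
      ∀ᶠ n : ℕ in atTop, (a - ε) * Real.log n ≤
        Real.log (Std.c Std.sqSteps n / Std.mu Std.sqSteps ^ n)) := by
  obtain ⟨R, hR, hstep⟩ := step_two
  have hμ1 := (Std.c_bounds sqLat).1
  have hμ : 0 < Std.mu Std.sqSteps := by linarith
  refine bounds_form hμ (Std.c_pos sqLat) (c_add sqLat) (anti_two hR) ?_ hstep hs ?_ ?_ a hε
  · intro i hi
    have : 0 ≤ Real.log (i : ℝ) := Real.log_nonneg (by exact_mod_cast (show 1 ≤ i by omega))
    positivity
  · simp only [div_eq_mul_inv] at hgap ⊢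
    refine gap_mono ?_ hgap
    filter_upwards [hs.eventually_ge_atTop 1] with k hk
    have h1 : (1 : ℝ) ≤ s k := by exact_mod_cast hk
    rw [abs_of_nonneg (by positivity), abs_of_nonneg (by positivity)]
    refine inv_anti₀ (by positivity) ?_
    rw [Real.sqrt_le_left (by linarith)]
    nlinarith
  · have h1 := hgap.const_mul R
    rw [mul_zero] at h1
    refine h1.congr' ?_
    filter_upwards [hs.eventually_ge_atTop 2] with k hk
    have h2 : (1 : ℝ) < s k := by exact_mod_cast (show 1 < s k by omega)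
    have h3 := (Real.log_pos h2).ne'
    have h4 : √(s k : ℝ) ≠ 0 := (Real.sqrt_pos.2 (by linarith)).ne'
    field_simp

end Q219.SAW.Spr
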