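import Pool.Agent.Q219.SAW.FamP
import Pool.Agent.Q219.SAW.SprP

/-!
# Self-avoiding polygons in domains
-/

set_option autoImplicit false

namespace Q219.SAW.Std

open Finset Filter Topology TH966.AK

/-- `f` runs through the `ℓ + 1` sites of a self-avoiding polygon of the square lattice, once -/
def IsPoly (ℓ : ℕ) (f : Fin (ℓ + 1) → ℤ × ℤ) : Prop :=
  (∀ i : Fin ℓ, f i.succ - f i.castSucc ∈ sqSteps) ∧ Function.Injective f ∧
    f 0 - f (Fin.last ℓ) ∈ sqSteps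

/-- the first `k + 1` sites -/
def arc (k : ℕ) {ℓ : ℕ} (f : Fin (ℓ + 1) → ℤ × ℤ) : Fin (k + 1) → ℤ × ℤ :=
  fun i => f (Fin.ofNat (ℓ + 1) i)

/-- the rooted oriented polygons with `ℓ + 1` sites in `D` such that the arc of the first `k + 1`
sites is in `H` -/
def loops (D : Set (ℤ × ℤ)) {k : ℕ} (H : Set (Fin (k + 1) → ℤ × ℤ)) (ℓ : ℕ) :
    Set (Fin (ℓ + 1) → ℤ × ℤ) :=
  {f | IsPoly ℓ f ∧ (∀ i, f i ∈ D) ∧ arc k f ∈ H}

/-- the number of the rooted oriented polygons with `ℓ + 1` sites and root `0` -/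
noncomputable def rooted (ℓ : ℕ) : ℝ := ({f | IsPoly ℓ f ∧ f 0 = 0}.ncard : ℝ)

/-- mean of `G(arc)` under the uniform law on `loops D H ℓ` -/
noncomputable def lmean (D : Set (ℤ × ℤ)) {k : ℕ} (H : Set (Fin (k + 1) → ℤ × ℤ)) (ℓ : ℕ)
    (G : (Fin (k + 1) → ℤ × ℤ) → ℝ) : ℝ :=
  (∑ᶠ f ∈ loops D H ℓ, G (arc k f)) / ((loops D H ℓ).ncard : ℝ)

theorem loop_iff (ℓ : ℕ) (f : Fin (ℓ + 1) → ℤ × ℤ) :
    H981.IsLoop (ℓ + 1) f ↔ IsPoly ℓ f ∧ f 0 = 0 := by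
  have key : ∀ x y : ℤ × ℤ, |x.1 - y.1| + |x.2 - y.2| = 1 ↔ x - y ∈ sqSteps := fun x y => by
    rw [Q219.SAW.Spr.mem_sq]
    rfl
  constructor
  · rintro ⟨h0, h1, h2⟩
    refine ⟨⟨fun i => ?_, h1, ?_⟩, h0⟩
    · have h3 := h2 (i.castSucc : Fin (ℓ + 1))
      have e : (i.castSucc : Fin (ℓ + 1)) + 1 = i.succ := Fin.coeSucc_eq_succ
      rw [← key]
      have h4 : f ((i.castSucc : Fin (ℓ + 1)) + 1) = f i.succ := by rw [e]
      rw [← h4]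
      exact h3
    · have h3 := h2 (Fin.last ℓ)
      have e : (Fin.last ℓ) + 1 = 0 := Fin.last_add_one ℓ
      rw [← key]
      have h4 : f (Fin.last ℓ + 1) = f 0 := by rw [e]
      rw [← h4]
      exact h3
  · rintro ⟨⟨h1, h2, h3⟩, h0⟩
    refine ⟨h0, h2, ?_⟩
    change ∀ i : Fin (ℓ + 1), |(f (i + 1)).1 - (f i).1| + |(f (i + 1)).2 - (f i).2| = 1
    intro i
    rw [key]
    rcases Fin.eq_castSucc_or_eq_last i with ⟨j, rfl⟩ | rfl
    · rw [Fin.coeSucc_eq_succ]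
      exact h1 j
    · rw [Fin.last_add_one]
      exact h3

theorem rooted_eq (n : ℕ) (hn : 1 ≤ n) : rooted (2 * n - 1) = 4 * (n : ℝ) * H981.PP n := by
  obtain ⟨n', rfl⟩ : ∃ n', n = n' + 1 := ⟨n - 1, by omega⟩
  have e : 2 * (n' + 1) - 1 = 2 * n' + 1 := by omega
  rw [e]
  unfold rooted H981.PP
  have h1 : Nat.card {f : ZMod (2 * (n' + 1)) → ℤ × ℤ // H981.IsLoop (2 * (n' + 1)) f} =
      {f : Fin (2 * n' + 1 + 1) → ℤ × ℤ | IsPoly (2 * n' + 1) f ∧ f 0 = 0}.ncard := by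
    have h2 : {f : Fin (2 * n' + 1 + 1) → ℤ × ℤ | IsPoly (2 * n' + 1) f ∧ f 0 = 0} =
        {f : Fin (2 * n' + 1 + 1) → ℤ × ℤ | H981.IsLoop (2 * n' + 1 + 1) f} := by
      ext f
      exact (loop_iff (2 * n' + 1) f).symm
    rw [h2, ← Nat.card_coe_set_eq]
    rfl
  rw [h1]
  field_simp

/-- lower bound for the number of polygons -/
theorem rooted_low : ∃ K : ℝ, 0 ≤ K ∧ ∀ n : ℕ, 2 ≤ n →
    Real.exp (-(K * Real.log n ^ 2)) * c sqSteps (2 * n - 1) ≤ rooted (2 * n - 1) := by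
  obtain ⟨K₁, hK₁, h1⟩ := Pool.Agent.TH508.LT.sq_PP2
  obtain ⟨K₂, hK₂, h2⟩ := Pool.Agent.TH508.LT.sq_upper2
  refine ⟨K₁ + 4 * K₂, by positivity, ?_⟩
  intro n hn
  have hn1 : (2 : ℝ) ≤ n := by exact_mod_cast hn
  have hmu := H981.one_le_mu
  have h3 := (h1 n hn).1
  have h4 := h2 (2 * n - 1) (by omega)
  have hF : ∀ n, {ω | IsSAW sqSteps n ω} = FW Sq.A n := by
    have hadj : ∀ p q : P, q - p ∈ sqSteps ↔ Sq.Adj p q := by
      intro p q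
      rw [Sq.adj_eq]
      unfold sqSteps Sq.A Sq.dirs
      simp
    intro n
    ext ω
    unfold IsSAW FW
    rw [Set.mem_ofPred_eq, Set.mem_ofPred_eq, ← Sq.adj_eq]
    simp only [hadj]
    tauto
  have hc : H981.cr' (2 * n - 1) = c sqSteps (2 * n - 1) := by
    rw [H981.cr'_eq, Sq.C_eq]
    unfold c
    rw [hF]
  rw [hc] at h4
  have hlog : Real.log ((2 * n - 1 : ℕ) : ℝ) ^ 2 ≤ 4 * Real.log n ^ 2 := by
    have h5 : Real.log ((2 * n - 1 : ℕ) : ℝ) ≤ 2 * Real.log n := by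
      have h6 : ((2 * n - 1 : ℕ) : ℝ) ≤ (n : ℝ) ^ 2 := by
        have h7 : 2 * n - 1 ≤ n ^ 2 := by
          have : 2 * n ≤ n ^ 2 := by nlinarith
          omega
        exact_mod_cast h7
      have h8 := Real.log_le_log (by exact_mod_cast (show 0 < 2 * n - 1 by omega)) h6
      rw [Real.log_pow] at h8
      exact_mod_cast h8
    have h9 : 0 ≤ Real.log ((2 * n - 1 : ℕ) : ℝ) :=
      Real.log_nonneg (by exact_mod_cast (show 1 ≤ 2 * n - 1 by omega))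
    have := pow_le_pow_left₀ h9 h5 2
    refine this.trans (le_of_eq ?_)
    ring
  have h10 : Real.exp (-((K₁ + 4 * K₂) * Real.log n ^ 2)) * c sqSteps (2 * n - 1) ≤
      H981.PP n := by
    calc Real.exp (-((K₁ + 4 * K₂) * Real.log n ^ 2)) * c sqSteps (2 * n - 1) ≤
        Real.exp (-((K₁ + 4 * K₂) * Real.log n ^ 2)) *
          (H981.mu ^ (2 * n - 1) * Real.exp (K₂ * Real.log ((2 * n - 1 : ℕ) : ℝ) ^ 2)) :=
        mul_le_mul_of_nonneg_left h4 (Real.exp_pos _).le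
      _ ≤ Real.exp (-((K₁ + 4 * K₂) * Real.log n ^ 2)) *
          (H981.mu ^ (2 * n) * Real.exp (K₂ * (4 * Real.log n ^ 2))) := by
        refine mul_le_mul_of_nonneg_left ?_ (Real.exp_pos _).le
        refine mul_le_mul (pow_le_pow_right₀ hmu (by omega)) ?_ (Real.exp_pos _).le
          (by positivity)
        exact Real.exp_le_exp.2 (mul_le_mul_of_nonneg_left hlog hK₂)
      _ = H981.mu ^ (2 * n) * Real.exp (-(K₁ * Real.log n ^ 2)) := by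
        rw [mul_left_comm, ← Real.exp_add]
        congr 2
        ring
      _ ≤ H981.PP n := h3
  refine h10.trans ?_
  rw [rooted_eq n (by omega)]
  have h11 : 0 ≤ H981.PP n := by
    unfold H981.PP
    positivity
  nlinarith

/-- the data of the family -/
def HH {k : ℕ} (H : Set (Fin (k + 1) → ℤ × ℤ)) (x : ℤ × ℤ) : Set (Pairs k 0) :=
  {o | (fun i => x + o.1 i) ∈ H ∧ - o.2 0 ∈ sqSteps}

/-- the domain seen from `x` -/
def DD (D : Set (ℤ × ℤ)) (x : ℤ × ℤ) : Set (ℤ × ℤ) := {z | x + z ∈ D}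

theorem loops_eq (D : Finset (ℤ × ℤ)) {k : ℕ} (H : Set (Fin (k + 1) → ℤ × ℤ)) {ℓ : ℕ} :
    loops (D : Set (ℤ × ℤ)) H ℓ = (fun (p : (Fin (ℓ + 1) → ℤ × ℤ) × (ℤ × ℤ)) (i : Fin (ℓ + 1)) =>
      p.2 + p.1 i) '' {p | p.2 ∈ D ∧ p.1 ∈ walks sqSteps (DD D p.2) (HH H p.2) ℓ} := by
  ext f
  rw [Set.mem_image]
  constructor
  · rintro ⟨⟨h1, h2, h3⟩, h4, h5⟩
    refine ⟨(fun i => f i - f 0, f 0), ⟨h4 0, ⟨sub_self _, fun i => ?_, fun i j hij => ?_⟩,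
      fun i => ?_, ?_, ?_⟩, ?_⟩
    · show f i.succ - f 0 - (f i.castSucc - f 0) ∈ sqSteps
      rw [sub_sub_sub_cancel_right]
      exact h1 i
    · exact h2 (sub_left_injective hij)
    · show f 0 + (f i - f 0) ∈ (D : Set (ℤ × ℤ))
      rw [add_sub_cancel]
      exact h4 i
    · have e : (fun i => f 0 + (outer k 0 (fun i => f i - f 0)).1 i) = arc k f := by
        funext i
        show f 0 + (f (Fin.ofNat (ℓ + 1) i) - f 0) = f (Fin.ofNat (ℓ + 1) i)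
        rw [add_sub_cancel]
      show (fun i => f 0 + (outer k 0 (fun i => f i - f 0)).1 i) ∈ H
      rw [e]
      exact h5
    · show -(f (Fin.ofNat (ℓ + 1) (ℓ - 0 + ((0 : Fin (0 + 1)) : ℕ))) - f 0) ∈ sqSteps
      have e : (Fin.ofNat (ℓ + 1) (ℓ - 0 + ((0 : Fin (0 + 1)) : ℕ))) = Fin.last ℓ := by
        apply Fin.ext
        simp
      rw [e, neg_sub]
      exact h3
    · funext i
      show f 0 + (f i - f 0) = f i
      rw [add_sub_cancel]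
  · rintro ⟨⟨ω, x⟩, ⟨h1, ⟨h2, h3, h4⟩, h5, h6, h7⟩, rfl⟩
    simp only at h1 h2 h3 h4 h5 h6 h7
    refine ⟨⟨fun i => ?_, fun i j hij => ?_, ?_⟩, fun i => h5 i, h6⟩
    · show x + ω i.succ - (x + ω i.castSucc) ∈ sqSteps
      rw [add_sub_add_left_eq_sub]
      exact h3 i
    · exact h4 (add_right_injective x hij)
    · show x + ω 0 - (x + ω (Fin.last ℓ)) ∈ sqSteps
      rw [add_sub_add_left_eq_sub, h2, zero_sub]
      have e : (Fin.ofNat (ℓ + 1) (ℓ - 0 + ((0 : Fin (0 + 1)) : ℕ))) = Fin.last ℓ := by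
        apply Fin.ext
        simp
      have h8 : - ω (Fin.ofNat (ℓ + 1) (ℓ - 0 + ((0 : Fin (0 + 1)) : ℕ))) ∈ sqSteps := h7
      rwa [e] at h8

theorem map_inj (D : Finset (ℤ × ℤ)) {k : ℕ} (H : Set (Fin (k + 1) → ℤ × ℤ)) {ℓ : ℕ} :
    Set.InjOn (fun (p : (Fin (ℓ + 1) → ℤ × ℤ) × (ℤ × ℤ)) (i : Fin (ℓ + 1)) =>
      p.2 + p.1 i) {p | p.2 ∈ D ∧ p.1 ∈ walks sqSteps (DD D p.2) (HH H p.2) ℓ} := by
  rintro ⟨ω, x⟩ ⟨-, ⟨h1, -, -⟩, -, -⟩ ⟨ω', x'⟩ ⟨-, ⟨h1', -, -⟩, -, -⟩ h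
  have h2 := congrFun h 0
  change x + ω 0 = x' + ω' 0 at h2
  change ω 0 = 0 at h1
  change ω' 0 = 0 at h1'
  rw [h1, h1', add_zero, add_zero] at h2
  subst h2
  refine Prod.ext ?_ rfl
  funext i
  exact add_right_injective x (congrFun h i)

theorem wfin' {N : Set (ℤ × ℤ)} {s : ℕ} (hL : IsLat N s) (D : Set (ℤ × ℤ)) {a b : ℕ}
    (H : Set (Pairs a b)) (n : ℕ) :
    (walks N D H n).Finite := (finite hL n).subset fun _ h => h.1

theorem ncard_loops (D : Finset (ℤ × ℤ)) {k : ℕ} (H : Set (Fin (k + 1) → ℤ × ℤ)) (ℓ : ℕ) :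
    ((loops (D : Set (ℤ × ℤ)) H ℓ).ncard : ℝ) = fc sqSteps D (DD D) (HH H) ℓ := by
  rw [loops_eq, Set.InjOn.ncard_image (map_inj D H)]
  exact card_fam D (fun x => walks sqSteps (DD D x) (HH H x) ℓ)
    (fun _ => wfin' (Or.inl ⟨rfl, rfl⟩ : IsLat sqSteps 2) _ _ _)

theorem lmean_eq (D : Finset (ℤ × ℤ)) {k : ℕ} (H : Set (Fin (k + 1) → ℤ × ℤ)) (ℓ : ℕ)
    (G : (Fin (k + 1) → ℤ × ℤ) → ℝ) : lmean (D : Set (ℤ × ℤ)) H ℓ G =
      fm sqSteps D (DD D) (HH H) ℓ (fun x o => G (fun i => x + o.1 i)) := by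
  unfold lmean fm
  rw [ncard_loops, loops_eq, finsum_mem_image (map_inj D H)]
  congr 1
  exact sum_fam D (fun x => walks sqSteps (DD D x) (HH H x) ℓ)
    (fun _ => wfin' (Or.inl ⟨rfl, rfl⟩ : IsLat sqSteps 2) _ _ _)
    (fun ω x => G (fun i => x + (outer k 0 ω).1 i))

end Q219.SAW.Std
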