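import Pool.Agent.Q219.SAW.Std

/-!
# Walks indexed by natural numbers
-/

set_option autoImplicit false

namespace Q219.SAW.Std

/-- the site at time `t` (used for `t ≤ n`) -/
def site {n : ℕ} (ω : Fin (n + 1) → ℤ × ℤ) (t : ℕ) : ℤ × ℤ := ω (Fin.ofNat (n + 1) t)

theorem site_val {n : ℕ} (ω : Fin (n + 1) → ℤ × ℤ) (i : Fin (n + 1)) : site ω i = ω i := by
  unfold site
  congr 1
  apply Fin.ext
  simp only [Fin.val_ofNat]
  exact Nat.mod_eq_of_lt i.2

theorem site_last {n : ℕ} (ω : Fin (n + 1) → ℤ × ℤ) : site ω n = ω (Fin.last n) := by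
  have := site_val ω (Fin.last n)
  rwa [Fin.val_last] at this

theorem site_mk {n : ℕ} (f : ℕ → ℤ × ℤ) {t : ℕ} (ht : t ≤ n) :
    site (fun i : Fin (n + 1) => f i) t = f t := by
  unfold site
  simp only [Fin.val_ofNat]
  rw [Nat.mod_eq_of_lt (by omega)]

theorem ext_site {n : ℕ} {ω ω' : Fin (n + 1) → ℤ × ℤ} (h : ∀ t ≤ n, site ω t = site ω' t) :
    ω = ω' := by
  funext i
  rw [← site_val ω i, ← site_val ω' i]
  exact h i (by have := i.2; omega)

theorem saw_iff {N : Set (ℤ × ℤ)} {n : ℕ} {ω : Fin (n + 1) → ℤ × ℤ} : IsSAW N n ω ↔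
    site ω 0 = 0 ∧ (∀ i < n, site ω (i + 1) - site ω i ∈ N) ∧
      ∀ i j, i ≤ n → j ≤ n → site ω i = site ω j → i = j := by
  have e1 : ∀ i : Fin n, ω i.succ = site ω (i + 1) := fun i => by
    have := site_val ω i.succ
    rw [Fin.val_succ] at this
    exact this.symm
  have e2 : ∀ i : Fin n, ω i.castSucc = site ω i := fun i => by
    have := site_val ω i.castSucc
    rw [Fin.val_castSucc] at this
    exact this.symm
  have e0 : ω 0 = site ω 0 := by
    have := site_val ω 0
    simpa using this.symm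
  unfold IsSAW
  constructor
  · rintro ⟨h1, h2, h3⟩
    refine ⟨by rw [← e0]; exact h1, ?_, ?_⟩
    · intro i hi
      have := h2 ⟨i, hi⟩
      rw [e1, e2] at this
      exact this
    · intro i j hi hj hij
      have h4 := site_val ω ⟨i, by omega⟩
      have h5 := site_val ω ⟨j, by omega⟩
      simp only at h4 h5
      rw [h4, h5] at hij
      have := h3 hij
      simpa using this
  · rintro ⟨h1, h2, h3⟩
    refine ⟨by rw [e0]; exact h1, ?_, ?_⟩
    · intro i
      rw [e1, e2]
      exact h2 i i.2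
    · intro i j hij
      rw [← site_val ω i, ← site_val ω j] at hij
      apply Fin.ext
      exact h3 i j (by have := i.2; omega) (by have := j.2; omega) hij

/-- sites of the outer part -/
theorem site_one {a m n : ℕ} (ω : Fin (n + 1) → ℤ × ℤ) {t : ℕ} (ht : t ≤ a) :
    site ω t = site (outer a m ω).1 t := by
  unfold site outer
  simp only [Fin.val_ofNat]
  rw [Nat.mod_eq_of_lt (by omega : t < a + 1)]

theorem site_two {a m n : ℕ} (ω : Fin (n + 1) → ℤ × ℤ) {s t : ℕ} (ht : t ≤ m)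
    (hs : s = n - m + t) : site ω s = site (outer a m ω).2 t := by
  unfold site outer
  simp only [Fin.val_ofNat]
  rw [Nat.mod_eq_of_lt (by omega : t < m + 1), hs]

/-- the set of steps is symmetric -/
theorem lat_symm {N : Set (ℤ × ℤ)} {s : ℕ} (h : IsLat N s) {x : ℤ × ℤ} (hx : x ∈ N) :
    -x ∈ N := by
  rcases h with ⟨rfl, -⟩ | ⟨rfl, -⟩
  · unfold sqSteps at hx ⊢
    simp only [Set.mem_insert_iff, Set.mem_singleton_iff, Prod.ext_iff, Prod.fst_neg,
      Prod.snd_neg] at hx ⊢
    omega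
  · unfold triSteps at hx ⊢
    simp only [Set.mem_insert_iff, Set.mem_singleton_iff, Prod.ext_iff, Prod.fst_neg,
      Prod.snd_neg] at hx ⊢
    omega

theorem lat_bd {N : Set (ℤ × ℤ)} {s : ℕ} (h : IsLat N s) {x : ℤ × ℤ} (hx : x ∈ N) :
    |x.1| ≤ 1 ∧ |x.2| ≤ 1 := by
  rcases h with ⟨rfl, -⟩ | ⟨rfl, -⟩
  · unfold sqSteps at hx
    simp only [Set.mem_insert_iff, Set.mem_singleton_iff, Prod.ext_iff] at hx
    rw [abs_le, abs_le]
    omega
  · unfold triSteps at hx
    simp only [Set.mem_insert_iff, Set.mem_singleton_iff, Prod.ext_iff] at hx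
    rw [abs_le, abs_le]
    omega

/-- displacements are at most the time -/
theorem disp_le {N : Set (ℤ × ℤ)} {s : ℕ} (h : IsLat N s) {n : ℕ} {ω : Fin (n + 1) → ℤ × ℤ}
    (hω : IsSAW N n ω) (i : ℕ) : ∀ k, i + k ≤ n →
    |(site ω (i + k) - site ω i).1| ≤ k ∧ |(site ω (i + k) - site ω i).2| ≤ k := by
  intro k
  induction k with
  | zero => intro _; simp
  | succ k ih =>
    intro hk
    obtain ⟨h1, h2⟩ := ih (by omega)
    have h3 := lat_bd h ((saw_iff.1 hω).2.1 (i + k) (by omega))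
    rw [Prod.fst_sub, Prod.snd_sub] at *
    rw [← add_assoc i k 1]
    rw [abs_le] at *
    rw [abs_le] at *
    push_cast
    omega

end Q219.SAW.Std
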