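import Pool.Agent.Q219.SAW.FamP
import Pool.Agent.Q219.SAW.SprP
import Pool.Agent.TH303.SX2

/-!
# Self-avoiding walks in wedges
-/

set_option autoImplicit false

namespace Q219.SAW.Std

open Finset Filter Topology TH966.AK

theorem saw_walks (n : ℕ) : {ω | IsSAW sqSteps n ω} = Pool.Agent.H122R3.SX.walks n := by
  ext ω
  have key : ∀ x y : ℤ × ℤ, |x.1 - y.1| + |x.2 - y.2| = 1 ↔ y - x ∈ sqSteps := fun x y => by
    rw [Q219.SAW.Spr.mem_sq, abs_sub_comm x.1, abs_sub_comm x.2]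
    rfl
  constructor
  · rintro ⟨h1, h2, h3⟩
    exact ⟨h1, h3, fun i => (key _ _).2 (h2 i)⟩
  · rintro ⟨h1, h2, h3⟩
    exact ⟨h1, fun i => (key _ _).1 (h3 i), h2⟩

/-- the wedge `|x| ≤ η y` -/
theorem wedge_eta : ∃ K : ℝ, 0 ≤ K ∧ ∀ η : ℝ, 0 < η → η ≤ 1 → ∀ n : ℕ, 2 ≤ n → ∀ a m : ℕ,
    Real.exp (-(K / η * Real.log n ^ 3)) ≤
      prob sqSteps {x | |(x.1 : ℝ)| ≤ η * x.2} (Set.univ : Set (Pairs a m)) n := by
  obtain ⟨K, h⟩ := Pool.Agent.TH303.SX2.wedge_final
  refine ⟨max K 0, le_max_right _ _, ?_⟩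
  intro η hη hη1 n hn a m
  have h1 := h η hη hη1 n hn
  have hn0 : 0 ≤ Real.log n := Real.log_nonneg (by exact_mod_cast (show 1 ≤ n by omega))
  refine (Real.exp_le_exp.2 (neg_le_neg ?_)).trans (h1.trans (le_of_eq ?_))
  · exact mul_le_mul_of_nonneg_right (div_le_div_of_nonneg_right (le_max_left _ _) hη.le)
      (by positivity)
  · unfold prob c walks
    rw [← saw_walks]
    congr 3
    ext ω
    simp

/-- the four wedges, all lengths -/
theorem wedge_any : ∃ K : ℝ, 0 ≤ K ∧ ∀ n : ℕ, ∀ a m : ℕ,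
    Real.exp (-(K * Real.log (n + 2) ^ 3)) ≤
      prob sqSteps {x | 2 * |x.1| ≤ x.2} (Set.univ : Set (Pairs a m)) n ∧
    Real.exp (-(K * Real.log (n + 2) ^ 3)) ≤
      prob sqSteps {x | 2 * |x.1| ≤ -x.2} (Set.univ : Set (Pairs a m)) n ∧
    Real.exp (-(K * Real.log (n + 2) ^ 3)) ≤
      prob sqSteps {x | 2 * |x.2| ≤ x.1} (Set.univ : Set (Pairs a m)) n ∧
    Real.exp (-(K * Real.log (n + 2) ^ 3)) ≤
      prob sqSteps {x | 2 * |x.2| ≤ -x.1} (Set.univ : Set (Pairs a m)) n := by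
  obtain ⟨K, hK, h⟩ := wedge_eta
  have hLat : IsLat sqSteps 2 := Or.inl ⟨rfl, rfl⟩
  obtain ⟨C, hC⟩ : ∃ C : ℝ, C = c sqSteps 0 + c sqSteps 1 := ⟨_, rfl⟩
  have hc0 := c_pos hLat 0
  have hc1 := c_pos hLat 1
  have hC0 : 0 < C := by rw [hC]; positivity
  obtain ⟨M, hM⟩ : ∃ M : ℝ, M = 2 * K + |Real.log C| / Real.log 2 ^ 3 := ⟨_, rfl⟩
  have hl2 : 0 < Real.log 2 := Real.log_pos (by norm_num)
  have hM0 : 0 ≤ M := by rw [hM]; positivity
  have up : ∀ n a m : ℕ, Real.exp (-(M * Real.log (n + 2) ^ 3)) ≤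
      prob sqSteps {x | 2 * |x.1| ≤ x.2} (Set.univ : Set (Pairs a m)) n := by
    intro n a m
    have hn2 : Real.log 2 ≤ Real.log (n + 2) :=
      Real.log_le_log (by norm_num) (by have : (0 : ℝ) ≤ n := Nat.cast_nonneg n; linarith)
    by_cases hn : 2 ≤ n
    · have h1 := h (1 / 2) (by norm_num) (by norm_num) n hn a m
      have e : {x : ℤ × ℤ | |(x.1 : ℝ)| ≤ 1 / 2 * x.2} = {x : ℤ × ℤ | 2 * |x.1| ≤ x.2} := by
        ext x
        simp only [Set.mem_ofPred_eq]
        rw [← Int.cast_abs, ← @Int.cast_le ℝ]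
        push_cast
        constructor <;> intro h3 <;> linarith
      rw [e] at h1
      refine (Real.exp_le_exp.2 (neg_le_neg ?_)).trans h1
      have hn0 : 0 ≤ Real.log n := Real.log_nonneg (by exact_mod_cast (show 1 ≤ n by omega))
      have h4 : Real.log n ≤ Real.log (n + 2) :=
        Real.log_le_log (by exact_mod_cast (show 0 < n by omega)) (by linarith)
      have h5 := pow_le_pow_left₀ hn0 h4 3
      have h6 : K / (1 / 2) = 2 * K := by ring
      rw [h6]
      refine (mul_le_mul_of_nonneg_left h5 (by positivity)).trans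
        (mul_le_mul_of_nonneg_right ?_ (pow_nonneg (hl2.le.trans hn2) 3))
      rw [hM]
      have : 0 ≤ |Real.log C| / Real.log 2 ^ 3 := by positivity
      linarith
    · have h1 : (1 : ℝ) ≤ ((walks sqSteps {x | 2 * |x.1| ≤ x.2}
          (Set.univ : Set (Pairs a m)) n).ncard : ℝ) := by
        have hne : (walks sqSteps {x | 2 * |x.1| ≤ x.2}
          (Set.univ : Set (Pairs a m)) n).Nonempty := by
          refine ⟨fun i => (0, ((i : ℕ) : ℤ)), ⟨rfl, fun i => ?_, fun i j hij => ?_⟩,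
            fun i => ?_, Set.mem_univ _⟩
          · simp [sqSteps]
          · have h2 : ((i : ℕ) : ℤ) = ((j : ℕ) : ℤ) := congrArg Prod.snd hij
            exact Fin.ext (by exact_mod_cast h2)
          · simp
        have hf : (walks sqSteps {x | 2 * |x.1| ≤ x.2} (Set.univ : Set (Pairs a m)) n).Finite :=
          (finite hLat n).subset fun _ h => h.1
        exact_mod_cast (Set.ncard_pos hf).2 hne
      have h2 : c sqSteps n ≤ C := by
        rw [hC]
        have : n = 0 ∨ n = 1 := by omega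
        rcases this with rfl | rfl <;> linarith
      have h3 : 1 / C ≤ prob sqSteps {x | 2 * |x.1| ≤ x.2} (Set.univ : Set (Pairs a m)) n := by
        unfold prob
        exact div_le_div₀ (by positivity) h1 (c_pos hLat n) h2
      refine le_trans ?_ h3
      rw [one_div, ← Real.exp_log (inv_pos.2 hC0), Real.log_inv]
      refine Real.exp_le_exp.2 (neg_le_neg ?_)
      have h5 := pow_le_pow_left₀ hl2.le hn2 3
      calc Real.log C ≤ |Real.log C| := le_abs_self _
        _ = |Real.log C| / Real.log 2 ^ 3 * Real.log 2 ^ 3 := by field_simp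
        _ ≤ M * Real.log (n + 2) ^ 3 := by
          refine mul_le_mul ?_ h5 (by positivity) hM0
          rw [hM]
          linarith
  have hst : ∀ (e f : ℤ) (x y : ℤ × ℤ), (e = 1 ∨ e = -1) → (f = 1 ∨ f = -1) →
      x - y ∈ sqSteps → (e * x.1, f * x.2) - (e * y.1, f * y.2) ∈ sqSteps ∧
      (e * x.2, f * x.1) - (e * y.2, f * y.1) ∈ sqSteps := by
    intro e f x y he hf hxy
    unfold sqSteps at hxy ⊢
    simp only [Set.mem_insert_iff, Set.mem_singleton_iff, Prod.ext_iff, Prod.fst_sub,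
      Prod.snd_sub] at hxy ⊢
    rcases he with rfl | rfl <;> rcases hf with rfl | rfl <;> constructor <;> omega
  refine ⟨M, hM0, fun n a m => ⟨up n a m, ?_, ?_, ?_⟩⟩
  · refine (up n a m).trans ((le_of_eq ?_).trans (prob_symm (fun x => (1 * x.1, -1 * x.2)) (by simp)
      ?_ (fun x y hxy => (hst 1 (-1) x y (Or.inl rfl) (Or.inr rfl) hxy).1) _ n a m))
    · congr 1
      ext x
      simp
    · intro x y hxy
      simp only [one_mul, Prod.mk.injEq, neg_mul, neg_inj] at hxy
      exact Prod.ext hxy.1 hxy.2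
  · refine (up n a m).trans ((le_of_eq ?_).trans (prob_symm (fun x => (1 * x.2, 1 * x.1)) (by simp)
      ?_ (fun x y hxy => (hst 1 1 x y (Or.inl rfl) (Or.inl rfl) hxy).2) _ n a m))
    · congr 1
      ext x
      simp
    · intro x y hxy
      simp only [one_mul, Prod.mk.injEq] at hxy
      exact Prod.ext hxy.2 hxy.1
  · refine (up n a m).trans ((le_of_eq ?_).trans (prob_symm (fun x => (-1 * x.2, 1 * x.1)) (by simp)
      ?_ (fun x y hxy => (hst (-1) 1 x y (Or.inr rfl) (Or.inl rfl) hxy).2) _ n a m))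
    · congr 1
      ext x
      simp
    · intro x y hxy
      simp only [one_mul, Prod.mk.injEq, neg_mul, neg_inj] at hxy
      exact Prod.ext hxy.2 hxy.1

end Q219.SAW.Std
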