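import Pool.Agent.Q219.SAW.Cnt

/-!
# The part of the walk outside a window: counting the fillings
-/

set_option autoImplicit false

namespace Q219.SAW

open Finset Filter Topology TH966.AK
open scoped Classical

variable {A : P → P → Prop} {Z : Rule A}

/-- translation -/
def tr (x : P) (v : List P) : List P := v.map (fun p => p + x)

theorem tr_nodup {x : P} {v : List P} : (tr x v).Nodup ↔ v.Nodup := by
  unfold tr
  exact List.nodup_map_iff (add_left_injective x)

theorem tr_chain (hA : ∀ p q t : P, A (p + t) (q + t) ↔ A p q) {x : P} {v : List P} :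
    (tr x v).IsChain A ↔ v.IsChain A := by
  unfold tr
  rw [List.isChain_map]
  simp only [hA]

theorem tr_tr (x y : P) (v : List P) : tr x (tr y v) = tr (y + x) v := by
  unfold tr
  rw [List.map_map]
  congr 1
  funext p
  simp only [Function.comp]
  rw [add_assoc]

theorem tr_zero (v : List P) : tr 0 v = v := by
  unfold tr
  simp

/-- compatible outer parts -/
structure Good (A : P → P → Prop) (g0 : List P) (x y : P) (g1 : List P) : Prop where
  hd : Walk A (g0 ++ [x])
  nd : (y :: g1).Nodup
  ch : (y :: g1).IsChain A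
  dj : ∀ z ∈ g0 ++ [x], z ∉ y :: g1

/-- the free sites of the domain, seen from `x` -/
def Dom (D : Set P) (g0 : List P) (x : P) (g1 : List P) : Set P :=
  {z | z + x ∉ g0 ∧ z + x ∉ g1 ∧ z + x ∈ D}

theorem walk_split {a l m : ℕ} {w g0 g1 : List P} {x y : P} (hw : w.length = a + (l + 1) + m + 1)
    (h2 : w.take (a + 1) = g0 ++ [x]) (h3 : w.drop (a + (l + 1)) = y :: g1) :
    ∃ mid : List P, mid.length = l ∧ w = g0 ++ (x :: (mid ++ [y])) ++ g1 := by
  refine ⟨(w.drop (a + 1)).take l, ?_, ?_⟩
  · rw [List.length_take, List.length_drop, hw]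
    omega
  · have e1 : w = w.take (a + 1) ++ w.drop (a + 1) := (List.take_append_drop _ _).symm
    have e2 : w.drop (a + 1) = (w.drop (a + 1)).take l ++ (w.drop (a + 1)).drop l :=
      (List.take_append_drop _ _).symm
    rw [List.drop_drop] at e2
    have e3 : a + 1 + l = a + (l + 1) := by omega
    rw [e3, h3] at e2
    conv_lhs => rw [e1, h2, e2]
    simp

theorem good_of {a l m : ℕ} {w g0 g1 : List P} {x y : P} (hw : w ∈ Kw A (a + (l + 1) + m)) (Z : Rule A)
    (h2 : w.take (a + 1) = g0 ++ [x]) (h3 : w.drop (a + (l + 1)) = y :: g1) :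
    Good A g0 x y g1 := by
  rw [Z.mem_K] at hw
  obtain ⟨mid, hm, rfl⟩ := walk_split hw.1 h2 h3
  obtain ⟨hl, w1, w2, w3⟩ := hw
  have e : g0 ++ (x :: (mid ++ [y])) ++ g1 = (g0 ++ [x]) ++ (mid ++ (y :: g1)) := by simp
  rw [e] at w1 w2 w3
  have n1 := List.nodup_append.1 w2
  have n2 := List.nodup_append.1 n1.2.1
  refine ⟨⟨?_, n1.1, (List.isChain_append.1 w3).1⟩, n2.2.1, ?_, ?_⟩
  · rw [← w1]
    cases g0 <;> simp
  · exact (List.isChain_append.1 (List.isChain_append.1 w3).2.1).2.1
  · intro z hz hz'
    exact n1.2.2 z hz z (by simp only [List.mem_append]; exact Or.inr hz') rfl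

/-- the fillings are the translates of the walks in the free domain -/
theorem fill_eq (Z : Rule A) (hA : ∀ p q t : P, A (p + t) (q + t) ↔ A p q) {a l m : ℕ}
    {D : Set P} {g0 g1 : List P} {x y : P} (h0 : g0.length = a) (h1 : g1.length = m)
    (hg : Good A g0 x y g1) (hD0 : In D (g0 ++ [x])) (hD1 : In D (y :: g1)) :
    (((KD A D (a + (l + 1) + m)).filter (fun w => w.take (a + 1) = g0 ++ [x] ∧
      w.drop (a + (l + 1)) = y :: g1)).card : ℝ) =
      cD A (Dom D g0 x g1) (ind {y - x}) (l + 1) := by
  have h2 : cD A (Dom D g0 x g1) (ind {y - x}) (l + 1) =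
      (((KD A (Dom D g0 x g1) (l + 1)).filter (fun v => lst v = y - x)).card : ℝ) := by
    unfold cD ind
    simp only [Set.mem_singleton_iff]
    rw [← sum_filter, sum_const, nsmul_one]
  rw [h2]
  congr 1
  symm
  have hwalk := hg.hd
  refine Finset.card_bij (fun v _ => g0 ++ tr x v ++ g1) ?_ ?_ ?_
  · intro v hv
    rw [mem_filter, mem_KD (Z := Z)] at hv
    obtain ⟨⟨⟨v1, v2, v3, v4⟩, v5⟩, v6⟩ := hv
    obtain ⟨p, t, rfl⟩ := List.exists_cons_of_length_eq_add_one v1
    simp only [List.head?_cons, Option.some.injEq] at v2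
    subst v2
    have ht : t ≠ [] := by
      rintro rfl
      simp at v1
    obtain ⟨mid, z, rfl⟩ : ∃ mid z, t = mid ++ [z] := by
      rcases t.eq_nil_or_concat with h | ⟨mid, z, h⟩
      · exact absurd h ht
      · exact ⟨mid, z, by rw [h, List.concat_eq_append]⟩
    have hz : z = y - x := by
      rw [← v6]
      unfold lst
      rw [← List.cons_append, List.getLast?_concat, Option.getD_some]
    subst hz
    have hml : mid.length = l := by simpa using v1
    have e1 : tr x (0 :: (mid ++ [y - x])) = x :: (tr x mid ++ [y]) := by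
      unfold tr
      simp
    have hnd : (tr x (0 :: (mid ++ [y - x]))).Nodup := tr_nodup.2 v3
    have hch : (tr x (0 :: (mid ++ [y - x]))).IsChain A := (tr_chain hA).2 v4
    rw [e1] at hnd hch
    have hdis : ∀ z ∈ x :: (tr x mid ++ [y]), z ∉ g0 ∧ z ∉ g1 ∧ z ∈ D := by
      intro z hz
      rw [← e1] at hz
      unfold tr at hz
      rw [List.mem_map] at hz
      obtain ⟨u, hu, rfl⟩ := hz
      exact v5 u hu
    rw [mem_filter, mem_KD (Z := Z), e1]
    have e2 : g0 ++ (x :: (tr x mid ++ [y])) ++ g1 =
        (g0 ++ [x]) ++ (tr x mid ++ (y :: g1)) := by simp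
    refine ⟨⟨⟨?_, ?_, ?_, ?_⟩, ?_⟩, ?_, ?_⟩
    · simp only [List.length_append, List.length_cons, List.length_nil]
      unfold tr
      rw [List.length_map, hml, h0, h1]
      omega
    · rw [e2, ← hwalk.1]
      cases g0 <;> simp
    · rw [List.nodup_append, List.nodup_append]
      have hg0 : g0.Nodup := (List.nodup_append.1 hwalk.2.1).1
      have hg1 : g1.Nodup := (List.nodup_cons.1 hg.nd).2
      refine ⟨⟨hg0, hnd, ?_⟩, hg1, ?_⟩
      · intro z hz z' hz' hzz
        subst hzz
        exact (hdis z hz').1 hz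
      · intro z hz z' hz' hzz
        subst hzz
        rw [List.mem_append] at hz
        rcases hz with hz | hz
        · exact hg.dj z (by simp [hz]) (by simp [hz'])
        · exact (hdis z hz).2.1 hz'
    · have c1 : (g0 ++ (x :: (tr x mid ++ [y])) ++ g1) =
          g0 ++ x :: (tr x mid ++ y :: g1) := by simp
      rw [c1, List.isChain_split]
      refine ⟨hwalk.2.2, ?_⟩
      have c2 : x :: (tr x mid ++ y :: g1) = (x :: tr x mid) ++ y :: g1 := by simp
      rw [c2, List.isChain_split]
      refine ⟨?_, hg.ch⟩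
      simpa using hch
    · intro z hz
      rw [List.mem_append, List.mem_append] at hz
      rcases hz with (hz | hz) | hz
      · exact hD0 z (by simp [hz])
      · exact (hdis z hz).2.2
      · exact hD1 z (by simp [hz])
    · rw [e2, List.take_append_of_le_length (by simp [h0])]
      rw [List.take_of_length_le (by simp [h0])]
    · have e3 : g0 ++ (x :: (tr x mid ++ [y])) ++ g1 =
          (g0 ++ (x :: tr x mid)) ++ (y :: g1) := by simp
      have hlen : (g0 ++ (x :: tr x mid)).length = a + (l + 1) := by
        simp only [List.length_append, List.length_cons]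
        unfold tr
        rw [List.length_map, hml, h0]
      rw [e3, ← hlen, List.drop_left]
  · intro v hv v' hv' h
    have h3 := List.append_cancel_right h
    have h4 := List.append_cancel_left h3
    unfold tr at h4
    exact List.map_injective_iff.2 (add_left_injective x) h4
  · intro w hw
    rw [mem_filter, mem_KD (Z := Z)] at hw
    obtain ⟨⟨⟨w0, w1, w2, w3⟩, wD⟩, w4, w5⟩ := hw
    obtain ⟨mid, hm, rfl⟩ := walk_split w0 w4 w5
    have e1 : tr x (0 :: (tr (-x) mid ++ [y - x])) = x :: (mid ++ [y]) := by
      have : tr x (tr (-x) mid) = mid := by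
        rw [tr_tr, neg_add_cancel, tr_zero]
      have h3 : tr x (0 :: (tr (-x) mid ++ [y - x])) =
          x :: (tr x (tr (-x) mid) ++ [y]) := by
        simp only [tr, List.map_cons, List.map_append, List.map_nil, zero_add, sub_add_cancel]
      rw [h3, this]
    refine ⟨0 :: (tr (-x) mid ++ [y - x]), ?_, by rw [e1]⟩
    rw [mem_filter, mem_KD (Z := Z)]
    have n1 := List.nodup_append.1 w2
    have n2 := List.nodup_append.1 n1.1
    refine ⟨⟨⟨?_, ?_, ?_, ?_⟩, ?_⟩, ?_⟩
    · simp only [List.length_append, List.length_cons, List.length_nil]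
      unfold tr
      rw [List.length_map, hm]
    · simp
    · rw [← tr_nodup (x := x), e1]
      exact n2.2.1
    · rw [← tr_chain hA (x := x), e1]
      exact (List.isChain_append.1 (List.isChain_append.1 w3).1).2.1
    · intro z hz
      have hz' : z + x ∈ x :: (mid ++ [y]) := by
        rw [← e1]
        unfold tr
        rw [List.mem_map]
        exact ⟨z, hz, rfl⟩
      refine ⟨fun hc => ?_, fun hc => ?_, ?_⟩
      · exact n2.2.2 _ hc _ hz' rfl
      · exact n1.2.2 _ (by rw [List.mem_append]; exact Or.inr hz') _ hc rfl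
      · exact wD _ (by rw [List.mem_append, List.mem_append]; exact Or.inl (Or.inr hz'))
    · unfold lst
      rw [← List.cons_append, List.getLast?_concat, Option.getD_some]

end Q219.SAW
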